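import Pool.Agent.Full.Def.Build

/-!
# Labelled cycles

`B` is one cycle of `ν`, with four marked points `e j`; `lab` is constant along the cycle except at the
marked points: `lab (e j) = j - 1`, `lab (ν (e j)) = j`.  The marked points then are in the order
`e 0, e 1, e 2, e 3`, and the points between `e j` and `e (j + 1)` are those with the label `j`.
-/

set_option autoImplicit false

namespace Full.Geo
open Function Build

variable {α : Type*}

/-- a cycle with four marked points and labels -/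
structure LabCyc (ν : α → α) (B : Set α) (e : Fin 4 → α) (lab : α → Fin 4) : Prop where
  map : ∀ u ∈ B, ν u ∈ B
  cyc : ∀ u ∈ B, ∀ v ∈ B, ∃ k, ν^[k] u = v
  mem : ∀ j, e j ∈ B
  step : ∀ u ∈ B, (∀ j, u ≠ e j) → lab (ν u) = lab u
  lab_e : ∀ j, lab (e j) = j - 1
  lab_n : ∀ j, lab (ν (e j)) = j

namespace LabCyc
variable {ν : α → α} {B : Set α} {e : Fin 4 → α} {lab : α → Fin 4} (h : LabCyc ν B e lab)
include h

lemma iter_mem {u : α} (hu : u ∈ B) (k : ℕ) : ν^[k] u ∈ B := by
  induction k with
  | zero => exact hu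
  | succ k ih => rw [iterate_succ_apply']; exact h.map _ ih

lemma reach {u v : α} (hu : u ∈ B) (hv : v ∈ B) : ∃ k, 1 ≤ k ∧ ν^[k] u = v := by
  obtain ⟨k, hk⟩ := h.cyc (ν u) (h.map u hu) v hv
  exact ⟨k + 1, by omega, by rw [iterate_succ_apply]; exact hk⟩

lemma e_ne {i j : Fin 4} (hij : i ≠ j) : e i ≠ e j := by
  intro h1
  have h2 := h.lab_n i
  rw [h1, h.lab_n j] at h2
  exact hij h2.symm

lemma reach_e {u : α} (hu : u ∈ B) : ∃ k, 1 ≤ k ∧ ν^[k] u ∈ Set.range e := by
  obtain ⟨k, h1, h2⟩ := h.reach hu (h.mem 0)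
  exact ⟨k, h1, 0, h2.symm⟩

/-- the number of steps from `e j` to the next marked point -/
lemma lab_seg (j : Fin 4) : ∀ i, 1 ≤ i → i ≤ ret ν (Set.range e) (e j) → lab (ν^[i] (e j)) = j := by
  intro i hi
  induction i, hi using Nat.le_induction with
  | base => intro _; exact h.lab_n j
  | succ i hi ih =>
    intro h1
    have h2 := (ret_spec (h.reach_e (h.mem j))).2.2 i hi (by omega)
    rw [iterate_succ_apply', h.step _ (h.iter_mem (h.mem j) i) fun m h3 => h2 ⟨m, h3.symm⟩]
    exact ih (by omega)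

lemma next_e (j : Fin 4) : ν^[ret ν (Set.range e) (e j)] (e j) = e (j + 1) := by
  obtain ⟨h1, ⟨m, hm⟩, -⟩ := ret_spec (h.reach_e (h.mem j))
  have h2 := h.lab_seg j _ h1 le_rfl
  rw [← hm, h.lab_e] at h2
  rw [← hm, ← h2, sub_add_cancel]

/-- a point which is not marked and has the label `j` is between `e j` and `e (j + 1)` -/
lemma exists_of_lab {u : α} (hu : u ∈ B) (hu' : ∀ j, u ≠ e j) :
    ∃ i, 1 ≤ i ∧ i < ret ν (Set.range e) (e (lab u)) ∧ ν^[i] (e (lab u)) = u := by
  classical
  set j := lab u with hj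
  have hex : ∃ m, ν^[m] (e j) = u := h.cyc _ (h.mem j) _ hu
  set m := Nat.find hex with hm
  have hm1 : ν^[m] (e j) = u := Nat.find_spec hex
  have hm2 : ∀ i, i < m → ν^[i] (e j) ≠ u := fun i hi => Nat.find_min hex hi
  have hm0 : m ≠ 0 := by
    intro h0
    rw [h0] at hm1
    exact hu' j hm1.symm
  refine ⟨m, by omega, ?_, hm1⟩
  by_contra hlt
  rw [not_lt] at hlt
  set k := ret ν (Set.range e) (e j) with hk
  have hk1 : 1 ≤ k := (ret_spec (h.reach_e (h.mem j))).1
  have hk2 : ν^[k] (e j) = e (j + 1) := h.next_e j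
  -- from `e (j + 1)` the label `j` is reached only through `e j`
  have key : ∀ i, 1 ≤ i → (∀ i', 1 ≤ i' → i' < i → ν^[i'] (e (j + 1)) ≠ e j) →
      lab (ν^[i] (e (j + 1))) ≠ j := by
    intro i hi
    induction i, hi using Nat.le_induction with
    | base =>
      intro _ h1
      have h2 := h.lab_n (j + 1)
      rw [show ν^[1] (e (j + 1)) = ν (e (j + 1)) from rfl, h2] at h1
      have h3 : ∀ j : Fin 4, j + 1 ≠ j := by decide
      exact h3 j h1
    | succ i hi ih =>
      intro h1
      have h2 := ih fun i' h3 h4 => h1 i' h3 (by omega)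
      have h3 := h1 i hi (by omega)
      rw [iterate_succ_apply']
      by_cases h4 : ∀ m, ν^[i] (e (j + 1)) ≠ e m
      · rw [h.step _ (h.iter_mem (h.mem _) i) h4]
        exact h2
      · push Not at h4
        obtain ⟨m', h5⟩ := h4
        rw [h5, h.lab_n]
        rintro rfl
        exact h3 h5
  have hmk : m ≠ k := by
    intro h1
    rw [h1, hk2] at hm1
    exact hu' _ hm1.symm
  have h1 : ν^[m - k] (e (j + 1)) = u := by
    rw [← hk2, ← iterate_add_apply, show m - k + k = m by omega]
    exact hm1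
  have h2 : ∃ i', 1 ≤ i' ∧ i' < m - k ∧ ν^[i'] (e (j + 1)) = e j := by
    by_contra h3
    push Not at h3
    refine key (m - k) (by omega) h3 ?_
    rw [h1]
  obtain ⟨i', h3, h4, h5⟩ := h2
  refine hm2 (m - k - i') (by omega) ?_
  rw [← h5, ← iterate_add_apply, show m - k - i' + i' = m - k by omega]
  exact h1

/-- no repetition between two marked points -/
lemma seg_ne (j : Fin 4) {i : ℕ} (hi : 1 ≤ i) {p : ℕ} (hp : 1 ≤ p)
    (hip : i + p < ret ν (Set.range e) (e j)) : ν^[i + p] (e j) ≠ ν^[i] (e j) := by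
  intro h1
  set k := ret ν (Set.range e) (e j) with hk
  have h3 := (ret_spec (h.reach_e (h.mem j))).2
  have hper : ∀ a, ν^[i + p * a] (e j) = ν^[i] (e j) := by
    intro a
    induction a with
    | zero => rfl
    | succ a ih =>
      have h5 : ν^[p] (ν^[i] (e j)) = ν^[i] (e j) := by
        rw [← iterate_add_apply, add_comm p i]; exact h1
      rw [show i + p * (a + 1) = p + (i + p * a) by ring, iterate_add_apply, ih, h5]
  have h6 : ν^[i + (k - i) % p] (e j) = ν^[k] (e j) := by
    have h7 : k = (k - i) % p + (i + p * ((k - i) / p)) := by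
      have := Nat.mod_add_div (k - i) p
      omega
    conv_rhs => rw [h7, iterate_add_apply, hper, ← iterate_add_apply]
    rw [add_comm]
  have h8 : (k - i) % p < p := Nat.mod_lt _ hp
  refine h3.2 (i + (k - i) % p) (by omega) (by omega) ?_
  rw [h6]
  exact h3.1

/-- the parity of the number of steps between two marked points; `par` changes at every step except for
the step from `u0` -/
theorem parity {par : α → ℤ} {u0 : α} (hu0 : u0 ∈ B) (hu0' : ∀ j, u0 ≠ e j)
    (hp : ∀ u ∈ B, u ≠ u0 → (par (ν u) + par u) % 2 = 1) (hp0 : (par (ν u0) + par u0) % 2 = 0) (j : Fin 4) :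
    (par (e (j + 1)) + par (e j) + ret ν (Set.range e) (e j) + if lab u0 = j then 1 else 0) % 2 = 0 := by
  set k := ret ν (Set.range e) (e j) with hk
  -- without the point `u0`
  have key : ∀ (u : α), u ∈ B → ∀ m : ℕ, (∀ i, i < m → ν^[i] u ≠ u0) →
      (par (ν^[m] u) + par u + m) % 2 = 0 := by
    intro u hu m
    induction m with
    | zero =>
      intro _
      show (par u + par u + 0) % 2 = 0
      omega
    | succ m ih =>
      intro h1
      have h2 := ih fun i hi => h1 i (by omega)
      have h3 := hp _ (h.iter_mem hu m) (h1 m (by omega))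
      rw [iterate_succ_apply']
      push_cast
      omega
  by_cases hlab : lab u0 = j
  · rw [if_pos hlab]
    obtain ⟨i, h1, h2, h3⟩ := h.exists_of_lab hu0 hu0'
    rw [hlab] at h2 h3
    have h4 : ∀ i', i' < i → ν^[i'] (e j) ≠ u0 := by
      intro i' hi' h5
      rcases Nat.eq_zero_or_pos i' with h6 | h6
      · subst h6
        exact hu0' j h5.symm
      · refine h.seg_ne j h6 (p := i - i') (by omega) (by omega) ?_
        rw [show i' + (i - i') = i by omega, h3, h5]
    have h5 := key (e j) (h.mem j) i h4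
    have h6 : ∀ i', i' < k - i - 1 → ν^[i'] (ν u0) ≠ u0 := by
      intro i' hi' h7
      have h8 : ν^[i + (i' + 1)] (e j) = u0 := by
        rw [add_comm, iterate_add_apply, h3, iterate_succ_apply]
        exact h7
      exact h.seg_ne j h1 (p := i' + 1) (by omega) (by omega) (by rw [h8, h3])
    have h7 := key (ν u0) (h.map _ hu0) (k - i - 1) h6
    have h8 : ν^[k - i - 1] (ν u0) = e (j + 1) := by
      rw [← h.next_e j, ← h3, ← iterate_succ_apply, ← iterate_add_apply]
      congr 1
      omega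
    rw [h8] at h7
    rw [h3] at h5
    omega
  · rw [if_neg hlab]
    have h4 : ∀ i', i' < k → ν^[i'] (e j) ≠ u0 := by
      intro i' hi' h5
      rcases Nat.eq_zero_or_pos i' with h6 | h6
      · subst h6
        exact hu0' j h5.symm
      · have h7 := h.lab_seg j i' h6 hi'.le
        rw [h5] at h7
        exact hlab h7
    have h5 := key (e j) (h.mem j) k h4
    rw [h.next_e j] at h5
    omega

/-- the same when `par` changes at every step -/
theorem parity' {par : α → ℤ} (hp : ∀ u ∈ B, (par (ν u) + par u) % 2 = 1) (j : Fin 4) :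
    (par (e (j + 1)) + par (e j) + ret ν (Set.range e) (e j)) % 2 = 0 := by
  have key : ∀ (u : α), u ∈ B → ∀ m : ℕ, (par (ν^[m] u) + par u + m) % 2 = 0 := by
    intro u hu m
    induction m with
    | zero =>
      show (par u + par u + 0) % 2 = 0
      omega
    | succ m ih =>
      have h3 := hp _ (h.iter_mem hu m)
      rw [iterate_succ_apply']
      push_cast
      omega
  have h5 := key (e j) (h.mem j) (ret ν (Set.range e) (e j))
  rw [h.next_e j] at h5
  omega

/-- the number of steps between two marked points when the mark `3` is not counted -/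
lemma ret_three {Z : Set α} (hZ : ∀ u ∈ B, u ∉ Z) : ∀ j : Fin 4, j ≠ 3 →
    ret ν (Z ∪ Set.range fun i : Fin 3 => e i.castSucc) (e j) =
      ret ν (Set.range e) (e j) + if j = 2 then ret ν (Set.range e) (e 3) else 0 := by
  have hE : ∀ u ∈ B, (u ∈ Z ∪ Set.range fun i : Fin 3 => e i.castSucc) ↔ u ∈ Set.range e ∧ u ≠ e 3 := by
    intro u hu
    constructor
    · rintro (h1 | ⟨i, rfl⟩)
      · exact absurd h1 (hZ u hu)
      · have h0 : ∀ i : Fin 3, i.castSucc ≠ 3 := by decide
        exact ⟨⟨_, rfl⟩, h.e_ne (h0 i)⟩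
    · rintro ⟨⟨i, rfl⟩, h1⟩
      have h2 : i ≠ 3 := fun h3 => h1 (by rw [h3])
      right
      revert h2
      fin_cases i
      · intro _; exact ⟨0, rfl⟩
      · intro _; exact ⟨1, rfl⟩
      · intro _; exact ⟨2, rfl⟩
      · intro h2; exact absurd rfl h2
  intro j hj
  obtain ⟨h1, h2, h3⟩ := ret_spec (h.reach_e (h.mem j))
  set k := ret ν (Set.range e) (e j) with hk
  have h4 : ∀ i, 1 ≤ i → i < k → ν^[i] (e j) ∉ (Z ∪ Set.range fun i : Fin 3 => e i.castSucc) := by
    intro i hi hi' h5
    exact h3 i hi hi' ((hE _ (h.iter_mem (h.mem j) i)).1 h5).1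
  by_cases hj2 : j = 2
  · subst hj2
    rw [if_pos rfl]
    obtain ⟨h5, h6, h7⟩ := ret_spec (h.reach_e (h.mem 3))
    set k' := ret ν (Set.range e) (e 3) with hk'
    have h8 : ν^[k] (e 2) = e 3 := h.next_e 2
    have h9 : ∀ i, ν^[i + k] (e 2) = ν^[i] (e 3) := fun i => by rw [iterate_add_apply, h8]
    refine ret_eq (by omega) ?_ fun i hi hi' h10 => ?_
    · rw [add_comm, h9, hE _ (h.iter_mem (h.mem 3) _)]
      refine ⟨h6, ?_⟩
      rw [h.next_e 3]
      exact h.e_ne (by decide)
    · rcases lt_trichotomy i k with h11 | h11 | h11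
      · exact h4 i hi h11 h10
      · rw [h11, h8, hE _ (h.mem 3)] at h10
        exact h10.2 rfl
      · rw [show i = (i - k) + k by omega, h9, hE _ (h.iter_mem (h.mem 3) _)] at h10
        exact h7 (i - k) (by omega) (by omega) h10.1
  · rw [if_neg hj2, add_zero]
    refine ret_eq h1 ?_ h4
    rw [hE _ (h.iter_mem (h.mem j) _)]
    refine ⟨h2, ?_⟩
    rw [h.next_e j]
    have h0 : ∀ j : Fin 4, j ≠ 3 → ¬ j = 2 → j + 1 ≠ 3 := by decide
    exact h.e_ne (h0 j hj hj2)

/-- the marked points are in the cyclic order `e 0, e 1, e 2, e 3` -/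
theorem order : ∃ a b c : ℕ, 0 < a ∧ a < b ∧ b < c ∧ c < minimalPeriod ν (e 0) ∧
    ν^[a] (e 0) = e 1 ∧ ν^[b] (e 0) = e 2 ∧ ν^[c] (e 0) = e 3 := by
  obtain ⟨a1, a2, a3⟩ := ret_spec (h.reach_e (h.mem 0))
  obtain ⟨b1, b2, b3⟩ := ret_spec (h.reach_e (h.mem 1))
  obtain ⟨c1, c2, c3⟩ := ret_spec (h.reach_e (h.mem 2))
  have a4 : ν^[ret ν (Set.range e) (e 0)] (e 0) = e 1 := h.next_e 0
  have b4 : ν^[ret ν (Set.range e) (e 1)] (e 1) = e 2 := h.next_e 1
  have c4 : ν^[ret ν (Set.range e) (e 2)] (e 2) = e 3 := h.next_e 2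
  set a := ret ν (Set.range e) (e 0)
  set b := ret ν (Set.range e) (e 1)
  set c := ret ν (Set.range e) (e 2)
  have b5 : ∀ i, ν^[i + a] (e 0) = ν^[i] (e 1) := fun i => by rw [iterate_add_apply, a4]
  have c5 : ∀ i, ν^[i + (a + b)] (e 0) = ν^[i] (e 2) := fun i => by
    rw [show i + (a + b) = (i + b) + a by ring, b5, iterate_add_apply, b4]
  refine ⟨a, a + b, a + b + c, a1, by omega, by omega, ?_, a4, ?_, ?_⟩
  · have hper : 0 < minimalPeriod ν (e 0) := by
      obtain ⟨k, h1, h2⟩ := h.reach (h.mem 0) (h.mem 0)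
      exact minimalPeriod_pos_of_mem_periodicPts ⟨k, h1, h2⟩
    have hret : ν^[minimalPeriod ν (e 0)] (e 0) = e 0 := iterate_minimalPeriod
    by_contra hlt
    rw [not_lt] at hlt
    set P := minimalPeriod ν (e 0)
    rcases lt_trichotomy P a with h1 | h1 | h1
    · exact a3 P hper h1 ⟨0, hret.symm⟩
    · rw [h1, a4] at hret
      exact h.e_ne (by decide) hret
    · rcases lt_trichotomy P (a + b) with h2 | h2 | h2
      · refine b3 (P - a) (by omega) (by omega) ⟨0, ?_⟩
        rw [← b5, show P - a + a = P by omega, hret]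
      · rw [h2, add_comm, b5, b4] at hret
        exact h.e_ne (by decide) hret
      · rcases lt_or_eq_of_le hlt with h3 | h3
        · refine c3 (P - (a + b)) (by omega) (by omega) ⟨0, ?_⟩
          rw [← c5, show P - (a + b) + (a + b) = P by omega, hret]
        · rw [h3, show a + b + c = c + (a + b) by ring, c5, c4] at hret
          exact h.e_ne (by decide) hret
  · rw [add_comm, b5, b4]
  · rw [show a + b + c = c + (a + b) by ring, c5, c4]

end LabCyc

/-- the marks are in the order required by `Cyc4` -/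
theorem LabCyc.cyc4 {τ : Type*} {g : Half τ → Half τ} {B : Set (Half τ)} {e : Fin 4 → Half τ}
    {lab : Half τ → Fin 4} (h : LabCyc (next g) B e lab) : Cyc4 g e := h.order

end Full.Geo
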