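import Pool.Agent.Full.Geo.Part

/-!
# Shapes: the slab of a room

`S.zslab hS hs hd q` is the `Slab` of the room `q`; `hd` says that the rooms form a tree (`part_disj`).
-/

set_option autoImplicit false

open Function Relation

namespace Full
namespace Shape
variable {S : Shape} {n : ℕ} {s : S.Q × Bool → ℕ}

/-- the rooms form a tree -/
def Tree (S : Shape) : Prop := ∀ q : S.Q, Disjoint (S.part q false) (S.part q true)

theorem tree_of_sc (hS : S.Ok) (hs : S.Small2 n s) (hsc : SC (S.T n s) (plane.glue (S.T n s))) : S.Tree :=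
  fun q => part_disj_of_sc hS hs hsc q

section
variable (hS : S.Ok) (hs : S.Small2 n s) (hd : S.Tree)
include hS hs hd

/-- a room of the lower part which is near `q` is directly below `q` -/
lemma near_low {q p : S.Q} (hp : p ∈ S.part q false) {t u : ℤ × ℤ} (ht : t ∈ S.room n s q) (hu : u ∈ S.room n s p)
    (h1 : u.1 - t.1 ≤ 3) (h2 : t.1 - u.1 ≤ 3) (h3 : u.2 - t.2 ≤ 3) (h4 : t.2 - u.2 ≤ 3) : S.On p q := by
  rcases nb_room' hS hs ht hu h1 h2 h3 h4 with rfl | h | h
  · exact absurd hp (not_mem_part _ _)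
  · exact absurd (part_of_on h) (Set.disjoint_left.1 (hd q) hp)
  · exact h

/-- a room of the upper part which is near `q` is directly above `q` -/
lemma near_up {q p : S.Q} (hp : p ∈ S.part q true) {t u : ℤ × ℤ} (ht : t ∈ S.room n s q) (hu : u ∈ S.room n s p)
    (h1 : u.1 - t.1 ≤ 3) (h2 : t.1 - u.1 ≤ 3) (h3 : u.2 - t.2 ≤ 3) (h4 : t.2 - u.2 ≤ 3) : S.On q p := by
  rcases nb_room' hS hs ht hu h1 h2 h3 h4 with rfl | h | h
  · exact absurd hp (not_mem_part _ _)
  · exact h
  · exact absurd (part_of_on' h) (Set.disjoint_right.1 (hd q) hp)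

omit hd in
/-- a tile near the room `q` is near a tile of `q` -/
lemma exists_near (q : S.Q) {i j : ℤ} (h1 : S.fl n s q - 3 ≤ i) (h2 : i ≤ S.fr n s q + 2)
    (h3 : S.fb n q - 3 ≤ j) (h4 : j ≤ S.ft n q + 2) : ∃ t ∈ S.room n s q,
      i - t.1 ≤ 3 ∧ t.1 - i ≤ 3 ∧ j - t.2 ≤ 3 ∧ t.2 - j ≤ 3 := by
  have h5 := fl_lt_fr hS hs q
  have h6 := fb_lt_ft (n := n) hS hs.1 q
  refine ⟨(max (S.fl n s q) (min i (S.fr n s q - 1)), max (S.fb n q) (min j (S.ft n q - 1))),
    mem_room.2 ?_, ?_⟩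
  · simp only
    omega
  · simp only
    omega

/-- the lower part has no tiles near the room `q`, except below its floor -/
theorem side_low_near (q : S.Q) {i j : ℤ} (h1 : S.fl n s q - 3 ≤ i) (h2 : i ≤ S.fr n s q + 2)
    (h3 : S.fb n q ≤ j) (h4 : j ≤ S.ft n q + 2) : (i, j) ∉ S.side n s q false := by
  rw [mem_side]
  rintro ⟨p, hp, hu⟩
  obtain ⟨t, ht, h5, h6, h7, h8⟩ := exists_near hS hs q h1 h2 (by omega) h4
  have h9 := on_ft (n := n) hS (near_low hS hs hd hp ht hu h5 h6 h7 h8)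
  rw [mem_room] at hu
  simp only at hu
  omega

/-- the upper part has no tiles near the room `q`, except above its ceiling -/
theorem side_up_near (q : S.Q) {i j : ℤ} (h1 : S.fl n s q - 3 ≤ i) (h2 : i ≤ S.fr n s q + 2)
    (h3 : S.fb n q - 3 ≤ j) (h4 : j < S.ft n q) : (i, j) ∉ S.side n s q true := by
  rw [mem_side]
  rintro ⟨p, hp, hu⟩
  obtain ⟨t, ht, h5, h6, h7, h8⟩ := exists_near hS hs q h1 h2 h3 (by omega)
  have h9 := on_ft (n := n) hS (near_up hS hs hd hp ht hu h5 h6 h7 h8)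
  rw [mem_room] at hu
  simp only at hu
  omega

theorem slab_hL (q : S.Q) (i j : ℤ) (h1 : S.fl n s q - 1 ≤ i) (h2 : i ≤ S.fr n s q + 1) (h3 : S.fb n q ≤ j)
    (h4 : j ≤ S.ft n q) : (i, j) ∉ S.side n s q false :=
  side_low_near hS hs hd q (by omega) (by omega) h3 (by omega)

theorem slab_hU (q : S.Q) (i j : ℤ) (h1 : S.fl n s q - 1 ≤ i) (h2 : i ≤ S.fr n s q) (h3 : S.fb n q - 1 ≤ j)
    (h4 : j < S.ft n q) : (i, j) ∉ S.side n s q true :=
  side_up_near hS hs hd q (by omega) (by omega) (by omega) h4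

end

/-- the slab of the room `q` -/
noncomputable def zslab (hS : S.Ok) (hs : S.Small2 n s) (hd : S.Tree) (q : S.Q) : Slab where
  L := S.side n s q false
  U := S.side n s q true
  l := S.fl n s q
  r := S.fr n s q
  b := S.fb n q
  t := S.ft n q
  hlr := by have := fl_lt_fr hS hs q; omega
  hL := slab_hL hS hs hd q
  hU := slab_hU hS hs hd q

section
variable (hS : S.Ok) (hs : S.Small2 n s) (hd : S.Tree) (q : S.Q)

@[simp] lemma zslab_L : (S.zslab hS hs hd q).L = S.side n s q false := rfl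
@[simp] lemma zslab_U : (S.zslab hS hs hd q).U = S.side n s q true := rfl
@[simp] lemma zslab_l : (S.zslab hS hs hd q).l = S.fl n s q := rfl
@[simp] lemma zslab_r : (S.zslab hS hs hd q).r = S.fr n s q := rfl
@[simp] lemma zslab_b : (S.zslab hS hs hd q).b = S.fb n q := rfl
@[simp] lemma zslab_t : (S.zslab hS hs hd q).t = S.ft n q := rfl

theorem zT_eq (y : ℤ) : S.zT n s q y = (S.zslab hS hs hd q).T y := rfl

theorem zg_eq (x y : ℤ) : S.zg n s q x y = (S.zslab hS hs hd q).go x y := rfl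

theorem zz_eq (x y : ℤ) : zz x y = Slab.z x y := rfl

end

end Shape
end Full
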