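import Pool.Agent.Full.Geo.Free
import Pool.Agent.Full.Geo.Slab
import Pool.Agent.Full.Disc.SlabNext

/-!
# Shapes: the domains are simply connected

* `Shape.sc` : the fine region is simply connected; `Shape.tree`;
* `Shape.noHole_low`, `Shape.noHole_up`, `Shape.sc_low`, `Shape.sc_up` : the two sheets of the domain of `z`;
* `Shape.scz` : the domain of `z` is simply connected relative to `z`;
* `Shape.next_z`, `Shape.cycle_z'` : its boundary.
-/

set_option autoImplicit false

open Function Relation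

namespace Full
namespace Shape

variable {S : Shape} {n : ℕ} {s : S.Q × Bool → ℕ}

/-- **the fine region is simply connected** -/
theorem sc (hS : S.Ok) (hs : S.Small2 n s) : SC (S.T n s) (plane.glue (S.T n s)) :=
  plane_sc (noHole hS hs)

/-- the shape is a tree -/
theorem tree (hS : S.Ok) : S.Tree :=
  tree_of_sc (n := 8) (s := fun _ => 0) hS ⟨le_rfl, fun _ => by norm_num⟩
    (sc hS ⟨le_rfl, fun _ => by norm_num⟩)

/-- two horizontally neighbouring tiles are in the same room -/
lemma row_room (hS : S.Ok) (hs : S.Small2 n s) {a b : S.Q} {i j : ℤ} (ha : (i, j) ∈ S.room n s a)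
    (hb : (i + 1, j) ∈ S.room n s b) : a = b := by
  rcases nb_room hS hs ha hb (by simp) (by simp) with h | h | h
  · exact h
  · exfalso
    have h1 := on_ft (n := n) hS h
    rw [mem_room] at ha hb
    omega
  · exfalso
    have h1 := on_ft (n := n) hS h
    rw [mem_room] at ha hb
    omega

/-- **the upper sheet has no holes** -/
theorem noHole_up (hS : S.Ok) (hs : S.Small2 n s) (q : S.Q) {y : ℤ} (h3 : S.fb n q ≤ y) :
    Disc.NoHole ((S.side n s q true ∪ box (S.fl n s q) (S.fr n s q) y (S.ft n q) : Finset (ℤ × ℤ)) :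
      Set (ℤ × ℤ)) := by
  refine Disc.noHole_rows (noHole hS hs) ?_ ?_
  · rintro ⟨i, j⟩ h
    rw [Finset.mem_coe, Finset.mem_union, mem_side, mem_box] at h
    rw [Finset.mem_coe, mem_T]
    rcases h with ⟨p, -, h⟩ | h
    · exact ⟨p, h⟩
    · exact ⟨q, by rw [mem_room]; exact ⟨h.1, by omega, h.2.2⟩⟩
  · intro i j h h'
    rw [Finset.mem_coe, Finset.mem_union, mem_side, mem_box] at h ⊢
    rw [mem_T] at h'
    obtain ⟨p', hp'⟩ := h'
    rcases h with ⟨p, hp, h⟩ | h
    · obtain rfl := row_room hS hs hp' h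
      exact Or.inl ⟨_, hp, hp'⟩
    · have h5 : (i + 1, j) ∈ S.room n s q := by
        rw [mem_room]; exact ⟨h.1, by omega, h.2.2⟩
      obtain rfl := row_room hS hs hp' h5
      rw [mem_room] at hp'
      exact Or.inr ⟨hp'.1, h.2⟩

/-- **the lower sheet has no holes**: it is a part of the shape with the right wall of `q` shifted -/
theorem noHole_low (hS : S.Ok) (hs : S.Small n s) (q : S.Q) {y : ℤ} (h3 : y ≤ S.ft n q) :
    Disc.NoHole ((S.side n s q false ∪ box (S.fl n s q) (S.fr n s q + 1) (S.fb n q) y :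
      Finset (ℤ × ℤ)) : Set (ℤ × ℤ)) := by
  classical
  set s' : S.Q × Bool → ℕ := Function.update s (q, true) (s (q, true) + 1) with hs'
  have h2 : S.Small2 n s' := by
    refine hs.succ fun v => ?_
    by_cases hv : v = (q, true)
    · rw [hv, hs', Function.update_self]
    · rw [hs', Function.update_of_ne hv]; omega
  have efl : S.fl n s' q = S.fl n s q := by
    unfold fl
    rw [hs', Function.update_of_ne (by simp)]
  have efr : S.fr n s' q = S.fr n s q + 1 := by
    unfold fr
    rw [hs', Function.update_self]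
    push_cast
    ring
  have eroom : ∀ p, p ≠ q → S.room n s' p = S.room n s p := by
    intro p hp
    unfold room fl fr
    rw [hs', Function.update_of_ne (by simp),
      Function.update_of_ne (by simpa using hp)]
  have hne : ∀ p, p ∈ S.part q false → p ≠ q := by
    rintro p hp rfl
    exact not_mem_part p false hp
  refine Disc.noHole_rows (noHole hS h2) ?_ ?_
  · rintro ⟨i, j⟩ h
    rw [Finset.mem_coe, Finset.mem_union, mem_side, mem_box] at h
    rw [Finset.mem_coe, mem_T]
    rcases h with ⟨p, hp, h⟩ | h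
    · exact ⟨p, by rw [eroom p (hne p hp)]; exact h⟩
    · exact ⟨q, by rw [mem_room, efl, efr]; exact ⟨h.1, h.2.1, by dsimp only; omega⟩⟩
  · intro i j h h'
    rw [Finset.mem_coe, Finset.mem_union, mem_side, mem_box] at h ⊢
    rw [mem_T] at h'
    obtain ⟨p', hp'⟩ := h'
    rcases h with ⟨p, hp, h⟩ | h
    · have h5 : (i + 1, j) ∈ S.room n s' p := by rw [eroom p (hne p hp)]; exact h
      obtain rfl := row_room hS h2 hp' h5
      rw [eroom _ (hne _ hp)] at hp'
      exact Or.inl ⟨_, hp, hp'⟩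
    · have h5 : (i + 1, j) ∈ S.room n s' q := by
        rw [mem_room, efl, efr]; exact ⟨h.1, h.2.1, by dsimp only; omega⟩
      obtain rfl := row_room hS h2 hp' h5
      rw [mem_room, efl, efr] at hp'
      exact Or.inr ⟨hp'.1, h.2⟩

theorem sc_up (hS : S.Ok) (hs : S.Small2 n s) (q : S.Q) {y : ℤ} (h3 : S.fb n q ≤ y) :
    SC (S.side n s q true ∪ box (S.fl n s q) (S.fr n s q) y (S.ft n q))
      (plane.glue (S.side n s q true ∪ box (S.fl n s q) (S.fr n s q) y (S.ft n q))) :=
  plane_sc (noHole_up hS hs q h3)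

theorem sc_low (hS : S.Ok) (hs : S.Small n s) (q : S.Q) {y : ℤ} (h3 : y ≤ S.ft n q) :
    SC (S.side n s q false ∪ box (S.fl n s q) (S.fr n s q + 1) (S.fb n q) y)
      (plane.glue (S.side n s q false ∪ box (S.fl n s q) (S.fr n s q + 1) (S.fb n q) y)) :=
  plane_sc (noHole_low hS hs q h3)

/-- **the two-sheet domain of `z` is simply connected relative to `z`** -/
theorem scz (hS : S.Ok) (hs : S.Small n s) (q : S.Q) {x y : ℤ} (h1 : S.fl n s q ≤ x)
    (h2 : x ≤ S.fr n s q) (h3 : S.fb n q < y) (h4 : y < S.ft n q) :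
    SCz (S.zT n s q y) (S.zg n s q x y) (zz x y) :=
  Slab.scz_go (D := S.zslab hS hs.two (tree hS) q) (noHole_low hS hs q h4.le)
    (noHole_up hS hs.two q h3.le) h3 h4 h1 h2

/-- the end `z` is alone on its boundary cycle -/
theorem next_z (hS : S.Ok) (hs : S.Small2 n s) (q : S.Q) {x y : ℤ} (h1 : S.fl n s q < x)
    (h2 : x < S.fr n s q) (h3 : S.fb n q < y) (h4 : y < S.ft n q) :
    next (S.zg n s q x y) (zz x y) = zz x y :=
  Slab.next_z (D := S.zslab hS hs (tree hS) q) h3 h4.le h1 h2
    (Slab.mem_TU_row (D := S.zslab hS hs (tree hS) q) h4 (show S.fl n s q ≤ x - 1 by omega)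
      (show x - 1 < S.fr n s q by omega))
    (Slab.mem_TU_row (D := S.zslab hS hs (tree hS) q) h4 h1.le h2)

/-- the other boundary half edges are on one cycle -/
theorem cycle_z' (hS : S.Ok) (hs : S.Small n s) (q : S.Q) {x y : ℤ} (h1 : S.fl n s q ≤ x)
    (h2 : x ≤ S.fr n s q) (h3 : S.fb n q < y) (h4 : y < S.ft n q) {u v : Half ZT}
    (hu : Bd (S.zT n s q y) (S.zg n s q x y) u) (hv : Bd (S.zT n s q y) (S.zg n s q x y) v)
    (hu' : u ≠ zz x y) (hv' : v ≠ zz x y)
    (h : TConn (S.zT n s q y) (S.zg n s q x y) u.1 v.1) :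
    ∃ k, (next (S.zg n s q x y))^[k] u = v :=
  Slab.cycle_z (D := S.zslab hS hs.two (tree hS) q) h1 h2 (scz hS hs q h1 h2 h3 h4) hu hv hu' hv' h

end Shape
end Full
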