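import Pool.Agent.Full.Geo.Slab
import Pool.Agent.Full.Disc.Next

/-!
# Shapes: connectedness of the fine region and of the two-sheet domains

* `Shape.tconn` : the fine region is connected;
* `Shape.tconn_z` : the domain with an interior end is connected; also each of its two sheets
  (`tconn_low`, `tconn_up`).
-/

set_option autoImplicit false

open Function Relation

namespace Full

/-- an equivalence relation which joins neighbouring tiles of the set `A` -/
structure Lk (A : Set (ℤ × ℤ)) (R : ℤ × ℤ → ℤ × ℤ → Prop) : Prop where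
  refl : ∀ t, R t t
  symm : ∀ {t u}, R t u → R u t
  trans : ∀ {t u v}, R t u → R u v → R t v
  h : ∀ i j : ℤ, (i, j) ∈ A → (i + 1, j) ∈ A → R (i, j) (i + 1, j)
  v : ∀ i j : ℤ, (i, j) ∈ A → (i, j + 1) ∈ A → R (i, j) (i, j + 1)

namespace Lk
variable {A : Set (ℤ × ℤ)} {R : ℤ × ℤ → ℤ × ℤ → Prop}

/-- the tiles of a box are joined -/
theorem box (L : Lk A R) {a b c d : ℤ} (hA : ∀ i j, a ≤ i → i < b → c ≤ j → j < d → (i, j) ∈ A)
    {i j i' j' : ℤ} (h1 : a ≤ i) (h2 : i < b) (h3 : c ≤ j) (h4 : j < d)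
    (h1' : a ≤ i') (h2' : i' < b) (h3' : c ≤ j') (h4' : j' < d) : R (i, j) (i', j') := by
  have k1 : ∀ i : ℤ, a ≤ i → i < b → ∀ j, c ≤ j → j < d → R (a, j) (i, j) := by
    intro i hi
    induction i, hi using Int.leInduction with
    | base => intro _ _ _ _; exact L.refl _
    | succ i hi ih =>
      intro hi' j hj hj'
      exact L.trans (ih (by omega) j hj hj') (L.h i j (hA _ _ hi (by omega) hj hj')
        (hA _ _ (by omega) hi' hj hj'))
  have k2 : ∀ j : ℤ, c ≤ j → j < d → R (a, c) (a, j) := by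
    intro j hj
    induction j, hj using Int.leInduction with
    | base => intro _; exact L.refl _
    | succ j hj ih =>
      intro hj'
      exact L.trans (ih (by omega)) (L.v a j (hA _ _ le_rfl (by omega) hj (by omega))
        (hA _ _ le_rfl (by omega) (by omega) hj'))
  have k3 : ∀ i j, a ≤ i → i < b → c ≤ j → j < d → R (a, c) (i, j) := fun i j h1 h2 h3 h4 =>
    L.trans (k2 j h3 h4) (k1 i h1 h2 j h3 h4)
  exact L.trans (L.symm (k3 i j h1 h2 h3 h4)) (k3 i' j' h1' h2' h3' h4')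

end Lk

theorem tconn_trans {τ : Type*} {T : Finset τ} {g : Half τ → Half τ} {a b c : τ} (h : TConn T g a b)
    (h' : TConn T g b c) : TConn T g a c := ReflTransGen.trans h h'

/-- one step of a chain of tiles of a surface -/
theorem Surf.tconn_step {τ : Type*} [DecidableEq τ] {S : Surf τ} {T : Finset τ} {t t' : τ} (d : Dir)
    (h : S.nb d t = some t') (ht : t ∈ T) (ht' : t' ∈ T) : TConn T (S.glue T) t t' :=
  ReflTransGen.single ⟨(t, d), rfl, ht, by rw [Surf.glue_of_mem (by rw [h]; rfl) ht ht']⟩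

theorem lk_plane (T : Finset (ℤ × ℤ)) : Lk (T : Set (ℤ × ℤ)) (TConn T (plane.glue T)) where
  refl _ := ReflTransGen.refl
  symm h := (plane.glu T).tconn_symm h
  trans := tconn_trans
  h i j h1 h2 := Surf.tconn_step .E (by rw [nb_plane]; simp [Dir.vec]) h1 h2
  v i j h1 h2 := Surf.tconn_step .N (by rw [nb_plane]; simp [Dir.vec]) h1 h2

namespace Shape

variable {S : Shape} {n : ℕ} {s : S.Q × Bool → ℕ}

section
variable {A : Set (ℤ × ℤ)} {R : ℤ × ℤ → ℤ × ℤ → Prop} (L : Lk A R)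
include L

/-- the tiles of a room are joined -/
theorem lk_room {q : S.Q} (hq : ∀ t ∈ S.room n s q, t ∈ A) {t u : ℤ × ℤ} (ht : t ∈ S.room n s q)
    (hu : u ∈ S.room n s q) : R t u := by
  obtain ⟨i, j⟩ := t
  obtain ⟨i', j'⟩ := u
  rw [mem_room] at ht hu
  exact L.box (fun i j h1 h2 h3 h4 => hq _ (mem_room.2 ⟨⟨h1, h2⟩, h3, h4⟩)) ht.1.1 ht.1.2 ht.2.1 ht.2.2
    hu.1.1 hu.1.2 hu.2.1 hu.2.2

variable (hS : S.Ok) (hs : S.Small2 n s)
include hS hs

/-- two rooms on top of each other are joined -/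
theorem lk_on {a b : S.Q} (ha : ∀ t ∈ S.room n s a, t ∈ A) (hb : ∀ t ∈ S.room n s b, t ∈ A)
    (h : S.On a b ∨ S.On b a) {t u : ℤ × ℤ} (ht : t ∈ S.room n s a) (hu : u ∈ S.room n s b) : R t u := by
  rcases h with h | h
  · obtain ⟨i, h1, h2⟩ := on_col hS hs h
    have h3 := L.v i (S.ft n a - 1) (ha _ h1) (by rw [sub_add_cancel]; exact hb _ h2)
    rw [sub_add_cancel] at h3
    exact L.trans (lk_room L ha ht h1) (L.trans h3 (lk_room L hb h2 hu))
  · obtain ⟨i, h1, h2⟩ := on_col hS hs h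
    have h3 := L.v i (S.ft n b - 1) (hb _ h1) (by rw [sub_add_cancel]; exact ha _ h2)
    rw [sub_add_cancel] at h3
    exact L.trans (lk_room L ha ht h2) (L.trans (L.symm h3) (lk_room L hb h1 hu))

/-- the tiles of the rooms of a part are joined to the tiles of the room where it is attached -/
theorem lk_part {q : S.Q} {b : Bool} (hp : ∀ p ∈ S.part q b, ∀ t ∈ S.room n s p, t ∈ A)
    {t : ℤ × ℤ} (ht : t ∈ S.side n s q b) :
    ∃ a, (if b then S.On q a else S.On a q) ∧ a ∈ S.part q b ∧ ∀ u ∈ S.room n s a, R t u := by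
  obtain ⟨p, ⟨a, h1, h2⟩, h3⟩ := mem_side.1 ht
  have ha : a ∈ S.part q b := ⟨a, h1, .refl⟩
  refine ⟨a, h1, ha, fun u hu => ?_⟩
  have key : ∀ p, ReflTransGen (fun u v => v ≠ q ∧ (S.On u v ∨ S.On v u)) a p →
      p ∈ S.part q b ∧ ∀ t ∈ S.room n s p, R t u := by
    intro p h
    induction h with
    | refl => exact ⟨ha, fun t ht => lk_room L (hp a ha) ht hu⟩
    | @tail c d _ h5 ih =>
      have hd : d ∈ S.part q b := part_step ih.1 h5.1 h5.2
      refine ⟨hd, fun t ht => ?_⟩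
      have hc0 : (S.fl n s c, S.fb n c) ∈ S.room n s c := by
        rw [mem_room]
        have e1 := fl_lt_fr hS hs c
        have e2 := fb_lt_ft (n := n) hS hs.1 c
        refine ⟨⟨le_rfl, ?_⟩, le_rfl, ?_⟩
        · dsimp only; omega
        · dsimp only; omega
      exact L.trans (lk_on L hS hs (hp d hd) (hp c ih.1) h5.2.symm ht hc0) (ih.2 _ hc0)
  exact (key p h2).2 t h3

end

section
variable (hS : S.Ok) (hs : S.Small2 n s)
include hS hs

/-- **the fine region is connected** -/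
theorem tconn {t u : ℤ × ℤ} (ht : t ∈ S.T n s) (hu : u ∈ S.T n s) :
    TConn (S.T n s) (plane.glue (S.T n s)) t u := by
  have L := lk_plane (S.T n s)
  obtain ⟨p, hp⟩ := mem_T.1 ht
  obtain ⟨q, hq⟩ := mem_T.1 hu
  have hA : ∀ a : S.Q, ∀ t ∈ S.room n s a, t ∈ (S.T n s : Set (ℤ × ℤ)) := fun a t h =>
    Finset.mem_coe.2 (mem_T.2 ⟨a, h⟩)
  have key : ∀ q, ReflTransGen (fun u v => S.On u v ∨ S.On v u) p q →
      ∀ u ∈ S.room n s q, TConn (S.T n s) (plane.glue (S.T n s)) t u := by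
    intro q h
    induction h with
    | refl => exact fun u hu => lk_room L (hA p) hp hu
    | @tail c d _ h5 ih =>
      intro u hu
      have hc0 : (S.fl n s c, S.fb n c) ∈ S.room n s c := by
        rw [mem_room]
        have e1 := fl_lt_fr hS hs c
        have e2 := fb_lt_ft (n := n) hS hs.1 c
        refine ⟨⟨le_rfl, ?_⟩, le_rfl, ?_⟩
        · dsimp only; omega
        · dsimp only; omega
      exact L.trans (ih _ hc0) (lk_on L hS hs (hA c) (hA d) h5 hc0 hu)
  exact key q (hS.conn p q) u hq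

end

/-! ### the two sheets -/

lemma mem_zT_low {q : S.Q} {y i j : ℤ} : (Sum.inl (i, j) : ZT) ∈ S.zT n s q y ↔
    (i, j) ∈ S.side n s q false ∨ ((S.fl n s q ≤ i ∧ i < S.fr n s q + 1) ∧ S.fb n q ≤ j ∧ j < y) := by
  unfold zT
  rw [Finset.inl_mem_disjSum, Finset.mem_union, mem_box]

lemma mem_zT_up {q : S.Q} {y i j : ℤ} : (Sum.inr (i, j) : ZT) ∈ S.zT n s q y ↔
    (i, j) ∈ S.side n s q true ∨ ((S.fl n s q ≤ i ∧ i < S.fr n s q) ∧ y ≤ j ∧ j < S.ft n q) := by
  unfold zT
  rw [Finset.inr_mem_disjSum, Finset.mem_union, mem_box]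

section
variable (hS : S.Ok) (hs : S.Small2 n s) (hd : S.Tree) {q : S.Q} {x y : ℤ} (hy : S.fb n q < y)
  (hy' : y < S.ft n q)
include hS hs hd hy hy'

/-- the tiles of the lower sheet -/
theorem lk_low : Lk {t | Sum.inl t ∈ S.zT n s q y}
    (fun t u => TConn (S.zT n s q y) (S.zg n s q x y) (.inl t) (.inl u)) where
  refl _ := ReflTransGen.refl
  symm h := (Surf.glu _ _).tconn_symm h
  trans := tconn_trans
  h i j h1 h2 := Surf.tconn_step .E (zs_E_low_open (by omega)) h1 h2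
  v i j h3 h4 := Surf.tconn_step .N (zs_N_low (by
    rintro ⟨rfl, h5, h6⟩
    have h7 : (Sum.inl (i, y - 1 + 1) : ZT) ∈ S.zT n s q y := h4
    rw [sub_add_cancel, mem_zT_low] at h7
    rcases h7 with h7 | h7
    · exact side_low_near hS hs hd q (by omega) (by omega) (by omega) (by omega) h7
    · omega)) h3 h4

/-- the tiles of the upper sheet -/
theorem lk_up : Lk {t | Sum.inr t ∈ S.zT n s q y}
    (fun t u => TConn (S.zT n s q y) (S.zg n s q x y) (.inr t) (.inr u)) where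
  refl _ := ReflTransGen.refl
  symm h := (Surf.glu _ _).tconn_symm h
  trans := tconn_trans
  h i j h1 h2 := Surf.tconn_step .E (zs_E_up_open (by omega)) h1 h2
  v i j h3 h4 := Surf.tconn_step .N (zs_N_up (by
    rintro ⟨rfl, h5, h6⟩
    have h7 : (Sum.inr (i, y - 1) : ZT) ∈ S.zT n s q y := h3
    rw [mem_zT_up] at h7
    rcases h7 with h7 | h7
    · exact side_up_near hS hs hd q (by omega) (by omega) (by omega) (by omega) h7
    · omega)) h3 h4

/-- the lower sheet is connected -/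
theorem low_conn {t u : ℤ × ℤ} (ht : Sum.inl t ∈ S.zT n s q y) (hu : Sum.inl u ∈ S.zT n s q y) :
    TConn (S.zT n s q y) (S.zg n s q x y) (.inl t) (.inl u) := by
  have L := lk_low hS hs hd hy hy' (x := x)
  have e1 := fl_lt_fr hS hs q
  have hbox : ∀ i j, S.fl n s q ≤ i → i < S.fr n s q + 1 → S.fb n q ≤ j → j < y →
      (i, j) ∈ {t | (Sum.inl t : ZT) ∈ S.zT n s q y} := fun i j h1 h2 h3 h4 =>
    mem_zT_low.2 (Or.inr ⟨⟨h1, h2⟩, h3, h4⟩)
  have key : ∀ t : ℤ × ℤ, Sum.inl t ∈ S.zT n s q y →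
      TConn (S.zT n s q y) (S.zg n s q x y) (.inl t) (.inl (S.fl n s q, S.fb n q)) := by
    rintro ⟨i, j⟩ ht
    rcases mem_zT_low.1 ht with h | ⟨⟨h1, h2⟩, h3, h4⟩
    · obtain ⟨a, ha, ha', h5⟩ := lk_part L hS hs (q := q) (b := false)
        (fun p hp t ht => by
          obtain ⟨i, j⟩ := t
          exact mem_zT_low.2 (Or.inl (mem_side.2 ⟨p, hp, ht⟩))) h
      have ha : S.On a q := by simpa using ha
      obtain ⟨i', h6, h7⟩ := on_col hS hs ha
      rw [on_ft (n := n) hS ha] at h6 h7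
      have h8 := L.v i' (S.fb n q - 1) (mem_zT_low.2 (Or.inl (mem_side.2 ⟨a, ha', h6⟩))) (by
        rw [sub_add_cancel]
        rw [mem_room] at h7
        exact hbox _ _ h7.1.1 (by have := h7.1.2; dsimp only at this; omega) le_rfl hy)
      rw [sub_add_cancel] at h8
      rw [mem_room] at h7
      obtain ⟨⟨h7a, h7b⟩, -⟩ := h7
      dsimp only at h7a h7b
      exact L.trans (h5 _ h6) (L.trans h8 (L.box hbox h7a (by omega) le_rfl hy le_rfl (by omega) le_rfl hy))
    · exact L.box hbox h1 h2 h3 h4 le_rfl (by omega) le_rfl hy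
  exact L.trans (key t ht) (L.symm (key u hu))

/-- the upper sheet is connected -/
theorem up_conn {t u : ℤ × ℤ} (ht : Sum.inr t ∈ S.zT n s q y) (hu : Sum.inr u ∈ S.zT n s q y) :
    TConn (S.zT n s q y) (S.zg n s q x y) (.inr t) (.inr u) := by
  have L := lk_up hS hs hd hy hy' (x := x)
  have e1 := fl_lt_fr hS hs q
  have hbox : ∀ i j, S.fl n s q ≤ i → i < S.fr n s q → y ≤ j → j < S.ft n q →
      (i, j) ∈ {t | (Sum.inr t : ZT) ∈ S.zT n s q y} := fun i j h1 h2 h3 h4 =>
    mem_zT_up.2 (Or.inr ⟨⟨h1, h2⟩, h3, h4⟩)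
  have key : ∀ t : ℤ × ℤ, Sum.inr t ∈ S.zT n s q y →
      TConn (S.zT n s q y) (S.zg n s q x y) (.inr t) (.inr (S.fl n s q, y)) := by
    rintro ⟨i, j⟩ ht
    rcases mem_zT_up.1 ht with h | ⟨⟨h1, h2⟩, h3, h4⟩
    · obtain ⟨a, ha, ha', h5⟩ := lk_part L hS hs (q := q) (b := true)
        (fun p hp t ht => by
          obtain ⟨i, j⟩ := t
          exact mem_zT_up.2 (Or.inl (mem_side.2 ⟨p, hp, ht⟩))) h
      have ha : S.On q a := by simpa using ha
      obtain ⟨i', h6, h7⟩ := on_col hS hs ha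
      rw [mem_room] at h6
      obtain ⟨⟨h6a, h6b⟩, -⟩ := h6
      dsimp only at h6a h6b
      have h8 := L.v i' (S.ft n q - 1) (hbox _ _ h6a h6b (by omega) (by omega)) (by
        rw [sub_add_cancel]
        exact mem_zT_up.2 (Or.inl (mem_side.2 ⟨a, ha', h7⟩)))
      rw [sub_add_cancel] at h8
      exact L.trans (h5 _ h7) (L.trans (L.symm h8)
        (L.box hbox h6a h6b (by omega) (by omega) le_rfl (by omega) le_rfl hy'))
    · exact L.box hbox h1 h2 h3 h4 le_rfl (by omega) le_rfl hy'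
  exact L.trans (key t ht) (L.symm (key u hu))

omit hd in
/-- the two sheets are joined across the line `y` -/
theorem cross_conn (hx : S.fl n s q ≤ x) :
    ∃ i : ℤ, (Sum.inl (i, y - 1) : ZT) ∈ S.zT n s q y ∧ (Sum.inr (S.fl n s q, y) : ZT) ∈ S.zT n s q y ∧
      TConn (S.zT n s q y) (S.zg n s q x y) (.inl (i, y - 1)) (.inr (S.fl n s q, y)) := by
  have e1 := fl_lt_fr hS hs q
  have h0 : (Sum.inr (S.fl n s q, y) : ZT) ∈ S.zT n s q y :=
    mem_zT_up.2 (Or.inr ⟨⟨le_rfl, by omega⟩, le_rfl, hy'⟩)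
  rcases eq_or_lt_of_le hx with h | h
  · have h1 : (Sum.inl (S.fl n s q + 1, y - 1) : ZT) ∈ S.zT n s q y :=
      mem_zT_low.2 (Or.inr ⟨⟨by omega, by omega⟩, by omega, by omega⟩)
    refine ⟨S.fl n s q + 1, h1, h0, ?_⟩
    refine Surf.tconn_step .N ?_ h1 h0
    have := zs_N_right (l := S.fl n s q) (r := S.fr n s q) (x := x) (y := y) (b := y) (t := y)
      (i := S.fl n s q + 1) (by omega) (by omega) (by omega)
    rwa [add_sub_cancel_right] at this
  · have h1 : (Sum.inl (S.fl n s q, y - 1) : ZT) ∈ S.zT n s q y :=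
      mem_zT_low.2 (Or.inr ⟨⟨by omega, by omega⟩, by omega, by omega⟩)
    exact ⟨S.fl n s q, h1, h0, Surf.tconn_step .N (zs_N_left le_rfl h (by omega)) h1 h0⟩

/-- **the domain with an interior end is connected** -/
theorem tconn_z' (hx : S.fl n s q ≤ x) {t u : ZT}
    (ht : t ∈ S.zT n s q y) (hu : u ∈ S.zT n s q y) : TConn (S.zT n s q y) (S.zg n s q x y) t u := by
  obtain ⟨i, h1, h2, h3⟩ := cross_conn hS hs hy hy' hx
  have hsym : ∀ {a b : ZT}, TConn (S.zT n s q y) (S.zg n s q x y) a b →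
      TConn (S.zT n s q y) (S.zg n s q x y) b a := fun h => (Surf.glu _ _).tconn_symm h
  have key : ∀ t ∈ S.zT n s q y, TConn (S.zT n s q y) (S.zg n s q x y) t (.inr (S.fl n s q, y)) := by
    rintro (t | t) ht
    · exact tconn_trans (low_conn hS hs hd hy hy' ht h1) h3
    · exact up_conn hS hs hd hy hy' ht h2
  exact tconn_trans (key t ht) (hsym (key u hu))

end

/-- **the domain with an interior end is connected** -/
theorem tconn_z (hS : S.Ok) (hs : S.Small2 n s) (hd : S.Tree) {q : S.Q} {x y : ℤ} (h : S.In n s q x y)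
    {t u : ZT} (ht : t ∈ S.zT n s q y) (hu : u ∈ S.zT n s q y) :
    TConn (S.zT n s q y) (S.zg n s q x y) t u :=
  tconn_z' hS hs hd h.2.1 h.2.2 h.1.1.le ht hu

end Shape
end Full
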