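import Pool.Agent.Full.Geo.SC
import Pool.Agent.Full.Geo.Conn
import Pool.Agent.Full.Loop.GoChain

/-!
# Shapes: the hypotheses of the law of the strands of the two-sheet domain

`Shape.goOk` : for `z = (x, y)` strictly inside the room `q`, the slab of `q` satisfies `Slab.GoOk`.
-/

set_option autoImplicit false
set_option linter.unusedSectionVars false

open Function Relation

namespace Full
namespace Shape
variable {S : Shape} {n : ℕ} {s : S.Q × Bool → ℕ}

section
variable (hS : S.Ok) (hs : S.Small2 n s) {q : S.Q} {y : ℤ} (hy : S.fb n q < y) (hy' : y < S.ft n q)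
include hS hs hy hy'

theorem low_conn' {t u : ℤ × ℤ}
    (ht : t ∈ S.side n s q false ∪ box (S.fl n s q) (S.fr n s q + 1) (S.fb n q) y)
    (hu : u ∈ S.side n s q false ∪ box (S.fl n s q) (S.fr n s q + 1) (S.fb n q) y) :
    TConn (S.side n s q false ∪ box (S.fl n s q) (S.fr n s q + 1) (S.fb n q) y)
      (plane.glue (S.side n s q false ∪ box (S.fl n s q) (S.fr n s q + 1) (S.fb n q) y)) t u := by
  set A := S.side n s q false ∪ box (S.fl n s q) (S.fr n s q + 1) (S.fb n q) y with hA
  have L := lk_plane A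
  have e1 := fl_lt_fr hS hs q
  have hbox : ∀ i j, S.fl n s q ≤ i → i < S.fr n s q + 1 → S.fb n q ≤ j → j < y →
      (i, j) ∈ (A : Set (ℤ × ℤ)) := fun i j h1 h2 h3 h4 => by
    rw [Finset.mem_coe, hA, Finset.mem_union, mem_box]
    exact Or.inr ⟨⟨h1, h2⟩, h3, h4⟩
  have key : ∀ t : ℤ × ℤ, t ∈ A → TConn A (plane.glue A) t (S.fl n s q, S.fb n q) := by
    rintro ⟨i, j⟩ ht
    rw [hA, Finset.mem_union, mem_box] at ht
    rcases ht with h | ⟨⟨h1, h2⟩, h3, h4⟩
    · obtain ⟨a, ha, ha', h5⟩ := lk_part L hS hs (q := q) (b := false)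
        (fun p hp t ht => Finset.mem_coe.2 (Finset.mem_union_left _ (mem_side.2 ⟨p, hp, ht⟩))) h
      have ha : S.On a q := by simpa using ha
      obtain ⟨i', h6, h7⟩ := on_col hS hs ha
      rw [on_ft (n := n) hS ha] at h6 h7
      have h8 := L.v i' (S.fb n q - 1)
        (Finset.mem_coe.2 (Finset.mem_union_left _ (mem_side.2 ⟨a, ha', h6⟩))) (by
        rw [sub_add_cancel]
        rw [mem_room] at h7
        exact hbox _ _ h7.1.1 (by have := h7.1.2; dsimp only at this; omega) le_rfl hy)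
      rw [sub_add_cancel] at h8
      rw [mem_room] at h7
      obtain ⟨⟨h7a, h7b⟩, -⟩ := h7
      dsimp only at h7a h7b
      exact L.trans (h5 _ h6) (L.trans h8 (L.box hbox h7a (by omega) le_rfl hy le_rfl (by omega) le_rfl hy))
    · exact L.box hbox h1 h2 h3 h4 le_rfl (by omega) le_rfl hy
  exact L.trans (key t ht) (L.symm (key u hu))

theorem up_conn' {t u : ℤ × ℤ}
    (ht : t ∈ S.side n s q true ∪ box (S.fl n s q) (S.fr n s q) y (S.ft n q))
    (hu : u ∈ S.side n s q true ∪ box (S.fl n s q) (S.fr n s q) y (S.ft n q)) :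
    TConn (S.side n s q true ∪ box (S.fl n s q) (S.fr n s q) y (S.ft n q))
      (plane.glue (S.side n s q true ∪ box (S.fl n s q) (S.fr n s q) y (S.ft n q))) t u := by
  set A := S.side n s q true ∪ box (S.fl n s q) (S.fr n s q) y (S.ft n q) with hA
  have L := lk_plane A
  have e1 := fl_lt_fr hS hs q
  have hbox : ∀ i j, S.fl n s q ≤ i → i < S.fr n s q → y ≤ j → j < S.ft n q →
      (i, j) ∈ (A : Set (ℤ × ℤ)) := fun i j h1 h2 h3 h4 => by
    rw [Finset.mem_coe, hA, Finset.mem_union, mem_box]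
    exact Or.inr ⟨⟨h1, h2⟩, h3, h4⟩
  have key : ∀ t : ℤ × ℤ, t ∈ A → TConn A (plane.glue A) t (S.fl n s q, y) := by
    rintro ⟨i, j⟩ ht
    rw [hA, Finset.mem_union, mem_box] at ht
    rcases ht with h | ⟨⟨h1, h2⟩, h3, h4⟩
    · obtain ⟨a, ha, ha', h5⟩ := lk_part L hS hs (q := q) (b := true)
        (fun p hp t ht => Finset.mem_coe.2 (Finset.mem_union_left _ (mem_side.2 ⟨p, hp, ht⟩))) h
      have ha : S.On q a := by simpa using ha
      obtain ⟨i', h6, h7⟩ := on_col hS hs ha
      rw [mem_room] at h6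
      obtain ⟨⟨h6a, h6b⟩, -⟩ := h6
      dsimp only at h6a h6b
      have h8 := L.v i' (S.ft n q - 1) (hbox _ _ h6a h6b (by omega) (by omega)) (by
        rw [sub_add_cancel]
        exact Finset.mem_coe.2 (Finset.mem_union_left _ (mem_side.2 ⟨a, ha', h7⟩)))
      rw [sub_add_cancel] at h8
      exact L.trans (h5 _ h7) (L.trans (L.symm h8)
        (L.box hbox h6a h6b (by omega) (by omega) le_rfl (by omega) le_rfl hy'))
    · exact L.box hbox h1 h2 h3 h4 le_rfl (by omega) le_rfl hy'
  exact L.trans (key t ht) (L.symm (key u hu))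

end

/-- **the slab of a room satisfies the hypotheses of the law of the strands** -/
theorem goOk (hS : S.Ok) (hs : S.Small n s) {q : S.Q} {x y : ℤ} (h1 : S.fl n s q ≤ x)
    (h2 : x < S.fr n s q) (h3 : S.fb n q < y) (h4 : y < S.ft n q) :
    Slab.GoOk (S.zslab hS hs.two (tree hS) q) x y where
  lx := h1
  xr := h2
  by' := h3
  yt := h4
  hL := noHole_low hS hs q h4.le
  hU := noHole_up hS hs.two q h3.le
  cL := fun _ ht _ hu => low_conn' hS hs.two h3 h4 ht hu
  cU := fun _ ht _ hu => up_conn' hS hs.two h3 h4 ht hu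

end Shape
end Full
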