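import Pool.Agent.Full.Geo.SC
import Pool.Agent.Full.Geo.Conn

/-!
# Shapes: the boundary cycles
-/

set_option autoImplicit false

open Function Relation

namespace Full
namespace Shape

variable {S : Shape} {n : ℕ} {s : S.Q × Bool → ℕ}

/-- the boundary half edges of the fine region are on one cycle -/
theorem cycle (hS : S.Ok) (hs : S.Small2 n s) {u v : Half (ℤ × ℤ)}
    (hu : Bd (S.T n s) (plane.glue (S.T n s)) u) (hv : Bd (S.T n s) (plane.glue (S.T n s)) v) :
    ∃ k < minimalPeriod (next (plane.glue (S.T n s))) u, (next (plane.glue (S.T n s)))^[k] u = v :=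
  (plane.glu _).next_trans (sc hS hs) hu hv (tconn hS hs hu.1 hv.1)

/-- **the boundary of the two-sheet domain**: `z` alone, and one more cycle -/
theorem cycle_z_lt (hS : S.Ok) (hs : S.Small n s) (q : S.Q) {x y : ℤ} (h : S.In n s q x y)
    {u v : Half ZT} (hu : Bd (S.zT n s q y) (S.zg n s q x y) u)
    (hv : Bd (S.zT n s q y) (S.zg n s q x y) v) (hu' : u ≠ zz x y) (hv' : v ≠ zz x y) :
    ∃ k < minimalPeriod (next (S.zg n s q x y)) u, (next (S.zg n s q x y))^[k] u = v :=
  (Surf.glu _ _).next_trans_z (Slab.go_z (D := S.zslab hS hs.two (tree hS) q) h.1.1.le h.1.2.le)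
    (scz hS hs q h.1.1.le h.1.2.le h.2.1 h.2.2) hu hv hu' hv'
    (tconn_z hS hs.two (tree hS) h hu.1 hv.1)

theorem cycle_z (hS : S.Ok) (hs : S.Small n s) (q : S.Q) {x y : ℤ} (h : S.In n s q x y)
    {u v : Half ZT} (hu : Bd (S.zT n s q y) (S.zg n s q x y) u)
    (hv : Bd (S.zT n s q y) (S.zg n s q x y) v) (hu' : u ≠ zz x y) (hv' : v ≠ zz x y) :
    ∃ k, (next (S.zg n s q x y))^[k] u = v := by
  obtain ⟨k, -, hk⟩ := cycle_z_lt hS hs q h hu hv hu' hv'
  exact ⟨k, hk⟩

end Shape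
end Full
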