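import Pool.Agent.Full.Disc.SlabSC

/-!
# Corner functions and boundary half edges of the two sheets

`corner_two` : corner functions of the two sheets which fit along the line `y` are a corner function of
the domain with the end `z`; `bd_low`, `bd_upp` : its boundary half edges; `bd_of_low`, `bd_of_upp`.
-/

set_option autoImplicit false

namespace Full.Geo
open Function Full Full.Slab

/-- a function on the two sheets -/
def two {X : Type*} (cL cU : Half (ℤ × ℤ) → X) : Half ZT → X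
  | (.inl t, d) => cL (t, d)
  | (.inr t, d) => cU (t, d)

section
variable {D : Slab} {x y : ℤ}

lemma g0_lw (t : ℤ × ℤ) (d : Dir) : D.g0 y (.inl t, d) =
    (.inl (plane.glue (D.TL y) (t, d)).1, (plane.glue (D.TL y) (t, d)).2) := rfl

lemma g0_uw (t : ℤ × ℤ) (d : Dir) : D.g0 y (.inr t, d) =
    (.inr (plane.glue (D.TU y) (t, d)).1, (plane.glue (D.TU y) (t, d)).2) := rfl

lemma two_g0_lw {X : Type*} (cL cU : Half (ℤ × ℤ) → X) (t : ℤ × ℤ) (d : Dir) :
    two cL cU (D.g0 y (.inl t, d)) = cL (plane.glue (D.TL y) (t, d)) := rfl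

lemma two_g0_uw {X : Type*} (cL cU : Half (ℤ × ℤ) → X) (t : ℤ × ℤ) (d : Dir) :
    two cL cU (D.g0 y (.inr t, d)) = cU (plane.glue (D.TU y) (t, d)) := rfl

variable (hb : D.b < y) (ht : y < D.t) (hl : D.l ≤ x) (hr : x ≤ D.r)
include hb ht hl hr

/-- the sides of the upper sheet on the line `y` -/
theorem go_upp {i : ℤ} (h1 : D.l ≤ i) (h2 : i < D.r) : ∃ i', D.l ≤ i' ∧ i' ≤ D.r ∧ i' ≠ x ∧
    D.go x y (.inr (i, y), .S) = (.inl (i', y - 1), .N) ∧ D.go x y (.inl (i', y - 1), .N) = (.inr (i, y), .S) := by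
  rcases lt_or_ge i x with h3 | h3
  · have h4 := D.go_left hb ht hr h1 h3
    exact ⟨i, h1, h2.le, h3.ne, by rw [← h4, glu_go.inv], h4⟩
  · have h4 := D.go_right hb ht hl (show x < i + 1 by omega) (show i + 1 ≤ D.r by omega)
    rw [add_sub_cancel_right] at h4
    exact ⟨i + 1, by omega, by omega, by omega, by rw [← h4, glu_go.inv], h4⟩

/-- the sides of the lower sheet on the line `y` -/
theorem go_low_ne {i : ℤ} (h1 : D.l ≤ i) (h2 : i ≤ D.r) (h3 : i ≠ x) :
    (D.go x y (.inl (i, y - 1), .N)).1.isLeft = false := by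
  rcases lt_or_gt_of_ne h3 with h4 | h4
  · rw [D.go_left hb ht hr h1 h4]; rfl
  · rw [D.go_right hb ht hl h4 h2]; rfl

/-- **corner functions of the domain with the end `z`** -/
theorem corner_two {X : Type*} {cL cU : Half (ℤ × ℤ) → X} (hL : Corner (plane.glue (D.TL y)) cL)
    (hU : Corner (plane.glue (D.TU y)) cU)
    (h1 : ∀ i, D.l ≤ i → i < x → cU ((i, y), .S) = cL ((i, y - 1), .W) ∧ cL ((i, y - 1), .N) = cU ((i, y), .E))
    (h2 : ∀ i, x < i → i ≤ D.r → cU ((i - 1, y), .S) = cL ((i, y - 1), .W) ∧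
      cL ((i, y - 1), .N) = cU ((i - 1, y), .E)) : Corner (D.go x y) (two cL cU) := by
  have hG : Glu (D.T y) (D.go x y) := Slab.glu_go
  have hE : Ext (D.T y) (D.g0 y) (D.go x y) := D.ext_go hb.le ht.le
  have key : ∀ i, D.l ≤ i → i ≤ D.r → i ≠ x →
      two cL cU (D.go x y (.inl (i, y - 1), .N)) = two cL cU (rho (.inl (i, y - 1), .N)) ∧
      two cL cU (.inl (i, y - 1), .N) = two cL cU (rho (D.go x y (.inl (i, y - 1), .N))) := by
    intro i i1 i2 i3
    rcases lt_or_gt_of_ne i3 with i4 | i4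
    · rw [D.go_left hb ht hr i1 i4]
      exact h1 i i1 i4
    · rw [D.go_right hb ht hl i4 i2]
      exact h2 i i4 i2
  intro u hu
  by_cases h0 : D.g0 y u = u
  · rcases D.new_low hb.le ht.le h0 hu with ⟨i, i1, i2, i3, rfl⟩ | ⟨i, rfl, hi⟩
    · exact (key i i1 i2 i3).1
    · set v := D.go x y (.inr (i, y), .S) with hv
      have hv1 : D.go x y v = (.inr (i, y), .S) := by rw [hv, hG.inv]
      have hv2 : D.go x y v ≠ v := by
        rw [hv1]
        exact hu.symm
      have hv3 : D.g0 y v = v := by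
        by_contra h5
        have h6 := hE.ext _ h5
        rw [hv1] at h6
        obtain ⟨t | t, d⟩ := v
        · have h7 := congrArg (fun z : Half ZT => z.1.isLeft) h6
          exact absurd h7 (by simp [g0_lw])
        · exact absurd hi (by simp)
      rcases D.new_low hb.le ht.le hv3 hv2 with ⟨i', i1, i2, i3, h5⟩ | ⟨i', h5, -⟩
      · have h6 := (key i' i1 i2 i3).2
        rw [← h5, hv1] at h6
        exact h6
      · rw [h5] at hi
        exact absurd hi (by simp)
  · rw [hE.ext _ h0]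
    obtain ⟨t | t, d⟩ := u
    · rw [two_g0_lw]
      refine hL (t, d) fun h5 => h0 ?_
      rw [g0_lw, h5]
    · rw [two_g0_uw]
      refine hU (t, d) fun h5 => h0 ?_
      rw [g0_uw, h5]

/-- the boundary half edges of the lower sheet, except for `z` -/
theorem bd_low {t : ℤ × ℤ} {d : Dir} (hu : Bd (D.T y) (D.go x y) (.inl t, d))
    (hz : ((.inl t, d) : Half ZT) ≠ z x y) : Bd (D.TL y) (plane.glue (D.TL y)) (t, d) ∧
      ¬ (d = .N ∧ t.2 = y - 1 ∧ D.l ≤ t.1 ∧ t.1 ≤ D.r) := by
  have hE : Ext (D.T y) (D.g0 y) (D.go x y) := D.ext_go hb.le ht.le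
  obtain ⟨hu1, hu2⟩ := hu
  refine ⟨⟨inl_mem.1 hu1, ?_⟩, ?_⟩
  · by_contra h5
    have h6 : D.g0 y (.inl t, d) ≠ (.inl t, d) := fun h7 => by
      rw [g0_lw] at h7
      have h8 : (plane.glue (D.TL y) (t, d)).1 = t := Sum.inl.inj (congrArg Prod.fst h7)
      have h9 : (plane.glue (D.TL y) (t, d)).2 = d := congrArg (fun z : Half ZT => z.2) h7
      exact h5 (Prod.ext h8 h9)
    have h7 := hE.ext _ h6
    rw [hu2] at h7
    exact h6 h7.symm
  · obtain ⟨i, j⟩ := t
    rintro ⟨rfl, h2, h3, h4⟩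
    dsimp only at h2 h3 h4
    subst h2
    by_cases hix : i = x
    · subst hix; exact hz rfl
    · have := go_low_ne hb ht hl hr h3 h4 hix
      rw [hu2] at this
      exact absurd this (by simp)

/-- the boundary half edges of the upper sheet -/
theorem bd_upp {t : ℤ × ℤ} {d : Dir} (hu : Bd (D.T y) (D.go x y) (.inr t, d)) :
    Bd (D.TU y) (plane.glue (D.TU y)) (t, d) ∧
      ¬ (d = .S ∧ t.2 = y ∧ D.l ≤ t.1 ∧ t.1 < D.r) := by
  have hE : Ext (D.T y) (D.g0 y) (D.go x y) := D.ext_go hb.le ht.le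
  obtain ⟨hu1, hu2⟩ := hu
  refine ⟨⟨inr_mem.1 hu1, ?_⟩, ?_⟩
  · by_contra h5
    have h6 : D.g0 y (.inr t, d) ≠ (.inr t, d) := fun h7 => by
      rw [g0_uw] at h7
      have h8 : (plane.glue (D.TU y) (t, d)).1 = t := Sum.inr.inj (congrArg Prod.fst h7)
      have h9 : (plane.glue (D.TU y) (t, d)).2 = d := congrArg (fun z : Half ZT => z.2) h7
      exact h5 (Prod.ext h8 h9)
    have h7 := hE.ext _ h6
    rw [hu2] at h7
    exact h6 h7.symm
  · obtain ⟨i, j⟩ := t
    rintro ⟨rfl, h2, h3, h4⟩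
    dsimp only at h2 h3 h4
    subst h2
    obtain ⟨i', -, -, -, h5, -⟩ := go_upp hb ht hl hr h3 h4
    rw [hu2] at h5
    exact absurd (congrArg Prod.snd h5) (by simp)

omit hl hr in
/-- a boundary half edge of the lower sheet which is not on the line -/
theorem bd_of_low {t : ℤ × ℤ} {d : Dir} (hu : Bd (D.TL y) (plane.glue (D.TL y)) (t, d))
    (hN : ¬ (d = .N ∧ t.2 = y - 1 ∧ D.l ≤ t.1 ∧ t.1 ≤ D.r)) : Bd (D.T y) (D.go x y) (.inl t, d) := by
  refine ⟨inl_mem.2 hu.1, ?_⟩
  by_contra h5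
  have h0 : D.g0 y (.inl t, d) = (.inl t, d) := by
    rw [g0_lw, hu.2]
  rcases D.new_low hb.le ht.le h0 h5 with ⟨i, i1, i2, -, h6⟩ | ⟨i, h6, -⟩
  · have h7 : t = (i, y - 1) := Sum.inl.inj (congrArg Prod.fst h6)
    have h8 : d = .N := congrArg Prod.snd h6
    subst h7
    exact hN ⟨h8, rfl, i1, i2⟩
  · exact absurd (congrArg Prod.fst h6) (by simp)

/-- a boundary half edge of the upper sheet which is not on the line -/
theorem bd_of_upp {t : ℤ × ℤ} {d : Dir} (hu : Bd (D.TU y) (plane.glue (D.TU y)) (t, d))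
    (hN : ¬ (d = .S ∧ t.2 = y ∧ D.l ≤ t.1 ∧ t.1 < D.r)) : Bd (D.T y) (D.go x y) (.inr t, d) := by
  refine ⟨inr_mem.2 hu.1, ?_⟩
  by_contra h5
  have h0 : D.g0 y (.inr t, d) = (.inr t, d) := by
    rw [g0_uw, hu.2]
  have hE : Ext (D.T y) (D.g0 y) (D.go x y) := D.ext_go hb.le ht.le
  rcases D.new_low hb.le ht.le h0 h5 with ⟨i, -, -, -, h6⟩ | ⟨i, h6, h7⟩
  · exact absurd (congrArg Prod.fst h6) (by simp)
  · rw [h6] at h5 h7
    -- the partner is on the line of the lower sheet
    set v := D.go x y (.inr (i, y), .S) with hv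
    have hG : Glu (D.T y) (D.go x y) := Slab.glu_go
    have hv1 : D.go x y v = (.inr (i, y), .S) := by rw [hv, hG.inv]
    have hv2 : D.go x y v ≠ v := by
      rw [hv1]
      exact Ne.symm h5
    have hv3 : D.g0 y v = v := by
      by_contra h8
      have h9 := hE.ext _ h8
      rw [hv1] at h9
      obtain ⟨t' | t', d'⟩ := v
      · have h7 := congrArg (fun z : Half ZT => z.1.isLeft) h9
        exact absurd h7 (by simp [g0_lw])
      · exact absurd h7 (by simp)
    rcases D.new_low hb.le ht.le hv3 hv2 with ⟨i', i1, i2, i3, h8⟩ | ⟨i', h8, -⟩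
    · have h9 : D.l ≤ i ∧ i < D.r := by
        rw [h8] at hv1
        rcases lt_or_gt_of_ne i3 with h10 | h10
        · rw [D.go_left hb ht hr i1 h10] at hv1
          have h11 : (i', y) = (i, y) := Sum.inr.inj (congrArg Prod.fst hv1)
          have h12 : i' = i := congrArg Prod.fst h11
          omega
        · rw [D.go_right hb ht hl h10 i2] at hv1
          have h11 : (i' - 1, y) = (i, y) := Sum.inr.inj (congrArg Prod.fst hv1)
          have h12 : i' - 1 = i := congrArg Prod.fst h11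
          omega
      have h10 : t = (i, y) := Sum.inr.inj (congrArg Prod.fst h6)
      have h11 : d = .S := congrArg Prod.snd h6
      subst h10
      exact hN ⟨h11, rfl, h9⟩
    · rw [h8] at h7
      exact absurd h7 (by simp)

end

end Full.Geo
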