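import Pool.Agent.Full.Geo.Label
import Pool.Agent.Full.Geo.SlabBd

/-!
# Labels of the boundary of the domains with an end `z`

`Shape.labz` : labels of the half edges of the two-sheet domain, a corner function;
`Shape.labCyc_z`, `Shape.labz_right`, `Shape.labz_dist`, `Shape.lab_z`.
-/

set_option autoImplicit false

namespace Full
open Function Relation

namespace Geo

section
variable (S : Shape) (n : ℕ) (s : S.Q × Bool → ℕ) (q : S.Q) (y : ℤ)

open Classical in
/-- the fine rectangles of the lower sheet -/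
noncomputable def Fr.low : Fr S :=
  ⟨S.part q false ∪ {q}, S.fl n s, fun p => if p = q then S.fr n s q + 1 else S.fr n s p, S.fb n,
    fun p => if p = q then y else S.ft n p⟩

open Classical in
/-- the fine rectangles of the upper sheet -/
noncomputable def Fr.upp : Fr S :=
  ⟨S.part q true ∪ {q}, S.fl n s, S.fr n s, fun p => if p = q then y else S.fb n p, S.ft n⟩

variable {S n s q y}

lemma low_R : (Fr.low S n s q y).R q = S.fr n s q + 1 := if_pos rfl
lemma low_R' {p : S.Q} (h : p ≠ q) : (Fr.low S n s q y).R p = S.fr n s p := if_neg h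
lemma low_U : (Fr.low S n s q y).U q = y := if_pos rfl
lemma low_U' {p : S.Q} (h : p ≠ q) : (Fr.low S n s q y).U p = S.ft n p := if_neg h
lemma upp_B : (Fr.upp S n s q y).B q = y := if_pos rfl
lemma upp_B' {p : S.Q} (h : p ≠ q) : (Fr.upp S n s q y).B p = S.fb n p := if_neg h

variable (hS : S.Ok) (hs : S.Small2 n s) (h3 : S.fb n q < y) (h4 : y < S.ft n q)
include hS hs h3 h4

theorem low_ok : (Fr.low S n s q y).Ok n where
  n8 := hs.1
  l1 p := by show (n : ℤ) * S.xl p ≤ n * S.xl p + s (p, false); omega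
  l2 p := by
    have := hs.2 (p, false)
    show 2 * ((n : ℤ) * S.xl p + s (p, false)) ≤ 2 * (n * S.xl p) + n
    omega
  r1 p := by
    by_cases h : p = q
    · subst h
      rw [low_R]
      show (n : ℤ) * S.xr p ≤ n * S.xr p + s (p, true) + 1
      omega
    · rw [low_R' h]
      show (n : ℤ) * S.xr p ≤ n * S.xr p + s (p, true)
      omega
  r2 p := by
    have := hs.2 (p, true)
    by_cases h : p = q
    · subst h
      rw [low_R]
      show 2 * ((n : ℤ) * S.xr p + s (p, true) + 1) ≤ 2 * (n * S.xr p) + n + 2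
      omega
    · rw [low_R' h]
      show 2 * ((n : ℤ) * S.xr p + s (p, true)) ≤ 2 * (n * S.xr p) + n + 2
      omega
  b1 p := le_rfl
  u1 p := by
    by_cases h : p = q
    · subst h
      rw [low_U]
      exact h4.le
    · rw [low_U' h]
      exact le_rfl
  bu p := by
    by_cases h : p = q
    · subst h
      rw [low_U]
      exact h3
    · rw [low_U' h]
      have := Shape.fb_lt_ft (n := n) hS hs.1 p
      show S.fb n p < S.ft n p
      omega
  tch a b ha hb hab := by
    have h : a ≠ q := by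
      rintro rfl
      rcases hb with hb | hb
      · exact Set.disjoint_left.1 (Shape.tree hS a) hb (Shape.part_of_on hab)
      · rw [hb] at hab
        exact Shape.not_on_self _ hab
    rw [low_U' h]
    exact ⟨rfl, rfl⟩
  dn a b hb hab _ := by
    by_cases h : a = q
    · exact Or.inr h
    · rcases hb with hb | hb
      · exact Or.inl (Shape.part_step hb h (Or.inr hab))
      · rw [hb] at hab
        exact Or.inl (Shape.part_of_on' hab)
  up a b ha hab hU := by
    by_cases h : b = q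
    · exact Or.inr h
    · rcases ha with ha | ha
      · exact Or.inl (Shape.part_step ha h (Or.inl hab))
      · rw [ha, low_U] at hU
        exact absurd hU h4.ne

theorem upp_ok : (Fr.upp S n s q y).Ok n where
  n8 := hs.1
  l1 p := by show (n : ℤ) * S.xl p ≤ n * S.xl p + s (p, false); omega
  l2 p := by
    have := hs.2 (p, false)
    show 2 * ((n : ℤ) * S.xl p + s (p, false)) ≤ 2 * (n * S.xl p) + n
    omega
  r1 p := by show (n : ℤ) * S.xr p ≤ n * S.xr p + s (p, true); omega
  r2 p := by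
    have := hs.2 (p, true)
    show 2 * ((n : ℤ) * S.xr p + s (p, true)) ≤ 2 * (n * S.xr p) + n + 2
    omega
  b1 p := by
    by_cases h : p = q
    · subst h
      rw [upp_B]
      exact h3.le
    · rw [upp_B' h]
      exact le_rfl
  u1 p := le_rfl
  bu p := by
    by_cases h : p = q
    · subst h
      rw [upp_B]
      exact h4
    · rw [upp_B' h]
      have := Shape.fb_lt_ft (n := n) hS hs.1 p
      show S.fb n p < S.ft n p
      omega
  tch a b ha hb hab := by
    have h : b ≠ q := by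
      rintro rfl
      rcases ha with ha | ha
      · exact Set.disjoint_left.1 (Shape.tree hS b) (Shape.part_of_on' hab) ha
      · rw [ha] at hab
        exact Shape.not_on_self _ hab
    rw [upp_B' h]
    exact ⟨rfl, rfl⟩
  dn a b hb hab hB := by
    by_cases h : a = q
    · exact Or.inr h
    · rcases hb with hb | hb
      · exact Or.inl (Shape.part_step hb h (Or.inr hab))
      · rw [hb, upp_B] at hB
        exact absurd hB h3.ne'
  up a b ha hab _ := by
    by_cases h : b = q
    · exact Or.inr h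
    · rcases ha with ha | ha
      · exact Or.inl (Shape.part_step ha h (Or.inl hab))
      · rw [ha] at hab
        exact Or.inl (Shape.part_of_on hab)

omit hS hs h3 h4 in
theorem low_reg : (Fr.low S n s q y).Reg (S.side n s q false ∪ box (S.fl n s q) (S.fr n s q + 1) (S.fb n q) y) := by
  rintro ⟨i, j⟩
  rw [Finset.mem_union, Shape.mem_side, mem_box]
  constructor
  · rintro (⟨p, hp, h⟩ | h)
    · have hpq : p ≠ q := by rintro rfl; exact Shape.not_mem_part _ _ hp
      refine ⟨p, Or.inl hp, ?_⟩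
      unfold Fr.In
      rw [low_R' hpq, low_U' hpq]
      exact Shape.mem_room.1 h
    · refine ⟨q, Or.inr rfl, ?_⟩
      unfold Fr.In
      rw [low_R, low_U]
      exact h
  · rintro ⟨p, hp, h⟩
    unfold Fr.In at h
    by_cases hpq : p = q
    · subst hpq
      rw [low_R, low_U] at h
      exact Or.inr h
    · rw [low_R' hpq, low_U' hpq] at h
      exact Or.inl ⟨p, hp.resolve_right hpq, Shape.mem_room.2 h⟩

omit hS hs h3 h4 in
theorem upp_reg : (Fr.upp S n s q y).Reg (S.side n s q true ∪ box (S.fl n s q) (S.fr n s q) y (S.ft n q)) := by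
  rintro ⟨i, j⟩
  rw [Finset.mem_union, Shape.mem_side, mem_box]
  constructor
  · rintro (⟨p, hp, h⟩ | h)
    · have hpq : p ≠ q := by rintro rfl; exact Shape.not_mem_part _ _ hp
      refine ⟨p, Or.inl hp, ?_⟩
      unfold Fr.In
      rw [upp_B' hpq]
      exact Shape.mem_room.1 h
    · refine ⟨q, Or.inr rfl, ?_⟩
      unfold Fr.In
      rw [upp_B]
      exact h
  · rintro ⟨p, hp, h⟩
    unfold Fr.In at h
    by_cases hpq : p = q
    · subst hpq
      rw [upp_B] at h
      exact Or.inr h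
    · rw [upp_B' hpq] at h
      exact Or.inl ⟨p, hp.resolve_right hpq, Shape.mem_room.2 h⟩

end

end Geo

namespace Shape
open Geo

variable {S : Shape} {n : ℕ} {s : S.Q × Bool → ℕ} {σ : Fin 4 → ℕ}

/-- the label of a half edge of the domain with the end `z` in the room `q`, at the height `y` -/
noncomputable def labz (S : Shape) (m : S.Marks) (n : ℕ) (s : S.Q × Bool → ℕ) (σ : Fin 4 → ℕ) (q : S.Q) (y : ℤ) :
    Half ZT → Fin 4 := two (Geo.lab (Fr.low S n s q y) m n σ) (Geo.lab (Fr.upp S n s q y) m n σ)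

variable {m : S.Marks} {q : S.Q} {x y : ℤ}

section
variable (hS : S.Ok) (hs : S.Small2 n s) (h3 : S.fb n q < y) (h4 : y < S.ft n q)
include hS hs h3 h4

/-- the label of a vertex of the line `y`, lower sheet -/
theorem lab_line_low {i a : ℤ} {d : Dir} (h1 : S.fl n s q ≤ i) (h2 : i ≤ S.fr n s q)
    (hd : tlv ((i, y - 1), d) = (a, y)) : Geo.lab (Fr.low S n s q y) m n σ ((i, y - 1), d) =
      if a = S.fl n s q then m.wl q else if a = S.fr n s q + 1 then m.wr q else 0 := by
  have hF := low_ok (q := q) hS hs h3 h4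
  have hin : (Fr.low S n s q y).In q (i, y - 1) := by
    unfold Fr.In
    rw [low_R, low_U]
    exact ⟨⟨h1, by dsimp only; omega⟩, by show S.fb n q ≤ y - 1; omega, by dsimp only; omega⟩
  rw [Geo.lab_eq hS hF (Or.inr rfl) (x := ((i, y - 1), d)) hin, hd]
  by_cases e1 : a = S.fl n s q
  · rw [if_pos e1]
    exact fv_L e1
  · rw [if_neg e1]
    by_cases e2 : a = S.fr n s q + 1
    · rw [if_pos e2]
      exact fv_R hS hF (by rw [low_R]; exact e2)
    · rw [if_neg e2]
      refine fv_zero e1 (by rw [low_R]; exact e2) (fun r hr h => ?_) fun r hr h => ?_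
      · exfalso
        rw [hr] at h3
        exact absurd h h3.ne'
      · exfalso
        rw [hr] at h4
        exact absurd h h4.ne

/-- the label of a vertex of the line `y`, upper sheet -/
theorem lab_line_upp {i a : ℤ} {d : Dir} (h1 : S.fl n s q ≤ i) (h2 : i < S.fr n s q)
    (hd : tlv ((i, y), d) = (a, y)) : Geo.lab (Fr.upp S n s q y) m n σ ((i, y), d) =
      if a = S.fl n s q then m.wl q else if a = S.fr n s q then m.wr q else 0 := by
  have hF := upp_ok (q := q) hS hs h3 h4
  have hin : (Fr.upp S n s q y).In q (i, y) := by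
    unfold Fr.In
    rw [upp_B]
    exact ⟨⟨h1, h2⟩, le_rfl, h4⟩
  rw [Geo.lab_eq hS hF (Or.inr rfl) (x := ((i, y), d)) hin, hd]
  by_cases e1 : a = S.fl n s q
  · rw [if_pos e1]
    exact fv_L e1
  · rw [if_neg e1]
    by_cases e2 : a = S.fr n s q
    · rw [if_pos e2]
      exact fv_R hS hF e2
    · rw [if_neg e2]
      refine fv_zero e1 e2 (fun r hr h => ?_) fun r hr h => ?_
      · exfalso
        rw [hr] at h3
        exact absurd h h3.ne'
      · exfalso
        rw [hr] at h4
        exact absurd h h4.ne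

end

section
variable (hS : S.Ok) (hm : m.Ok) (hs : S.Small2 n s) (h : S.In n s q x y)
include hS hm hs h

/-- **the label is a corner function** -/
theorem corner_labz : Corner (S.zg n s q x y) (S.labz m n s σ q y) := by
  obtain ⟨⟨h1, h2⟩, h3, h4⟩ := h
  refine corner_two (D := S.zslab hS hs (tree hS) q) h3 h4 h1.le h2.le
    (Geo.corner_lab hS hm hs.1 (low_ok hS hs h3 h4) low_reg)
    (Geo.corner_lab hS hm hs.1 (upp_ok hS hs h3 h4) upp_reg) (fun i i1 i2 => ?_) fun i i1 i2 => ?_
  · have j1 : S.fl n s q ≤ i := i1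
    rw [lab_line_upp hS hs h3 h4 j1 (by omega) (a := i) rfl,
      lab_line_low hS hs h3 h4 j1 (by omega) (a := i) (Prod.ext rfl (sub_add_cancel _ _)),
      lab_line_low hS hs h3 h4 j1 (by omega) (a := i + 1) (Prod.ext rfl (sub_add_cancel _ _)),
      lab_line_upp hS hs h3 h4 j1 (by omega) (a := i + 1) rfl,
      if_neg (show i ≠ S.fr n s q by omega), if_neg (show i ≠ S.fr n s q + 1 by omega),
      if_neg (show i + 1 ≠ S.fr n s q by omega), if_neg (show i + 1 ≠ S.fr n s q + 1 by omega)]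
    exact ⟨rfl, rfl⟩
  · have j2 : i ≤ S.fr n s q := i2
    rw [lab_line_upp hS hs h3 h4 (by omega) (by omega) (a := i - 1) rfl,
      lab_line_low hS hs h3 h4 (by omega) j2 (a := i) (Prod.ext rfl (sub_add_cancel _ _)),
      lab_line_low hS hs h3 h4 (by omega) j2 (a := i + 1) (Prod.ext rfl (sub_add_cancel _ _)),
      lab_line_upp hS hs h3 h4 (by omega) (by omega) (a := i) (Prod.ext (sub_add_cancel _ _) rfl),
      if_neg (show i - 1 ≠ S.fl n s q by omega), if_neg (show i - 1 ≠ S.fr n s q by omega),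
      if_neg (show i ≠ S.fl n s q by omega), if_neg (show i ≠ S.fr n s q + 1 by omega),
      if_neg (show i + 1 ≠ S.fl n s q by omega), if_neg (show i ≠ S.fl n s q by omega)]
    refine ⟨rfl, ?_⟩
    by_cases hi : i = S.fr n s q
    · rw [if_pos (by omega), if_pos hi]
    · rw [if_neg (by omega), if_neg hi]

omit hm in
/-- a boundary half edge of the lower sheet which is not `z` -/
theorem zbd_low {t : ℤ × ℤ} {d : Dir} (hu : Bd (S.zT n s q y) (S.zg n s q x y) (.inl t, d))
    (hz : ((.inl t, d) : Half ZT) ≠ zz x y) :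
    Bd (S.side n s q false ∪ box (S.fl n s q) (S.fr n s q + 1) (S.fb n q) y)
      (plane.glue (S.side n s q false ∪ box (S.fl n s q) (S.fr n s q + 1) (S.fb n q) y)) (t, d) ∧
      ¬ (Fr.low S n s q y).Cut n (t, d) := by
  obtain ⟨⟨h1, h2⟩, h3, h4⟩ := h
  have h5 := Geo.bd_low (D := S.zslab hS hs (tree hS) q) h3 h4 h1.le h2.le hu hz
  refine ⟨h5.1, ?_⟩
  rintro ⟨p, hp, hin, ⟨-, -, h6⟩ | ⟨h6, h7, h8⟩⟩
  · exact h6 rfl
  · by_cases hpq : p = q
    · subst hpq
      unfold Fr.In at hin
      rw [low_R] at hin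
      rw [low_U] at h7
      have h9 : t.1 < S.fr n s p + 1 := hin.1.2
      exact h5.2 ⟨h6, h7, hin.1.1, by show t.1 ≤ S.fr n s p; omega⟩
    · rw [low_U' hpq] at h8
      exact h8 rfl

omit hm in
/-- a boundary half edge of the upper sheet -/
theorem zbd_upp {t : ℤ × ℤ} {d : Dir} (hu : Bd (S.zT n s q y) (S.zg n s q x y) (.inr t, d)) :
    Bd (S.side n s q true ∪ box (S.fl n s q) (S.fr n s q) y (S.ft n q))
      (plane.glue (S.side n s q true ∪ box (S.fl n s q) (S.fr n s q) y (S.ft n q))) (t, d) ∧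
      ¬ (Fr.upp S n s q y).Cut n (t, d) := by
  obtain ⟨⟨h1, h2⟩, h3, h4⟩ := h
  have h5 := Geo.bd_upp (D := S.zslab hS hs (tree hS) q) h3 h4 h1.le h2.le hu
  refine ⟨h5.1, ?_⟩
  rintro ⟨p, hp, hin, ⟨h6, h7, h8⟩ | ⟨-, -, h6⟩⟩
  · by_cases hpq : p = q
    · subst hpq
      rw [upp_B] at h7
      exact h5.2 ⟨h6, h7, hin.1.1, hin.1.2⟩
    · rw [upp_B' hpq] at h8
      exact h8 rfl
  · exact h6 rfl

omit hm in
/-- the right wall at the height of `z` -/
theorem labz_right : S.labz m n s σ q y (.inl (S.fr n s q, y - 1), .E) = m.wr q := by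
  obtain ⟨⟨h1, h2⟩, h3, h4⟩ := h
  have hF := low_ok (q := q) hS hs h3 h4
  have hin : (Fr.low S n s q y).In q ((Fr.low S n s q y).R q - 1, y - 1) := by
    unfold Fr.In
    rw [low_R, low_U]
    refine ⟨⟨?_, ?_⟩, ?_, ?_⟩
    · show S.fl n s q ≤ S.fr n s q + 1 - 1; omega
    · show S.fr n s q + 1 - 1 < S.fr n s q + 1; omega
    · show S.fb n q ≤ y - 1; omega
    · show y - 1 < y; omega
  have h5 := (Geo.lab_E (m := m) (n := n) (σ := σ) hS hF (Or.inr rfl) hin).1
  rw [low_R, add_sub_cancel_right] at h5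
  exact h5

end

section
variable (hS : S.Ok) (hm : m.Ok) (hs : S.Small2 n s) (hσ : ∀ j, 4 * σ j ≤ n) (h : S.In n s q x y)
include hS hm hs hσ h

/-- the marks are boundary half edges, with their labels -/
theorem ez_spec (j : Fin 4) : Bd (S.zT n s q y) (S.zg n s q x y) (m.ez n σ q j) ∧
    (m.ez n σ q j).2 = .S ∧ S.labz m n s σ q y (m.ez n σ q j) = j - 1 ∧
    S.labz m n s σ q y (rho (m.ez n σ q j)) = j := by
  have h' := h
  obtain ⟨⟨h1, h2⟩, h3, h4⟩ := h'
  have hlow := hm.low j
  have hdir : m.dir j = .S := by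
    unfold Marks.dir
    rw [hlow]
    rfl
  by_cases hc : (Sum.inl (m.room j) : S.Q) ∈ S.part q false ∨ (Sum.inl (m.room j) = q ∧ m.top j = false)
  · have e0 : m.ez n σ q j = (.inl (m.e n σ j).1, (m.e n σ j).2) := if_pos hc
    have hP : (Sum.inl (m.room j) : S.Q) ∈ (Fr.low S n s q y).P := hc.imp (fun h => h) fun h => h.1
    obtain ⟨g1, g2, g3, g4⟩ := Geo.lab_mark (σ := σ) hS hm hσ (low_ok (q := q) hS hs h3 h4) low_reg j hP
      (fun _ => rfl) (fun h5 => by rw [hlow] at h5; exact absurd h5 (by simp))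
    rw [e0]
    refine ⟨?_, hdir, g3, g4⟩
    refine Geo.bd_of_low (D := S.zslab hS hs (tree hS) q) h3 h4 g2 ?_
    rintro ⟨h5, -⟩
    rw [show (m.e n σ j).2 = m.dir j from rfl, hdir] at h5
    exact absurd h5 (by simp)
  · have e0 : m.ez n σ q j = (.inr (m.e n σ j).1, (m.e n σ j).2) := if_neg hc
    push Not at hc
    have hne : (Sum.inl (m.room j) : S.Q) ≠ q := fun h5 => hc.2 h5 hlow
    have hP' : (Sum.inl (m.room j) : S.Q) ∈ S.part q true :=
      (part_cover hS q _ hne).resolve_left hc.1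
    have hP : (Sum.inl (m.room j) : S.Q) ∈ (Fr.upp S n s q y).P := Or.inl hP'
    obtain ⟨g1, g2, g3, g4⟩ := Geo.lab_mark (σ := σ) hS hm hσ (upp_ok (q := q) hS hs h3 h4) upp_reg j hP
      (fun _ => upp_B' hne) (fun _ => rfl)
    rw [e0]
    refine ⟨?_, hdir, g3, g4⟩
    refine Geo.bd_of_upp (D := S.zslab hS hs (tree hS) q) h3 h4 h1.le h2.le g2 ?_
    rintro ⟨-, h5, h6, h7⟩
    have g5 : (Fr.upp S n s q y).In q (m.e n σ j).1 := by
      unfold Fr.In
      rw [upp_B]
      exact ⟨⟨h6, h7⟩, h5.ge, by rw [h5]; exact h4⟩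
    exact hne ((upp_ok (q := q) hS hs h3 h4).uniq hS hP (Or.inr rfl) g1 g5)

omit hσ in
/-- a tile of the lower sheet at a mark -/
theorem ez_low {t : ℤ × ℤ} {d : Dir} {j : Fin 4} (ht : Sum.inl t ∈ S.zT n s q y) (hj : (t, d) = m.e n σ j)
    (hr : (m.e n σ j).1 ∈ S.room n s (.inl (m.room j))) : (.inl t, d) = m.ez n σ q j := by
  obtain ⟨⟨h1, h2⟩, h3, h4⟩ := h
  by_cases hc : (Sum.inl (m.room j) : S.Q) ∈ S.part q false ∨ (Sum.inl (m.room j) = q ∧ m.top j = false)
  · have e0 : m.ez n σ q j = (.inl (m.e n σ j).1, (m.e n σ j).2) := if_pos hc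
    rw [e0, ← hj]
  · exfalso
    push Not at hc
    have hne : (Sum.inl (m.room j) : S.Q) ≠ q := fun h5 => hc.2 h5 (hm.low j)
    have hP' : (Sum.inl (m.room j) : S.Q) ∈ S.part q true :=
      (part_cover hS q _ hne).resolve_left hc.1
    rw [← hj] at hr
    obtain ⟨i, k⟩ := t
    rcases mem_zT_low.1 ht with h5 | h5
    · obtain ⟨p, hp, h6⟩ := mem_side.1 h5
      have h7 := room_unique hS hs h6 hr
      rw [h7] at hp
      exact Set.disjoint_left.1 (tree hS q) hp hP'
    · refine side_up_near hS hs (tree hS) q (i := i) (j := k) (by omega) (by omega) (by omega) (by omega) ?_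
      exact mem_side.2 ⟨_, hP', hr⟩

omit hσ in
/-- a tile of the upper sheet at a mark -/
theorem ez_upp {t : ℤ × ℤ} {d : Dir} {j : Fin 4} (ht : Sum.inr t ∈ S.zT n s q y) (hj : (t, d) = m.e n σ j)
    (hr : (m.e n σ j).1 ∈ S.room n s (.inl (m.room j))) : (.inr t, d) = m.ez n σ q j := by
  obtain ⟨⟨h1, h2⟩, h3, h4⟩ := h
  by_cases hc : (Sum.inl (m.room j) : S.Q) ∈ S.part q false ∨ (Sum.inl (m.room j) = q ∧ m.top j = false)
  · exfalso
    have hr' := hr
    rw [← hj] at hr
    obtain ⟨i, k⟩ := t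
    rcases mem_zT_up.1 ht with h5 | h5
    · obtain ⟨p, hp, h6⟩ := mem_side.1 h5
      have h7 := room_unique hS hs h6 hr
      rw [h7] at hp
      rcases hc with hc | hc
      · exact Set.disjoint_left.1 (tree hS q) hc hp
      · rw [hc.1] at hp
        exact not_mem_part _ _ hp
    · have h6 : (i, k) ∈ S.room n s q := by
        rw [mem_room]
        exact ⟨h5.1, by dsimp only; omega, h5.2.2⟩
      have h7 := room_unique hS hs h6 hr
      have h8 : k = S.fb n q := by
        have h9 : (i, k) = (m.e n σ j).1 := congrArg Prod.fst hj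
        rw [e_floor (hm.low j)] at h9
        have h10 : k = n * S.yb (.inl (m.room j)) := congrArg Prod.snd h9
        rw [h10, ← h7]
        rfl
      omega
  · have e0 : m.ez n σ q j = (.inr (m.e n σ j).1, (m.e n σ j).2) := if_neg hc
    rw [e0, ← hj]

/-- **the label changes at the marks only** -/
theorem labz_step {u : Half ZT} (hu : Bd (S.zT n s q y) (S.zg n s q x y) u) (hz : u ≠ zz x y)
    (hne : ∀ j, u ≠ m.ez n σ q j) : S.labz m n s σ q y (rho u) = S.labz m n s σ q y u := by
  have h' := h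
  obtain ⟨⟨h1, h2⟩, h3, h4⟩ := h'
  have hr : ∀ j, (m.e n σ j).1 ∈ S.room n s (.inl (m.room j)) := fun j =>
    mem_room.2 (Geo.lab_mark (σ := σ) hS hm hσ (full_ok hS hs) full_reg j (Set.mem_univ _)
      (fun _ => rfl) (fun _ => rfl)).1
  obtain ⟨t | t, d⟩ := u
  · obtain ⟨g1, g2⟩ := zbd_low hS hs h hu hz
    exact Geo.lab_step hS hm hσ (low_ok (q := q) hS hs h3 h4) low_reg g1 g2 fun j hj =>
      hne j (ez_low hS hm hs h hu.1 hj (hr j))
  · obtain ⟨g1, g2⟩ := zbd_upp hS hs h hu
    exact Geo.lab_step hS hm hσ (upp_ok (q := q) hS hs h3 h4) upp_reg g1 g2 fun j hj =>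
      hne j (ez_upp hS hm hs h hu.1 hj (hr j))

end

section
variable (hS : S.Ok) (hm : m.Ok) (hs : S.Small n s) (hσ : ∀ j, 4 * σ j ≤ n) (h : S.In n s q x y)
include hS hm hs h

/-- a boundary half edge is near the coarse walls with its label -/
theorem labz_dist {u : Half ZT} (hu : Bd (S.zT n s q y) (S.zg n s q x y) u) (hz : u ≠ zz x y) :
    Metric.infDist (cpt n (pz u.1)) (m.arc (S.labz m n s σ q y u)) ≤ 1 / 2 := by
  have h' := h
  obtain ⟨⟨h1, h2⟩, h3, h4⟩ := h'
  obtain ⟨t | t, d⟩ := u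
  · obtain ⟨g1, g2⟩ := zbd_low hS hs.two h hu hz
    refine Geo.lab_dist hS hm (low_ok (q := q) hS hs.two h3 h4) low_reg (fun p => ?_) (fun p => ?_) g1 g2
    · have := hs.2 (p, false)
      show 4 * ((n : ℤ) * S.xl p + s (p, false)) ≤ 4 * (n * S.xl p) + n
      omega
    · have := hs.2 (p, true)
      by_cases hpq : p = q
      · subst hpq
        rw [low_R]
        show 4 * ((n : ℤ) * S.xr p + s (p, true) + 1) ≤ 4 * (n * S.xr p) + n + 4
        omega
      · rw [low_R' hpq]
        show 4 * ((n : ℤ) * S.xr p + s (p, true)) ≤ 4 * (n * S.xr p) + n + 4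
        omega
  · obtain ⟨g1, g2⟩ := zbd_upp hS hs.two h hu
    refine Geo.lab_dist hS hm (upp_ok (q := q) hS hs.two h3 h4) upp_reg (fun p => ?_) (fun p => ?_) g1 g2
    · have := hs.2 (p, false)
      show 4 * ((n : ℤ) * S.xl p + s (p, false)) ≤ 4 * (n * S.xl p) + n
      omega
    · have := hs.2 (p, true)
      show 4 * ((n : ℤ) * S.xr p + s (p, true)) ≤ 4 * (n * S.xr p) + n + 4
      omega

include hσ

/-- **the boundary of the domain with the end `z` is `z` and a labelled cycle** -/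
theorem labCyc_z : LabCyc (next (S.zg n s q x y)) {u | Bd (S.zT n s q y) (S.zg n s q x y) u ∧ u ≠ zz x y}
    (m.ez n σ q) (S.labz m n s σ q y) := by
  have h' := h
  obtain ⟨⟨h1, h2⟩, h3, h4⟩ := h'
  have hG : Glu (S.zT n s q y) (S.zg n s q x y) := Surf.glu _ _
  have hc := corner_labz (σ := σ) hS hm hs.two h
  have hz := next_z hS hs.two q h1 h2 h3 h4
  have hzb : Bd (S.zT n s q y) (S.zg n s q x y) (zz x y) := by
    refine ⟨mem_zT_low.2 (Or.inr ⟨⟨by omega, by omega⟩, by omega, by omega⟩), ?_⟩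
    exact Slab.go_z (D := S.zslab hS hs.two (tree hS) q) h1.le h2.le
  have he := fun j => ez_spec (σ := σ) hS hm hs.two hσ h j
  have hez : ∀ j, m.ez n σ q j ≠ zz x y := fun j h5 => by
    have h6 := (he j).2.1
    rw [h5] at h6
    exact absurd h6 (by simp [zz])
  refine ⟨fun u hu => ⟨hG.next_bd hu.1, fun h5 => hu.2 ?_⟩, fun u hu v hv => ?_, fun j => ⟨(he j).1, hez j⟩,
    fun u hu hne => ?_, fun j => (he j).2.2.1, fun j => ?_⟩
  · exact hG.next_inj hu.1.2 hzb.2 (by rw [h5, hz])
  · exact cycle_z' hS hs q h1.le h2.le h3 h4 hu.1 hv.1 hu.2 hv.2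
      (tconn_z hS hs.two (tree hS) h hu.1.1 hv.1.1)
  · exact (hG.corner_next hc hu.1.2).trans (labz_step hS hm hs.two hσ h hu.1 hu.2 hne)
  · exact (hG.corner_next hc (he j).1.2).trans (he j).2.2.2

/-- the marks are in cyclic order -/
theorem cyc_z : Cyc4 (S.zg n s q x y) (m.ez n σ q) := (labCyc_z hS hm hs hσ h).cyc4

/-- labels of the boundary half edges of the domain with the end `z` -/
theorem lab_z : ∃ lab : Half ZT → Fin 4,
    (∀ u, Bd (S.zT n s q y) (S.zg n s q x y) u → u ≠ zz x y → (∀ j, u ≠ m.ez n σ q j) →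
      lab (next (S.zg n s q x y) u) = lab u) ∧
    (∀ j, Bd (S.zT n s q y) (S.zg n s q x y) (m.ez n σ q j)) ∧
    (∀ j, lab (m.ez n σ q j) = j - 1 ∧ lab (next (S.zg n s q x y) (m.ez n σ q j)) = j) ∧
    ∀ u, Bd (S.zT n s q y) (S.zg n s q x y) u → u ≠ zz x y →
      Metric.infDist (cpt n (pz u.1)) (m.arc (lab u)) ≤ 1 / 2 := by
  have hc := labCyc_z hS hm hs hσ h
  exact ⟨S.labz m n s σ q y, fun u hu hz hne => hc.step u ⟨hu, hz⟩ hne, fun j => (hc.mem j).1,
    fun j => ⟨hc.lab_e j, hc.lab_n j⟩, fun u hu hz => labz_dist hS hm hs h hu hz⟩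

end

end Shape
end Full
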