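import Pool.Agent.Full.Geo.Walls
import Pool.Agent.Full.Geo.LabelZ
import Pool.Agent.Full.Geo.Cycle

/-!
# Closed walls of a shape: existence and invariance
-/

set_option autoImplicit false

open Function Relation

namespace Full
namespace Shape
open Geo

variable {S : Shape}

lemma Sh.small {n : ℕ} (hn : 8 ≤ n) (a : Sh S n) : S.Small n a.s :=
  ⟨hn, fun v => by
    have := (a.1 v).2
    show 4 * (a.1 v : ℕ) ≤ n
    omega⟩

lemma Sh.σ_le {n : ℕ} (a : Sh S n) (j : Fin 4) : 4 * a.σ j ≤ n := by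
  have := (a.2 j).2
  show 4 * (a.2 j : ℕ) ≤ n
  omega

section geo4
variable (hS : S.Ok) (m : S.Marks) (hm : m.Ok) {n : ℕ} (hn : 8 ≤ n)
include hS hm hn

/-- criterion for the four marks -/
theorem isW4_adm (a : Sh S n) : (∃ w, IsW4 m n a w) ↔
    ∀ j : Fin 4, (mpar m n a.σ (j + 1) + mpar m n a.σ j) % 2 = 1 :=
  isW4_iff (labCyc hS m hm (a.small hn).two a.σ_le)

theorem wall4_inv (a a' : Sh S n) (hσ : ∀ j, a.σ j % 2 = a'.σ j % 2) :
    (∃ w, IsW4 m n a w) ↔ ∃ w, IsW4 m n a' w := by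
  rw [isW4_adm hS m hm hn, isW4_adm hS m hm hn]
  exact adm4_congr hm hσ

theorem exists_wall4 : ∃ a : Sh S n, ∃ w, IsW4 m n a w := by
  obtain ⟨c, hc⟩ := exists_adm4 hm hn
  refine ⟨(fun _ => ⟨0, by omega⟩, c), ?_⟩
  rw [isW4_adm hS m hm hn]
  exact hc

/-- criterion for the domain with the end `z` in the room `q` -/
theorem isWz_adm (q : S.Q) (a : Sh S n) {x y : ℤ} (h : S.In n a.s q x y) :
    (∃ w, IsWz m n q x y a w) ↔ Adm m n a.σ q :=
  isWz_iff hS (a.small hn).two (tree hS) hm h.1.1.le h.1.2.le h.2.1 h.2.2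
    (next_z hS (a.small hn).two q h.1.1 h.1.2 h.2.1 h.2.2)
    (labCyc_z hS hm (a.small hn) a.σ_le h) (labz_right hS (a.small hn).two h)

/-- the existence of a closed wall depends only on the parity of the shifts of the marks -/
theorem wall_inv (q : S.Q) (a a' : Sh S n) (hσ : ∀ j : Fin 3, a.σ j.castSucc % 2 = a'.σ j.castSucc % 2) {x y x' y' : ℤ}
    (h : S.In n a.s q x y) (h' : S.In n a'.s q x' y') :
    (∃ w, IsWz m n q x y a w) ↔ ∃ w, IsWz m n q x' y' a' w := by
  rw [isWz_adm hS m hm hn q a h, isWz_adm hS m hm hn q a' h']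
  refine adm_congr hm q fun j hj => ?_
  obtain ⟨i, rfl⟩ : ∃ i : Fin 3, i.castSucc = j := by
    revert hj j
    decide
  exact hσ i

/-- whether there is a closed wall does not depend on `z` inside a room -/
theorem wall_indep (q : S.Q) (a : Sh S n) {x y x' y' : ℤ} (h : S.In n a.s q x y) (h' : S.In n a.s q x' y') :
    (∃ w, IsWz m n q x y a w) ↔ ∃ w, IsWz m n q x' y' a w :=
  wall_inv hS m hm hn q a a (fun _ => rfl) h h'

/-- there are admissible shifts -/
theorem exists_wall (q : S.Q) {x y : ℤ} (h : ∀ a : Sh S n, S.In n a.s q x y) :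
    ∃ a : Sh S n, ∃ w, IsWz m n q x y a w := by
  obtain ⟨c, hc⟩ := exists_adm (m := m) hm hn q
  refine ⟨(fun _ => ⟨0, by omega⟩, c), ?_⟩
  rw [isWz_adm hS m hm hn q _ (h _)]
  exact hc

end geo4

end Shape
end Full
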