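import Pool.Agent.Full.Geo.LabStep
import Pool.Agent.Full.Geo.LabCyc
import Pool.Agent.Full.Geo.SC
import Pool.Agent.Full.Geo.Conn

/-!
# Labels of the boundary of the fine region of a shape

`Shape.lab` : labels of the half edges of the fine region of a shape, a corner function;
`Shape.labCyc`, `Shape.cycOk`, `Shape.exists_lab`, `Shape.lab_dist`.
-/

set_option autoImplicit false

namespace Full
open Function Relation

namespace Geo

/-- the fine rectangles of the rooms -/
def Fr.full (S : Shape) (n : ℕ) (s : S.Q × Bool → ℕ) : Fr S :=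
  ⟨Set.univ, S.fl n s, S.fr n s, S.fb n, S.ft n⟩

section
variable {S : Shape} {n : ℕ} {s : S.Q × Bool → ℕ} (hS : S.Ok)

include hS in
theorem full_ok (hs : S.Small2 n s) : (Fr.full S n s).Ok n where
  n8 := hs.1
  l1 q := by show (n : ℤ) * S.xl q ≤ n * S.xl q + s (q, false); omega
  l2 q := by
    have := hs.2 (q, false)
    show 2 * ((n : ℤ) * S.xl q + s (q, false)) ≤ 2 * (n * S.xl q) + n
    omega
  r1 q := by show (n : ℤ) * S.xr q ≤ n * S.xr q + s (q, true); omega
  r2 q := by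
    have := hs.2 (q, true)
    show 2 * ((n : ℤ) * S.xr q + s (q, true)) ≤ 2 * (n * S.xr q) + n + 2
    omega
  b1 q := le_rfl
  u1 q := le_rfl
  bu q := by
    have := Shape.fb_lt_ft (n := n) hS hs.1 q
    show S.fb n q < S.ft n q
    omega
  tch _ _ _ _ _ := ⟨rfl, rfl⟩
  dn _ _ _ _ _ := Set.mem_univ _
  up _ _ _ _ _ := Set.mem_univ _

theorem full_reg : (Fr.full S n s).Reg (S.T n s) := by
  intro t
  rw [Shape.mem_T]
  constructor
  · rintro ⟨q, h⟩
    exact ⟨q, Set.mem_univ _, Shape.mem_room.1 h⟩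
  · rintro ⟨q, -, h⟩
    exact ⟨q, Shape.mem_room.2 h⟩

theorem full_cut (x : Half (ℤ × ℤ)) : ¬ (Fr.full S n s).Cut n x := by
  rintro ⟨q, -, -, ⟨-, -, h⟩ | ⟨-, -, h⟩⟩
  · exact h rfl
  · exact h rfl

end

end Geo

namespace Shape
open Geo

variable {S : Shape} {n : ℕ} {s : S.Q × Bool → ℕ} {σ : Fin 4 → ℕ}

/-- the label of a half edge of the fine region -/
noncomputable def lab (S : Shape) (m : S.Marks) (n : ℕ) (s : S.Q × Bool → ℕ) (σ : Fin 4 → ℕ) :
    Half (ℤ × ℤ) → Fin 4 := Geo.lab (Fr.full S n s) m n σ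

section
variable (hS : S.Ok) (m : S.Marks) (hm : m.Ok) (hs : S.Small2 n s) (hσ : ∀ j, 4 * σ j ≤ n)
include hS hm hs hσ

/-- **the boundary of the fine region is a labelled cycle** -/
theorem labCyc : LabCyc (next (plane.glue (S.T n s))) {u | Bd (S.T n s) (plane.glue (S.T n s)) u}
    (m.e n σ) (S.lab m n s σ) := by
  have hF := full_ok hS hs
  have hG := plane.glu (S.T n s)
  have hm' := fun j => Geo.lab_mark (σ := σ) hS hm hσ hF full_reg j (Set.mem_univ _)
    (fun _ => rfl) (fun _ => rfl)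
  have hc := Geo.corner_lab (σ := σ) hS hm hs.1 hF full_reg
  refine ⟨fun u hu => hG.next_bd hu, fun u hu v hv => ?_, fun j => (hm' j).2.1, fun x hx hne => ?_,
    fun j => (hm' j).2.2.1, fun j => ?_⟩
  · obtain ⟨k, -, h⟩ := hG.next_trans (sc hS hs) hu hv (tconn hS hs hu.1 hv.1)
    exact ⟨k, h⟩
  · exact (hG.corner_next hc hx.2).trans (Geo.lab_step hS hm hσ hF full_reg hx (full_cut x) hne)
  · exact (hG.corner_next hc (hm' j).2.1.2).trans (hm' j).2.2.2

/-- **the marks are in cyclic order** -/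
theorem cycOk : S.CycOk m n s σ := (labCyc hS m hm hs hσ).cyc4

end

section
variable (hS : S.Ok) (m : S.Marks) (hm : m.Ok) (hs : S.Small n s) (hσ : ∀ j, 4 * σ j ≤ n)
include hS hm hs hσ

omit hσ in
theorem lab_dist {x : Half (ℤ × ℤ)} (hx : Bd (S.T n s) (plane.glue (S.T n s)) x) :
    Metric.infDist (cpt n x.1) (m.arc (S.lab m n s σ x)) ≤ 1 / 2 := by
  refine Geo.lab_dist hS hm (full_ok hS hs.two) full_reg (fun q => ?_) (fun q => ?_) hx (full_cut x)
  · have := hs.2 (q, false)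
    show 4 * ((n : ℤ) * S.xl q + s (q, false)) ≤ 4 * (n * S.xl q) + n
    omega
  · have := hs.2 (q, true)
    show 4 * ((n : ℤ) * S.xr q + s (q, true)) ≤ 4 * (n * S.xr q) + n + 4
    omega

/-- labels of the boundary half edges of the fine region; the mark `j` has the label `j - 1` -/
theorem exists_lab : ∃ lab : Half (ℤ × ℤ) → Fin 4,
    (∀ x, Bd (S.T n s) (plane.glue (S.T n s)) x → (∀ j, x ≠ m.e n σ j) →
      lab (next (plane.glue (S.T n s)) x) = lab x) ∧
    (∀ j, Bd (S.T n s) (plane.glue (S.T n s)) (m.e n σ j)) ∧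
    (∀ j, lab (m.e n σ j) = j - 1 ∧ lab (next (plane.glue (S.T n s)) (m.e n σ j)) = j) ∧
    ∀ x, Bd (S.T n s) (plane.glue (S.T n s)) x → Metric.infDist (cpt n x.1) (m.arc (lab x)) ≤ 1 / 2 := by
  have h := labCyc hS m hm hs.two hσ
  exact ⟨S.lab m n s σ, fun x hx hne => h.step x hx hne, h.mem, fun j => ⟨h.lab_e j, h.lab_n j⟩,
    fun x hx => lab_dist hS m hm hs hx⟩

end

end Shape
end Full
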