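import Pool.Agent.Full.Def.Geo
import Pool.Agent.Full.Disc.Next

/-!
# Parity of the tails of the boundary half edges

`Slab.par x y`: the parity of the tail of a half edge of the domain with the end `z = (x, y)`; it is a
corner function of `(D.T y, D.go x y)`.
`Slab.par_next`: it changes from a boundary half edge `u` to `next u`, except for `u = z` and for the side
`(inl (r, y - 1), E)` of the right wall.
-/

set_option autoImplicit false

namespace Full
open Function

/-- parity of the tail of the side `d`, relative to the tile -/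
def Dir.par : Dir → ℤ
  | .E => 1 | .N => 0 | .W => 1 | .S => 0

/-- parity of the tail of a half edge of the plane -/
def ppar : Half (ℤ × ℤ) → ℤ
  | ((i, j), d) => (i + j + d.par) % 2

lemma corner_ppar (T : Finset (ℤ × ℤ)) : Corner (plane.glue T) ppar := by
  rintro ⟨⟨i, j⟩, d⟩ hx
  rw [plane_glue] at hx ⊢
  split_ifs at hx ⊢ with h
  · cases d <;> simp [ppar, Dir.vec, Dir.opp, rho, Dir.ccw, Dir.par] <;> omega
  · exact absurd rfl hx

lemma ppar_rho (x : Half (ℤ × ℤ)) : ppar (rho x) = 1 - ppar x := by
  obtain ⟨⟨i, j⟩, d⟩ := x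
  cases d <;> simp only [ppar, rho, Dir.ccw, Dir.par] <;> omega

/-- in a plane region the parity of the tail changes along the boundary -/
theorem ppar_next (T : Finset (ℤ × ℤ)) {x : Half (ℤ × ℤ)} (hx : plane.glue T x = x) :
    ppar (next (plane.glue T) x) = 1 - ppar x := by
  rw [(plane.glu T).corner_next (corner_ppar T) hx, ppar_rho]

namespace Slab
variable (D : Slab) (x y : ℤ)

open Classical in
/-- parity of the tail; the tiles `(i, y - 1)`, `i ≥ x`, of the lower sheet are corrected at their upper
corners on the right of `z` -/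
noncomputable def par : Half ZT → ℤ
  | (.inl (i, j), d) => (i + j + d.par +
      if j = y - 1 ∧ i ≤ D.r ∧ ((x < i ∧ (d = .N ∨ d = .W)) ∨ (i = x ∧ d = .N)) then 1 else 0) % 2
  | (.inr (i, j), d) => (i + j + d.par) % 2

variable {D x y}

lemma nbE_low {l r x y i j : ℤ} : (zsurf l r x y y y).nb .E (.inl (i, j)) = some (.inl (i + 1, j)) :=
  zs_E_low_open (by omega)

lemma nbE_up {l r x y i j : ℤ} : (zsurf l r x y y y).nb .E (.inr (i, j)) = some (.inr (i + 1, j)) :=
  zs_E_up_open (by omega)

lemma nbW_low {l r x y i j : ℤ} : (zsurf l r x y y y).nb .W (.inl (i, j)) = some (.inl (i - 1, j)) := by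
  show (if y ≤ j ∧ j < y then _ else some (Sum.inl (i - 1, j))) = _
  rw [if_neg (by omega)]

lemma nbW_up {l r x y i j : ℤ} : (zsurf l r x y y y).nb .W (.inr (i, j)) = some (.inr (i - 1, j)) := by
  show (if y ≤ j ∧ j < y then _ else some (Sum.inr (i - 1, j))) = _
  rw [if_neg (by omega)]

/-- a tile of the row `y - 1` near the rectangle is in the rectangle -/
lemma row_low_mem (hb : D.b < y) (ht : y ≤ D.t) {i : ℤ} (h1 : D.l - 1 ≤ i) (h2 : i ≤ D.r + 1)
    (h : (Sum.inl (i, y - 1) : ZT) ∈ D.T y) : D.l ≤ i ∧ i ≤ D.r := by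
  rw [mem_low] at h
  rcases h with h | h
  · exact absurd h (D.hL i (y - 1) h1 h2 (by omega) (by omega))
  · exact h.1

theorem corner_par (hb : D.b < y) (ht : y ≤ D.t) (hx : D.l ≤ x) : Corner (D.go x y) (D.par x y) := by
  rintro ⟨t, d⟩ hx'
  obtain ⟨t', h1, h2, h3⟩ := Surf.glue_ne_iff.1 hx'
  have h4 : D.go x y (t, d) = (t', d.opp) := Surf.glue_of_mem h1 h2 h3
  rw [h4]
  simp only at h1 h2
  rcases t with ⟨i, j⟩ | ⟨i, j⟩
  · cases d with
    | E =>
      rw [nbE_low, Option.mem_some_iff] at h1
      subst h1
      simp only [par, Dir.opp, rho, Dir.ccw, Dir.par]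
      by_cases hj : j = y - 1
      · subst hj
        by_cases h5 : D.l - 1 ≤ i + 1 ∧ i + 1 ≤ D.r + 1
        · have h6 := row_low_mem hb ht h5.1 h5.2 h3
          split_ifs <;> simp_all <;> omega
        · split_ifs <;> simp_all <;> omega
      · split_ifs <;> simp_all <;> omega
    | W =>
      rw [nbW_low, Option.mem_some_iff] at h1
      subst h1
      simp only [par, Dir.opp, rho, Dir.ccw, Dir.par]
      split_ifs <;> simp_all <;> omega
    | N =>
      by_cases hj : j = y - 1 ∧ D.l ≤ i ∧ i ≤ D.r
      · obtain ⟨rfl, h5, h6⟩ := hj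
        have h7 : (zsurf D.l D.r x y y y).nb .N (.inl (i, y - 1)) =
            if i < x ∧ i < D.r then some (.inr (i, y)) else if x < i ∧ D.l < i then
              some (.inr (i - 1, y)) else none := by
          show (if y - 1 = y - 1 ∧ D.l ≤ i ∧ i ≤ D.r then _ else _) = _
          rw [if_pos ⟨rfl, h5, h6⟩]
        rw [h7, Option.mem_def] at h1
        split_ifs at h1 with h8 h9
        · obtain rfl := Option.some.inj h1
          simp only [par, Dir.opp, rho, Dir.ccw, Dir.par]
          split_ifs <;> simp_all <;> omega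
        · obtain rfl := Option.some.inj h1
          simp only [par, Dir.opp, rho, Dir.ccw, Dir.par]
          split_ifs <;> simp_all <;> omega
      · rw [zs_N_low hj, Option.mem_some_iff] at h1
        subst h1
        simp only [par, Dir.opp, rho, Dir.ccw, Dir.par]
        by_cases hj' : j = y - 1
        · have h5 : ¬ (D.l ≤ i ∧ i ≤ D.r) := fun h => hj ⟨hj', h⟩
          split_ifs <;> simp_all <;> omega
        · split_ifs <;> simp_all <;> omega
    | S =>
      by_cases hj : j = y ∧ D.l ≤ i ∧ i ≤ D.r
      · exfalso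
        have h7 : (zsurf D.l D.r x y y y).nb .S (.inl (i, j)) = none := by
          show (if j = y ∧ D.l ≤ i ∧ i ≤ D.r then none else _) = _
          rw [if_pos hj]
        rw [h7] at h1
        exact absurd h1 (by simp)
      · rw [zs_S_low hj, Option.mem_some_iff] at h1
        subst h1
        simp only [par, Dir.opp, rho, Dir.ccw, Dir.par]
        rw [if_neg, if_neg (by simp)]
        · omega
        · rintro ⟨h5, h6, h7⟩
          have h8 : x ≤ i := by
            rcases h7 with h7 | h7
            · exact h7.1.le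
            · exact h7.1.ge
          exact hj ⟨by omega, by omega, h6⟩
  · cases d with
    | E =>
      rw [nbE_up, Option.mem_some_iff] at h1
      subst h1
      simp only [par, Dir.opp, rho, Dir.ccw, Dir.par]
      omega
    | W =>
      rw [nbW_up, Option.mem_some_iff] at h1
      subst h1
      simp only [par, Dir.opp, rho, Dir.ccw, Dir.par]
      omega
    | N =>
      by_cases hj : j = y - 1 ∧ D.l ≤ i ∧ i < D.r
      · rw [zs_N_up_none hj] at h1
        exact absurd h1 (by simp)
      · rw [zs_N_up hj, Option.mem_some_iff] at h1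
        subst h1
        simp only [par, Dir.opp, rho, Dir.ccw, Dir.par]
        omega
    | S =>
      by_cases hj : j = y ∧ D.l ≤ i ∧ i < D.r
      · obtain ⟨rfl, h5, h6⟩ := hj
        by_cases h7 : i < x
        · rw [zs_S_left h5 h6 h7, Option.mem_some_iff] at h1
          subst h1
          simp only [par, Dir.opp, rho, Dir.ccw, Dir.par]
          split_ifs <;> simp_all <;> omega
        · rw [zs_S_right h5 h6 (not_lt.1 h7), Option.mem_some_iff] at h1
          subst h1
          simp only [par, Dir.opp, rho, Dir.ccw, Dir.par]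
          split_ifs <;> simp_all <;> omega
      · rw [zs_S_up hj, Option.mem_some_iff] at h1
        subst h1
        simp only [par, Dir.opp, rho, Dir.ccw, Dir.par]
        omega

lemma par_rho (hb : D.b < y) (ht : y < D.t) (hx : D.l ≤ x) {u : Half ZT} (hu : Bd (D.T y) (D.go x y) u)
    (hz : u ≠ z x y) (hu' : u ≠ (.inl (D.r, y - 1), .E)) : D.par x y (rho u) = 1 - D.par x y u := by
  obtain ⟨t, d⟩ := u
  obtain ⟨h0, h1⟩ := hu
  -- glued sides of the row `y - 1`
  have hg : ∀ i : ℤ, x ≤ i → i ≤ D.r → (Sum.inl (i, y - 1) : ZT) ∈ D.T y := fun i h2 h3 =>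
    mem_low.2 (Or.inr ⟨⟨by omega, h3⟩, by omega, by omega⟩)
  rcases t with ⟨i, j⟩ | ⟨i, j⟩
  · by_cases hj : j = y - 1 ∧ i ≤ D.r ∧ x ≤ i
    · obtain ⟨rfl, h2, h3⟩ := hj
      cases d with
      | E =>
        have h4 : i ≠ D.r := by rintro rfl; exact hu' rfl
        exfalso
        have h5 : D.go x y (.inl (i, y - 1), .E) = (.inl (i + 1, y - 1), .W) :=
          Surf.glue_of_mem (by rw [nbE_low]; rfl) h0 (hg _ (by omega) (by omega))
        rw [h5] at h1
        exact Dir.noConfusion (congrArg Prod.snd h1)
      | N =>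
        have h4 : i ≠ x := by rintro rfl; exact hz rfl
        have h5 : x < i := by omega
        simp [par, rho, Dir.ccw, Dir.par, h2, h5]
        omega
      | W =>
        by_cases h5 : x < i
        · exfalso
          have h5 : D.go x y (.inl (i, y - 1), .W) = (.inl (i - 1, y - 1), .E) :=
            Surf.glue_of_mem (by rw [nbW_low]; rfl) h0 (hg _ (by omega) (by omega))
          rw [h5] at h1
          exact Dir.noConfusion (congrArg Prod.snd h1)
        · have h6 : i = x := by omega
          subst h6
          simp [par, rho, Dir.ccw, Dir.par]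
          omega
      | S =>
        simp only [par, rho, Dir.ccw, Dir.par]
        rw [if_neg (by simp), if_neg (by simp)]
        omega
    · have h2 : ∀ d' : Dir, ¬ (j = y - 1 ∧ i ≤ D.r ∧ ((x < i ∧ (d' = .N ∨ d' = .W)) ∨ (i = x ∧ d' = .N))) := by
        rintro d' ⟨h2, h3, h4⟩
        refine hj ⟨h2, h3, ?_⟩
        rcases h4 with h4 | h4
        · exact h4.1.le
        · exact h4.1.ge
      have h3 : D.par x y (rho (.inl (i, j), d)) = (i + j + d.ccw.par) % 2 := by
        show (i + j + d.ccw.par + if _ then 1 else 0) % 2 = _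
        rw [if_neg (h2 _), add_zero]
      have h4 : D.par x y (.inl (i, j), d) = (i + j + d.par) % 2 := by
        show (i + j + d.par + if _ then 1 else 0) % 2 = _
        rw [if_neg (h2 _), add_zero]
      rw [h3, h4]
      cases d <;> simp only [Dir.ccw, Dir.par] <;> omega
  · cases d <;> simp only [par, rho, Dir.ccw, Dir.par] <;> omega

/-- **the parity of the tail changes along the boundary** -/
theorem par_next (hb : D.b < y) (ht : y < D.t) (hx : D.l ≤ x) {u : Half ZT} (hu : Bd (D.T y) (D.go x y) u)
    (hz : u ≠ z x y) (hu' : u ≠ (.inl (D.r, y - 1), .E)) :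
    D.par x y (next (D.go x y) u) = 1 - D.par x y u := by
  rw [glu_go.corner_next (corner_par hb ht.le hx) hu.2, par_rho hb ht hx hu hz hu']

/-- exception: the side `(r, y - 1), E` of the right wall -/
theorem par_next_right (hb : D.b < y) (ht : y < D.t) (hx : D.l ≤ x) (hx' : x ≤ D.r)
    (hu : Bd (D.T y) (D.go x y) (.inl (D.r, y - 1), .E)) :
    D.par x y (next (D.go x y) (.inl (D.r, y - 1), .E)) = D.par x y (.inl (D.r, y - 1), .E) := by
  rw [glu_go.corner_next (corner_par hb ht.le hx) hu.2]
  have h : x < D.r ∨ D.r = x := by omega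
  simp [par, rho, Dir.ccw, Dir.par, h]

/-- the exceptional side is a boundary half edge -/
theorem bd_right (hb : D.b < y) (ht : y ≤ D.t) : Bd (D.T y) (D.go x y) (.inl (D.r, y - 1), .E) := by
  refine ⟨mem_low.2 (Or.inr ⟨⟨D.hlr.le, le_rfl⟩, by omega, by omega⟩), ?_⟩
  by_contra h
  obtain ⟨t', h1, h2, h3⟩ := Surf.glue_ne_iff.1 h
  simp only at h1
  rw [nbE_low, Option.mem_some_iff] at h1
  subst h1
  have := D.hlr
  have := row_low_mem hb ht (by omega) (by omega) h3
  omega

end Slab
end Full
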