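import Pool.Agent.Full.Geo.LabCyc
import Pool.Agent.Full.Geo.Parity
import Pool.Agent.Full.Geo.Slab

/-!
# Closed walls of a shape: when do they exist

Criterion in terms of the parities of the marks; `Geo.LabCyc` (the order of the marks on the boundary) is a
hypothesis here.
-/

set_option autoImplicit false

namespace Full
open Function Build Geo

section general
variable {τ : Type*} {T : Finset τ} {g : Half τ → Half τ} {e : Fin 4 → Half τ} {lab : Half τ → Fin 4}

/-- closed walls with the four marks as ends -/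
theorem Glu.isW4_iff (hG : Glu T g) (h : LabCyc (next g) {u | Bd T g u} e lab) :
    (∃ w, IsW T g (Set.range e) w) ↔ ∀ j, Odd (ret (next g) (Set.range e) (e j)) := by
  rw [hG.exists_isW_iff fun x hx => h.reach_e hx]
  constructor
  · intro h1 j
    exact h1 _ (h.mem j) ⟨j, rfl⟩
  · rintro h1 _ _ ⟨j, rfl⟩
    exact h1 j

/-- closed walls with the ends `z`, `e 0`, `e 1`, `e 2` -/
theorem Glu.isWz_iff (hG : Glu T g) {z : Half τ} (hz' : next g z = z)
    (h : LabCyc (next g) {u | Bd T g u ∧ u ≠ z} e lab) :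
    (∃ w, IsW T g ({z} ∪ Set.range fun j : Fin 3 => e j.castSucc) w) ↔
      (Odd (ret (next g) (Set.range e) (e 0)) ∧ Odd (ret (next g) (Set.range e) (e 1)) ∧
        Odd (ret (next g) (Set.range e) (e 2) + ret (next g) (Set.range e) (e 3))) := by
  have hM : Meets T g ({z} ∪ Set.range fun j : Fin 3 => e j.castSucc) := by
    intro x hx
    by_cases hxz : x = z
    · exact ⟨1, le_rfl, Or.inl (by rw [hxz]; exact hz')⟩
    · obtain ⟨k, h1, h2⟩ := h.reach (u := x) ⟨hx, hxz⟩ (h.mem 0)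
      exact ⟨k, h1, Or.inr ⟨0, h2.symm⟩⟩
  rw [hG.exists_isW_iff hM]
  have hB : ∀ u ∈ {u | Bd T g u ∧ u ≠ z}, u ∉ ({z} : Set (Half τ)) := fun u hu => hu.2
  have h0 := h.ret_three hB 0 (by decide)
  have h1 := h.ret_three hB 1 (by decide)
  have h2 := h.ret_three hB 2 (by decide)
  rw [if_neg (by decide), add_zero] at h0 h1
  rw [if_pos rfl] at h2
  constructor
  · intro h3
    refine ⟨?_, ?_, ?_⟩
    · rw [← h0]; exact h3 _ (h.mem 0).1 (Or.inr ⟨0, rfl⟩)
    · rw [← h1]; exact h3 _ (h.mem 1).1 (Or.inr ⟨1, rfl⟩)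
    · rw [← h2]; exact h3 _ (h.mem 2).1 (Or.inr ⟨2, rfl⟩)
  · rintro ⟨h3, h4, h5⟩ x _ (h6 | ⟨j, rfl⟩)
    · have h7 : x = z := h6
      rw [h7]
      have h6 := ret_one (ν := next g) (E := {z} ∪ Set.range fun j : Fin 3 => e j.castSucc) (x := z)
        (Or.inl hz')
      rw [h6]
      exact odd_one
    · fin_cases j
      · exact h0.symm ▸ h3
      · exact h1.symm ▸ h4
      · exact h2.symm ▸ h5

end general

namespace Shape
variable {S : Shape} {m : S.Marks} {n : ℕ} {s : S.Q × Bool → ℕ} {σ : Fin 4 → ℕ}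

/-- parity of the mark `j` -/
def mpar (m : S.Marks) (n : ℕ) (σ : Fin 4 → ℕ) (j : Fin 4) : ℤ := ppar (m.e n σ j)

lemma dir_eq (hm : m.Ok) (j : Fin 4) : m.dir j = .S := by
  unfold Marks.dir
  rw [hm.low j]
  rfl

lemma mpar_eq (hm : m.Ok) (j : Fin 4) : mpar m n σ j = (n * m.x j + σ j + S.fb n (.inl (m.room j))) % 2 := by
  unfold mpar Marks.e ppar Marks.fy
  rw [dir_eq hm, hm.low j]
  simp [Dir.par]

lemma mpar_congr (hm : m.Ok) {σ' : Fin 4 → ℕ} {j : Fin 4} (h : σ j % 2 = σ' j % 2) :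
    mpar m n σ j = mpar m n σ' j := by
  rw [mpar_eq hm, mpar_eq hm]
  omega

/-- **criterion for closed walls of the fine region with the four marks** -/
theorem isW4_iff {lab : Half (ℤ × ℤ) → Fin 4}
    (h : LabCyc (next (plane.glue (S.T n s))) {u | Bd (S.T n s) (plane.glue (S.T n s)) u} (m.e n σ) lab) :
    (∃ w, IsW (S.T n s) (plane.glue (S.T n s)) (Set.range (m.e n σ)) w) ↔
      ∀ j : Fin 4, (mpar m n σ (j + 1) + mpar m n σ j) % 2 = 1 := by
  rw [(plane.glu _).isW4_iff h]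
  refine forall_congr' fun j => ?_
  have h1 := h.parity' (par := ppar) (fun u hu => by
    rw [ppar_next _ hu.2]; omega) j
  unfold mpar
  rw [← Nat.not_even_iff_odd, Nat.even_iff]
  omega

/-- the tile of the lower or of the upper sheet at the mark has the parity of the mark -/
lemma par_ez (hm : m.Ok) (D : Slab) (q : S.Q) (x y : ℤ) (j : Fin 4) :
    D.par x y (m.ez n σ q j) = mpar m n σ j := by
  unfold mpar Marks.e Marks.ez ppar
  rw [dir_eq hm]
  split_ifs <;> simp [Slab.par, Dir.par]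

/-- the admissible parities of the marks for `z` in the room `q` -/
def Adm (m : S.Marks) (n : ℕ) (σ : Fin 4 → ℕ) (q : S.Q) : Prop :=
  (mpar m n σ 1 + mpar m n σ 0 + if m.wr q = 0 then 1 else 0) % 2 = 1 ∧
    (mpar m n σ 2 + mpar m n σ 1 + if m.wr q = 1 then 1 else 0) % 2 = 1

/-- **criterion for closed walls of the domain with the end `z`** -/
theorem isWz_iff (hS : S.Ok) (hs : S.Small2 n s) (hd : S.Tree) (hm : m.Ok) {q : S.Q} {x y : ℤ}
    (h1 : S.fl n s q ≤ x) (h2 : x ≤ S.fr n s q) (h3 : S.fb n q < y) (h4 : y < S.ft n q)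
    (hz' : next (S.zg n s q x y) (zz x y) = zz x y)
    {lab : Half ZT → Fin 4} (h : LabCyc (next (S.zg n s q x y))
      {u | Bd (S.zT n s q y) (S.zg n s q x y) u ∧ u ≠ zz x y} (m.ez n σ q) lab)
    (hr : lab (.inl (S.fr n s q, y - 1), .E) = m.wr q) :
    (∃ w, IsW (S.zT n s q y) (S.zg n s q x y)
      ({zz x y} ∪ Set.range fun j : Fin 3 => m.ez n σ q j.castSucc) w) ↔ Adm m n σ q := by
  set D := S.zslab hS hs hd q with hD
  have hG : Glu (S.zT n s q y) (S.zg n s q x y) := D.glu_go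
  rw [hG.isWz_iff hz' h]
  have hb : D.b < y := h3
  have ht : y < D.t := h4
  have hl : D.l ≤ x := h1
  have hu0 : (.inl (D.r, y - 1), .E) ∈ {u | Bd (S.zT n s q y) (S.zg n s q x y) u ∧ u ≠ zz x y} := by
    refine ⟨D.bd_right hb ht.le, fun h5 => ?_⟩
    exact Dir.noConfusion (congrArg Prod.snd h5)
  have hu0' : ∀ j, ((.inl (D.r, y - 1), .E) : Half ZT) ≠ m.ez n σ q j := by
    intro j h5
    have h6 := congrArg Prod.snd h5
    unfold Marks.ez at h6
    rw [dir_eq hm] at h6
    split_ifs at h6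
  have hpar : ∀ j : Fin 4, (mpar m n σ (j + 1) + mpar m n σ j +
      ret (next (S.zg n s q x y)) (Set.range (m.ez n σ q)) (m.ez n σ q j) +
        if m.wr q = j then 1 else 0) % 2 = 0 := by
    intro j
    have h5 := h.parity (par := D.par x y) hu0 hu0' (fun u hu hu' => by
      have h6 := D.par_next hb ht hl hu.1 hu.2 hu'
      have h7 : D.par x y (next (S.zg n s q x y) u) = 1 - D.par x y u := h6
      rw [h7]; omega) (by
      have h6 := D.par_next_right hb ht hl h2 hu0.1
      have h7 : D.par x y (next (S.zg n s q x y) (.inl (D.r, y - 1), .E)) =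
        D.par x y (.inl (D.r, y - 1), .E) := h6
      rw [h7]; omega) j
    rw [par_ez hm, par_ez hm] at h5
    have h8 : lab (.inl (D.r, y - 1), .E) = m.wr q := hr
    rw [h8] at h5
    exact h5
  have p0 := hpar 0
  have p1 := hpar 1
  have p2 := hpar 2
  have p3 := hpar 3
  have hsum : ((if m.wr q = 0 then 1 else 0 : ℤ) + (if m.wr q = 1 then 1 else 0) +
      (if m.wr q = 2 then 1 else 0) + if m.wr q = 3 then 1 else 0) = 1 := by
    generalize m.wr q = w
    fin_cases w <;> rfl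
  unfold Adm
  rw [← Nat.not_even_iff_odd, ← Nat.not_even_iff_odd, ← Nat.not_even_iff_odd, Nat.even_iff, Nat.even_iff,
    Nat.even_iff]
  rw [show (0 : Fin 4) + 1 = 1 from rfl] at p0
  rw [show (1 : Fin 4) + 1 = 2 from rfl] at p1
  rw [show (2 : Fin 4) + 1 = 3 from rfl] at p2
  rw [show (3 : Fin 4) + 1 = 0 from rfl] at p3
  constructor
  · rintro ⟨h5, h6, h7⟩
    constructor <;> omega
  · rintro ⟨h5, h6⟩
    refine ⟨?_, ?_, ?_⟩ <;> omega

/-- the admissible shifts depend only on the parities of the shifts of the marks -/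
theorem adm_congr (hm : m.Ok) {σ' : Fin 4 → ℕ} (q : S.Q) (h : ∀ j, j ≠ 3 → σ j % 2 = σ' j % 2) :
    Adm m n σ q ↔ Adm m n σ' q := by
  unfold Adm
  rw [mpar_congr hm (h 0 (by decide)), mpar_congr hm (h 1 (by decide)), mpar_congr hm (h 2 (by decide))]

/-- there are admissible shifts -/
theorem exists_adm (hm : m.Ok) (hn : 8 ≤ n) (q : S.Q) :
    ∃ c : Fin 4 → Fin (n / 4), Adm m n (fun j => (c j : ℕ)) q := by
  have h4 : 2 ≤ n / 4 := by omega
  -- parities of the marks without shifts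
  set f : Fin 4 → ℤ := fun j => (n * m.x j + S.fb n (.inl (m.room j))) % 2 with hf
  have hf0 : ∀ j, f j = 0 ∨ f j = 1 := fun j => by simp only [hf]; omega
  have hmp : ∀ (σ : Fin 4 → ℕ) (j : Fin 4), mpar m n σ j = (f j + σ j) % 2 := by
    intro σ j
    rw [mpar_eq hm]
    simp only [hf]
    omega
  -- choose the parity of the mark 0, then of the marks 1, 2
  let c0 : ℕ := 0
  let c1 : ℕ := ((f 1 + f 0 + c0 + (if m.wr q = 0 then 1 else 0) + 1) % 2).toNat
  let c2 : ℕ := ((f 2 + f 1 + c1 + (if m.wr q = 1 then 1 else 0) + 1) % 2).toNat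
  have b1 : c1 < 2 := by simp only [c1]; omega
  have b2 : c2 < 2 := by simp only [c2]; omega
  refine ⟨![⟨c0, by omega⟩, ⟨c1, by omega⟩, ⟨c2, by omega⟩, ⟨0, by omega⟩], ?_⟩
  unfold Adm
  rw [hmp, hmp, hmp]
  simp only [Matrix.cons_val_zero, Matrix.cons_val_one, Matrix.cons_val]
  constructor
  · simp only [c1, c0]
    split_ifs <;> omega
  · simp only [c2]
    split_ifs <;> omega

/-- the criterion for the four marks depends only on the parities of the shifts -/
theorem adm4_congr (hm : m.Ok) {σ' : Fin 4 → ℕ} (h : ∀ j, σ j % 2 = σ' j % 2) :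
    (∀ j : Fin 4, (mpar m n σ (j + 1) + mpar m n σ j) % 2 = 1) ↔
      ∀ j : Fin 4, (mpar m n σ' (j + 1) + mpar m n σ' j) % 2 = 1 :=
  forall_congr' fun j => by rw [mpar_congr hm (h (j + 1)), mpar_congr hm (h j)]

/-- there are admissible shifts for the four marks -/
theorem exists_adm4 (hm : m.Ok) (hn : 8 ≤ n) : ∃ c : Fin 4 → Fin (n / 4),
    ∀ j : Fin 4, (mpar m n (fun j => (c j : ℕ)) (j + 1) + mpar m n (fun j => (c j : ℕ)) j) % 2 = 1 := by
  have h4 : 2 ≤ n / 4 := by omega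
  set f : Fin 4 → ℤ := fun j => (n * m.x j + S.fb n (.inl (m.room j))) % 2 with hf
  have hf0 : ∀ j, f j = 0 ∨ f j = 1 := fun j => by simp only [hf]; omega
  have hmp : ∀ (σ : Fin 4 → ℕ) (j : Fin 4), mpar m n σ j = (f j + σ j) % 2 := by
    intro σ j
    rw [mpar_eq hm]
    simp only [hf]
    omega
  have hj : ∀ j : Fin 4, ((f j + (j : ℕ)) % 2).toNat < n / 4 := fun j => by omega
  refine ⟨fun j => ⟨((f j + (j : ℕ)) % 2).toNat, hj j⟩, fun j => ?_⟩
  rw [hmp, hmp]
  have h5 : (((j + 1 : Fin 4) : ℕ) : ℤ) % 2 = ((j : ℕ) + 1) % 2 := by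
    revert j
    decide
  simp only
  have h6 := hf0 j
  have h7 := hf0 (j + 1)
  omega

end Shape
end Full
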