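import Pool.Agent.Full.Def.Shape

/-!
# Averages over admissible shifts

`Shape.norm_avSh_sub_le`: the averages of two functions over the shifts which satisfy two conditions
(depending only on the parity of the shifts of the marks) are close if the translation by `(u, v)`,
`u, v ≤ 1`, maps one condition to the other and the functions are close.
-/

set_option autoImplicit false

namespace Full
open Finset

namespace AvSh

section card
variable {V W : Type*} [Fintype V] [Fintype W] [DecidableEq V] [DecidableEq W] {M : ℕ}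

/-- the vectors with a prescribed coordinate -/
lemma card_fst (i : V) (c : Fin M) :
    (univ.filter fun a : (V → Fin M) × (W → Fin M) => a.1 i = c).card * M ≤
      Fintype.card ((V → Fin M) × (W → Fin M)) := by
  have h : ((univ.filter fun a : (V → Fin M) × (W → Fin M) => a.1 i = c) ×ˢ (univ : Finset (Fin M))).card ≤
      (univ : Finset ((V → Fin M) × (W → Fin M))).card := by
    refine Finset.card_le_card_of_injOn (fun q => (Function.update q.1.1 i q.2, q.1.2))
      (fun _ _ => Finset.mem_coe.2 (Finset.mem_univ _)) ?_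
    rintro ⟨⟨a, b⟩, x⟩ h ⟨⟨a', b'⟩, x'⟩ h' he
    simp only [Finset.coe_product, Finset.coe_filter, Finset.mem_univ, true_and, Finset.coe_univ,
      Set.mem_prod, Set.mem_ofPred_eq, Set.mem_univ, and_true] at h h'
    simp only [Prod.mk.injEq] at he
    obtain ⟨h1, rfl⟩ := he
    have h2 : x = x' := by
      have := congrFun h1 i
      simpa using this
    subst h2
    have h3 : a = a' := by
      funext k
      by_cases hk : k = i
      · rw [hk, h, h']
      · have := congrFun h1 k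
        rwa [Function.update_of_ne hk, Function.update_of_ne hk] at this
    rw [h3]
  rw [Finset.card_product, Finset.card_univ, Finset.card_univ, Fintype.card_fin] at h
  exact h

lemma card_snd (j : W) (c : Fin M) :
    (univ.filter fun a : (V → Fin M) × (W → Fin M) => a.2 j = c).card * M ≤
      Fintype.card ((V → Fin M) × (W → Fin M)) := by
  have h : ((univ.filter fun a : (V → Fin M) × (W → Fin M) => a.2 j = c) ×ˢ (univ : Finset (Fin M))).card ≤
      (univ : Finset ((V → Fin M) × (W → Fin M))).card := by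
    refine Finset.card_le_card_of_injOn (fun q => (q.1.1, Function.update q.1.2 j q.2))
      (fun _ _ => Finset.mem_coe.2 (Finset.mem_univ _)) ?_
    rintro ⟨⟨a, b⟩, x⟩ h ⟨⟨a', b'⟩, x'⟩ h' he
    simp only [Finset.coe_product, Finset.coe_filter, Finset.mem_univ, true_and, Finset.coe_univ,
      Set.mem_prod, Set.mem_ofPred_eq, Set.mem_univ, and_true] at h h'
    simp only [Prod.mk.injEq] at he
    obtain ⟨rfl, h1⟩ := he
    have h2 : x = x' := by
      have := congrFun h1 j
      simpa using this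
    subst h2
    have h3 : b = b' := by
      funext k
      by_cases hk : k = j
      · rw [hk, h, h']
      · have := congrFun h1 k
        rwa [Function.update_of_ne hk, Function.update_of_ne hk] at this
    rw [h3]
  rw [Finset.card_product, Finset.card_univ, Finset.card_univ, Fintype.card_fin] at h
  exact h

/-- the vectors with one of the coordinates equal to `c` -/
lemma card_bad (c : Fin M) (p : (V → Fin M) × (W → Fin M) → Prop) [DecidablePred p]
    (hp : ∀ a, p a → (∃ i, a.1 i = c) ∨ ∃ j, a.2 j = c) :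
    (univ.filter p).card * M ≤ (Fintype.card V + Fintype.card W) *
      Fintype.card ((V → Fin M) × (W → Fin M)) := by
  have h1 : univ.filter p ⊆ (univ.biUnion fun i : V => univ.filter fun a : (V → Fin M) × (W → Fin M) => a.1 i = c) ∪
      univ.biUnion fun j : W => univ.filter fun a : (V → Fin M) × (W → Fin M) => a.2 j = c := by
    intro a ha
    rw [Finset.mem_filter] at ha
    rw [Finset.mem_union, Finset.mem_biUnion, Finset.mem_biUnion]
    rcases hp a ha.2 with ⟨i, hi⟩ | ⟨j, hj⟩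
    · exact Or.inl ⟨i, Finset.mem_univ _, Finset.mem_filter.2 ⟨Finset.mem_univ _, hi⟩⟩
    · exact Or.inr ⟨j, Finset.mem_univ _, Finset.mem_filter.2 ⟨Finset.mem_univ _, hj⟩⟩
  have h2 := (Finset.card_le_card h1).trans (Finset.card_union_le _ _)
  have h3 : (univ.biUnion fun i : V => univ.filter fun a : (V → Fin M) × (W → Fin M) => a.1 i = c).card * M ≤
      Fintype.card V * Fintype.card ((V → Fin M) × (W → Fin M)) := by
    calc _ ≤ (∑ i : V, (univ.filter fun a : (V → Fin M) × (W → Fin M) => a.1 i = c).card) * M :=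
          Nat.mul_le_mul_right _ Finset.card_biUnion_le
      _ = ∑ i : V, (univ.filter fun a : (V → Fin M) × (W → Fin M) => a.1 i = c).card * M := by
          rw [Finset.sum_mul]
      _ ≤ ∑ _i : V, Fintype.card ((V → Fin M) × (W → Fin M)) :=
          Finset.sum_le_sum fun i _ => card_fst i c
      _ = _ := by rw [Finset.sum_const, Finset.card_univ, smul_eq_mul]
  have h4 : (univ.biUnion fun j : W => univ.filter fun a : (V → Fin M) × (W → Fin M) => a.2 j = c).card * M ≤
      Fintype.card W * Fintype.card ((V → Fin M) × (W → Fin M)) := by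
    calc _ ≤ (∑ j : W, (univ.filter fun a : (V → Fin M) × (W → Fin M) => a.2 j = c).card) * M :=
          Nat.mul_le_mul_right _ Finset.card_biUnion_le
      _ = ∑ j : W, (univ.filter fun a : (V → Fin M) × (W → Fin M) => a.2 j = c).card * M := by
          rw [Finset.sum_mul]
      _ ≤ ∑ _j : W, Fintype.card ((V → Fin M) × (W → Fin M)) :=
          Finset.sum_le_sum fun j _ => card_snd j c
      _ = _ := by rw [Finset.sum_const, Finset.card_univ, smul_eq_mul]
  calc (univ.filter p).card * M ≤ _ * M := Nat.mul_le_mul_right _ h2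
    _ ≤ _ := by rw [add_mul, add_mul]; exact add_le_add h3 h4

/-- the nearest coordinate with a given parity -/
def adj (hM : 2 ≤ M) (c x : Fin M) : Fin M :=
  if (x : ℕ) % 2 = (c : ℕ) % 2 then x
  else if h : (x : ℕ) = 0 then ⟨1, by omega⟩ else ⟨x - 1, by omega⟩

lemma adj_mod (hM : 2 ≤ M) (c x : Fin M) : (adj hM c x : ℕ) % 2 = (c : ℕ) % 2 := by
  unfold adj
  split_ifs with h1 h2
  · exact h1
  · simp only
    omega
  · simp only
    omega

/-- code of the change -/
def cod (c x : Fin M) : Fin 3 :=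
  if (x : ℕ) % 2 = (c : ℕ) % 2 then 0 else if (x : ℕ) = 0 then 1 else 2

lemma adj_inj (hM : 2 ≤ M) (c : Fin M) {x x' : Fin M} (h : adj hM c x = adj hM c x')
    (h' : cod c x = cod c x') : x = x' := by
  have h1 : (adj hM c x : ℕ) = adj hM c x' := congrArg _ h
  unfold adj at h1
  unfold cod at h'
  apply Fin.ext
  split_ifs at h1 h' <;> simp_all
  all_goals omega

/-- a condition on the parities of the second coordinates holds for a positive proportion -/
lemma card_par (hM : 2 ≤ M) (p : (V → Fin M) × (W → Fin M) → Prop) [DecidablePred p]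
    (hp : ∀ a a' : (V → Fin M) × (W → Fin M), (∀ j, (a.2 j : ℕ) % 2 = (a'.2 j : ℕ) % 2) → (p a ↔ p a'))
    {a₀ : (V → Fin M) × (W → Fin M)} (h0 : p a₀) :
    Fintype.card ((V → Fin M) × (W → Fin M)) ≤ 3 ^ Fintype.card W * (univ.filter p).card := by
  have h : (univ : Finset ((V → Fin M) × (W → Fin M))).card ≤
      ((univ : Finset (W → Fin 3)) ×ˢ (univ.filter p)).card := by
    refine Finset.card_le_card_of_injOn
      (fun a => (fun j => cod (a₀.2 j) (a.2 j), (a.1, fun j => adj hM (a₀.2 j) (a.2 j)))) ?_ ?_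
    · intro a _
      simp only [Finset.coe_product, Finset.coe_univ, Finset.coe_filter, Finset.mem_univ, true_and,
        Set.mem_prod, Set.mem_univ, Set.mem_ofPred_eq]
      exact (hp a₀ _ fun j => (adj_mod hM _ _).symm).1 h0
    · rintro ⟨a, b⟩ _ ⟨a', b'⟩ _ he
      simp only [Prod.mk.injEq] at he
      obtain ⟨h1, h2, h3⟩ := he
      refine Prod.ext h2 (funext fun j => ?_)
      exact adj_inj hM _ (congrFun h3 j) (congrFun h1 j)
  rw [Finset.card_univ, Finset.card_product, Finset.card_univ] at h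
  simpa using h

end card

section core
variable {Ω : Type*} [Fintype Ω] [DecidableEq Ω]

/-- the average over the elements with `p` -/
noncomputable def avg (p : Ω → Prop) [DecidablePred p] (f : Ω → ℂ) : ℂ :=
  (∑ a, if p a then f a else 0) / ((univ.filter p).card : ℂ)

/-- comparison of averages: `e` is a bijection from `C` to `C'` -/
theorem norm_avg_sub_le (p p' : Ω → Prop) [DecidablePred p] [DecidablePred p'] (f f' : Ω → ℂ)
    (C C' : Finset Ω) (e e' : Ω → Ω) (h1 : ∀ a ∈ C, e a ∈ C') (h2 : ∀ a ∈ C', e' a ∈ C)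
    (h3 : ∀ a ∈ C, e' (e a) = a) (h4 : ∀ a ∈ C', e (e' a) = a) {K ε δ : ℝ}
    (hpp : ∀ a ∈ C, (p a ↔ p' (e a)) ∧ (p a → ‖f a - f' (e a)‖ ≤ ε))
    (hf : ∀ a, ‖f a‖ ≤ K) (hf' : ∀ a, ‖f' a‖ ≤ K) (hε : 0 ≤ ε)
    (hC : ((univ \ C).card : ℝ) ≤ δ * (univ.filter p).card)
    (hC' : ((univ \ C').card : ℝ) ≤ δ * (univ.filter p).card)
    (hA : ∃ a, p a) (hA' : ∃ a, p' a) : ‖avg p f - avg p' f'‖ ≤ ε + 3 * K * δ := by
  obtain ⟨a₀, ha₀⟩ := hA
  obtain ⟨a₁, ha₁⟩ := hA'
  have hK : 0 ≤ K := (norm_nonneg _).trans (hf a₀)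
  set A := univ.filter p with hAdef
  set A' := univ.filter p' with hA'def
  have hApos : 0 < A.card := Finset.card_pos.2 ⟨a₀, Finset.mem_filter.2 ⟨Finset.mem_univ _, ha₀⟩⟩
  have hA'pos : 0 < A'.card := Finset.card_pos.2 ⟨a₁, Finset.mem_filter.2 ⟨Finset.mem_univ _, ha₁⟩⟩
  have hAR : (0 : ℝ) < A.card := by exact_mod_cast hApos
  have hA'R : (0 : ℝ) < A'.card := by exact_mod_cast hA'pos
  have hs1 : ((A \ (A ∩ C)).card : ℝ) ≤ δ * A.card := by
    refine le_trans ?_ hC
    exact_mod_cast Finset.card_le_card fun a ha => by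
      have h5 := Finset.mem_sdiff.1 ha
      exact Finset.mem_sdiff.2 ⟨Finset.mem_univ _, fun h6 => h5.2 (Finset.mem_inter.2 ⟨h5.1, h6⟩)⟩
  have hs2 : ((A' \ (A' ∩ C')).card : ℝ) ≤ δ * A.card := by
    refine le_trans ?_ hC'
    exact_mod_cast Finset.card_le_card fun a ha => by
      have h5 := Finset.mem_sdiff.1 ha
      exact Finset.mem_sdiff.2 ⟨Finset.mem_univ _, fun h6 => h5.2 (Finset.mem_inter.2 ⟨h5.1, h6⟩)⟩
  -- the bijection
  have m1 : ∀ a ∈ A ∩ C, e a ∈ A' ∩ C' := by
    intro a ha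
    obtain ⟨h5, h6⟩ := Finset.mem_inter.1 ha
    exact Finset.mem_inter.2 ⟨Finset.mem_filter.2 ⟨Finset.mem_univ _,
      (hpp a h6).1.1 (Finset.mem_filter.1 h5).2⟩, h1 a h6⟩
  have m2 : ∀ a ∈ A' ∩ C', e' a ∈ A ∩ C := by
    intro a ha
    obtain ⟨h5, h6⟩ := Finset.mem_inter.1 ha
    refine Finset.mem_inter.2 ⟨Finset.mem_filter.2 ⟨Finset.mem_univ _, ?_⟩, h2 a h6⟩
    refine (hpp _ (h2 a h6)).1.2 ?_
    rw [h4 a h6]
    exact (Finset.mem_filter.1 h5).2
  have hbij : ∀ F : Ω → ℂ, ∑ a ∈ A ∩ C, F (e a) = ∑ a ∈ A' ∩ C', F a := fun F =>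
    Finset.sum_bij' (fun a _ => e a) (fun a _ => e' a) m1 m2
      (fun a ha => h3 a (Finset.mem_inter.1 ha).2) (fun a ha => h4 a (Finset.mem_inter.1 ha).2)
      (fun a _ => rfl)
  have hcard : (A ∩ C).card = (A' ∩ C').card := by
    have h5 := hbij fun _ => 1
    rw [Finset.sum_const, Finset.sum_const, nsmul_eq_mul, nsmul_eq_mul, mul_one, mul_one] at h5
    exact_mod_cast h5
  have hsplit : ∀ F : Ω → ℂ, ∑ a ∈ A, F a = ∑ a ∈ A ∩ C, F a + ∑ a ∈ A \ (A ∩ C), F a := fun F => by
    rw [add_comm, Finset.sum_sdiff Finset.inter_subset_left]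
  have hsplit' : ∀ F : Ω → ℂ, ∑ a ∈ A', F a = ∑ a ∈ A' ∩ C', F a + ∑ a ∈ A' \ (A' ∩ C'), F a :=
    fun F => by rw [add_comm, Finset.sum_sdiff Finset.inter_subset_left]
  have hnA : (A.card : ℝ) = (A ∩ C).card + (A \ (A ∩ C)).card := by
    have := Finset.card_sdiff_add_card_eq_card (Finset.inter_subset_left (s₁ := A) (s₂ := C))
    rw [← this]
    push_cast
    ring
  have hnA' : (A'.card : ℝ) = (A ∩ C).card + (A' \ (A' ∩ C')).card := by
    have := Finset.card_sdiff_add_card_eq_card (Finset.inter_subset_left (s₁ := A') (s₂ := C'))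
    rw [hcard, ← this]
    push_cast
    ring
  -- the difference of the sums
  have hbound : ∀ (F : Ω → ℂ), (∀ a, ‖F a‖ ≤ K) → ∀ X : Finset Ω, ‖∑ a ∈ X, F a‖ ≤ K * X.card := by
    intro F hF X
    calc ‖∑ a ∈ X, F a‖ ≤ ∑ a ∈ X, ‖F a‖ := norm_sum_le _ _
      _ ≤ ∑ _a ∈ X, K := Finset.sum_le_sum fun a _ => hF a
      _ = K * X.card := by rw [Finset.sum_const, nsmul_eq_mul]; ring
  have hdiff : ‖∑ a ∈ A, f a - ∑ a ∈ A', f' a‖ ≤ ε * A.card + 2 * (K * (δ * A.card)) := by
    rw [hsplit f, hsplit' f', ← hbij f']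
    have e1 : ∑ a ∈ A ∩ C, f a + ∑ a ∈ A \ (A ∩ C), f a -
        (∑ a ∈ A ∩ C, f' (e a) + ∑ a ∈ A' \ (A' ∩ C'), f' a) =
        ∑ a ∈ A ∩ C, (f a - f' (e a)) +
          (∑ a ∈ A \ (A ∩ C), f a - ∑ a ∈ A' \ (A' ∩ C'), f' a) := by
      rw [Finset.sum_sub_distrib]
      ring
    rw [e1]
    have e2 : ‖∑ a ∈ A ∩ C, (f a - f' (e a))‖ ≤ ε * A.card := by
      calc _ ≤ ∑ a ∈ A ∩ C, ‖f a - f' (e a)‖ := norm_sum_le _ _
        _ ≤ ∑ _a ∈ A ∩ C, ε := by
            refine Finset.sum_le_sum fun a ha => ?_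
            obtain ⟨h5, h6⟩ := Finset.mem_inter.1 ha
            exact (hpp a h6).2 (Finset.mem_filter.1 h5).2
        _ = ε * (A ∩ C).card := by rw [Finset.sum_const, nsmul_eq_mul]; ring
        _ ≤ ε * A.card := by
            refine mul_le_mul_of_nonneg_left ?_ hε
            exact_mod_cast Finset.card_le_card Finset.inter_subset_left
    have e3 : ‖∑ a ∈ A \ (A ∩ C), f a‖ ≤ K * (δ * A.card) :=
      (hbound f hf _).trans (mul_le_mul_of_nonneg_left hs1 hK)
    have e4 : ‖∑ a ∈ A' \ (A' ∩ C'), f' a‖ ≤ K * (δ * A.card) :=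
      (hbound f' hf' _).trans (mul_le_mul_of_nonneg_left hs2 hK)
    calc _ ≤ _ + _ := norm_add_le _ _
      _ ≤ ε * A.card + (K * (δ * A.card) + K * (δ * A.card)) :=
          add_le_add e2 ((norm_sub_le _ _).trans (add_le_add e3 e4))
      _ = _ := by ring
  have hcd : |(A'.card : ℝ) - A.card| ≤ δ * A.card := by
    rw [abs_le]
    have h5 : (0 : ℝ) ≤ ((A \ (A ∩ C)).card : ℝ) := by positivity
    have h6 : (0 : ℝ) ≤ ((A' \ (A' ∩ C')).card : ℝ) := by positivity
    constructor <;> linarith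
  have hav : avg p f = (∑ a ∈ A, f a) / (A.card : ℂ) := by
    unfold avg
    rw [← Finset.sum_filter]
  have hav' : avg p' f' = (∑ a ∈ A', f' a) / (A'.card : ℂ) := by
    unfold avg
    rw [← Finset.sum_filter]
  have hAC : (A.card : ℂ) ≠ 0 := by exact_mod_cast hApos.ne'
  have hA'C : (A'.card : ℂ) ≠ 0 := by exact_mod_cast hA'pos.ne'
  have hform : avg p f - avg p' f' = (∑ a ∈ A, f a - ∑ a ∈ A', f' a) / (A.card : ℂ) +
      (∑ a ∈ A', f' a) / (A'.card : ℂ) * (((A'.card : ℂ) - (A.card : ℂ)) / (A.card : ℂ)) := by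
    rw [hav, hav']
    field_simp
    ring
  have t1 : ‖(∑ a ∈ A, f a - ∑ a ∈ A', f' a) / (A.card : ℂ)‖ ≤
      (ε * A.card + 2 * (K * (δ * A.card))) / A.card := by
    rw [norm_div, Complex.norm_natCast]
    exact div_le_div_of_nonneg_right hdiff hAR.le
  have t2 : ‖(∑ a ∈ A', f' a) / (A'.card : ℂ)‖ ≤ K := by
    rw [norm_div, Complex.norm_natCast, div_le_iff₀ hA'R]
    exact hbound f' hf' _
  have t3 : ‖((A'.card : ℂ) - (A.card : ℂ)) / (A.card : ℂ)‖ ≤ δ := by
    rw [norm_div, Complex.norm_natCast, div_le_iff₀ hAR]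
    have : ((A'.card : ℂ) - (A.card : ℂ)) = (((A'.card : ℝ) - (A.card : ℝ) : ℝ) : ℂ) := by push_cast; ring
    rw [this, Complex.norm_real]
    exact hcd
  calc ‖avg p f - avg p' f'‖ ≤ (ε * A.card + 2 * (K * (δ * A.card))) / A.card + K * δ := by
        rw [hform]
        refine (norm_add_le _ _).trans (add_le_add t1 ?_)
        rw [norm_mul]
        exact mul_le_mul t2 t3 (norm_nonneg _) hK
    _ = ε + 3 * K * δ := by
        field_simp
        ring

/-- an average is a mixture of the averages over two parts -/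
theorem norm_avg_and_le (p r : Ω → Prop) [DecidablePred p] [DecidablePred r] (f : Ω → ℂ) :
    ‖avg p f - avg (fun a => p a ∧ r a) f‖ ≤
      ‖avg (fun a => p a ∧ r a) f - avg (fun a => p a ∧ ¬ r a) f‖ := by
  set A := univ.filter p with hA
  set B := univ.filter (fun a => p a ∧ r a) with hB
  set D := univ.filter (fun a => p a ∧ ¬ r a) with hD
  have hBD : Disjoint B D := by
    rw [Finset.disjoint_left]
    intro a h1 h2
    exact (Finset.mem_filter.1 h2).2.2 (Finset.mem_filter.1 h1).2.2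
  have hU : A = B ∪ D := by
    ext a
    simp only [hA, hB, hD, Finset.mem_filter, Finset.mem_univ, true_and, Finset.mem_union]
    tauto
  have e1 : avg p f = (∑ a ∈ B, f a + ∑ a ∈ D, f a) / ((B.card : ℂ) + D.card) := by
    unfold avg
    rw [← Finset.sum_filter, ← hA, hU, Finset.sum_union hBD, Finset.card_union_of_disjoint hBD]
    push_cast
    rfl
  have e2 : avg (fun a => p a ∧ r a) f = (∑ a ∈ B, f a) / (B.card : ℂ) := by
    unfold avg
    rw [← Finset.sum_filter]
  have e3 : avg (fun a => p a ∧ ¬ r a) f = (∑ a ∈ D, f a) / (D.card : ℂ) := by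
    unfold avg
    rw [← Finset.sum_filter]
  rcases Finset.eq_empty_or_nonempty B with h1 | h1
  · rw [e1, e2, e3, h1]
    simp
  rcases Finset.eq_empty_or_nonempty D with h2 | h2
  · rw [e1, e2, e3, h2]
    simp only [Finset.sum_empty, add_zero, Finset.card_empty, Nat.cast_zero, sub_self, norm_zero]
    positivity
  have hb : (0 : ℝ) < B.card := by exact_mod_cast Finset.card_pos.2 h1
  have hd : (0 : ℝ) < D.card := by exact_mod_cast Finset.card_pos.2 h2
  have hbC : (B.card : ℂ) ≠ 0 := by exact_mod_cast hb.ne'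
  have hdC : (D.card : ℂ) ≠ 0 := by exact_mod_cast hd.ne'
  have hbdC : (B.card : ℂ) + D.card ≠ 0 := by
    have : ((B.card : ℝ) + D.card) ≠ 0 := by positivity
    exact_mod_cast this
  have e4 : avg p f - avg (fun a => p a ∧ r a) f =
      -(((D.card : ℝ) / ((B.card : ℝ) + D.card) : ℝ) : ℂ) *
        (avg (fun a => p a ∧ r a) f - avg (fun a => p a ∧ ¬ r a) f) := by
    rw [e1, e2, e3]
    push_cast
    field_simp
    ring
  rw [e4, norm_mul, norm_neg, Complex.norm_real]
  refine mul_le_of_le_one_left (norm_nonneg _) ?_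
  rw [Real.norm_of_nonneg (by positivity), div_le_one (by positivity)]
  linarith

end core

section shift
variable {V W : Type*} [Fintype V] [Fintype W] [DecidableEq V] [DecidableEq W] {M : ℕ}

/-- the vectors far from the ends -/
def Far (N : ℕ) (a : (V → Fin M) × (W → Fin M)) : Prop :=
  (∀ i, N ≤ (a.1 i : ℕ) ∧ (a.1 i : ℕ) + N < M) ∧ ∀ j, N ≤ (a.2 j : ℕ) ∧ (a.2 j : ℕ) + N < M

/-- shift of a coordinate -/
def mv (c : ℤ) (x : Fin M) : Fin M :=
  if h : 0 ≤ (x : ℤ) + c ∧ (x : ℤ) + c < M then ⟨((x : ℤ) + c).toNat, by omega⟩ else x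

lemma mv_val {c : ℤ} {x : Fin M} (h : 0 ≤ (x : ℤ) + c ∧ (x : ℤ) + c < M) :
    ((mv c x : ℕ) : ℤ) = x + c := by
  unfold mv
  rw [dif_pos h]
  simp only
  omega

/-- the shift -/
def mvs (u : V → ℤ) (v : W → ℤ) (a : (V → Fin M) × (W → Fin M)) : (V → Fin M) × (W → Fin M) :=
  (fun i => mv (u i) (a.1 i), fun j => mv (v j) (a.2 j))

/-- many bad values -/
lemma card_bads (b : Finset (Fin M)) (p : (V → Fin M) × (W → Fin M) → Prop) [DecidablePred p]
    (hp : ∀ a, p a → (∃ i, a.1 i ∈ b) ∨ ∃ j, a.2 j ∈ b) :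
    (univ.filter p).card * M ≤ b.card * ((Fintype.card V + Fintype.card W) *
      Fintype.card ((V → Fin M) × (W → Fin M))) := by
  classical
  have h1 : univ.filter p ⊆ b.biUnion fun c => univ.filter fun a : (V → Fin M) × (W → Fin M) =>
      (∃ i, a.1 i = c) ∨ ∃ j, a.2 j = c := by
    intro a ha
    rw [Finset.mem_filter] at ha
    rw [Finset.mem_biUnion]
    rcases hp a ha.2 with ⟨i, hi⟩ | ⟨j, hj⟩
    · exact ⟨_, hi, Finset.mem_filter.2 ⟨Finset.mem_univ _, Or.inl ⟨i, rfl⟩⟩⟩
    · exact ⟨_, hj, Finset.mem_filter.2 ⟨Finset.mem_univ _, Or.inr ⟨j, rfl⟩⟩⟩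
  calc (univ.filter p).card * M ≤ (∑ c ∈ b, (univ.filter fun a : (V → Fin M) × (W → Fin M) =>
        (∃ i, a.1 i = c) ∨ ∃ j, a.2 j = c).card) * M :=
        Nat.mul_le_mul_right _ ((Finset.card_le_card h1).trans Finset.card_biUnion_le)
    _ = ∑ c ∈ b, (univ.filter fun a : (V → Fin M) × (W → Fin M) =>
        (∃ i, a.1 i = c) ∨ ∃ j, a.2 j = c).card * M := by rw [Finset.sum_mul]
    _ ≤ ∑ _c ∈ b, (Fintype.card V + Fintype.card W) * Fintype.card ((V → Fin M) × (W → Fin M)) :=
        Finset.sum_le_sum fun c _ => card_bad c _ fun a ha => ha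
    _ = _ := by rw [Finset.sum_const, smul_eq_mul]

/-- few values are near the ends -/
lemma card_ends (k : ℕ) : (univ.filter fun x : Fin M => (x : ℕ) < k ∨ M ≤ (x : ℕ) + k).card ≤ 2 * k := by
  have h1 : (univ.filter fun x : Fin M => (x : ℕ) < k ∨ M ≤ (x : ℕ) + k).card ≤
      (Finset.range k ∪ Finset.Ico (M - k) M).card := by
    refine Finset.card_le_card_of_injOn (fun x => (x : ℕ)) ?_ ?_
    · intro x hx
      have h2 := (Finset.mem_filter.1 (Finset.mem_coe.1 hx)).2
      refine Finset.mem_coe.2 (Finset.mem_union.2 ?_)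
      rcases h2 with h2 | h2
      · exact Or.inl (Finset.mem_range.2 h2)
      · right
        rw [Finset.mem_Ico]
        have := x.2
        constructor
        · show M - k ≤ (x : ℕ)
          omega
        · exact this
    · intro x _ y _ h
      exact Fin.ext h
  refine h1.trans ((Finset.card_union_le _ _).trans ?_)
  rw [Finset.card_range, Nat.card_Ico]
  omega

/-- **comparison of averages**, integer shifts of size at most `N` -/
theorem norm_avg_mv_le {N : ℕ} (hN : 1 ≤ N) (p p' : (V → Fin M) × (W → Fin M) → Prop) [DecidablePred p]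
    [DecidablePred p'] (f f' : (V → Fin M) × (W → Fin M) → ℂ)
    (u : V → ℤ) (v : W → ℤ) (hu : ∀ i, |u i| ≤ N) (hv : ∀ i, |v i| ≤ N) {K ε : ℝ} (hK : 0 ≤ K)
    (hf : ∀ a, ‖f a‖ ≤ K) (hf' : ∀ a, ‖f' a‖ ≤ K)
    (hp : ∀ a a' : (V → Fin M) × (W → Fin M), (∀ j, (a.2 j : ℕ) % 2 = (a'.2 j : ℕ) % 2) → (p a ↔ p a'))
    (hp' : ∀ a a' : (V → Fin M) × (W → Fin M), (∀ j, (a.2 j : ℕ) % 2 = (a'.2 j : ℕ) % 2) → (p' a ↔ p' a'))
    (hpp : ∀ a, Far N a → (p a ↔ p' (mvs u v a)) ∧ (p a → ‖f a - f' (mvs u v a)‖ ≤ ε))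
    (hε : 0 ≤ ε) (hW : 1 ≤ Fintype.card W) (hM : 2 * N + 2 ≤ M) :
    ‖avg p f - avg p' f'‖ ≤
      ε + 12 * 3 ^ Fintype.card W * K * N * (Fintype.card V + Fintype.card W) / M := by
  classical
  have hM0 : (0 : ℝ) < M := by exact_mod_cast (show 0 < M by omega)
  have hval1 : ∀ a : (V → Fin M) × (W → Fin M), Far N a → ∀ i, (((mvs u v a).1 i : ℕ) : ℤ) = a.1 i + u i := by
    intro a ha i
    have h1 := ha.1 i
    have h2 := abs_le.1 (hu i)
    exact mv_val ⟨by omega, by omega⟩
  have hval2 : ∀ a : (V → Fin M) × (W → Fin M), Far N a → ∀ j, (((mvs u v a).2 j : ℕ) : ℤ) = a.2 j + v j := by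
    intro a ha j
    have h1 := ha.2 j
    have h2 := abs_le.1 (hv j)
    exact mv_val ⟨by omega, by omega⟩
  have hback : ∀ a : (V → Fin M) × (W → Fin M), Far N a →
      mvs (fun i => -u i) (fun j => -v j) (mvs u v a) = a := by
    intro a ha
    refine Prod.ext (funext fun i => Fin.ext ?_) (funext fun j => Fin.ext ?_)
    · have h1 := hval1 a ha i
      have h2 : ((mv (-u i) ((mvs u v a).1 i) : ℕ) : ℤ) = (mvs u v a).1 i + -u i :=
        mv_val ⟨by omega, by omega⟩
      show (mv (-u i) ((mvs u v a).1 i) : ℕ) = a.1 i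
      omega
    · have h1 := hval2 a ha j
      have h2 : ((mv (-v j) ((mvs u v a).2 j) : ℕ) : ℤ) = (mvs u v a).2 j + -v j :=
        mv_val ⟨by omega, by omega⟩
      show (mv (-v j) ((mvs u v a).2 j) : ℕ) = a.2 j
      omega
  -- if one condition is never satisfied, neither is the other
  have hex : (∃ a, p a) ↔ ∃ a, p' a := by
    constructor
    · rintro ⟨a, ha⟩
      have hg : Far N ((fun _ => ⟨N, by omega⟩, fun j => if (a.2 j : ℕ) % 2 = N % 2 then ⟨N, by omega⟩
          else ⟨N + 1, by omega⟩) : (V → Fin M) × (W → Fin M)) := by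
        constructor
        · intro i
          simp only
          omega
        · intro j
          simp only
          split_ifs <;> simp only <;> omega
      refine ⟨_, (hpp _ hg).1.1 ((hp a _ fun j => ?_).1 ha)⟩
      simp only
      split_ifs <;> simp only <;> omega
    · rintro ⟨a, ha⟩
      have hg : Far N ((fun _ => ⟨N, by omega⟩, fun j => if ((a.2 j : ℤ) - v j - N) % 2 = 0 then
          ⟨N, by omega⟩ else ⟨N + 1, by omega⟩) : (V → Fin M) × (W → Fin M)) := by
        constructor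
        · intro i
          simp only
          omega
        · intro j
          simp only
          split_ifs <;> simp only <;> omega
      refine ⟨_, (hpp _ hg).1.2 ((hp' a _ fun j => ?_).1 ha)⟩
      have h1 := hval2 _ hg j
      simp only at h1
      split_ifs at h1 with h2
      · simp only at h1
        omega
      · simp only at h1
        push_cast at h1
        omega
  by_cases hA : ∃ a, p a
  swap
  · have h1 : avg p f = 0 := by
      unfold avg
      rw [Finset.sum_eq_zero (fun a _ => if_neg fun h => hA ⟨a, h⟩), zero_div]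
    have h2 : avg p' f' = 0 := by
      unfold avg
      rw [Finset.sum_eq_zero (fun a _ => if_neg fun h => hA (hex.2 ⟨a, h⟩)), zero_div]
    rw [h1, h2, sub_zero, norm_zero]
    positivity
  obtain ⟨a₀, ha₀⟩ := hA
  set n : ℝ := (Fintype.card ((V → Fin M) × (W → Fin M)) : ℝ) with hn
  set d : ℝ := (Fintype.card V + Fintype.card W : ℝ) with hd
  have hcardA : n ≤ 3 ^ Fintype.card W * ((univ.filter p).card : ℝ) := by
    have := card_par (by omega) p hp ha₀
    rw [hn]
    exact_mod_cast this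
  have hd0 : 0 ≤ d := by rw [hd]; positivity
  -- the bad vectors
  have hb : ∀ (q : (V → Fin M) × (W → Fin M) → Prop) (_ : DecidablePred q),
      (∀ a, q a → (∃ i, (a.1 i : ℕ) < 2 * N ∨ M ≤ (a.1 i : ℕ) + 2 * N) ∨
        ∃ j, (a.2 j : ℕ) < 2 * N ∨ M ≤ (a.2 j : ℕ) + 2 * N) →
      ((univ.filter q).card : ℝ) ≤ 4 * 3 ^ Fintype.card W * N * d / M * (univ.filter p).card := by
    intro q _ hq
    have h1 := card_bads (V := V) (W := W) (univ.filter fun x : Fin M => (x : ℕ) < 2 * N ∨ M ≤ (x : ℕ) + 2 * N)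
      q (fun a ha => (hq a ha).imp
        (fun ⟨i, hi⟩ => ⟨i, Finset.mem_filter.2 ⟨Finset.mem_univ _, hi⟩⟩)
        (fun ⟨i, hi⟩ => ⟨i, Finset.mem_filter.2 ⟨Finset.mem_univ _, hi⟩⟩))
    have h2 := h1.trans (Nat.mul_le_mul_right _ (card_ends (M := M) (2 * N)))
    have h3 : ((univ.filter q).card : ℝ) * M ≤ 4 * N * (d * n) := by
      have h4 : (((univ.filter q).card * M : ℕ) : ℝ) ≤ ((2 * (2 * N) * ((Fintype.card V + Fintype.card W) *
        Fintype.card ((V → Fin M) × (W → Fin M))) : ℕ) : ℝ) := by exact_mod_cast h2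
      push_cast at h4
      rw [hd, hn]
      linarith
    have h5 : (4 * N * d : ℝ) * n ≤ (4 * N * d) * (3 ^ Fintype.card W * ((univ.filter p).card : ℝ)) :=
      mul_le_mul_of_nonneg_left hcardA (by positivity)
    rw [← mul_le_mul_iff_left₀ hM0]
    calc ((univ.filter q).card : ℝ) * M ≤ 4 * N * (d * n) := h3
      _ = (4 * N * d : ℝ) * n := by ring
      _ ≤ (4 * N * d) * (3 ^ Fintype.card W * ((univ.filter p).card : ℝ)) := h5
      _ = 4 * 3 ^ Fintype.card W * N * d / M * (univ.filter p).card * M := by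
        field_simp
  have hC : ((univ \ univ.filter (Far (V := V) (W := W) (M := M) N)).card : ℝ) ≤
      4 * 3 ^ Fintype.card W * N * d / M * (univ.filter p).card := by
    have h1 : univ \ univ.filter (Far (V := V) (W := W) (M := M) N) = univ.filter fun a => ¬ Far N a := by
      ext a
      simp
    rw [h1]
    refine hb _ _ fun a ha => ?_
    by_contra h
    push Not at h
    apply ha
    constructor
    · intro i
      have := h.1 i
      omega
    · intro j
      have := h.2 j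
      omega
  have hC' : ((univ \ (univ.filter (Far (V := V) (W := W) (M := M) N)).image (mvs u v)).card : ℝ) ≤
      4 * 3 ^ Fintype.card W * N * d / M * (univ.filter p).card := by
    have h1 : univ \ (univ.filter (Far (V := V) (W := W) (M := M) N)).image (mvs u v) =
        univ.filter fun a => a ∉ (univ.filter (Far (V := V) (W := W) (M := M) N)).image (mvs u v) := by
      ext a
      simp
    rw [h1]
    refine hb _ _ fun a ha => ?_
    by_contra h
    push Not at h
    apply ha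
    have hx1 : ∀ i, ((mv (-u i) (a.1 i) : ℕ) : ℤ) = a.1 i + -u i := fun i => by
      have := h.1 i
      have := abs_le.1 (hu i)
      exact mv_val ⟨by omega, by omega⟩
    have hx2 : ∀ i, ((mv (-v i) (a.2 i) : ℕ) : ℤ) = a.2 i + -v i := fun i => by
      have := h.2 i
      have := abs_le.1 (hv i)
      exact mv_val ⟨by omega, by omega⟩
    have hfar : Far N (mvs (fun i => -u i) (fun j => -v j) a) := by
      constructor
      · intro i
        have h2 := h.1 i
        have h3 := abs_le.1 (hu i)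
        have h4 := hx1 i
        have h5 : ((mvs (fun i => -u i) (fun j => -v j) a).1 i : ℕ) = mv (-u i) (a.1 i) := rfl
        omega
      · intro i
        have h2 := h.2 i
        have h3 := abs_le.1 (hv i)
        have h4 := hx2 i
        have h5 : ((mvs (fun i => -u i) (fun j => -v j) a).2 i : ℕ) = mv (-v i) (a.2 i) := rfl
        omega
    refine Finset.mem_image.2 ⟨_, Finset.mem_filter.2 ⟨Finset.mem_univ _, hfar⟩, ?_⟩
    refine Prod.ext (funext fun i => Fin.ext ?_) (funext fun j => Fin.ext ?_)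
    · have h2 := hval1 _ hfar i
      have h3 := hx1 i
      have h4 : ((mvs (fun i => -u i) (fun j => -v j) a).1 i : ℕ) = mv (-u i) (a.1 i) := rfl
      omega
    · have h2 := hval2 _ hfar j
      have h3 := hx2 j
      have h4 : ((mvs (fun i => -u i) (fun j => -v j) a).2 j : ℕ) = mv (-v j) (a.2 j) := rfl
      omega
  have h := norm_avg_sub_le p p' f f' (univ.filter (Far N)) ((univ.filter (Far N)).image (mvs u v))
    (mvs u v) (mvs (fun i => -u i) (fun j => -v j)) (fun a ha => Finset.mem_image_of_mem _ ha)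
    (fun a ha => by
      obtain ⟨b, hb, rfl⟩ := Finset.mem_image.1 ha
      rw [hback b (Finset.mem_filter.1 hb).2]
      exact hb)
    (fun a ha => hback a (Finset.mem_filter.1 ha).2)
    (fun a ha => by
      obtain ⟨b, hb, rfl⟩ := Finset.mem_image.1 ha
      rw [hback b (Finset.mem_filter.1 hb).2])
    (fun a ha => hpp a (Finset.mem_filter.1 ha).2) hf hf' hε hC hC' ⟨a₀, ha₀⟩ (hex.1 ⟨a₀, ha₀⟩)
  refine h.trans (le_of_eq ?_)
  ring

end shift

end AvSh

namespace Shape

/-- **averages over the admissible shifts**, integer translations of size at most `N`: `p`, `p'` depend only on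
the parities of the shifts of the marks and correspond under the translation by `(u, v)` away from the ends -/
theorem norm_avSh_sub_le_int {S : Shape} {n N : ℕ} (p p' : Sh S n → Prop) (f f' : Sh S n → ℂ)
    (u : S.Q × Bool → ℤ) (v : Fin 4 → ℤ) (hu : ∀ i, |u i| ≤ N) (hv : ∀ i, |v i| ≤ N) {K ε : ℝ}
    (hf : ∀ a, ‖f a‖ ≤ K) (hf' : ∀ a, ‖f' a‖ ≤ K)
    (hp : ∀ a a' : Sh S n, (∀ j, a.σ j % 2 = a'.σ j % 2) → (p a ↔ p a'))
    (hp' : ∀ a a' : Sh S n, (∀ j, a.σ j % 2 = a'.σ j % 2) → (p' a ↔ p' a'))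
    (hpp : ∀ a a' : Sh S n, (∀ i, (a'.s i : ℤ) = a.s i + u i) → (∀ j, (a'.σ j : ℤ) = a.σ j + v j) →
      (∀ i, N ≤ a.s i ∧ a.s i + N < n / 4) → (∀ j, N ≤ a.σ j ∧ a.σ j + N < n / 4) →
      (p a ↔ p' a') ∧ (p a → ‖f a - f' a'‖ ≤ ε)) (hε : 0 ≤ ε) (hN : 1 ≤ N) (hn : 8 * N + 8 ≤ n) :
    ‖avSh n p f - avSh n p' f'‖ ≤ ε + 8000 * K * N * (2 * Fintype.card S.Q + 4) / n := by
  classical
  have hK : 0 ≤ K := (norm_nonneg _).trans (hf (fun _ => ⟨0, by omega⟩, fun _ => ⟨0, by omega⟩))
  have h := AvSh.norm_avg_mv_le (V := S.Q × Bool) (W := Fin 4) (M := n / 4) hN p p' f f' u v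
    hu hv hK hf hf' hp hp' (fun a ha => ?_) hε (by decide) (by omega)
  · have h1 : (n : ℝ) / 8 ≤ ((n / 4 : ℕ) : ℝ) := by
      have h2 : n ≤ 8 * (n / 4) := by omega
      have h3 : (n : ℝ) ≤ 8 * ((n / 4 : ℕ) : ℝ) := by exact_mod_cast h2
      linarith
    have hn0 : (0 : ℝ) < n := by exact_mod_cast (show 0 < n by omega)
    refine le_trans (le_of_eq ?_) (h.trans ?_)
    · rfl
    · rw [Fintype.card_prod, Fintype.card_bool, Fintype.card_fin]
      refine add_le_add le_rfl ?_
      push_cast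
      rw [div_le_div_iff₀ (by linarith) hn0]
      have h4 : 0 ≤ K * N * (2 * (Fintype.card S.Q : ℝ) + 4) := by positivity
      have h5 := mul_le_mul_of_nonneg_left h1 h4
      have h6 : 0 ≤ K * N * (2 * (Fintype.card S.Q : ℝ) + 4) * ((n / 4 : ℕ) : ℝ) := by positivity
      nlinarith [h5, h6]
  · refine hpp a _ (fun i => ?_) (fun j => ?_) ha.1 ha.2
    · have h1 := ha.1 i
      have h2 := abs_le.1 (hu i)
      exact AvSh.mv_val ⟨by omega, by omega⟩
    · have h1 := ha.2 j
      have h2 := abs_le.1 (hv j)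
      exact AvSh.mv_val ⟨by omega, by omega⟩

/-- **averages over the admissible shifts**: translation by `(u, v)`, `u, v ≤ 1` -/
theorem norm_avSh_sub_le {S : Shape} {n : ℕ} (p p' : Sh S n → Prop) (f f' : Sh S n → ℂ)
    (u : S.Q × Bool → ℕ) (v : Fin 4 → ℕ) (hu : ∀ i, u i ≤ 1) (hv : ∀ i, v i ≤ 1) {K ε : ℝ}
    (hf : ∀ a, ‖f a‖ ≤ K) (hf' : ∀ a, ‖f' a‖ ≤ K)
    (hp : ∀ a a' : Sh S n, (∀ j, a.σ j % 2 = a'.σ j % 2) → (p a ↔ p a'))
    (hp' : ∀ a a' : Sh S n, (∀ j, a.σ j % 2 = a'.σ j % 2) → (p' a ↔ p' a'))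
    (hpp : ∀ a a' : Sh S n, (∀ i, a'.s i = a.s i + u i) → (∀ j, a'.σ j = a.σ j + v j) →
      (p a ↔ p' a') ∧ (p a → ‖f a - f' a'‖ ≤ ε)) (hε : 0 ≤ ε) (hn : 16 ≤ n) :
    ‖avSh n p f - avSh n p' f'‖ ≤ ε + 8000 * K * (2 * Fintype.card S.Q + 4) / n := by
  have h := norm_avSh_sub_le_int (N := 1) p p' f f' (fun i => (u i : ℤ)) (fun j => (v j : ℤ))
    (fun i => by have := hu i; rw [abs_of_nonneg (by positivity)]; exact_mod_cast this)
    (fun i => by have := hv i; rw [abs_of_nonneg (by positivity)]; exact_mod_cast this)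
    hf hf' hp hp' (fun a a' h1 h2 _ _ => hpp a a' (fun i => by have := h1 i; omega)
      (fun j => by have := h2 j; omega)) hε le_rfl (by omega)
  simpa using h

/-- **averages with one more condition**: `r` changes when the shift of the mark `j` is increased by one, `p` and
`f` do not -/
theorem norm_avSh_and_le {S : Shape} {n : ℕ} (p r : Sh S n → Prop) (f : Sh S n → ℂ) (j : Fin 4) {K : ℝ}
    (hf : ∀ a, ‖f a‖ ≤ K)
    (hp : ∀ a a' : Sh S n, (∀ j, a.σ j % 2 = a'.σ j % 2) → (p a ↔ p a'))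
    (hr : ∀ a a' : Sh S n, (∀ j, a.σ j % 2 = a'.σ j % 2) → (r a ↔ r a'))
    (hj : ∀ a a' : Sh S n, (∀ i, a'.s i = a.s i) → (∀ k, k ≠ j → a'.σ k = a.σ k) → a'.σ j = a.σ j + 1 →
      (p a ↔ p a') ∧ (r a ↔ ¬ r a') ∧ f a = f a') (hn : 16 ≤ n) :
    ‖avSh n p f - avSh n (fun a => p a ∧ r a) f‖ ≤ 8000 * K * (2 * Fintype.card S.Q + 4) / n := by
  classical
  have h1 : ‖avSh n p f - avSh n (fun a => p a ∧ r a) f‖ ≤
      ‖avSh n (fun a => p a ∧ r a) f - avSh n (fun a => p a ∧ ¬ r a) f‖ := by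
    refine le_trans (le_of_eq ?_) ((AvSh.norm_avg_and_le p r f).trans (le_of_eq ?_))
    · unfold avSh AvSh.avg
      congr!
    · unfold avSh AvSh.avg
      congr!
  have h2 := norm_avSh_sub_le (fun a => p a ∧ r a) (fun a => p a ∧ ¬ r a) f f (fun _ => 0)
    (fun k => if k = j then 1 else 0) (fun _ => by norm_num) (fun k => by split_ifs <;> norm_num)
    hf hf (fun a a' h => and_congr (hp a a' h) (hr a a' h))
    (fun a a' h => and_congr (hp a a' h) (not_congr (hr a a' h)))
    (fun a a' h1 h2 => by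
      obtain ⟨h3, h4, h5⟩ := hj a a' (fun i => by rw [h1 i]; rfl)
        (fun k hk => by rw [h2 k, if_neg hk, add_zero]) (by rw [h2 j, if_pos rfl])
      refine ⟨and_congr h3 h4, fun _ => ?_⟩
      rw [h5, sub_self, norm_zero]) (le_refl (0 : ℝ)) hn
  rw [zero_add] at h2
  exact h1.trans h2

end Shape
end Full
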