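import Pool.Agent.Full.Geo.Shift

/-!
# Moving the interior end: the two domains are the same outside the window
-/

set_option autoImplicit false

namespace Full.Geo
open Function Full.Loc

variable {Q : Type*}

/-- `(T, g)` is the two-sheet domain with the end `z = (x, y)` in the room `k` -/
structure Dom2 (X : Bxs Q) (k : Q) (lo : Q → Prop) (x y : ℤ) (T : Finset ZT)
    (g : Half ZT → Half ZT) : Prop where
  mem : ∀ τ, τ ∈ T ↔ ∃ v, Val X k y v ∧ tl lo k y v = τ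
  glu : g = (zsurf (X.l k) (X.r k) x y y y).glue T

namespace Dom2
variable {adj : Q → Q → Prop} {X : Bxs Q} {k : Q} {lo : Q → Prop} {x y : ℤ} {T : Finset ZT}
  {g : Half ZT → Half ZT} (hD : Dom2 X k lo x y T g)
include hD

lemma mem_tl {v : Q × ℤ × ℤ} (h : Val X k y v) : tl lo k y v ∈ T := (hD.mem _).2 ⟨v, h, rfl⟩

lemma isGlu : Glu T g := by
  rw [hD.glu]
  exact Surf.glu _ _

lemma straight : Straight g := by
  rw [hD.glu]
  exact Surf.straight_glue _ _

/-- the glued half edge in terms of places -/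
theorem glue_cases (hX : Good adj X) (hC : Cut adj k lo) (hb : X.b k < y) (ht : y < X.t k)
    {v : Q × ℤ × ℤ} (hv : Val X k y v) (d : Dir) :
    (∃ w, Val X k y w ∧ AdjD adj X k x y d v w ∧ g (tl lo k y v, d) = (tl lo k y w, d.opp)) ∨
    ((∀ w, Val X k y w → ¬ AdjD adj X k x y d v w) ∧ g (tl lo k y v, d) = (tl lo k y v, d)) := by
  by_cases h : ∃ w, Val X k y w ∧ AdjD adj X k x y d v w
  · obtain ⟨w, hw, h1⟩ := h
    left
    refine ⟨w, hw, h1, ?_⟩
    rw [hD.glu]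
    exact Surf.glue_of_mem ((nb_iff hX hC hb ht hv hw d).2 h1) (hD.mem_tl hv) (hD.mem_tl hw)
  · right
    refine ⟨fun w hw h1 => h ⟨w, hw, h1⟩, ?_⟩
    rw [hD.glu]
    rcases Surf.glue_cases (S := zsurf (X.l k) (X.r k) x y y y) (T := T) (tl lo k y v, d) with
      h1 | ⟨t', h1, h2, h3, -⟩
    · exact h1
    · exfalso
      obtain ⟨w, hw, rfl⟩ := (hD.mem t').1 h3
      exact h ⟨w, hw, (nb_iff hX hC hb ht hv hw d).1 h1⟩

theorem glue_adj (hX : Good adj X) (hC : Cut adj k lo) (hb : X.b k < y) (ht : y < X.t k)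
    {v w : Q × ℤ × ℤ} (hv : Val X k y v) (hw : Val X k y w) {d : Dir} (h : AdjD adj X k x y d v w) :
    g (tl lo k y v, d) = (tl lo k y w, d.opp) := by
  rw [hD.glu]
  exact Surf.glue_of_mem ((nb_iff hX hC hb ht hv hw d).2 h) (hD.mem_tl hv) (hD.mem_tl hw)

end Dom2

section move
variable (X : Bxs Q) (k k' : Q) (lo lo' : Q → Prop) (x y x' y' ρ : ℤ) (P R : Q → Prop)

open Classical in
/-- the identification -/
noncomputable def mv (τ : ZT) : ZT :=
  if h : ∃ v, Val X k y v ∧ tl lo k y v = τ then tl lo' k' y' (shv x y y' P R h.choose) else τ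

open Classical in
/-- the window in the first domain -/
noncomputable def winT (T : Finset ZT) : Finset ZT :=
  T.filter fun τ => ∃ v, Val X k y v ∧ Win x y y' ρ P v ∧ tl lo k y v = τ

open Classical in
/-- the window in the second domain -/
noncomputable def winT' (T' : Finset ZT) : Finset ZT :=
  T'.filter fun τ => ∃ v, Val (X.sh k' P R) k' y' v ∧ Win' x y y' ρ P v ∧ tl lo' k' y' v = τ

end move

variable {adj : Q → Q → Prop} {X : Bxs Q} {k k' : Q} {lo lo' : Q → Prop} {x y x' y' ρ : ℤ}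
  {P R : Q → Prop} {T T' : Finset ZT} {g g' : Half ZT → Half ZT}

lemma mv_tl (hX : Good adj X) {v : Q × ℤ × ℤ} (hv : Val X k y v) :
    mv X k k' lo lo' x y y' P R (tl lo k y v) = tl lo' k' y' (shv x y y' P R v) := by
  classical
  unfold mv
  have h : ∃ w, Val X k y w ∧ tl lo k y w = tl lo k y v := ⟨v, hv, rfl⟩
  rw [dif_pos h]
  rw [tl_inj hX h.choose_spec.1 hv h.choose_spec.2]

lemma tl_mem_winT (hX : Good adj X) (hD : Dom2 X k lo x y T g) {v : Q × ℤ × ℤ} (hv : Val X k y v) :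
    tl lo k y v ∈ winT X k lo x y y' ρ P T ↔ Win x y y' ρ P v := by
  classical
  unfold winT
  rw [Finset.mem_filter]
  constructor
  · rintro ⟨-, w, hw, h1, h2⟩
    rwa [tl_inj hX hw hv h2] at h1
  · exact fun h => ⟨hD.mem_tl hv, v, hv, h, rfl⟩

lemma tl_mem_winT' (hX' : Good adj (X.sh k' P R)) (hD' : Dom2 (X.sh k' P R) k' lo' x' y' T' g')
    {v : Q × ℤ × ℤ} (hv : Val (X.sh k' P R) k' y' v) :
    tl lo' k' y' v ∈ winT' X k' lo' x y y' ρ P R T' ↔ Win' x y y' ρ P v := by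
  classical
  unfold winT'
  rw [Finset.mem_filter]
  constructor
  · rintro ⟨-, w, hw, h1, h2⟩
    rwa [tl_inj hX' hw hv h2] at h1
  · exact fun h => ⟨hD'.mem_tl hv, v, hv, h, rfl⟩

/-- **the two domains are the same outside the window** -/
theorem Stk.same (hS : Stk adj X k k' x y x' y' ρ P R) (hX : Good adj X)
    (hX' : Good adj (X.sh k' P R)) (hC : Cut adj k lo) (hC' : Cut adj k' lo')
    (hD : Dom2 X k lo x y T g) (hD' : Dom2 (X.sh k' P R) k' lo' x' y' T' g') :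
    Same T g (winT X k lo x y y' ρ P T) T' g' (winT' X k' lo' x y y' ρ P R T')
      (mv X k k' lo lo' x y y' P R) := by
  classical
  have hb := hS.yk.1
  have ht := hS.yk.2
  have hb' : (X.sh k' P R).b k' < y' := hS.yk'.1
  have ht' : y' < (X.sh k' P R).t k' := hS.yk'.2
  set B := winT X k lo x y y' ρ P T with hB
  set B' := winT' X k' lo' x y y' ρ P R T' with hB'
  set φ := mv X k k' lo lo' x y y' P R with hφ
  have hsub : B ⊆ T := Finset.filter_subset _ _
  have hsub' : B' ⊆ T' := Finset.filter_subset _ _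
  -- places outside the window
  have hout : ∀ τ ∈ T \ B, ∃ v, Val X k y v ∧ ¬ Win x y y' ρ P v ∧ tl lo k y v = τ := by
    intro τ hτ
    rw [Finset.mem_sdiff] at hτ
    obtain ⟨v, hv, rfl⟩ := (hD.mem τ).1 hτ.1
    exact ⟨v, hv, fun h => hτ.2 ((tl_mem_winT hX hD hv).2 h), rfl⟩
  have hout' : ∀ {v : Q × ℤ × ℤ}, Val X k y v → ¬ Win x y y' ρ P v → tl lo k y v ∈ T \ B := by
    intro v hv hw
    exact Finset.mem_sdiff.2 ⟨hD.mem_tl hv, fun h => hw ((tl_mem_winT hX hD hv).1 h)⟩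
  have himg : ∀ {v : Q × ℤ × ℤ}, Val X k y v → ¬ Win x y y' ρ P v →
      tl lo' k' y' (shv x y y' P R v) ∈ T' \ B' := by
    intro v hv hw
    have h1 := hS.sh_val hv
    refine Finset.mem_sdiff.2 ⟨hD'.mem_tl h1, fun h => hw (hS.win_sh.1 ?_)⟩
    exact (tl_mem_winT' hX' hD' h1).1 h
  -- the places which are not hit are in the window
  have hmiss : ∀ w : Q × ℤ × ℤ, (P w.1 ∧ w.2.1 = x ∧ y ≤ w.2.2 ∧ w.2.2 < y') → Win' x y y' ρ P w := by
    rintro w ⟨h1, h2, h3, h4⟩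
    have := hS.rho
    exact ⟨h1, by omega, by omega, by omega, by omega⟩
  refine ⟨hsub, hsub', ?_, ?_, ?_, ?_⟩
  · intro τ hτ τ' hτ' he
    obtain ⟨v, hv, -, rfl⟩ := hout τ (Finset.mem_coe.1 hτ)
    obtain ⟨w, hw, -, rfl⟩ := hout τ' (Finset.mem_coe.1 hτ')
    rw [hφ, mv_tl hX hv, mv_tl hX hw] at he
    rw [Stk.shv_inj (tl_inj hX' (hS.sh_val hv) (hS.sh_val hw) he)]
  · ext σ
    rw [Finset.mem_image]
    constructor
    · rintro ⟨τ, hτ, rfl⟩
      obtain ⟨v, hv, hw, rfl⟩ := hout τ hτ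
      rw [hφ, mv_tl hX hv]
      exact himg hv hw
    · intro hσ
      rw [Finset.mem_sdiff] at hσ
      obtain ⟨w, hw, rfl⟩ := (hD'.mem σ).1 hσ.1
      have h1 : ¬ Win' x y y' ρ P w := fun h => hσ.2 ((tl_mem_winT' hX' hD' hw).2 h)
      obtain ⟨v, hv, rfl⟩ := hS.exists_sh hw fun h => h1 (hmiss w h)
      refine ⟨tl lo k y v, hout' hv fun h => h1 (hS.win_sh.2 h), ?_⟩
      rw [hφ, mv_tl hX hv]
  · rintro ⟨τ, d⟩ hτ hgτ
    obtain ⟨v, hv, hw, rfl⟩ := hout τ hτ
    show g' (φ (tl lo k y v), d) = hmap φ (g (tl lo k y v, d))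
    rw [hφ, mv_tl hX hv]
    rcases hD.glue_cases hX hC hb ht hv d with ⟨w, hw', h1, h2⟩ | ⟨h1, h2⟩
    · rw [h2]
      show _ = (mv X k k' lo lo' x y y' P R (tl lo k y w), d.opp)
      rw [mv_tl hX hw']
      exact hD'.glue_adj hX' hC' hb' ht' (hS.sh_val hv) (hS.sh_val hw')
        ((hS.adj_sh hX hv hw' d (Or.inl hw)).1 h1)
    · rw [h2]
      show _ = (mv X k k' lo lo' x y y' P R (tl lo k y v), d)
      rw [mv_tl hX hv]
      rcases hD'.glue_cases hX' hC' hb' ht' (hS.sh_val hv) d with ⟨w, hw', h3, -⟩ | ⟨-, h4⟩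
      · exfalso
        by_cases hm : P w.1 ∧ w.2.1 = x ∧ y ≤ w.2.2 ∧ w.2.2 < y'
        · have h5 : AdjD adj (X.sh k' P R) k' x' y' d.opp w (shv x y y' P R v) := by
            cases d <;> exact h3
          have h6 := hS.win_of_adj hX (hS.sh_val hv) hm d.opp h5
          exact hw (hS.win_sh.1 h6)
        · obtain ⟨w0, hw0, rfl⟩ := hS.exists_sh hw' hm
          exact h1 w0 hw0 ((hS.adj_sh hX hv hw0 d (Or.inl hw)).2 h3)
      · exact h4
  · rintro ⟨τ, d⟩ hτ hgτ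
    obtain ⟨v, hv, hw, rfl⟩ := hout τ hτ
    show (g' (φ (tl lo k y v), d)).1 ∈ B'
    rw [hφ, mv_tl hX hv]
    rcases hD.glue_cases hX hC hb ht hv d with ⟨w, hw', h1, h2⟩ | ⟨h1, h2⟩
    · rw [h2] at hgτ
      have h3 : Win x y y' ρ P w := (tl_mem_winT hX hD hw').1 hgτ
      rw [hD'.glue_adj hX' hC' hb' ht' (hS.sh_val hv) (hS.sh_val hw')
        ((hS.adj_sh hX hv hw' d (Or.inl hw)).1 h1)]
      exact (tl_mem_winT' hX' hD' (hS.sh_val hw')).2 (hS.win_sh.2 h3)
    · exfalso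
      rw [h2] at hgτ
      exact (Finset.mem_sdiff.1 hτ).2 hgτ

end Full.Geo
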