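import Pool.Agent.Full.Geo.Slab
import Pool.Agent.Full.Geo.Move

/-!
# Shapes: the stack of rooms between two interior ends

`bxs S n s`: the coordinates of the rooms.  `good`, `cut`, `dom2`: the hypotheses of `Full/Geo/Move.lean`.
`exists_stk`: if the points between `z` and `z'` are away from the walls, there is a stack `P` of rooms
between them and a set `R` of rooms attached to it on the right which do not depend on the shifts.
-/

set_option autoImplicit false

namespace Full.Geo
open Function Relation Full.Shape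

/-- the coordinates of the rooms -/
def bxs (S : Shape) (n : ℕ) (s : S.Q × Bool → ℕ) : Bxs S.Q := ⟨S.fl n s, S.fr n s, S.fb n, S.ft n⟩

variable {S : Shape} {n : ℕ} {s : S.Q × Bool → ℕ}

lemma fl_bound (hs : S.Small2 n s) (q : S.Q) : n * S.xl q ≤ S.fl n s q ∧ 2 * S.fl n s q ≤ 2 * (n * S.xl q) + n := by
  have h2 := hs.2 (q, false)
  unfold fl
  have h6 : 2 * (s (q, false) : ℤ) ≤ n := by exact_mod_cast h2
  constructor <;> omega

lemma fr_bound (hs : S.Small2 n s) (q : S.Q) : n * S.xr q ≤ S.fr n s q ∧ 2 * S.fr n s q ≤ 2 * (n * S.xr q) + n := by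
  have h2 := hs.2 (q, true)
  unfold fr
  have h6 : 2 * (s (q, true) : ℤ) ≤ n := by exact_mod_cast h2
  constructor <;> omega

lemma mul_stepS {n : ℕ} {a b : ℤ} (h : a < b) : (n : ℤ) * a + n ≤ n * b := by
  have h3 : (n : ℤ) * (b - a) ≥ n * 1 := mul_le_mul_of_nonneg_left (by omega) (by omega)
  nlinarith

theorem good (hS : S.Ok) (hs : S.Small2 n s) : Good S.On (bxs S n s) := by
  have hn : (8 : ℤ) ≤ n := by exact_mod_cast hs.1
  have key : ∀ a b : S.Q, S.xl a < S.xl b → S.fl n s a + 3 ≤ S.fl n s b := by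
    intro a b h
    have h1 := fl_bound hs a
    have h2 := fl_bound hs b
    have h3 := mul_stepS (n := n) h
    omega
  have key' : ∀ a b : S.Q, S.xr a < S.xr b → S.fr n s a + 3 ≤ S.fr n s b := by
    intro a b h
    have h1 := fr_bound hs a
    have h2 := fr_bound hs b
    have h3 := mul_stepS (n := n) h
    omega
  refine ⟨fun q => ?_, fun q => ?_, fun h => on_ft hS h, fun {a b} h => ?_, fun {a b} h h1 h2 => ?_⟩
  · have := fl_lt_fr hS hs q
    show S.fl n s q < S.fr n s q
    omega
  · have := fb_lt_ft (n := n) hS hs.1 q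
    show S.fb n q < S.ft n q
    omega
  · show (S.fl n s a + 3 ≤ S.fl n s b ∧ S.fr n s b + 3 ≤ S.fr n s a) ∨
      (S.fl n s b + 3 ≤ S.fl n s a ∧ S.fr n s a + 3 ≤ S.fr n s b)
    rcases a with r | κ <;> rcases b with r' | κ'
    · exact absurd h id
    · have h1 : S.dn κ' = r := h
      subst h1
      exact Or.inl ⟨key _ _ (hS.dn_l κ'), key' _ _ (hS.dn_r κ')⟩
    · have h1 : S.up κ = r' := h
      subst h1
      exact Or.inr ⟨key _ _ (hS.up_l κ), key' _ _ (hS.up_r κ)⟩
    · exact absurd h id
  · show S.ft n a < S.fb n b ∨ S.ft n b < S.fb n a ∨ S.fr n s a + 3 ≤ S.fl n s b ∨ S.fr n s b + 3 ≤ S.fl n s a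
    rcases hS.sep a b h h1 h2 with h5 | h5 | h5 | h5
    · have := fr_lt_fl hs h5
      omega
    · have := fr_lt_fl hs h5
      omega
    · have := ft_lt_fb (S := S) hs.1 h5
      omega
    · have := ft_lt_fb (S := S) hs.1 h5
      omega

theorem cut (hd : S.Tree) (q : S.Q) : Cut S.On q (fun u => u ∈ S.part q false) where
  self := not_mem_part _ _
  below h := part_of_on' h
  above h := Set.disjoint_right.1 (hd q) (part_of_on h)
  cong {_ _} h hu hv := ⟨fun h1 => part_step h1 hv (Or.inl h), fun h1 => part_step h1 hu (Or.inr h)⟩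

theorem dom2 (hS : S.Ok) (hd : S.Tree) (q : S.Q) {x y : ℤ} (hb : S.fb n q < y) (ht : y < S.ft n q) :
    Dom2 (bxs S n s) q (fun u => u ∈ S.part q false) x y (S.zT n s q y) (S.zg n s q x y) := by
  refine ⟨fun τ => ?_, rfl⟩
  unfold zT
  rcases τ with ⟨i, j⟩ | ⟨i, j⟩
  · rw [Finset.inl_mem_disjSum, Finset.mem_union, mem_side]
    constructor
    · rintro (⟨p, hp, h⟩ | h)
      · rw [mem_room] at h
        refine ⟨(p, i, j), ⟨h.1.1, h.2.1, h.2.2, Or.inl h.1.2⟩, tl_lo (Or.inl hp)⟩
      · rw [mem_box] at h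
        refine ⟨(q, i, j), ⟨h.1.1, h.2.1, lt_trans h.2.2 ht, ?_⟩, tl_lo (Or.inr ⟨rfl, h.2.2⟩)⟩
        have h1 := h.1.2
        rcases lt_or_eq_of_le (Int.lt_add_one_iff.1 h1) with h2 | h2
        · exact Or.inl h2
        · exact Or.inr ⟨rfl, h.2.2, h2⟩
    · rintro ⟨⟨u, i', j'⟩, ⟨h1, h2, h3, h4⟩, h5⟩
      by_cases hc : u ∈ S.part q false ∨ (u = q ∧ j' < y)
      · rw [tl_lo hc] at h5
        have h6 := Sum.inl.inj h5
        obtain ⟨rfl, rfl⟩ : i' = i ∧ j' = j := ⟨congrArg Prod.fst h6, congrArg Prod.snd h6⟩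
        rcases hc with hc | hc
        · left
          have hne : u ≠ q := by
            rintro rfl
            exact not_mem_part _ _ hc
          exact ⟨u, hc, mem_room.2 ⟨⟨h1, h4.resolve_right fun h => hne h.1⟩, h2, h3⟩⟩
        · right
          obtain ⟨rfl, hc⟩ := hc
          rw [mem_box]
          refine ⟨⟨h1, ?_⟩, h2, hc⟩
          rcases h4 with h4 | h4
          · have : i' < S.fr n s u := h4
            omega
          · have : i' = S.fr n s u := h4.2.2
            omega
      · rw [tl_up hc] at h5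
        cases h5
  · rw [Finset.inr_mem_disjSum, Finset.mem_union, mem_side]
    constructor
    · rintro (⟨p, hp, h⟩ | h)
      · rw [mem_room] at h
        have hne : p ≠ q := by
          rintro rfl
          exact not_mem_part _ _ hp
        refine ⟨(p, i, j), ⟨h.1.1, h.2.1, h.2.2, Or.inl h.1.2⟩, tl_up ?_⟩
        rintro (h1 | h1)
        · exact Set.disjoint_left.1 (hd q) h1 hp
        · exact hne h1.1
      · rw [mem_box] at h
        refine ⟨(q, i, j), ⟨h.1.1, le_trans hb.le h.2.1, h.2.2, Or.inl h.1.2⟩, tl_up ?_⟩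
        rintro (h1 | h1)
        · exact not_mem_part _ _ h1
        · exact absurd h.2.1 (not_le.2 h1.2)
    · rintro ⟨⟨u, i', j'⟩, ⟨h1, h2, h3, h4⟩, h5⟩
      by_cases hc : u ∈ S.part q false ∨ (u = q ∧ j' < y)
      · rw [tl_lo hc] at h5
        cases h5
      · rw [tl_up hc] at h5
        have h6 := Sum.inr.inj h5
        obtain ⟨rfl, rfl⟩ : i' = i ∧ j' = j := ⟨congrArg Prod.fst h6, congrArg Prod.snd h6⟩
        push Not at hc
        have h4' : i' < S.fr n s u := h4.resolve_right fun h => absurd (hc.2 h.1) (not_le.2 h.2.1)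
        by_cases hu : u = q
        · right
          subst hu
          rw [mem_box]
          exact ⟨⟨h1, h4'⟩, hc.2 rfl, h3⟩
        · left
          exact ⟨u, (part_cover hS q u hu).resolve_left hc.1, mem_room.2 ⟨⟨h1, h4'⟩, h2, h3⟩⟩

/-! ### potentials on the tree of rooms -/

/-- every function on the contacts of the rooms is the coboundary of a function on the rooms -/
theorem exists_pot (hd : S.Tree) (c : S.Q → S.Q → Prop) [∀ u v, Decidable (c u v)] :
    ∃ F : S.Q → ZMod 2, ∀ u v, S.On u v → F v = F u + if c u v then 1 else 0 := by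
  classical
  have h2 : (1 : ZMod 2) + 1 = 0 := CharTwo.add_self_eq_zero 1
  set F : S.Q → ZMod 2 := fun v => ∑ κ : S.K,
    ((if c (.inr κ) (.inl (S.up κ)) ∧ v ∈ S.part (.inr κ) true then 1 else 0) +
      (if c (.inl (S.dn κ)) (.inr κ) ∧ v ∈ S.part (.inr κ) false then 1 else 0)) with hF
  -- the indicators of the parts
  have i1 : ∀ (κ : S.K) (u v : S.Q), S.On u v → u ≠ .inr κ →
      (v ∈ S.part (.inr κ) true ↔ u ∈ S.part (.inr κ) true) := by
    intro κ u v h hu
    by_cases hv : v = .inr κ
    · subst hv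
      constructor
      · intro h1; exact absurd h1 (not_mem_part _ _)
      · intro h1
        exact absurd h1 (Set.disjoint_left.1 (hd (.inr κ)) (part_of_on' h))
    · exact ⟨fun h1 => part_step h1 hu (Or.inr h), fun h1 => part_step h1 hv (Or.inl h)⟩
  have i2 : ∀ (κ : S.K) (u v : S.Q), S.On u v → v ≠ .inr κ →
      (v ∈ S.part (.inr κ) false ↔ u ∈ S.part (.inr κ) false) := by
    intro κ u v h hv
    by_cases hu : u = .inr κ
    · subst hu
      constructor
      · intro h1
        exact absurd h1 (Set.disjoint_right.1 (hd (.inr κ)) (part_of_on h))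
      · intro h1; exact absurd h1 (not_mem_part _ _)
    · exact ⟨fun h1 => part_step h1 hu (Or.inr h), fun h1 => part_step h1 hv (Or.inl h)⟩
  refine ⟨F, fun u v h => ?_⟩
  rcases u with r | κ <;> rcases v with r' | κ'
  · exact absurd h id
  · have h1 : S.dn κ' = r := h
    subst h1
    have key : F (.inr κ') = F (.inl (S.dn κ')) + ∑ κ : S.K, if κ = κ' then
        (if c (.inl (S.dn κ')) (.inr κ') then (1 : ZMod 2) else 0) else 0 := by
      simp only [hF]
      rw [← Finset.sum_add_distrib]
      refine Finset.sum_congr rfl fun κ _ => ?_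
      have e1 := i1 κ _ _ h (by simp)
      by_cases hκ : κ = κ'
      · subst hκ
        have e2 : (Sum.inl (S.dn κ) : S.Q) ∈ S.part (.inr κ) false := part_of_on' h
        have e3 : (Sum.inr κ : S.Q) ∉ S.part (.inr κ) false := not_mem_part _ _
        simp only [e1, e2, e3, and_true, and_false, if_false, if_true, add_zero]
        split_ifs <;> simp [h2]
      · have e2 := i2 κ _ _ h (by intro h3; exact hκ (Sum.inr.inj h3).symm)
        simp only [e1, e2, hκ, if_false, add_zero]
    rw [key, Finset.sum_ite_eq' Finset.univ κ', if_pos (Finset.mem_univ _)]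
  · have h1 : S.up κ = r' := h
    subst h1
    have key : F (.inl (S.up κ)) = F (.inr κ) + ∑ κ' : S.K, if κ' = κ then
        (if c (.inr κ) (.inl (S.up κ)) then (1 : ZMod 2) else 0) else 0 := by
      simp only [hF]
      rw [← Finset.sum_add_distrib]
      refine Finset.sum_congr rfl fun κ' _ => ?_
      have e1 := i2 κ' _ _ h (by simp)
      by_cases hκ : κ' = κ
      · subst hκ
        have e2 : (Sum.inl (S.up κ') : S.Q) ∈ S.part (.inr κ') true := part_of_on h
        have e3 : (Sum.inr κ' : S.Q) ∉ S.part (.inr κ') true := not_mem_part _ _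
        simp only [e1, e2, e3, and_true, and_false, if_false, if_true, zero_add]
        rw [add_comm]
      · have e2 := i1 κ' _ _ h (by intro h3; exact hκ (Sum.inr.inj h3).symm)
        simp only [e1, e2, hκ, if_false, add_zero]
    rw [key, Finset.sum_ite_eq' Finset.univ κ, if_pos (Finset.mem_univ _)]
  · exact absurd h id

/-! ### the stack -/

/-- the rows of tiles between the heights `a` and `b` are away from the walls near the column `x` -/
def Strip (S : Shape) (n : ℕ) (x ρ a b : ℤ) : Prop :=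
  ∀ j, a ≤ j → j ≤ b → ∃ u : S.Q, 2 * (n * S.xl u) + n ≤ 2 * (x - ρ) ∧ x + ρ < n * S.xr u ∧
    S.fb n u ≤ j ∧ j < S.ft n u

/-- the rooms of the column `x` between the heights `y` and `y'` -/
def colP (S : Shape) (n : ℕ) (x y y' : ℤ) (u : S.Q) : Prop :=
  (n * S.xl u ≤ x ∧ x < n * S.xr u) ∧ S.fb n u < y' ∧ y < S.ft n u

/-- the room `q` contains the point `(x, y)`, whatever the shifts -/
def Inq (S : Shape) (n : ℕ) (q : S.Q) (x y : ℤ) : Prop :=
  (n * S.xl q ≤ x ∧ x < n * S.xr q) ∧ S.fb n q < y ∧ y < S.ft n q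

lemma small_zero (hn : 8 ≤ n) : S.Small2 n (fun _ => 0) := ⟨hn, fun _ => Nat.zero_le _⟩

/-- rooms are disjoint, in coarse coordinates -/
lemma uniq (hS : S.Ok) (hn : 8 ≤ n) {u v : S.Q} {i j : ℤ} (h1 : n * S.xl u ≤ i) (h2 : i < n * S.xr u)
    (h3 : S.fb n u ≤ j) (h4 : j < S.ft n u) (h1' : n * S.xl v ≤ i) (h2' : i < n * S.xr v)
    (h3' : S.fb n v ≤ j) (h4' : j < S.ft n v) : u = v := by
  refine room_unique hS (small_zero hn) (t := (i, j)) (mem_room.2 ?_) (mem_room.2 ?_)
  · simp only [fl, fr, Nat.cast_zero, add_zero]; exact ⟨⟨h1, h2⟩, h3, h4⟩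
  · simp only [fl, fr, Nat.cast_zero, add_zero]; exact ⟨⟨h1', h2'⟩, h3', h4'⟩

/-- rooms above each other -/
lemma touch (hS : S.Ok) (hn : 8 ≤ n) {u v : S.Q} {i j : ℤ} (h1 : n * S.xl u ≤ i) (h2 : i < n * S.xr u)
    (h3 : S.fb n u ≤ j) (h4 : j < S.ft n u) (h1' : n * S.xl v ≤ i) (h2' : i < n * S.xr v)
    (h3' : S.fb n v ≤ j + 1) (h4' : j + 1 < S.ft n v) (hne : u ≠ v) :
    S.On u v ∧ j + 1 = S.ft n u ∧ j + 1 = S.fb n v := by
  have hG := good hS (small_zero (S := S) hn)
  have e1 : (bxs S n fun _ => 0).l = fun q => n * S.xl q := by funext q; simp [bxs, fl]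
  have e2 : (bxs S n fun _ => 0).r = fun q => n * S.xr q := by funext q; simp [bxs, fr]
  refine hG.adj_of_touch (i := i) (i' := i) (j := j) ?_ ?_ h3 h4 ?_ ?_ h3' h4' rfl (Or.inl ⟨?_, ?_⟩) hne
  · rw [e1]; show n * S.xl u - 2 ≤ i; omega
  · rw [e2]; show i < n * S.xr u + 2; omega
  · rw [e1]; show n * S.xl v - 2 ≤ i; omega
  · rw [e2]; show i < n * S.xr v + 2; omega
  · rw [e1]; exact h1
  · rw [e2]; exact h2


/-- the rooms near the column `x` have margins -/
lemma marg (hS : S.Ok) (hn : 8 ≤ n) {x ρ a b : ℤ} (hst : Strip S n x ρ a b) {u : S.Q} {i j : ℤ}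
    (hj : a ≤ j) (hj' : j ≤ b) (hi : x - ρ ≤ i) (hi' : i ≤ x + ρ) (h1 : n * S.xl u ≤ i)
    (h2 : i < n * S.xr u) (h3 : S.fb n u ≤ j) (h4 : j < S.ft n u) :
    2 * (n * S.xl u) + n ≤ 2 * (x - ρ) ∧ x + ρ < n * S.xr u := by
  obtain ⟨v, g1, g2, g3, g4⟩ := hst j hj hj'
  have hn' : (8 : ℤ) ≤ n := by exact_mod_cast hn
  have h5 := uniq hS hn h1 h2 h3 h4 (v := v) (by omega) (by omega) g3 g4
  rw [h5]
  exact ⟨g1, g2⟩

/-- two rooms on top of the same room do not overlap -/
lemma sep_up (hS : S.Ok) {u v w : S.Q} (h1 : S.On u v) (h2 : S.On u w) (hne : v ≠ w) :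
    S.xr v < S.xl w ∨ S.xr w < S.xl v := by
  have e1 := hS.on_y _ _ h1
  have e2 := hS.on_y _ _ h2
  have e3 := hS.y_lt v
  have e4 := hS.y_lt w
  have key : ∀ a b : S.Q, S.On u a → S.On u b → ¬ S.On a b := by
    intro a b ha hb h
    have h3 := hS.on_y _ _ ha
    have h4 := hS.on_y _ _ hb
    have h5 := hS.on_y _ _ h
    have h6 := hS.y_lt a
    omega
  rcases hS.sep v w hne (key _ _ h1 h2) (key _ _ h2 h1) with h | h | h | h
  · exact Or.inl h
  · exact Or.inr h
  · omega
  · omega

lemma sep_dn (hS : S.Ok) {u v w : S.Q} (h1 : S.On v u) (h2 : S.On w u) (hne : v ≠ w) :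
    S.xr v < S.xl w ∨ S.xr w < S.xl v := by
  have e1 := hS.on_y _ _ h1
  have e2 := hS.on_y _ _ h2
  have e3 := hS.y_lt v
  have e4 := hS.y_lt w
  have key : ∀ a b : S.Q, S.On a u → S.On b u → ¬ S.On a b := by
    intro a b ha hb h
    have h3 := hS.on_y _ _ ha
    have h4 := hS.on_y _ _ hb
    have h5 := hS.on_y _ _ h
    have h6 := hS.y_lt b
    omega
  rcases hS.sep v w hne (key _ _ h1 h2) (key _ _ h2 h1) with h | h | h | h
  · exact Or.inl h
  · exact Or.inr h
  · omega
  · omega

section stack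
variable (hS : S.Ok) (hd : S.Tree) (hn : 8 ≤ n) {k k' : S.Q} {x y x' y' ρ : ℤ} (hk : Inq S n k x y)
  (hk' : Inq S n k' x' y') (hyy : y ≤ y') (hρ : x' - x < ρ ∧ x - x' < ρ)
  (hst : Strip S n x ρ (y - 1) y')
include hS hn hyy hρ hst

include hk' in
/-- the column `x` goes through `k'` -/
lemma inq' : Inq S n k' x y' := by
  obtain ⟨⟨h1, h2⟩, h3, h4⟩ := hk'
  have hn' : (8 : ℤ) ≤ n := by exact_mod_cast hn
  have h5 := marg hS hn hst (u := k') (i := x') (j := y') (by omega) le_rfl (by omega) (by omega) h1 h2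
    h3.le h4
  exact ⟨⟨by omega, by omega⟩, h3, h4⟩

/-- a room of the stack has margins -/
lemma colP_marg {u : S.Q} (hu : colP S n x y y' u) :
    2 * (n * S.xl u) + n ≤ 2 * (x - ρ) ∧ x + ρ < n * S.xr u := by
  obtain ⟨⟨h1, h2⟩, h3, h4⟩ := hu
  have h5 := fb_lt_ft (n := n) hS hn u
  exact marg hS hn hst (u := u) (i := x) (j := max y (S.fb n u)) (by omega) (by omega) (by omega) (by omega)
    h1 h2 (by omega) (by omega)

include hd hk hk' in
theorem exists_stk : ∃ R : S.Q → Prop,
    (∀ s, S.Small2 n s → Stk S.On (bxs S n s) k k' x y x' y' ρ (colP S n x y y') R) := by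
  classical
  have hn' : (8 : ℤ) ≤ n := by exact_mod_cast hn
  have hx' := inq' hS hn hk' hyy hρ hst
  have hPk : colP S n x y y' k := ⟨hk.1, by have := hk.2.1; omega, hk.2.2⟩
  have hPk' : colP S n x y y' k' := ⟨hx'.1, hx'.2.1, by have := hx'.2.2; omega⟩
  set P := colP S n x y y' with hP
  -- `low` and `high`
  have low : ∀ u, P u → u ≠ k → y ≤ S.fb n u := by
    intro u hu hne
    by_contra h
    have h1 := hu.2.2
    have h2 := hk.2
    exact hne (uniq hS hn (i := x) (j := y - 1) hu.1.1 hu.1.2 (by omega) (by omega) hk.1.1 hk.1.2 (by omega)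
      (by omega))
  have high : ∀ u, P u → u ≠ k' → S.ft n u ≤ y' := by
    intro u hu hne
    by_contra h
    have h1 := hu.2.1
    have h2 := hx'.2
    exact hne (uniq hS hn (i := x) (j := y') hu.1.1 hu.1.2 (by omega) (by omega) hx'.1.1 hx'.1.2 (by omega)
      (by omega))
  -- the potential
  obtain ⟨F, hF⟩ := exists_pot hd (fun u v => (P u ∧ ¬ P v ∧ u ≠ k' ∧ x < n * S.xl v) ∨
    (¬ P u ∧ P v ∧ v ≠ k ∧ x < n * S.xl u))
  have one : (1 : ZMod 2) ≠ 0 := by decide
  have hPP : ∀ {u v}, S.On u v → P u → P v → F v = F u := by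
    intro u v h h1 h2
    rw [hF u v h, if_neg (by tauto), add_zero]
  -- the stack is connected
  have hroom : ∀ j, y ≤ j → j ≤ y' → ∃ u, P u ∧ S.fb n u ≤ j ∧ j < S.ft n u ∧ F u = F k := by
    intro j hj
    induction j, hj using Int.leInduction with
    | base => intro _; exact ⟨k, hPk, hk.2.1.le, hk.2.2, rfl⟩
    | succ j hj ih =>
      intro hj'
      obtain ⟨u, h1, h2, h3, h4⟩ := ih (by omega)
      by_cases h5 : j + 1 < S.ft n u
      · exact ⟨u, h1, by omega, h5, h4⟩
      · obtain ⟨v, g1, g2, g3, g4⟩ := hst (j + 1) (by omega) hj'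
        have hv : P v := by
          by_cases h6 : S.fb n v < y'
          · exact ⟨⟨by omega, by omega⟩, h6, by omega⟩
          · have h7 : v = k' := uniq hS hn (i := x) (j := y') (by omega) (by omega) (by omega) (by omega)
              hx'.1.1 hx'.1.2 hx'.2.1.le hx'.2.2
            rw [h7]; exact hPk'
        have hne : u ≠ v := by
          rintro rfl
          exact h5 g4
        have h6 := touch hS hn h1.1.1 h1.1.2 h2 h3 hv.1.1 hv.1.2 g3 g4 hne
        exact ⟨v, hv, g3, g4, by rw [hPP h6.1 h1 hv, h4]⟩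
  have hFP : ∀ u, P u → F u = F k := by
    intro u hu
    have h5 := fb_lt_ft (n := n) hS hn u
    obtain ⟨⟨h1, h2⟩, h3, h4⟩ := hu
    obtain ⟨v, g1, g2, g3, g4⟩ := hroom (max y (S.fb n u)) (by omega) (by omega)
    rw [uniq hS hn (i := x) (j := max y (S.fb n u)) h1 h2 (by omega) (by omega) g1.1.1 g1.1.2 g2 g3]
    exact g4
  refine ⟨fun v => F v ≠ F k, fun s hs => ?_⟩
  have hfl := fun q => fl_bound hs q
  have hfr := fun q => fr_bound hs q
  refine ⟨hPk, hPk', fun u hu h => h (hFP u hu), fun u hu => ?_, low, high, hk.2, hx'.2, hyy,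
    fun {u v} h hu hv => ?_, fun {u v} h hu hv => ?_, fun {u v} h hu hv => ?_, hρ⟩
  · have h1 := colP_marg hS hn hyy hρ hst hu
    have h2 := hfl u
    have h3 := hfr u
    show S.fl n s u ≤ x ∧ x < S.fr n s u
    omega
  · rw [hF u v h, if_neg (by tauto), add_zero]
  · -- above the stack
    have hFv := hF u v h
    have hFu := hFP u hu
    by_cases hu' : u = k'
    · left
      refine ⟨hu', fun h1 => h1 ?_⟩
      rw [hFv, if_neg (by tauto), add_zero, hFu]
    · right
      have h1 := high u hu hu'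
      have h2 : S.ft n u < y' := by
        rcases lt_or_eq_of_le h1 with h2 | h2
        · exact h2
        · exfalso
          have h5 := fb_lt_ft (n := n) hS hn u
          exact hu' (uniq hS hn (i := x) (j := y' - 1) hu.1.1 hu.1.2 (by omega) (by omega) hx'.1.1 hx'.1.2
            (by have := hx'.2; omega) (by have := hx'.2; omega))
      have h3 := hu.2.2
      obtain ⟨w, g1, g2, g3, g4⟩ := hst (S.ft n u) (by omega) (by omega)
      have h5 := fb_lt_ft (n := n) hS hn u
      have hwc : n * S.xl w ≤ x ∧ x < n * S.xr w := by omega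
      have hne : u ≠ w := by
        rintro rfl
        omega
      have h6 := touch hS hn (i := x) (j := S.ft n u - 1) hu.1.1 hu.1.2 (by omega) (by omega) hwc.1 hwc.2
        (by omega) (by omega) hne
      have hw : P w := ⟨hwc, by omega, by omega⟩
      have hvw : v ≠ w := by
        rintro rfl
        exact hv hw
      have h7 := hfl v
      have h8 := hfr v
      rcases sep_up hS h h6.1 hvw with h9 | h9
      · right
        have h10 := mul_stepS (n := n) h9
        refine ⟨hu', fun h11 => h11 ?_, ?_⟩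
        · rw [hFv, if_neg, add_zero, hFu]
          rintro (h12 | h12)
          · have h13 := mul_stepS (n := n) (lt_trans (hS.x_lt v) h9)
            have := h12.2.2.2
            omega
          · exact h12.1 hu
        · show S.fr n s v ≤ x - ρ
          omega
      · left
        have h10 := mul_stepS (n := n) h9
        refine ⟨hu', ?_, ?_⟩
        · show F v ≠ F k
          rw [hFv, if_pos (Or.inl ⟨hu, hv, hu', by omega⟩), hFu]
          intro h11
          exact one (add_left_cancel (h11.trans (add_zero _).symm))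
        · show x + ρ < S.fl n s v
          omega
  · -- below the stack
    have hFv := hF u v h
    have hFu := hFP v hv
    by_cases hv' : v = k
    · left
      refine ⟨hv', fun h1 => h1 ?_⟩
      rw [if_neg (by tauto), add_zero] at hFv
      rw [← hFv, hFu]
    · right
      have h1 := low v hv hv'
      have h2 : y < S.fb n v := by
        rcases lt_or_eq_of_le h1 with h2 | h2
        · exact h2
        · exfalso
          have h5 := fb_lt_ft (n := n) hS hn v
          exact hv' (uniq hS hn (i := x) (j := y) hv.1.1 hv.1.2 (by omega) (by omega) hk.1.1 hk.1.2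
            (by have := hk.2; omega) (by have := hk.2; omega))
      have h3 := hv.2.1
      obtain ⟨w, g1, g2, g3, g4⟩ := hst (S.fb n v - 1) (by omega) (by omega)
      have h5 := fb_lt_ft (n := n) hS hn v
      have hwc : n * S.xl w ≤ x ∧ x < n * S.xr w := by omega
      have hne : w ≠ v := by
        rintro rfl
        omega
      have h6 := touch hS hn (i := x) (j := S.fb n v - 1) hwc.1 hwc.2 (by omega) (by omega) hv.1.1 hv.1.2
        (by omega) (by omega) hne
      have hw : P w := ⟨hwc, by omega, by omega⟩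
      have huw : u ≠ w := by
        rintro rfl
        exact hu hw
      have h7 := hfl u
      have h8 := hfr u
      rcases sep_dn hS h h6.1 huw with h9 | h9
      · right
        have h10 := mul_stepS (n := n) h9
        refine ⟨hv', fun h11 => h11 ?_, ?_⟩
        · rw [if_neg, add_zero] at hFv
          · rw [← hFv, hFu]
          · rintro (h12 | h12)
            · exact hu h12.1
            · have h13 := mul_stepS (n := n) (lt_trans (hS.x_lt u) h9)
              have := h12.2.2.2
              omega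
        · show S.fr n s u ≤ x - ρ
          omega
      · left
        have h10 := mul_stepS (n := n) h9
        refine ⟨hv', ?_, ?_⟩
        · show F u ≠ F k
          rw [if_pos (Or.inr ⟨hu, hv, hv', by omega⟩)] at hFv
          rw [← hFu, hFv]
          intro h11
          exact one (add_left_cancel ((add_zero _).trans h11).symm)
        · show x + ρ < S.fl n s u
          omega

end stack

end Full.Geo
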