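import Pool.Agent.Full.Geo.Deep
import Pool.Agent.Full.Geo.Stack

/-!
# Shapes: strips around the points of a ball in the domain
-/

set_option autoImplicit false

namespace Full.Geo
open Function Relation Full.Shape

variable {S : Shape} {n : ℕ}

/-- a horizontal segment in the domain is in one room -/
theorem row_room (hS : S.Ok) {a b h : ℝ} {c : ℤ} (hab : a < b) (h1 : (c : ℝ) ≤ h) (h2 : h ≤ c + 1)
    (hd : ∀ t : ℝ, a ≤ t → t ≤ b → (⟨t, h⟩ : ℂ) ∈ S.dom) :
    ∃ q : S.Q, (S.xl q : ℝ) ≤ a ∧ b ≤ S.xr q ∧ S.yb q ≤ c ∧ c < S.yt q := by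
  obtain ⟨q, ⟨g1, g2⟩, g3, g4⟩ := cell_of_mem_dom (c := (⌊a⌋, c)) (hd a le_rfl hab.le) (Int.floor_le a)
    (Int.lt_floor_add_one a).le h1 h2
  simp only at g1 g2 g3 g4
  -- all the cells are in this room
  have key : ∀ i : ℤ, ⌊a⌋ ≤ i → (i : ℝ) < b → i < S.xr q := by
    intro i hi
    induction i, hi using Int.leInduction with
    | base => exact fun _ => g2
    | succ i hi ih =>
      intro hib
      push_cast at hib
      have h3 := ih (by linarith)
      have h4 : a ≤ (i : ℝ) + 1 := by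
        have h5 := Int.lt_floor_add_one a
        have h6 : (⌊a⌋ : ℝ) ≤ i := by exact_mod_cast hi
        linarith
      obtain ⟨q', ⟨k1, k2⟩, k3, k4⟩ := cell_of_mem_dom (c := (i + 1, c)) (hd ((i : ℝ) + 1) h4 hib.le)
        (by push_cast; exact le_rfl) (by push_cast; linarith) h1 h2
      simp only at k1 k2 k3 k4
      have h7 := room_of_row hS (p := q') (p' := q) (i := i + 1) (j := c) k1 k2 k3 k4
        (by rw [add_sub_cancel_right]; omega) (by rw [add_sub_cancel_right]; exact h3) g3 g4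
      rw [h7] at k2
      exact k2
  refine ⟨q, ?_, ?_, g3, g4⟩
  · have h3 : (S.xl q : ℝ) ≤ ⌊a⌋ := by exact_mod_cast g1
    exact h3.trans (Int.floor_le a)
  · have h3 := Int.ceil_lt_add_one b
    have h4 := Int.le_ceil b
    have h5 : ((⌈b⌉ - 1 : ℤ) : ℝ) < b := by push_cast; linarith
    have h6 : ⌊a⌋ ≤ ⌈b⌉ - 1 := by
      have h7 : (⌊a⌋ : ℝ) < ⌈b⌉ := by
        have := Int.floor_le a
        linarith
      have h8 : ⌊a⌋ < ⌈b⌉ := by exact_mod_cast h7
      omega
    have h9 := key _ h6 h5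
    have h10 : (⌈b⌉ : ℝ) ≤ S.xr q := by
      have : ⌈b⌉ ≤ S.xr q := by omega
      exact_mod_cast this
    linarith

/-- **strips around a point of a ball in the domain** -/
theorem strip_of_ball (hS : S.Ok) (hn : 8 ≤ n) {z : ℂ} {R : ℝ} (hz : Metric.closedBall z R ⊆ S.dom)
    {x y M : ℤ} (hM : 0 ≤ M)
    (h : 1 / 2 + 2 * M / n + |(x : ℝ) / n - z.re| + |(y : ℝ) / n - z.im| + 3 / n ≤ R) :
    Strip S n x M (y - M) (y + M) := by
  intro j hj hj'
  have hn0 : (0 : ℝ) < n := by
    have : 0 < n := by omega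
    exact_mod_cast this
  have hnz : (n : ℤ) ≠ 0 := by omega
  have hnp : (0 : ℤ) < n := by omega
  set c : ℤ := j / n with hc
  have c1 : (n : ℤ) * c ≤ j := Int.mul_ediv_self_le hnz
  have c2 : j < n * (c + 1) := by
    have h1 := Int.emod_add_mul_ediv j n
    have h2 := Int.emod_lt_of_pos j hnp
    rw [← hc] at h1
    have h3 : (n : ℤ) * (c + 1) = n * c + n := by ring
    omega
  have c1' : (n : ℝ) * c ≤ j := by exact_mod_cast c1
  have c2' : (j : ℝ) + 1 ≤ n * (c + 1) := by
    have h3 : j + 1 ≤ n * (c + 1) := by omega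
    exact_mod_cast h3
  have hM0 : (0 : ℝ) ≤ M := by exact_mod_cast hM
  have j1 : (y : ℝ) - M ≤ j := by exact_mod_cast hj
  have j2 : (j : ℝ) ≤ y + M := by exact_mod_cast hj'
  obtain ⟨q, g1, g2, g3, g4⟩ := row_room (S := S) hS (a := ((x : ℝ) - M) / n - 1 / 2)
    (b := ((x : ℝ) + M + 1) / n) (h := ((j : ℝ) + 1 / 2) / n) (c := c) (by
      rw [sub_lt_iff_lt_add]
      have h1 : ((x : ℝ) - M) / n ≤ ((x : ℝ) + M + 1) / n := by
        apply div_le_div_of_nonneg_right _ hn0.le
        linarith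
      linarith) (by
      rw [le_div_iff₀ hn0]
      linarith) (by
      rw [div_le_iff₀ hn0]
      linarith) (by
      intro t ht ht'
      apply hz
      rw [Metric.mem_closedBall, Complex.dist_eq]
      refine (Complex.norm_le_abs_re_add_abs_im _).trans (le_trans ?_ h)
      rw [Complex.sub_re, Complex.sub_im]
      show |t - z.re| + |((j : ℝ) + 1 / 2) / n - z.im| ≤ _
      have e1 : |t - (x : ℝ) / n| ≤ M / n + 1 / n + 1 / 2 := by
        have e2 : ((x : ℝ) - M) / n = x / n - M / n := by ring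
        have e3 : ((x : ℝ) + M + 1) / n = x / n + M / n + 1 / n := by ring
        have e4 : 0 < 1 / (n : ℝ) := by positivity
        rw [abs_le]
        rw [e2] at ht
        rw [e3] at ht'
        constructor <;> linarith
      have e2 : |((j : ℝ) + 1 / 2) / n - (y : ℝ) / n| ≤ M / n + 1 / n := by
        rw [← sub_div, abs_div, abs_of_pos hn0, ← add_div]
        apply div_le_div_of_nonneg_right _ hn0.le
        rw [abs_le]
        constructor <;> linarith
      have e3 := abs_sub_le t ((x : ℝ) / n) z.re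
      have e4 := abs_sub_le (((j : ℝ) + 1 / 2) / n) ((y : ℝ) / n) z.im
      have e5 : 2 * (M : ℝ) / n = M / n + M / n := by ring
      have e6 : 3 / (n : ℝ) = 1 / n + 1 / n + 1 / n := by ring
      have e7 : 0 < 1 / (n : ℝ) := by positivity
      rw [e5, e6]
      linarith)
  refine ⟨q, ?_, ?_, ?_, ?_⟩
  · have h1 : (S.xl q : ℝ) * n ≤ ((x : ℝ) - M) - n / 2 := by
      have h2 := mul_le_mul_of_nonneg_right g1 hn0.le
      have h3 : (((x : ℝ) - M) / n - 1 / 2) * n = ((x : ℝ) - M) - n / 2 := by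
        field_simp
      linarith
    have h2 : (2 * (n * S.xl q) + n : ℝ) ≤ 2 * (x - M) := by linarith
    exact_mod_cast h2
  · have h1 : (x : ℝ) + M + 1 ≤ S.xr q * n := by
      rw [div_le_iff₀ hn0] at g2
      exact g2
    have h2 : x + M + 1 ≤ S.xr q * n := by exact_mod_cast h1
    have h3 : S.xr q * (n : ℤ) = n * S.xr q := mul_comm _ _
    omega
  · have h1 : (n : ℤ) * S.yb q ≤ n * c := mul_le_mul_of_nonneg_left g3 hnp.le
    show n * S.yb q ≤ j
    omega
  · have h1 : (n : ℤ) * (c + 1) ≤ n * S.yt q := mul_le_mul_of_nonneg_left (by omega) hnp.le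
    show j < n * S.yt q
    omega

/-- a point with a strip is in the room whatever the small shifts -/
theorem in_of_strip (hS : S.Ok) (hn : 8 ≤ n) {q : S.Q} {x y M a b : ℤ} (hq : Inq S n q x y)
    (hM : 0 ≤ M) (ha : a ≤ y) (hb : y ≤ b) (hst : Strip S n x M a b) (s : S.Q × Bool → ℕ)
    (hs : S.Small n s) : S.In n s q x y := by
  obtain ⟨h1, h2, h3⟩ := hq
  obtain ⟨h4, h5⟩ := marg hS hn hst (u := q) (i := x) (j := y) ha hb (by omega) (by omega) h1.1 h1.2 h2.le h3
  have h6 := hs.2 (q, false)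
  have h7 : 4 * (s (q, false) : ℤ) ≤ n := by exact_mod_cast h6
  have hn' : (8 : ℤ) ≤ n := by exact_mod_cast hn
  refine ⟨⟨?_, ?_⟩, h2, h3⟩
  · show n * S.xl q + s (q, false) < x
    omega
  · show x < n * S.xr q + s (q, true)
    omega

end Full.Geo
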