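import Pool.Agent.Full.Geo.ObsMove
import Pool.Agent.Full.Geo.Ball
import Pool.Agent.Full.Geo.AvSh
import Pool.Agent.Full.P5.ZDist
import Pool.Agent.Full.Def.Stat

/-!
# Interior regularity of the observable: the statement `S2`
-/

set_option autoImplicit false

namespace Full.Geo
open Function Relation Full.Shape Full.Loc Full.P5
open Pool.Agent.Helper69.RSW (P P_le_one P_nonneg)

variable {S : Shape} {m : S.Marks} {n : ℕ}

lemma norm_obs_le3 {τ : Type*} [DecidableEq τ] (T : Finset τ) (w : Half τ → Half τ) (z : Half τ)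
    (e : Fin 3 → Half τ) : ‖obs T w z e‖ ≤ 3 := by
  unfold obs
  refine (norm_sum_le _ _).trans ?_
  calc ∑ j : Fin 3, ‖Complex.exp (2 * Real.pi * Complex.I / 3) ^ (j : ℕ) *
        ((P T (fun ω => other (mate ω) w z = e j) : ℝ) : ℂ)‖ ≤ ∑ _j : Fin 3, (1 : ℝ) := by
        refine Finset.sum_le_sum fun j _ => ?_
        rw [norm_mul, exp_eq_tau, norm_pow, norm_tau, one_pow, one_mul, Complex.norm_real,
          Real.norm_of_nonneg (P_nonneg _ _)]
        exact P_le_one _ _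
    _ = 3 := by simp

lemma norm_Fz_le3 (q : S.Q) (x y : ℤ) (a : Sh S n) : ‖Fz m n q x y a‖ ≤ 3 := by
  unfold Fz
  split_ifs
  · exact norm_obs_le3 _ _ _ _
  · rw [norm_zero]
    norm_num

lemma norm_Fav_le3 (q : S.Q) (x y : ℤ) : ‖Fav m n q x y‖ ≤ 3 := by
  classical
  unfold Fav avSh
  rw [norm_div, Complex.norm_natCast]
  rcases Nat.eq_zero_or_pos (Finset.univ.filter fun a : Sh S n => ∃ w, IsWz m n q x y a w).card with h0 | h0
  · rw [h0]
    simp
  · rw [div_le_iff₀ (by exact_mod_cast h0)]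
    refine (norm_sum_le _ _).trans ?_
    have h1 : ∀ a ∈ (Finset.univ : Finset (Sh S n)),
        ‖(if ∃ w, IsWz m n q x y a w then Fz m n q x y a else 0 : ℂ)‖ ≤
          if ∃ w, IsWz m n q x y a w then 3 else 0 := by
      intro a _
      split_ifs
      · exact norm_Fz_le3 q x y a
      · rw [norm_zero]
    refine (Finset.sum_le_sum h1).trans ?_
    rw [← Finset.sum_filter, Finset.sum_const, nsmul_eq_mul, mul_comm]

/-- **one move of the averaged observable** -/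
theorem fav_move : ∃ C c : ℝ, 1 ≤ C ∧ 0 < c ∧ c ≤ 1 ∧ ∀ {S : Shape} {m : S.Marks} {n : ℕ} (_ : S.Ok)
    (_ : m.Ok) (_ : 16 ≤ n) {k k' : S.Q} {x y x' y' ρ M : ℤ} (_ : Inq S n k x y) (_ : Inq S n k' x' y')
    (_ : y ≤ y') (_ : x' - x < ρ ∧ x - x' < ρ) (_ : y' - y < ρ) (_ : 3 * ρ + 4 ≤ M)
    (_ : Strip S n x M (y - M) (y + M)),
    ‖Fav m n k x y - Fav m n k' x' y'‖ ≤
      C * (((2 * ρ + 4 : ℤ) : ℝ) / M) ^ c + 24000 * (2 * Fintype.card S.Q + 4) / n := by
  obtain ⟨C, c0, hC, hc0, hobs⟩ := obs_move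
  set c := min c0 1 with hcdef
  have hc : 0 < c := lt_min hc0 one_pos
  refine ⟨C, c, hC, hc, min_le_right _ _, ?_⟩
  intro S m n hS hm hn k k' x y x' y' ρ M hk hk' hyy hρ hρ' hM hst
  have hn8 : 8 ≤ n := by omega
  have hd := tree hS
  obtain ⟨u, v, hu, hv, hmv⟩ := exists_move hS hd hm hn8 hk hk' hyy hρ hρ' hM hst
  have hst' : Strip S n x' (M - ρ) (y' - (M - ρ)) (y' + (M - ρ)) :=
    hst.mono (by omega) (by omega) (by omega) (by omega)
  have hin : ∀ s, S.Small n s → S.In n s k x y :=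
    in_of_strip hS hn8 hk (by omega) (by omega) (by omega) hst
  have hin' : ∀ s, S.Small n s → S.In n s k' x' y' :=
    in_of_strip hS hn8 hk' (by omega) (by omega) (by omega) hst'
  have hadm := adm_move hS hm hn8 hu hv hin hin' hmv
  have hsh : ∀ a : Sh S n, S.Small n a.s := fun a => ⟨hn8, fun i => by
    have := (a.1 i).2
    show 4 * (a.1 i : ℕ) ≤ n
    omega⟩
  have hσ : ∀ (a : Sh S n) (j : Fin 4), 4 * a.σ j ≤ n := fun a j => by
    have := (a.2 j).2
    show 4 * (a.2 j : ℕ) ≤ n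
    omega
  have ip : ∀ a : Sh S n, (∃ w, IsWz m n k x y a w) ↔ Adm m n a.σ k := fun a =>
    isWs_adm hS hm (hsh a) (hσ a) (hin _ (hsh a))
  have ip' : ∀ a : Sh S n, (∃ w, IsWz m n k' x' y' a w) ↔ Adm m n a.σ k' := fun a =>
    isWs_adm hS hm (hsh a) (hσ a) (hin' _ (hsh a))
  have hM0 : (0 : ℝ) < M := by
    have : (0 : ℤ) < M := by omega
    exact_mod_cast this
  have hr0 : (0 : ℝ) ≤ ((2 * ρ + 4 : ℤ) : ℝ) := by
    have : (0 : ℤ) ≤ 2 * ρ + 4 := by omega
    exact_mod_cast this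
  have hr1 : ((2 * ρ + 4 : ℤ) : ℝ) / M ≤ 1 := by
    rw [div_le_one hM0]
    have : 2 * ρ + 4 ≤ M := by omega
    exact_mod_cast this
  have hε : 0 ≤ C * (((2 * ρ + 4 : ℤ) : ℝ) / M) ^ c :=
    mul_nonneg (by linarith) (Real.rpow_nonneg (div_nonneg hr0 hM0.le) _)
  have h := norm_avSh_sub_le (S := S) (n := n) (fun a => ∃ w, IsWz m n k x y a w)
    (fun a => ∃ w, IsWz m n k' x' y' a w) (Fz m n k x y) (Fz m n k' x' y') u v hu hv (K := 3)
    (ε := C * (((2 * ρ + 4 : ℤ) : ℝ) / M) ^ c) (norm_Fz_le3 k x y) (norm_Fz_le3 k' x' y')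
    (fun a a' h => by
      rw [ip, ip]
      exact adm_congr hm k fun j _ => h j)
    (fun a a' h => by
      rw [ip', ip']
      exact adm_congr hm k' fun j _ => h j)
    (fun a a' h1 h2 => by
      have e1 : a'.s = fun i => a.s i + u i := funext h1
      have e2 : a'.σ = fun j => a.σ j + v j := funext h2
      have hpp : (∃ w, IsWz m n k x y a w) ↔ ∃ w, IsWz m n k' x' y' a' w := by
        rw [ip, ip', e2]
        exact hadm a.σ
      refine ⟨hpp, fun hp => ?_⟩
      have hp' := hpp.1 hp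
      have f1 : Fz m n k x y a = obs (S.zT n a.s k y) hp.choose (zz x y)
          (fun j => m.ez n a.σ k j.castSucc) := by
        unfold Fz
        rw [dif_pos hp]
      have f2 : Fz m n k' x' y' a' = obs (S.zT n a'.s k' y') hp'.choose (zz x' y')
          (fun j => m.ez n a'.σ k' j.castSucc) := by
        unfold Fz
        rw [dif_pos hp']
      obtain ⟨B, B', φ, hmz⟩ := hmv a.s a.σ (hsh a).two (by rw [← e1]; exact (hsh a').two)
        (fun j => by have := hσ a j; omega) (fun j => by have := hσ a' j; rw [h2 j] at this; omega)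
      rw [← e1, ← e2] at hmz
      rw [f1, f2]
      refine (hobs hS hm (hsh a) (hsh a') (hσ a) (hσ a') (hin _ (hsh a)) (hin' _ (hsh a')) hmz
        (chartD hS hd (hsh a).two hk (by omega) hst) (by omega) (by omega) hp.choose_spec
        hp'.choose_spec).trans ?_
      have e3 : (2 * ρ + 3 + 1 : ℤ) = 2 * ρ + 4 := by ring
      rw [e3]
      refine mul_le_mul_of_nonneg_left ?_ (by linarith)
      exact Real.rpow_le_rpow_of_exponent_ge' (div_nonneg hr0 hM0.le) hr1 hc.le (min_le_left _ _))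
    hε hn
  calc ‖Fav m n k x y - Fav m n k' x' y'‖ ≤ _ := h
    _ = _ := by ring

end Full.Geo

namespace Full
open Shape Geo Filter Metric

/-- **(S2)** -/
theorem s2 : S2 := by
  obtain ⟨C, c, hC, hc, hc1, hmv⟩ := fav_move
  refine ⟨288 * C, c, hc, ?_⟩
  intro S hS m hm R hR ε hε
  have t1 : Tendsto (fun n : ℕ => C * (192 / (n : ℝ)) ^ c) atTop (nhds 0) := by
    have h1 : Tendsto (fun n : ℕ => 192 / (n : ℝ)) atTop (nhds 0) := tendsto_const_div_atTop_nhds_zero_nat 192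
    have h2 := (h1.rpow_const (p := c) (Or.inr hc.le)).const_mul C
    rwa [Real.zero_rpow hc.ne', mul_zero] at h2
  have t2 : Tendsto (fun n : ℕ => 24000 * (2 * (Fintype.card S.Q : ℝ) + 4) / (n : ℝ)) atTop (nhds 0) :=
    tendsto_const_div_atTop_nhds_zero_nat _
  filter_upwards [t1.eventually (gt_mem_nhds (show (0 : ℝ) < ε / 2 by linarith)),
    t2.eventually (gt_mem_nhds (show (0 : ℝ) < ε / 2 by linarith)), eventually_ge_atTop 300] with n hn1 hn2 hn3
  have hn8 : 8 ≤ n := by omega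
  have hn300 : (300 : ℝ) ≤ n := by exact_mod_cast hn3
  have hn0 : (0 : ℝ) < n := by linarith
  have hR0 : (0 : ℝ) < R := by linarith
  intro z z' hz hzz
  set d := dist z z' with hd
  have hd0 : 0 ≤ d := dist_nonneg
  have hdR0 : 0 ≤ d / R := div_nonneg hd0 hR0.le
  -- the main estimate
  have key : ∀ (ζ ζ' : ℂ) (q q' : S.Q) (x y x' y' : ℤ), dist ζ ζ' = d → dist ζ z ≤ d →
      Inq S n q x y → Inq S n q' x' y' → |(x : ℝ) - n * ζ.re| ≤ 1 → |(y : ℝ) - n * ζ.im| ≤ 1 →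
      |(x' : ℝ) - n * ζ'.re| ≤ 1 → |(y' : ℝ) - n * ζ'.im| ≤ 1 → y ≤ y' → 48 * d ≤ R →
      ‖Fav m n q x y - Fav m n q' x' y'‖ ≤ 288 * C * (d / R) ^ c + ε := by
    intro ζ ζ' q q' x y x' y' hζ hζz hq hq' h1 h2 h3 h4 hyy hdR
    have r1 : |ζ'.re - ζ.re| ≤ d := by
      rw [← Complex.sub_re]
      refine (Complex.abs_re_le_norm _).trans ?_
      rw [← Complex.dist_eq, dist_comm]
      exact hζ.le
    have r2 : |ζ'.im - ζ.im| ≤ d := by
      rw [← Complex.sub_im]
      refine (Complex.abs_im_le_norm _).trans ?_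
      rw [← Complex.dist_eq, dist_comm]
      exact hζ.le
    have r3 : |ζ.re - z.re| ≤ d := by
      rw [← Complex.sub_re]
      refine (Complex.abs_re_le_norm _).trans ?_
      rw [← Complex.dist_eq]
      exact hζz
    have r4 : |ζ.im - z.im| ≤ d := by
      rw [← Complex.sub_im]
      refine (Complex.abs_im_le_norm _).trans ?_
      rw [← Complex.dist_eq]
      exact hζz
    rw [abs_le] at h1 h2 h3 h4 r1 r2 r3 r4
    have m1 : n * (ζ'.re - ζ.re) ≤ n * d := mul_le_mul_of_nonneg_left r1.2 hn0.le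
    have m2 : n * (-d) ≤ n * (ζ'.re - ζ.re) := mul_le_mul_of_nonneg_left r1.1 hn0.le
    have m3 : n * (ζ'.im - ζ.im) ≤ n * d := mul_le_mul_of_nonneg_left r2.2 hn0.le
    have hnd : 0 ≤ (n : ℝ) * d := mul_nonneg hn0.le hd0
    have hnR : (n : ℝ) * (48 * d) ≤ n * R := mul_le_mul_of_nonneg_left hdR hn0.le
    have hnR1 : (n : ℝ) * 1 ≤ n * R := mul_le_mul_of_nonneg_left hR hn0.le
    set ρ : ℤ := ⌈(n : ℝ) * d⌉ + 3 with hρ
    set M : ℤ := ⌊(n : ℝ) * R / 8⌋ with hM
    have c1 := Int.le_ceil ((n : ℝ) * d)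
    have c2 := Int.ceil_lt_add_one ((n : ℝ) * d)
    have c3 := Int.floor_le ((n : ℝ) * R / 8)
    have c4 := Int.lt_floor_add_one ((n : ℝ) * R / 8)
    have ρ1 : (ρ : ℝ) = ⌈(n : ℝ) * d⌉ + 3 := by rw [hρ]; push_cast; ring
    have ρ2 : (n : ℝ) * d + 3 ≤ ρ := by rw [ρ1]; linarith
    have ρ3 : (ρ : ℝ) < n * d + 4 := by rw [ρ1]; linarith
    have M1 : (M : ℝ) ≤ n * R / 8 := c3
    have M2 : (n : ℝ) * R / 8 < M + 1 := c4
    have e1 : x' - x < ρ ∧ x - x' < ρ := by
      constructor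
      · have : (x' : ℝ) - x < ρ := by linarith
        exact_mod_cast this
      · have : (x : ℝ) - x' < ρ := by linarith
        exact_mod_cast this
    have e2 : y' - y < ρ := by
      have : (y' : ℝ) - y < ρ := by linarith
      exact_mod_cast this
    have e3 : 3 * ρ + 4 ≤ M := by
      have : 3 * (ρ : ℝ) + 4 < M + 1 := by linarith
      have h5 : 3 * ρ + 4 < M + 1 := by exact_mod_cast this
      omega
    have M0 : (0 : ℝ) < M := by linarith
    have M0' : 0 ≤ M := by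
      have : (0 : ℝ) ≤ M := M0.le
      exact_mod_cast this
    have e4 : Strip S n x M (y - M) (y + M) := by
      refine strip_of_ball hS hn8 hz M0' ?_
      have k1 : 2 * (M : ℝ) / n ≤ R / 4 := by
        rw [div_le_iff₀ hn0]
        linarith
      have k2 : |(x : ℝ) / n - z.re| ≤ 1 / n + d := by
        have k3 : (x : ℝ) / n - z.re = (x - n * ζ.re) / n + (ζ.re - z.re) := by
          field_simp
          ring
        rw [k3]
        refine (abs_add_le _ _).trans (add_le_add ?_ (abs_le.2 r3))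
        rw [abs_div, abs_of_pos hn0]
        exact div_le_div_of_nonneg_right (abs_le.2 h1) hn0.le
      have k4 : |(y : ℝ) / n - z.im| ≤ 1 / n + d := by
        have k3 : (y : ℝ) / n - z.im = (y - n * ζ.im) / n + (ζ.im - z.im) := by
          field_simp
          ring
        rw [k3]
        refine (abs_add_le _ _).trans (add_le_add ?_ (abs_le.2 r4))
        rw [abs_div, abs_of_pos hn0]
        exact div_le_div_of_nonneg_right (abs_le.2 h2) hn0.le
      have k5 : 1 / (n : ℝ) ≤ 1 / 300 := one_div_le_one_div_of_le (by norm_num) hn300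
      have k6 : 3 / (n : ℝ) = 3 * (1 / n) := by ring
      rw [k6]
      linarith
    refine (hmv hS hm (by omega) hq hq' hyy e1 e2 e3 e4).trans ?_
    have f1 : ((2 * ρ + 4 : ℤ) : ℝ) / M ≤ 32 * (d / R) + 192 / n := by
      rw [div_le_iff₀ M0]
      have g1 : (n : ℝ) * R / 16 ≤ M := by linarith
      have g2 : (32 * (d / R) + 192 / n) * ((n : ℝ) * R / 16) = 2 * (n * d) + 12 * R := by
        field_simp
        ring
      have g3 : (32 * (d / R) + 192 / n) * ((n : ℝ) * R / 16) ≤ (32 * (d / R) + 192 / n) * M :=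
        mul_le_mul_of_nonneg_left g1 (by positivity)
      push_cast
      linarith
    have f2 : (0 : ℝ) ≤ ((2 * ρ + 4 : ℤ) : ℝ) / M := by
      refine div_nonneg ?_ M0.le
      push_cast
      linarith
    have f3 : (((2 * ρ + 4 : ℤ) : ℝ) / M) ^ c ≤ 32 * (d / R) ^ c + (192 / (n : ℝ)) ^ c := by
      refine (Real.rpow_le_rpow f2 f1 hc.le).trans ?_
      refine (Real.rpow_add_le_add_rpow (by positivity) (by positivity) hc.le hc1).trans ?_
      refine add_le_add ?_ le_rfl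
      rw [Real.mul_rpow (by norm_num) hdR0]
      refine mul_le_mul_of_nonneg_right ?_ (Real.rpow_nonneg hdR0 _)
      calc (32 : ℝ) ^ c ≤ 32 ^ (1 : ℝ) := Real.rpow_le_rpow_of_exponent_le (by norm_num) hc1
        _ = 32 := Real.rpow_one _
    have f4 := mul_le_mul_of_nonneg_left f3 (show (0 : ℝ) ≤ C by linarith)
    have f5 : 0 ≤ C * (d / R) ^ c := mul_nonneg (by linarith) (Real.rpow_nonneg hdR0 _)
    calc C * (((2 * ρ + 4 : ℤ) : ℝ) / M) ^ c + 24000 * (2 * (Fintype.card S.Q : ℝ) + 4) / n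
        ≤ C * (32 * (d / R) ^ c + (192 / (n : ℝ)) ^ c) + 24000 * (2 * (Fintype.card S.Q : ℝ) + 4) / n :=
          add_le_add f4 le_rfl
      _ = 32 * (C * (d / R) ^ c) + C * (192 / (n : ℝ)) ^ c +
          24000 * (2 * (Fintype.card S.Q : ℝ) + 4) / n := by ring
      _ ≤ 288 * C * (d / R) ^ c + ε := by linarith
  -- the values of the observable
  have hz1 : closedBall z (1 / 2) ⊆ S.dom := (closedBall_subset_closedBall (by linarith)).trans hz
  have hz2 : closedBall z' (1 / 2) ⊆ S.dom := by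
    refine (closedBall_subset_closedBall' ?_).trans hz
    rw [dist_comm]
    linarith
  obtain ⟨q, ⟨⟨a1, a2⟩, a3, a4⟩, a5, a6, a7⟩ := half_F hS m hn8 hz1
  obtain ⟨q', ⟨⟨b1, b2⟩, b3, b4⟩, b5, b6, b7⟩ := half_F hS m hn8 hz2
  have hft : ∀ (q : S.Q) (ζ : ℂ), ζ.im < S.yt q → (n : ℝ) * ζ.im < (S.ft n q : ℤ) := by
    intro q ζ h
    unfold ft
    push_cast
    exact mul_lt_mul_of_pos_left h hn0
  have pz := P5.point_near (n := n) (z := z) (b := S.ft n q) (hft q z a4)
  have pz' := P5.point_near (n := n) (z := z') (b := S.ft n q') (hft q' z' b4)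
  have e0 : (fun _ => 0 : S.Q × Bool → ℕ) = Sh.s (n := n) (S := S) (fun _ => ⟨0, by omega⟩, fun _ => ⟨0, by omega⟩) :=
    rfl
  have iz := a6 (fun _ => ⟨0, by omega⟩, fun _ => ⟨0, by omega⟩)
  have iz' := b6 (fun _ => ⟨0, by omega⟩, fun _ => ⟨0, by omega⟩)
  have hq : Inq S n q ⌊n * z.re⌋ (min (⌊n * z.im⌋ + 1) (S.ft n q - 1)) := ⟨a7, iz.2⟩
  have hq' : Inq S n q' ⌊n * z'.re⌋ (min (⌊n * z'.im⌋ + 1) (S.ft n q' - 1)) := ⟨b7, iz'.2⟩
  rw [a5, b5]
  by_cases hdR : 48 * d ≤ R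
  · rcases le_total (min (⌊n * z.im⌋ + 1) (S.ft n q - 1)) (min (⌊n * z'.im⌋ + 1) (S.ft n q' - 1)) with h | h
    · exact key z z' q q' _ _ _ _ rfl (by rw [dist_self]; exact hd0) hq hq' pz.1 pz.2 pz'.1 pz'.2 h hdR
    · rw [norm_sub_rev]
      exact key z' z q' q _ _ _ _ (dist_comm _ _) (le_of_eq (dist_comm _ _)) hq' hq pz'.1 pz'.2 pz.1 pz.2 h
        hdR
  · have h1 : ‖Fav m n q ⌊n * z.re⌋ (min (⌊n * z.im⌋ + 1) (S.ft n q - 1)) -
        Fav m n q' ⌊n * z'.re⌋ (min (⌊n * z'.im⌋ + 1) (S.ft n q' - 1))‖ ≤ 6 :=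
      (norm_sub_le _ _).trans (by
        have := norm_Fav_le3 (m := m) (n := n) q ⌊n * z.re⌋ (min (⌊n * z.im⌋ + 1) (S.ft n q - 1))
        have := norm_Fav_le3 (m := m) (n := n) q' ⌊n * z'.re⌋ (min (⌊n * z'.im⌋ + 1) (S.ft n q' - 1))
        linarith)
    have h2 : 1 / 48 ≤ d / R := by
      rw [div_le_div_iff₀ (by norm_num) hR0]
      linarith
    have h3 : (1 : ℝ) / 48 ≤ (d / R) ^ c := by
      calc (1 : ℝ) / 48 = (1 / 48) ^ (1 : ℝ) := (Real.rpow_one _).symm
        _ ≤ (1 / 48) ^ c := Real.rpow_le_rpow_of_exponent_ge (by norm_num) (by norm_num) hc1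
        _ ≤ (d / R) ^ c := Real.rpow_le_rpow (by norm_num) h2 hc.le
    have h4 : (d / R) ^ c ≤ C * (d / R) ^ c := le_mul_of_one_le_left (Real.rpow_nonneg hdR0 _) hC
    linarith

end Full
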