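import Pool.Agent.Full.Geo.Slab

/-!
# As many links as rows in a part of a row

`Shape.card_part`: the part of a shape attached to the ceiling (or to the floor) of a row `r` has as many
links as rows.  Every link of the part is between `r` and exactly one row, its far row (`far`); every row
of the part is the far row of the link from which it is reached.
-/

set_option autoImplicit false

open Function Relation

namespace Full
namespace Shape
variable {S : Shape}

/-- neighbouring rooms -/
abbrev Nbr (S : Shape) (a b : S.Q) : Prop := S.On a b ∨ S.On b a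

lemma Nbr.symm {a b : S.Q} (h : S.Nbr a b) : S.Nbr b a := Or.symm h

/-- the row at the end `c` of the link: `up` for the ceiling (`true`), `dn` for the floor -/
def endR (S : Shape) (k : S.K) (c : Bool) : S.R := if c then S.up k else S.dn k

lemma nbr_endR (k : S.K) (c : Bool) : S.Nbr (.inr k) (.inl (S.endR k c)) := by
  cases c
  · right
    show S.dn k = S.dn k
    rfl
  · left
    show S.up k = S.up k
    rfl

lemma nbr_link {k : S.K} {a : S.Q} (h : S.Nbr (.inr k) a) : ∃ c, a = .inl (S.endR k c) := by
  rcases a with r | k'
  · rcases h with h | h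
    · exact ⟨true, congrArg Sum.inl (show r = S.up k from (show S.up k = r from h).symm)⟩
    · exact ⟨false, congrArg Sum.inl (show r = S.dn k from (show S.dn k = r from h).symm)⟩
  · rcases h with h | h
    · exact absurd h id
    · exact absurd h id

/-- the room at the end of a link is in the part -/
lemma endR_part (k : S.K) (c : Bool) : (.inl (S.endR k c) : S.Q) ∈ S.part (.inr k) c := by
  cases c
  · exact part_of_on' (show S.dn k = S.dn k from rfl)
  · exact part_of_on (show S.up k = S.up k from rfl)

/-- a part of a link is reached from its end -/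
lemma part_link {k : S.K} {c : Bool} {p : S.Q} : p ∈ S.part (.inr k) c ↔
    ReflTransGen (fun u v => v ≠ (.inr k : S.Q) ∧ S.Nbr u v) (.inl (S.endR k c)) p := by
  constructor
  · rintro ⟨a, h1, h2⟩
    have h3 : S.Nbr (.inr k) a := by
      cases c
      · exact Or.inr (by simpa using h1)
      · exact Or.inl (by simpa using h1)
    have h4 : a = .inl (S.endR k c) := by
      rcases a with r | k'
      · cases c
        · have h5 : S.On (.inl r) (.inr k) := by simpa using h1
          have h6 : S.dn k = r := h5
          rw [← h6]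
          rfl
        · have h5 : S.On (.inr k) (.inl r) := by simpa using h1
          have h6 : S.up k = r := h5
          rw [← h6]
          rfl
      · exfalso
        rcases h3 with h3 | h3
        · exact h3
        · exact h3
    rw [h4] at h2
    exact h2
  · intro h
    refine ⟨_, ?_, h⟩
    cases c
    · exact show S.dn k = S.dn k from rfl
    · exact show S.up k = S.up k from rfl

section
variable (hS : S.Ok) (hd : S.Tree)
include hS hd

open Classical in
/-- the side of the link `k` on which the room `q` is -/
noncomputable def sd (S : Shape) (q : S.Q) (k : S.K) : Bool := decide (q ∈ S.part (.inr k) true)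

omit hd in
lemma sd_mem {k : S.K} {q : S.Q} (h : q ≠ .inr k) : q ∈ S.part (.inr k) (S.sd q k) := by
  classical
  unfold sd
  by_cases h1 : q ∈ S.part (.inr k) true
  · rw [decide_eq_true h1]; exact h1
  · rw [decide_eq_false h1]
    exact (part_cover hS (.inr k) q h).resolve_right h1

omit hS in
lemma sd_eq {k : S.K} {q : S.Q} {c : Bool} (h : q ∈ S.part (.inr k) c) : S.sd q k = c := by
  classical
  unfold sd
  cases c
  · exact decide_eq_false (Set.disjoint_left.1 (hd _) h)
  · exact decide_eq_true h

/-- the row at the far end of the link -/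
noncomputable def far (S : Shape) (q : S.Q) (k : S.K) : S.R := S.endR k (!(S.sd q k))

omit hS in
/-- the far row of a link of a part is in the part -/
lemma far_mem {r : S.R} {b : Bool} {k : S.K} (hk : (.inr k : S.Q) ∈ S.part (.inl r) b) :
    (.inl (S.far (.inl r) k) : S.Q) ∈ S.part (.inl r) b := by
  refine part_step hk (fun h => ?_) (nbr_endR k _)
  have h1 := endR_part k (!(S.sd (.inl r) k))
  have h2 : S.endR k (!(S.sd (.inl r) k)) = r := Sum.inl.inj h
  rw [h2] at h1
  have h3 := sd_eq hd h1
  revert h3
  cases S.sd (.inl r) k <;> simp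

/-- two links with the same far row are equal -/
lemma far_inj {r : S.R} {k k' : S.K} (h : S.far (.inl r) k = S.far (.inl r) k') : k = k' := by
  by_contra hne
  have hne' : (.inr k : S.Q) ≠ .inr k' := fun h1 => hne (Sum.inr.inj h1)
  have hq : (.inl r : S.Q) ≠ .inr k := fun h1 => Sum.inl_ne_inr h1
  have hq' : (.inl r : S.Q) ≠ .inr k' := fun h1 => Sum.inl_ne_inr h1
  set c := S.sd (.inl r) k with hc
  set c' := S.sd (.inl r) k' with hc'
  have h1 : (.inl r : S.Q) ∈ S.part (.inr k) c := sd_mem hS hq
  have h2 : (.inl r : S.Q) ∈ S.part (.inr k') c' := sd_mem hS hq'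
  have disj : ∀ (a : S.Q) (k : S.K) (c : Bool), a ∈ S.part (.inr k) c → a ∈ S.part (.inr k) (!c) → False := by
    intro a k c h3 h4
    cases c
    · exact Set.disjoint_left.1 (hd _) h3 h4
    · exact Set.disjoint_left.1 (hd _) h4 h3
  -- the far row `ρ`
  have f1 : (.inl (S.far (.inl r) k) : S.Q) ∈ S.part (.inr k) (!c) := endR_part k _
  have f2 : (.inl (S.far (.inl r) k) : S.Q) ∈ S.part (.inr k') (!c') := by rw [h]; exact endR_part k' _
  have n2 : S.Nbr (.inr k') (.inl (S.far (.inl r) k)) := by rw [h]; exact nbr_endR k' _
  have k1 : (.inr k' : S.Q) ∈ S.part (.inr k) (!c) := part_step f1 hne'.symm n2.symm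
  -- the near row of `k'`
  have k2 : (.inl (S.endR k' c') : S.Q) ∈ S.part (.inr k) (!c) :=
    part_step k1 Sum.inl_ne_inr (nbr_endR k' c')
  have key : ∀ p, ReflTransGen (fun u v => v ≠ (.inr k' : S.Q) ∧ S.Nbr u v) (.inl (S.endR k' c')) p →
      p ∈ S.part (.inr k) (!c) ∨ (.inr k : S.Q) ∈ S.part (.inr k') c' := by
    intro p hp
    induction hp with
    | refl => exact Or.inl k2
    | @tail u v h3 h4 ih =>
      rcases ih with ih | ih
      · by_cases hv : v = .inr k
        · right
          subst hv
          exact part_link.2 (h3.tail h4)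
        · exact Or.inl (part_step ih hv h4.2)
      · exact Or.inr ih
  rcases key _ (part_link.1 h2) with h3 | h3
  · exact disj _ _ _ h1 h3
  · have h4 : (.inl (S.far (.inl r) k) : S.Q) ∈ S.part (.inr k') c' :=
      part_step h3 Sum.inl_ne_inr (nbr_endR k _)
    exact disj _ _ _ h4 f2

/-- every row of a part is the far row of a link of the part -/
lemma far_surj {r ρ : S.R} {b : Bool} (hρ : (.inl ρ : S.Q) ∈ S.part (.inl r) b) :
    ∃ k : S.K, (.inr k : S.Q) ∈ S.part (.inl r) b ∧ S.far (.inl r) k = ρ := by
  have hne : (.inl r : S.Q) ≠ .inl ρ := fun h => not_mem_part (.inl r) b (h ▸ hρ)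
  obtain ⟨c, h1⟩ : ∃ c, (.inl r : S.Q) ∈ S.part (.inl ρ) c := by
    rcases part_cover hS (.inl ρ) (.inl r) hne with h | h
    · exact ⟨_, h⟩
    · exact ⟨_, h⟩
  obtain ⟨a, h2, h3⟩ := h1
  -- the first room of the way from `ρ` to `r` is a link
  have hn : S.Nbr (.inl ρ) a := by
    cases c
    · exact Or.inr (by simpa using h2)
    · exact Or.inl (by simpa using h2)
  obtain ⟨k, rfl⟩ : ∃ k, a = .inr k := by
    rcases a with r' | k
    · exfalso
      rcases hn with h | h
      · exact h
      · exact h
    · exact ⟨k, rfl⟩
  obtain ⟨e, he⟩ := nbr_link hn.symm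
  have heρ : S.endR k e = ρ := (Sum.inl.inj he).symm
  have h3' : ReflTransGen (fun u v => v ≠ (.inl ρ : S.Q) ∧ S.Nbr u v) (.inr k) (.inl r) := h3
  have key : ∀ p, ReflTransGen (fun u v => v ≠ (.inl ρ : S.Q) ∧ S.Nbr u v) (.inr k) p →
      p = .inr k ∨ p ∈ S.part (.inr k) (!e) := by
    intro p hp
    induction hp with
    | refl => exact Or.inl rfl
    | @tail u v _ h4 ih =>
      by_cases hv : v = .inr k
      · exact Or.inl hv
      · right
        rcases ih with rfl | ih
        · obtain ⟨e', he'⟩ := nbr_link h4.2
          have h5 : e' = !e := by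
            by_contra h6
            have h7 : e' = e := by revert h6; cases e' <;> cases e <;> simp
            rw [h7, heρ] at he'
            exact h4.1 he'
          rw [he', h5]
          exact endR_part k _
        · exact part_step ih hv h4.2
  have h5 : (.inl r : S.Q) ∈ S.part (.inr k) (!e) := (key _ h3').resolve_left Sum.inl_ne_inr
  have hfar : S.far (.inl r) k = ρ := by
    unfold far
    rw [sd_eq hd h5, Bool.not_not, heρ]
  exact ⟨k, part_step hρ Sum.inr_ne_inl hn, hfar⟩

open Classical in
/-- **as many links as rows in a part** -/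
theorem card_part (r : S.R) (b : Bool) :
    (Finset.univ.filter fun k : S.K => (.inr k : S.Q) ∈ S.part (.inl r) b).card =
      (Finset.univ.filter fun ρ : S.R => (.inl ρ : S.Q) ∈ S.part (.inl r) b).card := by
  refine Finset.card_bij (fun k _ => S.far (.inl r) k) ?_ ?_ ?_
  · intro k hk
    exact Finset.mem_filter.2 ⟨Finset.mem_univ _, far_mem hd (Finset.mem_filter.1 hk).2⟩
  · intro k _ k' _ h
    exact far_inj hS hd h
  · intro ρ hρ
    obtain ⟨k, h1, h2⟩ := far_surj hS hd (Finset.mem_filter.1 hρ).2
    exact ⟨k, Finset.mem_filter.2 ⟨Finset.mem_univ _, h1⟩, h2⟩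

end

end Shape
end Full
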