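import Pool.Agent.Full.Geo.Rooms
import Pool.Agent.Full.Disc.Rows

/-!
# Shapes: the fine region has no holes

`Shape.noHole`: every tile outside the fine region can be joined to infinity outside the fine region.
-/

set_option autoImplicit false

open Function Relation

namespace Full

namespace Disc

/-- a walk outside `T` in the direction `v` -/
theorem walk_dir {T : Set (ℤ × ℤ)} {v : ℤ × ℤ} (hv : ∀ c, Nb c (c + v)) {c : ℤ × ℤ} (m : ℕ)
    (h : ∀ k : ℕ, 1 ≤ k → k ≤ m → c + (k : ℤ) • v ∉ T) :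
    ReflTransGen (fun a b => Nb a b ∧ b ∉ T) c (c + (m : ℤ) • v) := by
  induction m with
  | zero => simpa using ReflTransGen.refl
  | succ m ih =>
    refine (ih fun k h1 h2 => h k h1 (by omega)).tail ⟨?_, h _ (by omega) le_rfl⟩
    have := hv (c + (m : ℤ) • v)
    rwa [add_assoc, show (m : ℤ) • v + v = ((m + 1 : ℕ) : ℤ) • v by
      push_cast; rw [add_smul, one_smul]] at this

lemma nbE (c : ℤ × ℤ) : Nb c (c + (1, 0)) := by
  obtain ⟨i, j⟩ := c
  have := Nb.right i j
  rwa [show ((i + 1, j) : ℤ × ℤ) = (i, j) + (1, 0) by ext <;> simp] at this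

lemma nbW (c : ℤ × ℤ) : Nb c (c + (-1, 0)) := by
  obtain ⟨i, j⟩ := c
  have := Nb.left (i - 1) j
  rw [sub_add_cancel] at this
  rwa [show ((i - 1, j) : ℤ × ℤ) = (i, j) + (-1, 0) by ext <;> simp [sub_eq_add_neg]] at this

lemma nbN (c : ℤ × ℤ) : Nb c (c + (0, 1)) := by
  obtain ⟨i, j⟩ := c
  have := Nb.up i j
  rwa [show ((i, j + 1) : ℤ × ℤ) = (i, j) + (0, 1) by ext <;> simp] at this

lemma nbS (c : ℤ × ℤ) : Nb c (c + (0, -1)) := by
  obtain ⟨i, j⟩ := c
  have := Nb.down i (j - 1)
  rw [sub_add_cancel] at this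
  rwa [show ((i, j - 1) : ℤ × ℤ) = (i, j) + (0, -1) by ext <;> simp [sub_eq_add_neg]] at this

/-- walk to the right from `(i, j)` to `(i', j)` -/
theorem walkE {T : Set (ℤ × ℤ)} {i i' j : ℤ} (hi : i ≤ i') (h : ∀ k, i < k → k ≤ i' → (k, j) ∉ T) :
    ReflTransGen (fun a b => Nb a b ∧ b ∉ T) (i, j) (i', j) := by
  have := walk_dir (T := T) (c := (i, j)) nbE (i' - i).toNat fun k h1 h2 => by
    have e : ((i, j) : ℤ × ℤ) + (k : ℤ) • ((1, 0) : ℤ × ℤ) = (i + k, j) := by ext <;> simp
    rw [e]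
    exact h _ (by omega) (by omega)
  have e : ((i, j) : ℤ × ℤ) + ((i' - i).toNat : ℤ) • ((1, 0) : ℤ × ℤ) = (i', j) := by
    ext
    · simp; omega
    · simp
  rwa [e] at this

/-- walk to the left from `(i, j)` to `(i', j)` -/
theorem walkW {T : Set (ℤ × ℤ)} {i i' j : ℤ} (hi : i' ≤ i) (h : ∀ k, i' ≤ k → k < i → (k, j) ∉ T) :
    ReflTransGen (fun a b => Nb a b ∧ b ∉ T) (i, j) (i', j) := by
  have := walk_dir (T := T) (c := (i, j)) nbW (i - i').toNat fun k h1 h2 => by
    have e : ((i, j) : ℤ × ℤ) + (k : ℤ) • ((-1, 0) : ℤ × ℤ) = (i - k, j) := by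
      ext <;> simp [sub_eq_add_neg]
    rw [e]
    exact h _ (by omega) (by omega)
  have e : ((i, j) : ℤ × ℤ) + ((i - i').toNat : ℤ) • ((-1, 0) : ℤ × ℤ) = (i', j) := by
    ext
    · simp; omega
    · simp
  rwa [e] at this

/-- walk upwards from `(i, j)` to `(i, j')` -/
theorem walkN {T : Set (ℤ × ℤ)} {i j j' : ℤ} (hj : j ≤ j') (h : ∀ k, j < k → k ≤ j' → (i, k) ∉ T) :
    ReflTransGen (fun a b => Nb a b ∧ b ∉ T) (i, j) (i, j') := by
  have := walk_dir (T := T) (c := (i, j)) nbN (j' - j).toNat fun k h1 h2 => by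
    have e : ((i, j) : ℤ × ℤ) + (k : ℤ) • ((0, 1) : ℤ × ℤ) = (i, j + k) := by ext <;> simp
    rw [e]
    exact h _ (by omega) (by omega)
  have e : ((i, j) : ℤ × ℤ) + ((j' - j).toNat : ℤ) • ((0, 1) : ℤ × ℤ) = (i, j') := by
    ext
    · simp
    · simp; omega
  rwa [e] at this

/-- walk downwards from `(i, j)` to `(i, j')` -/
theorem walkS {T : Set (ℤ × ℤ)} {i j j' : ℤ} (hj : j' ≤ j) (h : ∀ k, j' ≤ k → k < j → (i, k) ∉ T) :
    ReflTransGen (fun a b => Nb a b ∧ b ∉ T) (i, j) (i, j') := by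
  have := walk_dir (T := T) (c := (i, j)) nbS (j - j').toNat fun k h1 h2 => by
    have e : ((i, j) : ℤ × ℤ) + (k : ℤ) • ((0, -1) : ℤ × ℤ) = (i, j - k) := by
      ext <;> simp [sub_eq_add_neg]
    rw [e]
    exact h _ (by omega) (by omega)
  have e : ((i, j) : ℤ × ℤ) + ((j - j').toNat : ℤ) • ((0, -1) : ℤ × ℤ) = (i, j') := by
    ext
    · simp
    · simp; omega
  rwa [e] at this

end Disc

namespace Shape

open Disc

variable {S : Shape} {n : ℕ} {s : S.Q × Bool → ℕ}

/-- the coarse cell `(x, y)` belongs to the room `q` -/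
def Cell (S : Shape) (q : S.Q) (x y : ℤ) : Prop := (S.xl q ≤ x ∧ x < S.xr q) ∧ S.yb q ≤ y ∧ y < S.yt q

lemma mem_cells {c : ℤ × ℤ} : c ∈ S.cells ↔ ∃ q, S.Cell q c.1 c.2 := Iff.rfl

/-- horizontally neighbouring coarse cells belong to the same room -/
lemma cell_unique (hS : S.Ok) {a b : S.Q} {x x' y : ℤ} (h1 : x ≤ x') (h2 : x' ≤ x + 1)
    (ha : S.Cell a x y) (hb : S.Cell b x' y) : a = b := by
  by_contra h
  obtain ⟨⟨a1, a2⟩, a3, a4⟩ := ha
  obtain ⟨⟨b1, b2⟩, b3, b4⟩ := hb
  by_cases h3 : S.On a b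
  · have := hS.on_y a b h3
    omega
  · by_cases h4 : S.On b a
    · have := hS.on_y b a h4
      omega
    · rcases hS.sep a b h h3 h4 with h5 | h5 | h5 | h5 <;> omega

lemma lt_of_mul {n : ℕ} {a b : ℤ} (h : (n : ℤ) * a < n * b) : a < b :=
  lt_of_mul_lt_mul_left h (by positivity)

/-- the coarse cell of a tile of a room: the cell of the block or the cell on its left -/
lemma block_room (hs : S.Small2 n s) {q : S.Q} {i j I J : ℤ} (h : (i, j) ∈ S.room n s q)
    (hi : n * I ≤ i) (hi' : i < n * (I + 1)) (hj : n * J ≤ j) (hj' : j < n * (J + 1)) :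
    S.xl q ≤ I ∧ (I < S.xr q ∨ (I = S.xr q ∧ 2 * (i - n * I) < n)) ∧ S.yb q ≤ J ∧ J < S.yt q := by
  rw [mem_room] at h
  obtain ⟨⟨h1, h2⟩, h3, h4⟩ := h
  dsimp only at h1 h2 h3 h4
  unfold fl at h1
  unfold fr at h2
  unfold fb at h3
  unfold ft at h4
  have h5 : 2 * (s (q, true) : ℤ) ≤ n := by exact_mod_cast hs.2 (q, true)
  have h6 : (8 : ℤ) ≤ n := by exact_mod_cast hs.1
  have h7 : (0 : ℤ) ≤ s (q, false) := by positivity
  have a1 : S.xl q < I + 1 := lt_of_mul (n := n) (by linarith)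
  have a2 : I < S.xr q + 1 := lt_of_mul (n := n) (by
    rw [mul_add, mul_one]; linarith)
  have a3 : S.yb q < J + 1 := lt_of_mul (n := n) (by linarith)
  have a4 : J < S.yt q := lt_of_mul (n := n) (by linarith)
  refine ⟨by omega, ?_, by omega, a4⟩
  rcases lt_or_ge I (S.xr q) with h8 | h8
  · exact Or.inl h8
  · right
    have h9 : I = S.xr q := by omega
    refine ⟨h9, ?_⟩
    rw [h9]
    linarith

/-- a tile outside the fine region -/
lemma block_notMem (hS : S.Ok) (hs : S.Small2 n s) {i j I J : ℤ}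
    (hi : n * I ≤ i) (hi' : i < n * (I + 1)) (hj : n * J ≤ j) (hj' : j < n * (J + 1))
    (h : (I, J) ∉ S.cells) (h' : (I - 1, J) ∉ S.cells ∨ (n : ℤ) ≤ 2 * (i - n * I)) : (i, j) ∉ S.T n s := by
  rw [mem_T]
  rintro ⟨q, hq⟩
  obtain ⟨h1, h2, h3, h4⟩ := block_room hs hq hi hi' hj hj'
  rcases h2 with h2 | ⟨h2, h5⟩
  · exact h (mem_cells.2 ⟨q, ⟨h1, h2⟩, h3, h4⟩)
  · rcases h' with h' | h'
    · have := hS.x_lt q
      exact h' (mem_cells.2 ⟨q, ⟨by simp only; omega, by simp only; omega⟩, h3, h4⟩)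
    · omega

/-- the representative tile of a coarse cell -/
def rep (n : ℕ) (c : ℤ × ℤ) : ℤ × ℤ := (n * c.1 + n - 1, n * c.2)

section
variable (hS : S.Ok) (hs : S.Small2 n s)
include hS hs

/-- the representatives of neighbouring cells of the complement are joined -/
lemma rep_step {u v : ℤ × ℤ} (hu : u ∉ S.cells) (hv : v ∉ S.cells)
    (h : (v.1 = u.1 ∧ |v.2 - u.2| = 1) ∨ (v.2 = u.2 ∧ |v.1 - u.1| = 1)) :
    ReflTransGen (fun a b => Nb a b ∧ b ∉ (S.T n s : Set (ℤ × ℤ))) (rep n u) (rep n v) := by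
  obtain ⟨I, J⟩ := u
  obtain ⟨I', J'⟩ := v
  have hn : (8 : ℤ) ≤ n := by exact_mod_cast hs.1
  unfold rep
  dsimp only at h ⊢
  rcases h with ⟨rfl, h⟩ | ⟨rfl, h⟩
  · rcases (abs_eq (by norm_num : (0 : ℤ) ≤ 1)).1 h with h | h
    · obtain rfl : J' = J + 1 := by omega
      refine walkN (by nlinarith) fun k h1 h2 => ?_
      rw [Finset.mem_coe]
      rw [mul_add, mul_one] at h2
      rcases lt_or_eq_of_le h2 with h3 | h3
      · exact block_notMem hS hs (I := I') (J := J) (by linarith) (by rw [mul_add]; linarith) (by linarith)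
          (by rw [mul_add]; linarith) hu (Or.inr (by linarith))
      · exact block_notMem hS hs (I := I') (J := J + 1) (by linarith) (by rw [mul_add]; linarith)
          (by rw [mul_add]; linarith) (by rw [mul_add, mul_add]; linarith) hv (Or.inr (by linarith))
    · obtain rfl : J' = J - 1 := by omega
      refine walkS (by nlinarith) fun k h1 h2 => ?_
      rw [Finset.mem_coe]
      rw [mul_sub, mul_one] at h1
      exact block_notMem hS hs (I := I') (J := J - 1) (by linarith) (by rw [mul_add]; linarith)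
        (by rw [mul_sub]; linarith) (by rw [sub_add_cancel]; linarith) hv (Or.inr (by linarith))
  · rcases (abs_eq (by norm_num : (0 : ℤ) ≤ 1)).1 h with h | h
    · obtain rfl : I' = I + 1 := by omega
      refine walkE (by nlinarith) fun k h1 h2 => ?_
      rw [Finset.mem_coe]
      rw [mul_add, mul_one] at h2
      exact block_notMem hS hs (I := I + 1) (J := J') (by rw [mul_add]; linarith)
        (by rw [mul_add, mul_add]; linarith) le_rfl (by rw [mul_add]; linarith) hv
        (Or.inl (by rw [add_sub_cancel_right]; exact hu))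
    · obtain rfl : I' = I - 1 := by omega
      refine walkW (by nlinarith) fun k h1 h2 => ?_
      rw [Finset.mem_coe]
      rw [mul_sub, mul_one] at h1
      rcases lt_or_ge k (n * I) with h3 | h3
      · obtain rfl : k = n * I - 1 := by omega
        exact block_notMem hS hs (I := I - 1) (J := J') (by rw [mul_sub]; linarith)
          (by rw [sub_add_cancel]; linarith) le_rfl (by rw [mul_add]; linarith) hv
          (Or.inr (by rw [mul_sub]; linarith))
      · exact block_notMem hS hs (I := I) (J := J') h3 (by rw [mul_add]; linarith) le_rfl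
          (by rw [mul_add]; linarith) hu (Or.inl hv)

/-- the representative of a cell of the complement can be joined to infinity -/
lemma rep_free {c : ℤ × ℤ} (hc : c ∉ S.cells) : Free (S.T n s : Set (ℤ × ℤ)) (rep n c) := by
  obtain ⟨N, hN⟩ : ∃ N : ℤ, ∀ q : S.Q, N ≤ S.yb q := by
    obtain ⟨N, hN⟩ := (Set.finite_range S.yb).bddBelow
    exact ⟨N, fun q => hN ⟨q, rfl⟩⟩
  have hn : (8 : ℤ) ≤ n := by exact_mod_cast hs.1
  obtain ⟨c', h1, h2⟩ := hS.compl c hc N
  have h3 : Free (S.T n s : Set (ℤ × ℤ)) (rep n c') := by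
    refine ⟨rep n c', .refl, fun i _ hi => ?_⟩
    rw [Finset.mem_coe, mem_T] at hi
    obtain ⟨q, hq⟩ := hi
    rw [mem_room] at hq
    have h4 := hq.2.1
    unfold fb rep at h4
    dsimp only at h4
    have h5 := hN q
    nlinarith
  have key : ∀ a b : ℤ × ℤ, a ∉ S.cells → ReflTransGen (fun u v : ℤ × ℤ => v ∉ S.cells ∧
      ((v.1 = u.1 ∧ |v.2 - u.2| = 1) ∨ (v.2 = u.2 ∧ |v.1 - u.1| = 1))) a b → b ∉ S.cells ∧
      ReflTransGen (fun a b => Nb a b ∧ b ∉ (S.T n s : Set (ℤ × ℤ))) (rep n a) (rep n b) := by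
    intro a b ha hab
    induction hab with
    | refl => exact ⟨ha, .refl⟩
    | tail _ h ih => exact ⟨h.1, ih.2.trans (rep_step hS hs ih.1 h.1 h.2)⟩
  exact Free.trans (key c c' hc h2).2 h3

/-- **the fine region has no holes** -/
theorem noHole : NoHole (S.T n s : Set (ℤ × ℤ)) := by
  rintro ⟨i, j⟩ hc
  rw [Finset.mem_coe] at hc
  have hn : (8 : ℤ) ≤ n := by exact_mod_cast hs.1
  have hn0 : (0 : ℤ) < n := by omega
  obtain ⟨I, hI⟩ : ∃ I : ℤ, I = i / n := ⟨_, rfl⟩
  obtain ⟨J, hJ⟩ : ∃ J : ℤ, J = j / n := ⟨_, rfl⟩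
  have i1 : n * I ≤ i := by rw [hI]; exact Int.mul_ediv_self_le (by omega)
  have i2 : i < n * (I + 1) := by
    rw [hI, mul_add, mul_one]; exact Int.lt_mul_ediv_self_add hn0
  have j1 : n * J ≤ j := by rw [hJ]; exact Int.mul_ediv_self_le (by omega)
  have j2 : j < n * (J + 1) := by
    rw [hJ, mul_add, mul_one]; exact Int.lt_mul_ediv_self_add hn0
  have i2' := i2
  have j2' := j2
  rw [mul_add, mul_one] at i2' j2'
  by_cases h : (I, J) ∈ S.cells
  · -- left of the shifted left wall of a room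
    obtain ⟨q, hq⟩ := mem_cells.1 h
    have hql : I = S.xl q := by
      by_contra hne
      apply hc
      rw [mem_T]
      refine ⟨q, ?_⟩
      rw [mem_room]
      obtain ⟨⟨q1, q2⟩, q3, q4⟩ := hq
      dsimp only at q1 q2 q3 q4
      unfold fl fr fb ft
      have h6 : 2 * (s (q, false) : ℤ) ≤ n := by exact_mod_cast hs.2 (q, false)
      have h7 : (0 : ℤ) ≤ s (q, true) := by positivity
      have h8 : (n : ℤ) * (S.xl q + 1) ≤ n * I := mul_le_mul_of_nonneg_left (by omega) (by omega)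
      have h9 : (n : ℤ) * (I + 1) ≤ n * S.xr q := mul_le_mul_of_nonneg_left (by omega) (by omega)
      have h10 : (n : ℤ) * (J + 1) ≤ n * S.yt q := mul_le_mul_of_nonneg_left (by omega) (by omega)
      have h11 : (n : ℤ) * S.yb q ≤ n * J := mul_le_mul_of_nonneg_left (by omega) (by omega)
      rw [mul_add, mul_one] at h8
      refine ⟨⟨by dsimp only; linarith, by dsimp only; linarith⟩, by dsimp only; linarith, by dsimp only; linarith⟩
    have hleft : (I - 1, J) ∉ S.cells := by
      intro h'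
      obtain ⟨a, ha⟩ := mem_cells.1 h'
      have h4 := cell_unique hS (x := I - 1) (x' := I) (by omega) (by omega) ha hq
      subst h4
      have := ha.1.1
      dsimp only at this
      omega
    have hwalk : ReflTransGen (fun a b => Nb a b ∧ b ∉ (S.T n s : Set (ℤ × ℤ))) (i, j) (n * I - 1, j) := by
      refine walkW (by linarith) fun k h1 h2 => ?_
      rw [Finset.mem_coe]
      rcases lt_or_ge k (n * I) with h3 | h3
      · obtain rfl : k = n * I - 1 := by omega
        exact block_notMem hS hs (I := I - 1) (J := J) (by rw [mul_sub]; linarith)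
          (by rw [sub_add_cancel]; linarith) j1 j2 hleft (Or.inr (by rw [mul_sub]; linarith))
      · intro hk
        obtain ⟨p, hp⟩ := mem_T.1 hk
        obtain ⟨p1, p2, p3, p4⟩ := block_room hs hp h3 (by linarith) j1 j2
        rcases p2 with p2 | ⟨p2, -⟩
        · have h4 : p = q := cell_unique hS (x := I) (x' := I) le_rfl (by omega) ⟨⟨p1, p2⟩, p3, p4⟩ hq
          subst h4
          apply hc
          rw [mem_T]
          refine ⟨p, ?_⟩
          rw [mem_room] at hp ⊢
          obtain ⟨⟨a1, a2⟩, a3⟩ := hp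
          dsimp only at a1 a2 a3 ⊢
          have h9 : (n : ℤ) * (I + 1) ≤ n * S.xr p := mul_le_mul_of_nonneg_left (by omega) (by omega)
          refine ⟨⟨by omega, ?_⟩, a3⟩
          unfold fr
          have h7 : (0 : ℤ) ≤ s (p, true) := by positivity
          linarith
        · have := hS.x_lt p
          exact hleft (mem_cells.2 ⟨p, ⟨by dsimp only; omega, by dsimp only; omega⟩, p3, p4⟩)
    have hdown : ReflTransGen (fun a b => Nb a b ∧ b ∉ (S.T n s : Set (ℤ × ℤ))) (n * I - 1, j)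
        (rep n (I - 1, J)) := by
      have e : rep n (I - 1, J) = (n * I - 1, n * J) := by
        unfold rep
        ext
        · dsimp only; ring
        · rfl
      rw [e]
      refine walkS j1 fun k h1 h2 => ?_
      exact block_notMem hS hs (I := I - 1) (J := J) (by rw [mul_sub]; linarith)
          (by rw [sub_add_cancel]; linarith) h1 (by linarith) hleft (Or.inr (by rw [mul_sub]; linarith))
    exact Free.trans (hwalk.trans hdown) (rep_free hS hs hleft)
  · have hwalk : ReflTransGen (fun a b => Nb a b ∧ b ∉ (S.T n s : Set (ℤ × ℤ))) (i, j)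
        (n * I + n - 1, j) := by
      refine walkE (by linarith) fun k h1 h2 => ?_
      rw [Finset.mem_coe]
      intro hk
      obtain ⟨p, hp⟩ := mem_T.1 hk
      obtain ⟨p1, p2, p3, p4⟩ := block_room hs hp (I := I) (by linarith) (by rw [mul_add]; linarith) j1 j2
      rcases p2 with p2 | ⟨p2, -⟩
      · exact h (mem_cells.2 ⟨p, ⟨p1, p2⟩, p3, p4⟩)
      · apply hc
        rw [mem_T]
        refine ⟨p, ?_⟩
        rw [mem_room] at hp ⊢
        obtain ⟨⟨a1, a2⟩, a3⟩ := hp
        dsimp only at a1 a2 a3 ⊢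
        refine ⟨⟨?_, by omega⟩, a3⟩
        have := hS.x_lt p
        have h9 : (n : ℤ) * (S.xl p + 1) ≤ n * I := mul_le_mul_of_nonneg_left (by omega) (by omega)
        unfold fl
        have h6 : 2 * (s (p, false) : ℤ) ≤ n := by exact_mod_cast hs.2 (p, false)
        rw [mul_add, mul_one] at h9
        linarith
    have hdown : ReflTransGen (fun a b => Nb a b ∧ b ∉ (S.T n s : Set (ℤ × ℤ))) (n * I + n - 1, j)
        (rep n (I, J)) := by
      refine walkS j1 fun k h1 h2 => ?_
      exact block_notMem hS hs (I := I) (J := J) (by linarith) (by rw [mul_add]; linarith) h1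
        (by linarith) h (Or.inr (by linarith))
    exact Free.trans (hwalk.trans hdown) (rep_free hS hs h)

theorem free (c : ℤ × ℤ) (hc : c ∉ S.T n s) : Disc.Free (S.T n s : Set (ℤ × ℤ)) c :=
  noHole hS hs c (by rwa [Finset.mem_coe])

end

end Shape
end Full
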