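import Pool.Agent.Full.Geo.Rooms

/-!
# Shapes: deep points
-/

set_option autoImplicit false

namespace Full
namespace Shape
open Function Relation

variable {S : Shape}

/-- every coarse cell at a point of the domain is a cell of the shape -/
theorem cell_of_mem_dom {c : ℤ × ℤ} {w : ℂ} (hw : w ∈ S.dom) (h1 : (c.1 : ℝ) ≤ w.re) (h2 : w.re ≤ c.1 + 1)
    (h3 : (c.2 : ℝ) ≤ w.im) (h4 : w.im ≤ c.2 + 1) : c ∈ S.cells := by
  have hw' : w ∈ interior {z : ℂ | ∃ q, ((S.xl q : ℝ) ≤ z.re ∧ z.re ≤ S.xr q) ∧ (S.yb q : ℝ) ≤ z.im ∧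
    z.im ≤ S.yt q} := hw
  rw [mem_interior_iff_mem_nhds, Metric.mem_nhds_iff] at hw'
  obtain ⟨ε, hε, hb⟩ := hw'
  set t : ℝ := min (ε / 4) (1 / 2) with ht
  have t0 : 0 < t := lt_min (by linarith) (by norm_num)
  have t1 : t ≤ 1 / 2 := min_le_right _ _
  have t2 : t ≤ ε / 4 := min_le_left _ _
  set v : ℂ := ⟨w.re + t * (c.1 + 1 / 2 - w.re), w.im + t * (c.2 + 1 / 2 - w.im)⟩ with hv
  have hvb : v ∈ Metric.ball w ε := by
    rw [Metric.mem_ball, Complex.dist_eq]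
    refine lt_of_le_of_lt (Complex.norm_le_abs_re_add_abs_im _) ?_
    rw [Complex.sub_re, Complex.sub_im]
    have e1 : |v.re - w.re| ≤ t := by
      rw [abs_le]
      simp only [hv]
      constructor <;> nlinarith
    have e2 : |v.im - w.im| ≤ t := by
      rw [abs_le]
      simp only [hv]
      constructor <;> nlinarith
    linarith
  obtain ⟨q, ⟨k1, k2⟩, k3, k4⟩ := hb hvb
  simp only [hv] at k1 k2 k3 k4
  refine ⟨q, ⟨?_, ?_⟩, ?_, ?_⟩
  · have : (S.xl q : ℝ) < c.1 + 1 := by nlinarith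
    have h5 : S.xl q < c.1 + 1 := by exact_mod_cast this
    omega
  · have : (c.1 : ℝ) < S.xr q := by nlinarith
    exact_mod_cast this
  · have : (S.yb q : ℝ) < c.2 + 1 := by nlinarith
    have h5 : S.yb q < c.2 + 1 := by exact_mod_cast this
    omega
  · have : (c.2 : ℝ) < S.yt q := by nlinarith
    exact_mod_cast this

/-- horizontally neighbouring cells are in the same room -/
lemma room_of_row (hS : S.Ok) {p p' : S.Q} {i j : ℤ} (h1 : S.xl p ≤ i) (h2 : i < S.xr p) (h3 : S.yb p ≤ j)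
    (h4 : j < S.yt p) (h1' : S.xl p' ≤ i - 1) (h2' : i - 1 < S.xr p') (h3' : S.yb p' ≤ j) (h4' : j < S.yt p') :
    p = p' := by
  by_contra h
  by_cases o1 : S.On p p'
  · have := hS.on_y _ _ o1; omega
  by_cases o2 : S.On p' p
  · have := hS.on_y _ _ o2; omega
  rcases hS.sep p p' h o1 o2 with g | g | g | g <;> omega

/-- a point with a ball of radius `1 / 2` in the domain is in a room, at distance `1 / 2` from its left wall -/
theorem half_room (hS : S.Ok) {z : ℂ} (hz : Metric.closedBall z (1 / 2) ⊆ S.dom) :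
    ∃ q, ((S.xl q : ℝ) + 1 / 2 ≤ z.re ∧ z.re < S.xr q) ∧ (S.yb q : ℝ) ≤ z.im ∧ z.im < S.yt q := by
  have hf1 := Int.floor_le z.re
  have hf2 := Int.lt_floor_add_one z.re
  have hf3 := Int.floor_le z.im
  have hf4 := Int.lt_floor_add_one z.im
  obtain ⟨q, ⟨h1, h2⟩, h3, h4⟩ := cell_of_mem_dom (c := (⌊z.re⌋, ⌊z.im⌋))
    (hz (Metric.mem_closedBall_self (by norm_num))) hf1 hf2.le hf3 hf4.le
  simp only at h1 h2 h3 h4
  refine ⟨q, ⟨?_, Int.floor_lt.1 h2⟩, Int.le_floor.1 h3, Int.floor_lt.1 h4⟩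
  by_contra hlt
  have hlt : z.re < (S.xl q : ℝ) + 1 / 2 := not_le.1 hlt
  have h0 : (S.xl q : ℝ) ≤ z.re := Int.le_floor.1 h1
  have hw : (⟨z.re - 1 / 2, z.im⟩ : ℂ) ∈ S.dom := hz (by
    rw [Metric.mem_closedBall, Complex.dist_eq]
    refine (Complex.norm_le_abs_re_add_abs_im _).trans ?_
    rw [Complex.sub_re, Complex.sub_im]
    simp only [sub_self, abs_zero, add_zero]
    rw [abs_le]
    constructor <;> linarith)
  obtain ⟨q', ⟨h1', h2'⟩, h3', h4'⟩ := cell_of_mem_dom (c := (S.xl q - 1, ⌊z.im⌋)) hw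
    (by push_cast; linarith) (by push_cast; linarith) hf3 hf4.le
  simp only at h1' h2' h3' h4'
  obtain rfl := room_of_row hS le_rfl (hS.x_lt q) h3 h4 h1' h2' h3' h4'
  omega

/-- a deep point is in the interior of a room, far from its left wall -/
theorem Deep.room (hS : S.Ok) {z : ℂ} (hz : S.Deep z) : ∃ q, ((S.xl q : ℝ) + 1 ≤ z.re ∧ z.re < S.xr q) ∧
    (S.yb q : ℝ) ≤ z.im ∧ z.im < S.yt q := by
  have hf1 := Int.floor_le z.re
  have hf2 := Int.lt_floor_add_one z.re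
  have hf3 := Int.floor_le z.im
  have hf4 := Int.lt_floor_add_one z.im
  obtain ⟨q, ⟨h1, h2⟩, h3, h4⟩ := cell_of_mem_dom (c := (⌊z.re⌋, ⌊z.im⌋))
    (hz (Metric.mem_closedBall_self (by norm_num))) hf1 hf2.le hf3 hf4.le
  have hw : z - 1 ∈ S.dom := hz (by rw [Metric.mem_closedBall, Complex.dist_eq]; simp)
  obtain ⟨q', ⟨h1', h2'⟩, h3', h4'⟩ := cell_of_mem_dom (c := (⌊z.re⌋ - 1, ⌊z.im⌋)) hw
    (by rw [Complex.sub_re, Complex.one_re]; push_cast; linarith)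
    (by rw [Complex.sub_re, Complex.one_re]; push_cast; linarith)
    (by rw [Complex.sub_im, Complex.one_im]; simp only; linarith)
    (by rw [Complex.sub_im, Complex.one_im]; simp only; linarith)
  simp only at h1 h2 h3 h4 h1' h2' h3' h4'
  obtain rfl := room_of_row hS h1 h2 h3 h4 h1' h2' h3' h4'
  refine ⟨q, ⟨?_, Int.floor_lt.1 h2⟩, Int.le_floor.1 h3, Int.floor_lt.1 h4⟩
  have : ((S.xl q + 1 : ℤ) : ℝ) ≤ z.re := Int.le_floor.1 (by omega)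
  push_cast at this
  exact this

/-- a point has at most one room -/
lemma room_unique_pt (hS : S.Ok) {z : ℂ} {p q : S.Q}
    (hp : ((S.xl p : ℝ) < z.re ∧ z.re < S.xr p) ∧ (S.yb p : ℝ) ≤ z.im ∧ z.im < S.yt p)
    (hq : ((S.xl q : ℝ) < z.re ∧ z.re < S.xr q) ∧ (S.yb q : ℝ) ≤ z.im ∧ z.im < S.yt q) : p = q := by
  obtain ⟨⟨h1, h2⟩, h3, h4⟩ := hp
  obtain ⟨⟨k1, k2⟩, k3, k4⟩ := hq
  have c : ∀ {a b : ℤ} {t : ℝ}, (a : ℝ) ≤ t → t < b → a < b := fun h h' => by exact_mod_cast h.trans_lt h'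
  have e1 := c h1.le k2
  have e2 := c k1.le h2
  have e3 := c h3 k4
  have e4 := c k3 h4
  by_contra h
  by_cases o1 : S.On p q
  · have := hS.on_y _ _ o1; omega
  by_cases o2 : S.On q p
  · have := hS.on_y _ _ o2; omega
  rcases hS.sep p q h o1 o2 with g | g | g | g <;> omega

/-- **GEO6**: the observable at a deep point -/
theorem deep_F (hS : S.Ok) (m : S.Marks) {n : ℕ} (hn : 8 ≤ n) {z : ℂ} (hz : S.Deep z) :
    ∃ q, (((S.xl q : ℝ) < z.re ∧ z.re < S.xr q) ∧ (S.yb q : ℝ) ≤ z.im ∧ z.im < S.yt q) ∧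
    F m n z = Fav m n q ⌊n * z.re⌋ (min (⌊n * z.im⌋ + 1) (S.ft n q - 1)) ∧
    ∀ a : Sh S n, S.In n a.s q ⌊n * z.re⌋ (min (⌊n * z.im⌋ + 1) (S.ft n q - 1)) := by
  classical
  obtain ⟨q, ⟨h1, h2⟩, h3, h4⟩ := hz.room hS
  have hq : ((S.xl q : ℝ) < z.re ∧ z.re < S.xr q) ∧ (S.yb q : ℝ) ≤ z.im ∧ z.im < S.yt q :=
    ⟨⟨by linarith, h2⟩, h3, h4⟩
  have hex : ∃ q : S.Q, ((S.xl q : ℝ) < z.re ∧ z.re < S.xr q) ∧ (S.yb q : ℝ) ≤ z.im ∧ z.im < S.yt q := ⟨q, hq⟩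
  have hc : hex.choose = q := room_unique_pt hS hex.choose_spec hq
  refine ⟨q, hq, ?_, fun a => ?_⟩
  · unfold F
    rw [dif_pos hex, hc]
  · have hn0 : (0 : ℝ) < n := by
      have : 0 < n := by omega
      exact_mod_cast this
    have hf := fb_lt_ft (n := n) hS hn q
    have e1 : (n * S.xl q + n : ℤ) ≤ ⌊n * z.re⌋ := by
      rw [Int.le_floor]
      push_cast
      nlinarith
    have e2 : ⌊n * z.re⌋ < (n * S.xr q : ℤ) := by
      rw [Int.floor_lt]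
      push_cast
      exact mul_lt_mul_of_pos_left h2 hn0
    have e3 : (n * S.yb q : ℤ) ≤ ⌊n * z.im⌋ := by
      rw [Int.le_floor]
      push_cast
      exact mul_le_mul_of_nonneg_left h3 hn0.le
    have s1 : a.s (q, false) < n / 4 := (a.1 (q, false)).isLt
    have s2 : 0 ≤ ((a.s (q, true) : ℕ) : ℤ) := by positivity
    unfold In fl fr
    unfold fb at hf ⊢
    refine ⟨⟨?_, ?_⟩, ?_, ?_⟩ <;> omega

/-- **GEO6**, radius `1 / 2` -/
theorem half_F (hS : S.Ok) (m : S.Marks) {n : ℕ} (hn : 8 ≤ n) {z : ℂ} (hz : Metric.closedBall z (1 / 2) ⊆ S.dom) :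
    ∃ q, (((S.xl q : ℝ) + 1 / 2 ≤ z.re ∧ z.re < S.xr q) ∧ (S.yb q : ℝ) ≤ z.im ∧ z.im < S.yt q) ∧
    F m n z = Fav m n q ⌊n * z.re⌋ (min (⌊n * z.im⌋ + 1) (S.ft n q - 1)) ∧
    (∀ a : Sh S n, S.In n a.s q ⌊n * z.re⌋ (min (⌊n * z.im⌋ + 1) (S.ft n q - 1))) ∧
    (n * S.xl q ≤ ⌊n * z.re⌋ ∧ ⌊n * z.re⌋ < n * S.xr q) := by
  classical
  obtain ⟨q, ⟨h1, h2⟩, h3, h4⟩ := half_room hS hz
  have hq : ((S.xl q : ℝ) < z.re ∧ z.re < S.xr q) ∧ (S.yb q : ℝ) ≤ z.im ∧ z.im < S.yt q :=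
    ⟨⟨by linarith, h2⟩, h3, h4⟩
  have hex : ∃ q : S.Q, ((S.xl q : ℝ) < z.re ∧ z.re < S.xr q) ∧ (S.yb q : ℝ) ≤ z.im ∧ z.im < S.yt q := ⟨q, hq⟩
  have hc : hex.choose = q := room_unique_pt hS hex.choose_spec hq
  have hn0 : (0 : ℝ) < n := by
    have : 0 < n := by omega
    exact_mod_cast this
  have hf := fb_lt_ft (n := n) hS hn q
  have e1 : (n * S.xl q + (n / 2 : ℕ) : ℤ) ≤ ⌊n * z.re⌋ := by
    rw [Int.le_floor]
    have h5 : (((n / 2 : ℕ) : ℤ) : ℝ) ≤ (n : ℝ) / 2 := by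
      have h6 : (((n / 2 : ℕ) : ℤ) : ℝ) = ((n / 2 : ℕ) : ℝ) := by norm_cast
      rw [h6]
      exact Nat.cast_div_le
    have h7 : ((n * S.xl q + (n / 2 : ℕ) : ℤ) : ℝ) = n * S.xl q + (((n / 2 : ℕ) : ℤ) : ℝ) := by
      rw [Int.cast_add, Int.cast_mul, Int.cast_natCast]
    rw [h7]
    nlinarith
  have e2 : ⌊n * z.re⌋ < (n * S.xr q : ℤ) := by
    rw [Int.floor_lt]
    push_cast
    exact mul_lt_mul_of_pos_left h2 hn0
  have e3 : (n * S.yb q : ℤ) ≤ ⌊n * z.im⌋ := by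
    rw [Int.le_floor]
    push_cast
    exact mul_le_mul_of_nonneg_left h3 hn0.le
  refine ⟨q, ⟨⟨h1, h2⟩, h3, h4⟩, ?_, fun a => ?_, by omega, e2⟩
  · unfold F
    rw [dif_pos hex, hc]
  · have s1 : a.s (q, false) < n / 4 := (a.1 (q, false)).isLt
    have s2 : 0 ≤ ((a.s (q, true) : ℕ) : ℤ) := by positivity
    unfold In fl fr
    unfold fb at hf ⊢
    refine ⟨⟨?_, ?_⟩, ?_, ?_⟩ <;> omega

end Shape
end Full
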