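import Pool.Agent.Full.Geo.ChartZ
import Pool.Agent.Full.Loc.Reg
import Pool.Agent.Full.Loc.Trans

/-!
# Shapes: moving the interior end

`MoveZ`: the domains of `z = (x, y)` in the room `k` and of `z' = (x', y')` in the room `k'` with shifted
walls and marks are the same outside windows; marks go to marks.  `exists_move`: existence, with shifts
which do not depend on the positions of the walls and of the marks.
-/

set_option autoImplicit false

namespace Full.Geo
open Function Relation Full.Shape Full.Loc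

variable {S : Shape} {n : ℕ} {s : S.Q × Bool → ℕ} {m : S.Marks} {σ : Fin 4 → ℕ}

open Classical in
/-- the shifts of the walls for the stack `P` and the rooms `R` on its right -/
noncomputable def sgv (P R : S.Q → Prop) (k' : S.Q) (v : S.Q × Bool) : ℕ :=
  if R v.1 ∨ (v.2 = true ∧ P v.1 ∧ v.1 ≠ k') then 1 else 0

lemma sgv_le (P R : S.Q → Prop) (k' : S.Q) (v : S.Q × Bool) : sgv P R k' v ≤ 1 := by
  unfold sgv
  split_ifs <;> omega

theorem bxs_sh (P R : S.Q → Prop) (k' : S.Q) :
    (bxs S n s).sh k' P R = bxs S n (fun v => s v + sgv P R k' v) := by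
  classical
  unfold bxs Bxs.sh
  rw [Bxs.mk.injEq]
  refine ⟨funext fun u => ?_, funext fun u => ?_, rfl, rfl⟩
  · by_cases h : R u
    · have e : sgv P R k' (u, false) = 1 := if_pos (Or.inl h)
      rw [if_pos h]
      show (n * S.xl u + (s (u, false) : ℤ)) + 1 = n * S.xl u + ((s (u, false) + sgv P R k' (u, false) : ℕ) : ℤ)
      rw [e]
      push_cast
      ring
    · have e : sgv P R k' (u, false) = 0 := by
        refine if_neg ?_
        rintro (h1 | h1)
        · exact h h1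
        · exact Bool.noConfusion h1.1
      rw [if_neg h]
      show (n * S.xl u + (s (u, false) : ℤ)) + 0 = n * S.xl u + ((s (u, false) + sgv P R k' (u, false) : ℕ) : ℤ)
      rw [e]
      push_cast
      ring
  · by_cases h : R u ∨ (P u ∧ u ≠ k')
    · have e : sgv P R k' (u, true) = 1 := if_pos (h.imp id fun h => ⟨rfl, h⟩)
      rw [if_pos h]
      show (n * S.xr u + (s (u, true) : ℤ)) + 1 = n * S.xr u + ((s (u, true) + sgv P R k' (u, true) : ℕ) : ℤ)
      rw [e]
      push_cast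
      ring
    · have e : sgv P R k' (u, true) = 0 := by
        refine if_neg ?_
        rintro (h1 | h1)
        · exact h (Or.inl h1)
        · exact h (Or.inr h1.2)
      rw [if_neg h]
      show (n * S.xr u + (s (u, true) : ℤ)) + 0 = n * S.xr u + ((s (u, true) + sgv P R k' (u, true) : ℕ) : ℤ)
      rw [e]
      push_cast
      ring

/-! ### marks -/

/-- the place of a mark -/
def mpl (m : S.Marks) (n : ℕ) (σ : Fin 4 → ℕ) (j : Fin 4) : S.Q × ℤ × ℤ :=
  (.inl (m.room j), n * m.x j + σ j, S.fb n (.inl (m.room j)))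

theorem ez_eq (hm : m.Ok) {q : S.Q} {y : ℤ} (hb : S.fb n q < y) (j : Fin 4) :
    m.ez n σ q j = (tl (fun u => u ∈ S.part q false) q y (mpl m n σ j), .S) := by
  unfold Marks.ez Marks.fy Marks.dir mpl
  rw [hm.low j]
  simp only [Bool.false_eq_true, if_false]
  split_ifs with h
  · rw [tl_lo]
    rcases h with h | h
    · exact Or.inl h
    · exact Or.inr ⟨h.1, by rw [h.1]; exact hb⟩
  · rw [tl_up]
    rintro (h1 | h1)
    · exact h (Or.inl h1)
    · exact h (Or.inr ⟨h1.1, rfl⟩)

theorem mpl_val (hS : S.Ok) (hm : m.Ok) (hs : S.Small2 n s) (hσ : ∀ j, 2 * σ j ≤ n) (q : S.Q) (y : ℤ)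
    (j : Fin 4) : Val (bxs S n s) q y (mpl m n σ j) := by
  have hn : (8 : ℤ) ≤ n := by exact_mod_cast hs.1
  have h1 := fl_bound hs (.inl (m.room j))
  have h2 := fr_bound hs (.inl (m.room j))
  have h3 := mul_stepS (n := n) (hm.left j)
  have h4 := mul_stepS (n := n) (hm.right j)
  have h5 : 2 * (σ j : ℤ) ≤ n := by exact_mod_cast hσ j
  have h6 := fb_lt_ft (n := n) hS hs.1 (.inl (m.room j))
  have h7 : (n : ℤ) * (m.x j + 1) = n * m.x j + n := by ring
  refine ⟨?_, le_rfl, ?_, Or.inl ?_⟩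
  · show S.fl n s (.inl (m.room j)) ≤ n * m.x j + σ j
    omega
  · show S.fb n (.inl (m.room j)) < S.ft n (.inl (m.room j))
    omega
  · show n * m.x j + σ j < S.fr n s (.inl (m.room j))
    omega

open Classical in
/-- the shift of a mark -/
noncomputable def mgv (m : S.Marks) (n : ℕ) (P R : S.Q → Prop) (x y y' : ℤ) (j : Fin 4) : ℕ :=
  if R (.inl (m.room j)) ∨ (P (.inl (m.room j)) ∧ x ≤ n * m.x j ∧ y ≤ S.fb n (.inl (m.room j)) ∧
    S.fb n (.inl (m.room j)) < y') then 1 else 0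

lemma mgv_le (P R : S.Q → Prop) (x y y' : ℤ) (j : Fin 4) : mgv m n P R x y y' j ≤ 1 := by
  unfold mgv
  split_ifs <;> omega

/-- the marks are shifted as the places are -/
theorem shv_mpl (hS : S.Ok) (hm : m.Ok) (hn : 8 ≤ n) (hσ : ∀ j, 2 * σ j ≤ n) {x y y' ρ : ℤ}
    (hρ : 0 ≤ ρ) (hst : Strip S n x ρ (y - 1) y') {R : S.Q → Prop} (j : Fin 4) :
    shv x y y' (colP S n x y y') R (mpl m n σ j) =
      mpl m n (fun j => σ j + mgv m n (colP S n x y y') R x y y' j) j := by
  classical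
  have hn' : (8 : ℤ) ≤ n := by exact_mod_cast hn
  set P := colP S n x y y' with hP
  -- a mark on a floor of the stack is not near the column `x`
  have key : P (.inl (m.room j)) → y ≤ S.fb n (.inl (m.room j)) → S.fb n (.inl (m.room j)) < y' →
      (x ≤ n * m.x j + σ j ↔ x ≤ n * m.x j) := by
    intro h1 h2 h3
    set v : S.Q := .inl (m.room j) with hv
    have h4 := fb_lt_ft (n := n) hS hn v
    obtain ⟨w, g1, g2, g3, g4⟩ := hst (S.fb n v - 1) (by omega) (by omega)
    have hne : w ≠ v := by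
      rintro h
      rw [h] at g3
      omega
    have h5 := (touch hS hn (i := x) (j := S.fb n v - 1) (u := w) (v := v) (by omega) (by omega) g3 g4 h1.1.1
      h1.1.2 (by omega) (by omega) hne).1
    rcases w with r | κ
    · exact absurd h5 id
    · have h6 : S.up κ = m.room j := h5
      have h7 : S.Att κ (m.room j) (m.top j) := by
        rw [hm.low j]
        exact h6
      have h8 : 2 * (σ j : ℤ) ≤ n := by exact_mod_cast hσ j
      rcases hm.wall j κ h7 with h9 | h9
      · have h10 := mul_stepS (n := n) h9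
        have h11 : (n : ℤ) * (m.x j + 1) = n * m.x j + n := by ring
        constructor <;> intro h12 <;> omega
      · have h10 := mul_stepS (n := n) h9
        constructor <;> intro h12 <;> omega
  unfold shv mpl mgv
  simp only
  rw [Prod.mk.injEq, Prod.mk.injEq]
  refine ⟨rfl, ?_, rfl⟩
  push_cast
  rw [add_assoc]
  congr 2
  by_cases h1 : R (.inl (m.room j))
  · rw [if_pos (Or.inl h1), if_pos (Or.inl h1)]
  · by_cases h2 : P (.inl (m.room j)) ∧ y ≤ S.fb n (.inl (m.room j)) ∧ S.fb n (.inl (m.room j)) < y'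
    · have h3 := key h2.1 h2.2.1 h2.2.2
      simp only [h1, h2.1, h2.2.1, h2.2.2, h3, false_or, true_and, and_true]
    · rw [if_neg, if_neg]
      · rintro (h3 | h3)
        · exact h1 h3
        · exact h2 ⟨h3.1, h3.2.2⟩
      · rintro (h3 | h3)
        · exact h1 h3
        · exact h2 ⟨h3.1, h3.2.2⟩

/-! ### the move -/

/-- the domains of `z` and `z'` with the shifts `(s, σ)` and `(s', σ')` -/
structure MoveZ (S : Shape) (m : S.Marks) (n : ℕ) (k : S.Q) (x y : ℤ) (s : S.Q × Bool → ℕ) (σ : Fin 4 → ℕ)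
    (k' : S.Q) (x' y' : ℤ) (s' : S.Q × Bool → ℕ) (σ' : Fin 4 → ℕ) (r : ℤ) (B B' : Finset ZT)
    (φ : ZT → ZT) : Prop where
  same : Same (S.zT n s k y) (S.zg n s k x y) B (S.zT n s' k' y') (S.zg n s' k' x' y') B' φ
  mark : ∀ j, hmap φ (m.ez n σ k j) = m.ez n σ' k' j
  z : (zz x y).1 ∈ B
  z' : (zz x' y').1 ∈ B'
  /-- the windows are in the boxes of size `r` -/
  win : ∀ t ∈ B, ∃ c ∈ Bx r, chz x y c = t
  win' : ∀ t ∈ B', ∃ c ∈ Bx r, chz x' y' c = t
  bd : ∀ u : Half ZT, u.1 ∈ B → S.zg n s k x y u = u → u = zz x y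
  bd' : ∀ u : Half ZT, u.1 ∈ B' → S.zg n s' k' x' y' u = u → u = zz x' y'
  reg : ∀ u, u.1 ∉ B → (S.zg n s k x y u).1 ∈ B → RegC (S.zg n s k x y) u
  /-- the tiles are moved by at most one column -/
  disp : ∀ t ∈ S.zT n s k y, (Sum.elim id id t : ℤ × ℤ).1 ≤ (Sum.elim id id (φ t) : ℤ × ℤ).1 ∧
    (Sum.elim id id (φ t) : ℤ × ℤ).1 ≤ (Sum.elim id id t : ℤ × ℤ).1 + 1 ∧
    (Sum.elim id id (φ t) : ℤ × ℤ).2 = (Sum.elim id id t : ℤ × ℤ).2

/-- a smaller strip -/
lemma Strip.mono {x r a b x' r' a' b' : ℤ} (h : Strip S n x r a b) (h1 : x - r ≤ x' - r')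
    (h2 : x' + r' ≤ x + r) (ha : a ≤ a') (hb : b' ≤ b) : Strip S n x' r' a' b' := by
  intro j hj hj'
  obtain ⟨u, g1, g2, g3, g4⟩ := h j (by omega) (by omega)
  exact ⟨u, by omega, by omega, g3, g4⟩

/-- the window in the chart -/
theorem chz_winT (hS : S.Ok) (hd : S.Tree) (hs : S.Small2 n s) {k k' : S.Q} {x y x' y' ρ M : ℤ}
    (hk : Inq S n k x y) (hk' : Inq S n k' x' y') (hyy : y ≤ y') (hρ : x' - x < ρ ∧ x - x' < ρ)
    (hρ' : y' - y < ρ) (hM : ρ + 1 ≤ M) (hst : Strip S n x M (y - M) (y + M)) {i j : ℤ}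
    (hi : -M ≤ i) (hi' : i ≤ M) (hj : -M ≤ j) (hj' : j ≤ M) :
    chz x y (i, j) ∈ winT (bxs S n s) k (fun u => u ∈ S.part k false) x y y' ρ (colP S n x y y')
      (S.zT n s k y) ↔ (-ρ ≤ i ∧ i ≤ ρ) ∧ -1 ≤ j ∧ j ≤ y' - y := by
  have hn := hs.1
  have hn' : (8 : ℤ) ≤ n := by exact_mod_cast hn
  have hst1 : Strip S n x ρ (y - 1) y' := hst.mono (by omega) (by omega) (by omega) (by omega)
  have hx' := inq' hS hn hk' hyy hρ hst1
  obtain ⟨u, g1, g2, g3, g4⟩ := hst (y + j) (by omega) (by omega)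
  have h1 := tl_strip hS hd hn hk (r := M) (by omega) hst (by omega) (by omega) (i := x + i) (j := y + j)
    (u := u) (by omega) (by omega) g3 g4 (by omega) (by omega)
  rw [add_sub_cancel_left, add_sub_cancel_left] at h1
  rw [← h1]
  have h2 := fl_bound hs u
  have h3 := fr_bound hs u
  have hv : Val (bxs S n s) k y (u, x + i, y + j) := by
    refine ⟨?_, g3, g4, Or.inl ?_⟩
    · show S.fl n s u ≤ x + i
      omega
    · show x + i < S.fr n s u
      omega
  rw [tl_mem_winT (good hS hs) (dom2 (s := s) (x := x) hS hd k hk.2.1 hk.2.2) hv]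
  unfold Win
  simp only
  constructor
  · rintro ⟨-, h4, h5, h6, h7⟩
    omega
  · rintro ⟨⟨h4, h5⟩, h6, h7⟩
    refine ⟨⟨⟨by omega, by omega⟩, ?_, ?_⟩, by omega, by omega, by omega, by omega⟩
    · by_contra h8
      have h9 : j = y' - y := by omega
      have h10 : u = k' := uniq hS hn (i := x) (j := y') (by omega) (by omega) (by omega) (by omega) hx'.1.1
        hx'.1.2 hx'.2.1.le hx'.2.2
      rw [h10] at h8
      exact h8 hx'.2.1
    · by_contra h8
      have h9 : j = -1 := by omega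
      have h10 : u = k := uniq hS hn (i := x) (j := y - 1) (by omega) (by omega) (by omega) (by omega) hk.1.1
        hk.1.2 (by have := hk.2.1; omega) (by have := hk.2.2; omega)
      rw [h10] at h8
      exact h8 hk.2.2

/-- the move for a given set `R` of rooms on the right of the stack -/
theorem move_of_stk (hS : S.Ok) (hd : S.Tree) (hm : m.Ok) (hn : 8 ≤ n) {k k' : S.Q} {x y x' y' ρ M : ℤ}
    (hk : Inq S n k x y) (hk' : Inq S n k' x' y') (hyy : y ≤ y') (hρ : x' - x < ρ ∧ x - x' < ρ)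
    (hρ' : y' - y < ρ) (hM : 3 * ρ + 4 ≤ M) (hst : Strip S n x M (y - M) (y + M)) {R : S.Q → Prop}
    (hs : S.Small2 n s) (hs' : S.Small2 n (fun i => s i + sgv (colP S n x y y') R k' i))
    (hσ : ∀ j, 2 * σ j ≤ n) (hStk : Stk S.On (bxs S n s) k k' x y x' y' ρ (colP S n x y y') R) :
    ∃ B B' φ, MoveZ S m n k x y s σ k' x' y' (fun i => s i + sgv (colP S n x y y') R k' i)
      (fun j => σ j + mgv m n (colP S n x y y') R x y y' j) (2 * ρ + 3) B B' φ := by
  classical
  have hn' : (8 : ℤ) ≤ n := by exact_mod_cast hn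
  have hst1 : Strip S n x ρ (y - 1) y' := hst.mono (by omega) (by omega) (by omega) (by omega)
  have hst2 : Strip S n x' (M - ρ) (y' - (M - ρ)) (y' + (M - ρ)) :=
    hst.mono (by omega) (by omega) (by omega) (by omega)
  have hx' := inq' hS hn hk' hyy hρ hst1
  set P := colP S n x y y' with hP
  have hX := good hS hs
  have hX' : Good S.On ((bxs S n s).sh k' P R) := by rw [bxs_sh]; exact good hS hs'
  have hC := cut hd k
  have hC' := cut hd k'
  have hD := dom2 (s := s) (x := x) hS hd k hk.2.1 hk.2.2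
  have hD' : Dom2 ((bxs S n s).sh k' P R) k' (fun u => u ∈ S.part k' false) x' y'
      (S.zT n (fun i => s i + sgv P R k' i) k' y') (S.zg n (fun i => s i + sgv P R k' i) k' x' y') := by
    rw [bxs_sh]
    exact dom2 hS hd k' hk'.2.1 hk'.2.2
  have hPk' : P k' := ⟨hx'.1, hx'.2.1, by have := hx'.2.2; omega⟩
  have hkm' := marg hS hn hst1 (u := k') (i := x') (j := y') (by omega) le_rfl (by omega) (by omega) hk'.1.1
    hk'.1.2 hk'.2.1.le hk'.2.2
  -- the windows
  have hwin : ∀ t ∈ winT (bxs S n s) k (fun u => u ∈ S.part k false) x y y' ρ P (S.zT n s k y),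
      ∃ c ∈ Bx (2 * ρ + 3), chz x y c = t := by
    intro t ht
    unfold winT at ht
    rw [Finset.mem_filter] at ht
    obtain ⟨-, ⟨u, i, j⟩, h1, ⟨h2, h3, h4, h5, h6⟩, h7⟩ := ht
    simp only at h2 h3 h4 h5 h6
    refine ⟨(i - x, j - y), by rw [mem_Bx]; simp only; omega, ?_⟩
    rw [← h7]
    exact (tl_strip hS hd hn hk (r := M) (by omega) hst (by omega) (by omega) (u := u) (i := i) (j := j)
      h2.1.1 h2.1.2 h1.2.1 h1.2.2.1 (by omega) (by omega)).symm
  have hwin' : ∀ t ∈ winT' (bxs S n s) k' (fun u => u ∈ S.part k' false) x y y' ρ P R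
      (S.zT n (fun i => s i + sgv P R k' i) k' y'), ∃ c ∈ Bx (2 * ρ + 3), chz x' y' c = t := by
    intro t ht
    unfold winT' at ht
    rw [Finset.mem_filter] at ht
    obtain ⟨-, ⟨u, i, j⟩, h1, ⟨h2, h3, h4, h5, h6⟩, h7⟩ := ht
    simp only at h2 h3 h4 h5 h6
    refine ⟨(i - x', j - y'), by rw [mem_Bx]; simp only; omega, ?_⟩
    rw [← h7]
    have h8 := colP_marg hS hn hyy hρ hst1 h2
    exact (tl_strip hS hd hn hk' (r := M - ρ) (by omega) hst2 (by omega) (by omega) (u := u) (i := i)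
      (j := j) (by omega) (by omega) h1.2.1 h1.2.2.1 (by omega) (by omega)).symm
  -- charts
  have hch := chartD (s := s) hS hd hs hk (R := M) (by omega) hst
  have hch' := chartD (s := fun i => s i + sgv P R k' i) hS hd hs' hk' (R := M - ρ) (by omega) hst2
  refine ⟨winT (bxs S n s) k (fun u => u ∈ S.part k false) x y y' ρ P (S.zT n s k y),
    winT' (bxs S n s) k' (fun u => u ∈ S.part k' false) x y y' ρ P R
      (S.zT n (fun i => s i + sgv P R k' i) k' y'),
    mv (bxs S n s) k k' (fun u => u ∈ S.part k false) (fun u => u ∈ S.part k' false) x y y' P R,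
    hStk.same hX hX' hC hC' hD hD', fun j => ?_, ?_, ?_, hwin, hwin', fun u hu hg => ?_, fun u hu hg => ?_,
    fun u hu hg => ?_, fun t ht => ?_⟩
  · rw [ez_eq hm hk.2.1, ez_eq hm hk'.2.1]
    show (mv _ _ _ _ _ _ _ _ _ _ (tl _ _ _ (mpl m n σ j)), Dir.S) = _
    rw [mv_tl hX (mpl_val hS hm hs hσ k y j), shv_mpl hS hm hn hσ (by omega) hst1]
  · rw [zz_chz]
    show chz x y (0, -1) ∈ _
    rw [chz_winT hS hd hs hk hk' hyy hρ hρ' (by omega) hst (by omega) (by omega) (by omega) (by omega)]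
    omega
  · rw [zz_chz]
    show chz x' y' (0, -1) ∈ _
    have h1 := tl_strip hS hd hn hk' (r := M - ρ) (by omega) hst2 (by omega) (by omega) (i := x')
      (j := y' - 1) (u := k') hk'.1.1 hk'.1.2 (by have := hk'.2.1; omega) (by have := hk'.2.2; omega)
      (by omega) (by omega)
    rw [sub_self, show y' - 1 - y' = -1 by ring] at h1
    rw [← h1]
    have hv : Val ((bxs S n s).sh k' P R) k' y' (k', x', y' - 1) := by
      rw [bxs_sh]
      have h2 := fl_bound hs' k'
      have h3 := fr_bound hs' k'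
      refine ⟨?_, ?_, ?_, Or.inl ?_⟩
      · show S.fl n (fun i => s i + sgv P R k' i) k' ≤ x'
        omega
      · show S.fb n k' ≤ y' - 1
        have := hk'.2.1
        omega
      · show y' - 1 < S.ft n k'
        have := hk'.2.2
        omega
      · show x' < S.fr n (fun i => s i + sgv P R k' i) k'
        omega
    rw [tl_mem_winT' hX' hD' hv]
    refine ⟨hPk', ?_, ?_, ?_, Or.inl ?_⟩
    · show y - 1 ≤ y' - 1
      omega
    · show y' - 1 ≤ y'
      omega
    · show x - ρ ≤ x'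
      omega
    · show x' ≤ x + ρ
      omega
  · obtain ⟨c, hc, hc'⟩ := hwin _ hu
    exact hch.bd ⟨c, Bx_mono (by omega) hc, hc'⟩ hg
  · obtain ⟨c, hc, hc'⟩ := hwin' _ hu
    exact hch'.bd ⟨c, Bx_mono (by omega) hc, hc'⟩ hg
  · refine hch.reg (hD.isGlu) (ρ := ρ) (m := y' - y) (by omega) (by omega) (by omega) (by omega) ?_ ?_ hu hg
    · intro i j hij
      rw [mem_Bx] at hij
      simp only at hij
      exact chz_winT hS hd hs hk hk' hyy hρ hρ' (by omega) hst (by omega) (by omega) (by omega) (by omega)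
    · intro t ht
      obtain ⟨c, hc, hc'⟩ := hwin t ht
      exact ⟨c, Bx_mono (by omega) hc, hc'⟩
  · obtain ⟨v, hv, rfl⟩ := (hD.mem t).1 ht
    rw [mv_tl hX hv]
    unfold tl shv
    split_ifs <;> simp

/-- **moving the interior end**: `z'` is above `z` (or at the same height), `ρ` bounds the distance of the
columns and of the rows; the box of size `M` around `z` is in the region -/
theorem exists_move (hS : S.Ok) (hd : S.Tree) (hm : m.Ok) (hn : 8 ≤ n) {k k' : S.Q} {x y x' y' ρ M : ℤ}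
    (hk : Inq S n k x y) (hk' : Inq S n k' x' y') (hyy : y ≤ y') (hρ : x' - x < ρ ∧ x - x' < ρ)
    (hρ' : y' - y < ρ) (hM : 3 * ρ + 4 ≤ M) (hst : Strip S n x M (y - M) (y + M)) :
    ∃ (u : S.Q × Bool → ℕ) (v : Fin 4 → ℕ), (∀ i, u i ≤ 1) ∧ (∀ j, v j ≤ 1) ∧
      ∀ (s : S.Q × Bool → ℕ) (σ : Fin 4 → ℕ), S.Small2 n s → S.Small2 n (fun i => s i + u i) →
        (∀ j, 2 * σ j ≤ n) → (∀ j, 2 * (σ j + v j) ≤ n) →
        ∃ B B' φ, MoveZ S m n k x y s σ k' x' y' (fun i => s i + u i) (fun j => σ j + v j) (2 * ρ + 3)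
          B B' φ := by
  obtain ⟨R, hR⟩ := exists_stk hS hd hn hk hk' hyy hρ
    (hst.mono (by omega) (by omega) (by omega) (by omega) : Strip S n x ρ (y - 1) y')
  exact ⟨sgv (colP S n x y y') R k', mgv m n (colP S n x y y') R x y y', sgv_le _ R k', mgv_le _ R x y y',
    fun s σ hs hs' hσ _ => move_of_stk hS hd hm hn hk hk' hyy hρ hρ' hM hst hs hs' hσ (hR s hs)⟩

/-- **moving the interior end in a room**: no shifts -/
theorem same_move (hS : S.Ok) (hd : S.Tree) (hm : m.Ok) (hn : 8 ≤ n) {k : S.Q} {x y x' y' ρ M : ℤ}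
    (hk : Inq S n k x y) (hk' : Inq S n k x' y') (hyy : y ≤ y') (hρ : x' - x < ρ ∧ x - x' < ρ)
    (hρ' : y' - y < ρ) (hM : 3 * ρ + 4 ≤ M) (hst : Strip S n x M (y - M) (y + M)) (hs : S.Small2 n s)
    (hσ : ∀ j, 2 * σ j ≤ n) : ∃ B B' φ, MoveZ S m n k x y s σ k x' y' s σ (2 * ρ + 3) B B' φ := by
  have hst1 : Strip S n x ρ (y - 1) y' := hst.mono (by omega) (by omega) (by omega) (by omega)
  have hx' := inq' hS hn hk' hyy hρ hst1
  have hP : ∀ u, colP S n x y y' u → u = k := by
    intro u hu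
    have h5 := fb_lt_ft (n := n) hS hn u
    have h6 := hk.2
    have h7 := hx'.2
    obtain ⟨⟨h1, h2⟩, h3, h4⟩ := hu
    exact uniq hS hn (i := x) (j := max y (S.fb n u)) h1 h2 (by omega) (by omega) hk.1.1 hk.1.2 (by omega)
      (by omega)
  have hPk : colP S n x y y' k := ⟨hk.1, by have := hx'.2; omega, hk.2.2⟩
  have e1 : (fun i => s i + sgv (colP S n x y y') (fun _ => False) k i) = s := by
    funext i
    have : sgv (colP S n x y y') (fun _ => False) k i = 0 := by
      refine if_neg ?_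
      rintro (h | ⟨-, h1, h2⟩)
      · exact h
      · exact h2 (hP _ h1)
    rw [this, add_zero]
  have e2 : (fun j => σ j + mgv m n (colP S n x y y') (fun _ => False) x y y' j) = σ := by
    funext j
    have : mgv m n (colP S n x y y') (fun _ => False) x y y' j = 0 := by
      refine if_neg ?_
      rintro (h | ⟨h1, -, h2, -⟩)
      · exact h
      · rw [hP _ h1] at h2
        exact absurd h2 (not_le.2 hk.2.1)
    rw [this, add_zero]
  have h := move_of_stk (s := s) (σ := σ) (R := fun _ => False) hS hd hm hn hk hk' hyy hρ hρ' hM hst hs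
    (by rw [e1]; exact hs) hσ ?_
  · rw [e1, e2] at h
    exact h
  · have h2 := fl_bound hs k
    have h3 := fr_bound hs k
    refine ⟨hPk, hPk, fun _ _ h => h, fun u hu => ?_, fun u hu h => absurd (hP u hu) h,
      fun u hu h => absurd (hP u hu) h, hk.2, hx'.2, hyy, fun _ _ _ => Iff.rfl,
      fun {u v} _ hu _ => Or.inl ⟨hP u hu, fun h => h⟩, fun {u v} _ _ hv => Or.inl ⟨hP v hv, fun h => h⟩, hρ⟩
    have h1 := colP_marg hS hn hyy hρ hst1 hu
    have h4 := fl_bound hs u
    have h5 := fr_bound hs u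
    show S.fl n s u ≤ x ∧ x < S.fr n s u
    omega

end Full.Geo
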