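import Pool.Agent.Full.Geo.Stack
import Pool.Agent.Full.Loc.Chart

/-!
# Shapes: the chart at the interior end

`chz x y`: the tiles near `z = (x, y)`; the rows below `z` are in the lower sheet, the rows above `z` in the
upper sheet.  `chartD`: it is a chart of the dislocated box.
-/

set_option autoImplicit false

namespace Full.Geo
open Function Relation Full.Shape Full.Loc

variable {S : Shape} {n : ℕ} {s : S.Q × Bool → ℕ}

/-- the chart at `z = (x, y)` -/
def chz (x y : ℤ) (t : ℤ × ℤ) : ZT :=
  if t.2 < 0 then .inl (x + t.1, y + t.2) else .inr (x + t.1, y + t.2)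

lemma chz_low {x y i j : ℤ} (h : j < 0) : chz x y (i, j) = .inl (x + i, y + j) := if_pos h

lemma chz_up {x y i j : ℤ} (h : ¬ j < 0) : chz x y (i, j) = .inr (x + i, y + j) := if_neg h

lemma chz_inj {x y : ℤ} : Injective (chz x y) := by
  rintro ⟨i, j⟩ ⟨i', j'⟩ h
  by_cases h1 : j < 0 <;> by_cases h2 : j' < 0
  · rw [chz_low h1, chz_low h2] at h
    have h3 := Sum.inl.inj h
    have h4 : x + i = x + i' := congrArg Prod.fst h3
    have h5 : y + j = y + j' := congrArg Prod.snd h3
    ext <;> simp only <;> omega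
  · rw [chz_low h1, chz_up h2] at h
    cases h
  · rw [chz_up h1, chz_low h2] at h
    cases h
  · rw [chz_up h1, chz_up h2] at h
    have h3 := Sum.inr.inj h
    have h4 : x + i = x + i' := congrArg Prod.fst h3
    have h5 : y + j = y + j' := congrArg Prod.snd h3
    ext <;> simp only <;> omega

lemma zz_chz (x y : ℤ) : zz x y = (chz x y (0, -1), .N) := by
  rw [chz_low (by norm_num)]
  unfold zz
  rw [add_zero, ← sub_eq_add_neg]

section
variable (hS : S.Ok) (hd : S.Tree) (hn : 8 ≤ n) {k : S.Q} {x y r a b : ℤ} (hk : Inq S n k x y)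
  (hr : 0 ≤ r) (hst : Strip S n x r a b)
include hS hd hn hk hr hst

/-- the rooms of the column above `z` are in the upper part -/
theorem strip_up (ha : a ≤ y) : ∀ j, y ≤ j → j ≤ b → ∃ u, (2 * (n * S.xl u) + n ≤ 2 * (x - r) ∧
    x + r < n * S.xr u) ∧ S.fb n u ≤ j ∧ j < S.ft n u ∧ (u = k ∨ u ∈ S.part k true) := by
  intro j hj
  induction j, hj using Int.leInduction with
  | base =>
    intro hb
    exact ⟨k, marg hS hn hst ha hb (by omega) (by omega) hk.1.1 hk.1.2 hk.2.1.le hk.2.2, hk.2.1.le, hk.2.2,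
      Or.inl rfl⟩
  | succ j hj ih =>
    intro hb
    have hn' : (8 : ℤ) ≤ n := by exact_mod_cast hn
    obtain ⟨u, h1, h2, h3, h4⟩ := ih (by omega)
    by_cases h5 : j + 1 < S.ft n u
    · exact ⟨u, h1, by omega, h5, h4⟩
    · obtain ⟨v, g1, g2, g3, g4⟩ := hst (j + 1) (by omega) hb
      refine ⟨v, ⟨g1, g2⟩, g3, g4, Or.inr ?_⟩
      have hne : u ≠ v := by
        rintro rfl
        exact h5 g4
      have h6 := (touch hS hn (i := x) (j := j) (by omega) (by omega) h2 h3 (by omega) (by omega) g3 g4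
        hne).1
      rcases h4 with rfl | h4
      · exact part_of_on h6
      · refine part_step h4 ?_ (Or.inl h6)
        rintro rfl
        exact Set.disjoint_left.1 (hd v) (part_of_on' h6) h4

/-- the rooms of the column below `z` are in the lower part -/
theorem strip_dn (hb : y - 1 ≤ b) : ∀ j, j ≤ y - 1 → a ≤ j → ∃ u, (2 * (n * S.xl u) + n ≤ 2 * (x - r) ∧
    x + r < n * S.xr u) ∧ S.fb n u ≤ j ∧ j < S.ft n u ∧ (u = k ∨ u ∈ S.part k false) := by
  intro j hj
  induction j, hj using Int.leInductionDown with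
  | base =>
    intro ha
    obtain ⟨h1, h2, h3⟩ := hk
    exact ⟨k, marg hS hn hst ha hb (by omega) (by omega) h1.1 h1.2 (by omega) (by omega), by omega, by omega,
      Or.inl rfl⟩
  | pred j hj ih =>
    intro ha
    have hn' : (8 : ℤ) ≤ n := by exact_mod_cast hn
    obtain ⟨u, h1, h2, h3, h4⟩ := ih (by omega)
    by_cases h5 : S.fb n u ≤ j - 1
    · exact ⟨u, h1, h5, by omega, h4⟩
    · obtain ⟨v, g1, g2, g3, g4⟩ := hst (j - 1) ha (by omega)
      refine ⟨v, ⟨g1, g2⟩, g3, g4, Or.inr ?_⟩
      have hne : v ≠ u := by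
        rintro rfl
        exact h5 g3
      have h6 := (touch hS hn (i := x) (j := j - 1) (by omega) (by omega) g3 g4 (u := v) (v := u) (by omega)
        (by omega) (by omega) (by omega) hne).1
      rcases h4 with rfl | h4
      · exact part_of_on' h6
      · refine part_step h4 ?_ (Or.inr h6)
        rintro rfl
        exact Set.disjoint_left.1 (hd v) h4 (part_of_on h6)

/-- the tile of a place in the strip -/
theorem tl_strip (ha : a ≤ y - 1) (hb : y ≤ b) {u : S.Q} {i j : ℤ} (h1 : n * S.xl u ≤ x)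
    (h2 : x < n * S.xr u) (h3 : S.fb n u ≤ j) (h4 : j < S.ft n u) (hj : a ≤ j) (hj' : j ≤ b) :
    tl (fun u => u ∈ S.part k false) k y (u, i, j) = chz x y (i - x, j - y) := by
  have hn' : (8 : ℤ) ≤ n := by exact_mod_cast hn
  by_cases hjy : j < y
  · obtain ⟨v, g1, g2, g3, g4⟩ := strip_dn hS hd hn hk hr hst (by omega) j (by omega) hj
    obtain rfl : u = v := uniq hS hn h1 h2 h3 h4 (by omega) (by omega) g2 g3
    rw [chz_low (by omega), add_sub_cancel, add_sub_cancel]
    refine tl_lo ?_
    rcases g4 with g4 | g4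
    · exact Or.inr ⟨g4, hjy⟩
    · exact Or.inl g4
  · obtain ⟨v, g1, g2, g3, g4⟩ := strip_up hS hd hn hk hr hst (by omega) j (by omega) hj'
    obtain rfl : u = v := uniq hS hn h1 h2 h3 h4 (by omega) (by omega) g2 g3
    rw [chz_up (by omega), add_sub_cancel, add_sub_cancel]
    refine tl_up ?_
    rintro (h5 | h5)
    · rcases g4 with g4 | g4
      · rw [g4] at h5
        exact not_mem_part _ _ h5
      · exact Set.disjoint_left.1 (hd k) h5 g4
    · exact hjy h5.2

/-- the chart is in the domain -/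
theorem chz_mem (hs : S.Small2 n s) (ha : a ≤ y - 1) (hb : y ≤ b) {i j : ℤ} (hi : -r ≤ i) (hi' : i ≤ r)
    (hj : a ≤ y + j) (hj' : y + j ≤ b) : chz x y (i, j) ∈ S.zT n s k y := by
  have hn' : (8 : ℤ) ≤ n := by exact_mod_cast hn
  obtain ⟨u, g1, g2, g3, g4⟩ := hst (y + j) hj hj'
  have h1 := tl_strip hS hd hn hk hr hst ha hb (i := x + i) (j := y + j) (u := u) (by omega) (by omega) g3 g4
    hj hj'
  rw [add_sub_cancel_left, add_sub_cancel_left] at h1
  rw [← h1]
  have h2 := fl_bound hs u
  have h3 := fr_bound hs u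
  refine (dom2 (s := s) (x := x) hS hd k hk.2.1 hk.2.2).mem_tl ⟨?_, g3, g4, Or.inl ?_⟩
  · show S.fl n s u ≤ x + i
    omega
  · show x + i < S.fr n s u
    omega

end

/-- **the chart of the dislocated box at `z`** -/
theorem chartD (hS : S.Ok) (hd : S.Tree) (hs : S.Small2 n s) {k : S.Q} {x y R : ℤ} (hk : Inq S n k x y)
    (hR : 1 ≤ R) (hst : Strip S n x R (y - R) (y + R)) :
    ChartD (S.zT n s k y) (S.zg n s k x y) R (chz x y) (zz x y) := by
  have hn := hs.1
  have hn' : (8 : ℤ) ≤ n := by exact_mod_cast hn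
  have hmem : ∀ t ∈ Bx R, chz x y t ∈ S.zT n s k y := by
    rintro ⟨i, j⟩ ht
    rw [mem_Bx] at ht
    simp only at ht
    exact chz_mem hS hd hn hk (by omega) hst hs (by omega) (by omega) (by omega) (by omega) (by omega)
      (by omega)
  have hkm := marg hS hn hst (u := k) (i := x) (j := y) (by omega) (by omega) (by omega) (by omega) hk.1.1
    hk.1.2 hk.2.1.le hk.2.2
  have h2 := fl_bound hs k
  have h3 := fr_bound hs k
  -- neighbours
  have hE : ∀ t t' : ℤ × ℤ, disl.nb .E t = some t' →
      (zsurf (S.fl n s k) (S.fr n s k) x y y y).nb .E (chz x y t) = some (chz x y t') := by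
    rintro ⟨i, j⟩ t' h
    rw [disl_E] at h
    obtain rfl := Option.some.inj h
    by_cases hj : j < 0
    · rw [chz_low hj, chz_low hj, zs_E_low_open (by omega), add_assoc]
    · rw [chz_up hj, chz_up hj, zs_E_up_open (by omega), add_assoc]
  have hN : ∀ t ∈ Bx R, ∀ t' : ℤ × ℤ, disl.nb .N t = some t' →
      (zsurf (S.fl n s k) (S.fr n s k) x y y y).nb .N (chz x y t) = some (chz x y t') := by
    rintro ⟨i, j⟩ ht t' h
    rw [mem_Bx] at ht
    simp only at ht
    rw [disl_N] at h
    split_ifs at h with h4 h5 h6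
    · subst h4
      obtain rfl := Option.some.inj h
      rw [chz_low (by norm_num), chz_up (by norm_num), ← sub_eq_add_neg, add_zero,
        zs_N_left (by omega) (by omega) (by omega)]
    · subst h4
      obtain rfl := Option.some.inj h
      rw [chz_low (by norm_num), chz_up (by norm_num), ← sub_eq_add_neg, add_zero,
        zs_N_right (by omega) (by omega) (by omega)]
      congr 3
      omega
    · obtain rfl := Option.some.inj h
      by_cases hj : j < 0
      · rw [chz_low hj, chz_low (by omega), zs_N_low (by omega), add_assoc]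
      · rw [chz_up hj, chz_up (by omega), zs_N_up (by omega), add_assoc]
  refine ⟨chz_inj.injOn, hmem, ?_, zz_chz x y, ?_⟩
  · rintro ⟨t, d⟩ ht hg
    obtain ⟨t', h4, h5, h6⟩ := Surf.glue_ne_iff.1 hg
    have h7 : gD R (t, d) = (t', d.opp) := Surf.glue_of_mem h4 h5 h6
    rw [h7]
    simp only at h4 h5
    refine Surf.glue_of_mem ?_ (hmem t h5) (hmem t' h6)
    rw [Option.mem_def] at h4
    cases d
    · exact hE t t' h4
    · exact hN t h5 t' h4
    · rw [Surf.mem_nb]
      refine hE t' t ?_
      rw [← Option.mem_def] at h4 ⊢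
      exact Surf.mem_nb.1 h4
    · rw [Surf.mem_nb]
      refine hN t' h6 t ?_
      rw [← Option.mem_def] at h4 ⊢
      exact Surf.mem_nb.1 h4
  · unfold zz zg Surf.glue
    simp only
    rw [zs_N_z (by omega) (by omega)]

end Full.Geo
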