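import Pool.Agent.Full.Geo.Move
import Pool.Agent.Full.Loc.RunWall

/-!
# Plane regions in terms of places

`Dom1 X T g`: `(T, g)` is the plane region with the rooms `X`.  `nb1_iff`: its neighbours in terms of places.
`Corner4`: four tiles around an interior corner.
-/

set_option autoImplicit false

namespace Full.Geo
open Function Full.Loc

variable {Q : Type*}

/-- the places of a plane region -/
def Val1 (X : Bxs Q) (v : Q × ℤ × ℤ) : Prop :=
  X.l v.1 ≤ v.2.1 ∧ v.2.1 < X.r v.1 ∧ X.b v.1 ≤ v.2.2 ∧ v.2.2 < X.t v.1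

/-- `v'` is the upper neighbour of `v` in the plane region -/
def AdjN1 (adj : Q → Q → Prop) (X : Bxs Q) (v v' : Q × ℤ × ℤ) : Prop :=
  (v'.1 = v.1 ∧ v'.2.2 = v.2.2 + 1 ∧ v'.2.1 = v.2.1) ∨
  (adj v.1 v'.1 ∧ v.2.2 + 1 = X.t v.1 ∧ v'.2.2 = X.b v'.1 ∧ v'.2.1 = v.2.1)

/-- neighbours in the direction `d` -/
def AdjD1 (adj : Q → Q → Prop) (X : Bxs Q) : Dir → Q × ℤ × ℤ → Q × ℤ × ℤ → Prop
  | .E, v, w => AdjE v w
  | .W, v, w => AdjE w v
  | .N, v, w => AdjN1 adj X v w
  | .S, v, w => AdjN1 adj X w v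

section
variable {adj : Q → Q → Prop} {X : Bxs Q}

lemma room1_eq (hX : Good adj X) {u u' : Q} {i j : ℤ} (h : Val1 X (u, i, j)) (h' : Val1 X (u', i, j)) :
    u = u' := by
  obtain ⟨h1, h2, h3, h4⟩ := h
  obtain ⟨h1', h2', h3', h4'⟩ := h'
  simp only at h1 h2 h3 h4 h1' h2' h3' h4'
  exact hX.disj (p := u) (q := u') (i := i) (i' := i) (j := j) (by omega) (by omega) h3 h4 h1' h2' h3' h4' rfl

theorem inj1 (hX : Good adj X) {v v' : Q × ℤ × ℤ} (h : Val1 X v) (h' : Val1 X v') (he : v.2 = v'.2) :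
    v = v' := by
  obtain ⟨u, i, j⟩ := v
  obtain ⟨u', i', j'⟩ := v'
  obtain ⟨rfl, rfl⟩ : i = i' ∧ j = j' := ⟨congrArg Prod.fst he, congrArg Prod.snd he⟩
  rw [room1_eq hX h h']

lemma adjE1_iff (hX : Good adj X) {v v' : Q × ℤ × ℤ} (h : Val1 X v) (h' : Val1 X v') :
    v.2 + Dir.E.vec = v'.2 ↔ AdjE v v' := by
  obtain ⟨u, i, j⟩ := v
  obtain ⟨u', i', j'⟩ := v'
  obtain ⟨h1, h2, h3, h4⟩ := h
  obtain ⟨h1', h2', h3', h4'⟩ := h'
  simp only at h1 h2 h3 h4 h1' h2' h3' h4'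
  unfold AdjE
  simp only [Dir.vec, Prod.mk_add_mk, Prod.mk.injEq]
  constructor
  · rintro ⟨h5, h6⟩
    refine ⟨?_, by omega, by omega⟩
    have h7 : j' = j := by omega
    subst h7
    exact (hX.disj (p := u) (q := u') (i := i + 1) (i' := i') (j := j') (by omega) (by omega) h3 h4 h1' h2'
      h3' h4' (by omega)).symm
  · rintro ⟨rfl, h5, h6⟩
    exact ⟨by omega, by omega⟩

lemma adjN1_iff (hX : Good adj X) {v v' : Q × ℤ × ℤ} (h : Val1 X v) (h' : Val1 X v') :
    v.2 + Dir.N.vec = v'.2 ↔ AdjN1 adj X v v' := by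
  obtain ⟨u, i, j⟩ := v
  obtain ⟨u', i', j'⟩ := v'
  obtain ⟨h1, h2, h3, h4⟩ := h
  obtain ⟨h1', h2', h3', h4'⟩ := h'
  simp only at h1 h2 h3 h4 h1' h2' h3' h4'
  unfold AdjN1
  simp only [Dir.vec, Prod.mk_add_mk, Prod.mk.injEq]
  constructor
  · rintro ⟨h5, h6⟩
    obtain rfl : i' = i := by omega
    obtain rfl : j' = j + 1 := by omega
    by_cases hu : u' = u
    · exact Or.inl ⟨hu, rfl, rfl⟩
    · have h7 := hX.adj_of_touch (p := u) (q := u') (i := i') (i' := i') (j := j) (by omega) (by omega) h3 h4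
        (by omega) (by omega) h3' h4' rfl (Or.inl ⟨h1, h2⟩) (Ne.symm hu)
      exact Or.inr ⟨h7.1, h7.2.1, h7.2.2, rfl⟩
  · rintro (⟨rfl, rfl, rfl⟩ | ⟨h5, h6, h7, rfl⟩)
    · exact ⟨by omega, by omega⟩
    · have := hX.touch h5
      exact ⟨by omega, by omega⟩

theorem nb1_iff (hX : Good adj X) {v v' : Q × ℤ × ℤ} (h : Val1 X v) (h' : Val1 X v') (d : Dir) :
    plane.nb d v.2 = some v'.2 ↔ AdjD1 adj X d v v' := by
  rw [nb_plane, Option.some.injEq]
  cases d
  · exact adjE1_iff hX h h'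
  · exact adjN1_iff hX h h'
  · show v.2 + Dir.W.vec = v'.2 ↔ AdjE v' v
    rw [← adjE1_iff hX h' h]
    obtain ⟨u, i, j⟩ := v
    obtain ⟨u', i', j'⟩ := v'
    simp only [Dir.vec, Prod.mk_add_mk, Prod.mk.injEq]
    omega
  · show v.2 + Dir.S.vec = v'.2 ↔ AdjN1 adj X v' v
    rw [← adjN1_iff hX h' h]
    obtain ⟨u, i, j⟩ := v
    obtain ⟨u', i', j'⟩ := v'
    simp only [Dir.vec, Prod.mk_add_mk, Prod.mk.injEq]
    omega

end

/-- `(T, g)` is the plane region with the rooms `X` -/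
structure Dom1 (X : Bxs Q) (T : Finset (ℤ × ℤ)) (g : Half (ℤ × ℤ) → Half (ℤ × ℤ)) : Prop where
  mem : ∀ τ, τ ∈ T ↔ ∃ v, Val1 X v ∧ v.2 = τ
  glu : g = plane.glue T

namespace Dom1
variable {adj : Q → Q → Prop} {X : Bxs Q} {T : Finset (ℤ × ℤ)} {g : Half (ℤ × ℤ) → Half (ℤ × ℤ)}
  (hD : Dom1 X T g)
include hD

lemma mem_tl {v : Q × ℤ × ℤ} (h : Val1 X v) : v.2 ∈ T := (hD.mem _).2 ⟨v, h, rfl⟩

lemma isGlu : Glu T g := by
  rw [hD.glu]
  exact Surf.glu _ _

lemma straight : Straight g := by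
  rw [hD.glu]
  exact Surf.straight_glue _ _

theorem glue_adj (hX : Good adj X) {v w : Q × ℤ × ℤ} (hv : Val1 X v) (hw : Val1 X w) {d : Dir}
    (h : AdjD1 adj X d v w) : g (v.2, d) = (w.2, d.opp) := by
  rw [hD.glu]
  exact Surf.glue_of_mem ((nb1_iff hX hv hw d).2 h) (hD.mem_tl hv) (hD.mem_tl hw)

/-- the glued half edge in terms of places -/
theorem glue_cases (hX : Good adj X) {v : Q × ℤ × ℤ} (hv : Val1 X v) (d : Dir) :
    (∃ w, Val1 X w ∧ AdjD1 adj X d v w ∧ g (v.2, d) = (w.2, d.opp)) ∨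
    ((∀ w, Val1 X w → ¬ AdjD1 adj X d v w) ∧ g (v.2, d) = (v.2, d)) := by
  by_cases h : ∃ w, Val1 X w ∧ AdjD1 adj X d v w
  · obtain ⟨w, hw, h1⟩ := h
    exact Or.inl ⟨w, hw, h1, hD.glue_adj hX hv hw h1⟩
  · right
    refine ⟨fun w hw h1 => h ⟨w, hw, h1⟩, ?_⟩
    rw [hD.glu]
    rcases Surf.glue_cases (S := plane) (T := T) (v.2, d) with h1 | ⟨t', h1, h2, h3, -⟩
    · exact h1
    · exfalso
      obtain ⟨w, hw, rfl⟩ := (hD.mem t').1 h3
      exact h ⟨w, hw, (nb1_iff hX hv hw d).1 h1⟩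

end Dom1

/-! ### interior corners -/

section corner
variable {τ : Type*} {T : Finset τ} {g : Half τ → Half τ}

/-- the tiles `a`, `b` below, `d`, `c` above around an interior corner -/
structure Corner4 (g : Half τ → Half τ) (a b c d : τ) : Prop where
  ab : g (a, .E) = (b, .W)
  bc : g (b, .N) = (c, .S)
  cd : g (c, .W) = (d, .E)
  da : g (d, .S) = (a, .N)

/-- a half edge on a short orbit of the rotation without boundary half edges is not reached -/
lemma not_reach {f : Half τ → Half τ} (hf : Injective f) {x0 : Half τ} {n : ℕ} (hn : 1 ≤ n)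
    (hc : f^[n] x0 = x0) (hx : ∀ i, i < n → g (f^[i] x0) ≠ f^[i] x0) {y : Half τ} (hy : g y = y) (k : ℕ) :
    f^[k] y ≠ x0 := by
  have key : ∀ k, (∃ i, i < n ∧ f^[k] y = f^[i] x0) → ∃ i, i < n ∧ y = f^[i] x0 := by
    intro k
    induction k with
    | zero => exact id
    | succ k ih =>
      rintro ⟨i, hi, h⟩
      apply ih
      rw [iterate_succ_apply'] at h
      rcases Nat.eq_zero_or_pos i with rfl | hi0
      · refine ⟨n - 1, by omega, hf ?_⟩
        rw [h, ← iterate_succ_apply' f, show (n - 1).succ = n by omega, hc]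
        rfl
      · refine ⟨i - 1, by omega, hf ?_⟩
        rw [h, ← iterate_succ_apply' f, show (i - 1).succ = i by omega]
  intro h
  obtain ⟨i, hi, rfl⟩ := key k ⟨0, hn, h⟩
  exact hx i hi hy

namespace Corner4
variable {a b c d : τ} (h : Corner4 g a b c d) (hG : Glu T g)
include h hG

lemma r1 : rot g (a, .N) = (d, .E) := by
  have h1 : g (a, .N) = (d, .S) := by rw [← h.da, hG.inv]
  show rho (g (a, .N)) = _
  rw [h1]
  rfl

lemma r2 : rot g (d, .E) = (c, .S) := by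
  have h1 : g (d, .E) = (c, .W) := by rw [← h.cd, hG.inv]
  show rho (g (d, .E)) = _
  rw [h1]
  rfl

lemma r3 : rot g (c, .S) = (b, .W) := by
  have h1 : g (c, .S) = (b, .N) := by rw [← h.bc, hG.inv]
  show rho (g (c, .S)) = _
  rw [h1]
  rfl

lemma r4 : rot g (b, .W) = (a, .N) := by
  have h1 : g (b, .W) = (a, .E) := by rw [← h.ab, hG.inv]
  show rho (g (b, .W)) = _
  rw [h1]
  rfl

lemma fix : g (a, .N) ≠ (a, .N) ∧ g (d, .E) ≠ (d, .E) ∧ g (c, .S) ≠ (c, .S) ∧ g (b, .W) ≠ (b, .W) := by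
  have h1 : g (a, .N) = (d, .S) := by rw [← h.da, hG.inv]
  have h2 : g (d, .E) = (c, .W) := by rw [← h.cd, hG.inv]
  have h3 : g (c, .S) = (b, .N) := by rw [← h.bc, hG.inv]
  have h4 : g (b, .W) = (a, .E) := by rw [← h.ab, hG.inv]
  rw [h1, h2, h3, h4]
  refine ⟨?_, ?_, ?_, ?_⟩ <;> intro h5 <;> exact Dir.noConfusion (congrArg Prod.snd h5)

/-- the four half edges at the corner are not reached from the boundary -/
theorem not_reach {y : Half τ} (hy : g y = y) (k : ℕ) :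
    (rot g)^[k] y ≠ (a, .N) ∧ (rot g)^[k] y ≠ (d, .E) ∧ (rot g)^[k] y ≠ (c, .S) ∧
      (rot g)^[k] y ≠ (b, .W) := by
  obtain ⟨f1, f2, f3, f4⟩ := h.fix hG
  have e1 := h.r1 hG
  have e2 := h.r2 hG
  have e3 := h.r3 hG
  have e4 := h.r4 hG
  have hi := hG.rot_inj
  refine ⟨Geo.not_reach (g := g) hi (n := 4) (by norm_num) ?_ ?_ hy k,
    Geo.not_reach (g := g) hi (n := 4) (by norm_num) ?_ ?_ hy k,
    Geo.not_reach (g := g) hi (n := 4) (by norm_num) ?_ ?_ hy k,
    Geo.not_reach (g := g) hi (n := 4) (by norm_num) ?_ ?_ hy k⟩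
  · show rot g (rot g (rot g (rot g (a, .N)))) = (a, .N)
    rw [e1, e2, e3, e4]
  · intro i hi
    interval_cases i
    · exact f1
    · show g (rot g (a, .N)) ≠ rot g (a, .N)
      rw [e1]; exact f2
    · show g (rot g (rot g (a, .N))) ≠ rot g (rot g (a, .N))
      rw [e1, e2]; exact f3
    · show g (rot g (rot g (rot g (a, .N)))) ≠ rot g (rot g (rot g (a, .N)))
      rw [e1, e2, e3]; exact f4
  · show rot g (rot g (rot g (rot g (d, .E)))) = (d, .E)
    rw [e2, e3, e4, e1]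
  · intro i hi
    interval_cases i
    · exact f2
    · show g (rot g (d, .E)) ≠ rot g (d, .E)
      rw [e2]; exact f3
    · show g (rot g (rot g (d, .E))) ≠ rot g (rot g (d, .E))
      rw [e2, e3]; exact f4
    · show g (rot g (rot g (rot g (d, .E)))) ≠ rot g (rot g (rot g (d, .E)))
      rw [e2, e3, e4]; exact f1
  · show rot g (rot g (rot g (rot g (c, .S)))) = (c, .S)
    rw [e3, e4, e1, e2]
  · intro i hi
    interval_cases i
    · exact f3
    · show g (rot g (c, .S)) ≠ rot g (c, .S)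
      rw [e3]; exact f4
    · show g (rot g (rot g (c, .S))) ≠ rot g (rot g (c, .S))
      rw [e3, e4]; exact f1
    · show g (rot g (rot g (rot g (c, .S)))) ≠ rot g (rot g (rot g (c, .S)))
      rw [e3, e4, e1]; exact f2
  · show rot g (rot g (rot g (rot g (b, .W)))) = (b, .W)
    rw [e4, e1, e2, e3]
  · intro i hi
    interval_cases i
    · exact f4
    · show g (rot g (b, .W)) ≠ rot g (b, .W)
      rw [e4]; exact f1
    · show g (rot g (rot g (b, .W))) ≠ rot g (rot g (b, .W))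
      rw [e4, e1]; exact f2
    · show g (rot g (rot g (rot g (b, .W)))) ≠ rot g (rot g (rot g (b, .W)))
      rw [e4, e1, e2]; exact f3

end Corner4

/-- `next` along a straight wall: the two sides are in neighbouring tiles -/
lemma next_two {x x' : Half τ} (hx : g x = x) (hx' : g x' = x') (h1 : g (rho x) ≠ rho x)
    (h2 : rho (g (rho x)) = x') : next g x = x' := by
  have h3 : rot g x = rho x := by
    show rho (g x) = _
    rw [hx]
  have h4 : (rot g)^[2] x = x' := by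
    show rot g (rot g x) = x'
    rw [h3]
    exact h2
  rw [← h4]
  refine next_of (by norm_num) (by rw [h4]; exact hx') fun j hj hj' => ?_
  obtain rfl : j = 1 := by omega
  show g (rot g x) ≠ rot g x
  rw [h3]
  exact h1

end corner

end Full.Geo
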