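import Pool.Agent.Full.Def.Shape
import Pool.Agent.Full.Corner.PlaneNext

/-!
# Fine rectangles of a shape

`Fr S` : fine rectangles `[L q, R q) x [B q, U q)` for the rooms `q ∈ P` of a shape.  The fine region of a
shape, and the two sheets of a domain with an interior end, are of this form (`Fr.Ok`): the walls are
near the coarse walls, the rooms of `P` which are on top of each other touch.
`Fr.Ok.nb` : neighbouring tiles are in the same room or in rooms on top of each other;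
`Fr.Ok.bd_iff` : the boundary half edges.
-/

set_option autoImplicit false

namespace Full.Geo
open Function Relation Full Full.Shape

lemma mul_step {n : ℕ} {a b : ℤ} (h : a < b) : (n : ℤ) * a + n ≤ n * b := by
  have h1 := mul_le_mul_of_nonneg_left (Int.add_one_le_iff.2 h) (Int.natCast_nonneg n)
  rwa [mul_add, mul_one] at h1

/-- fine rectangles -/
structure Fr (S : Shape) where
  P : Set S.Q
  L : S.Q → ℤ
  R : S.Q → ℤ
  B : S.Q → ℤ
  U : S.Q → ℤ

namespace Fr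
variable {S : Shape} (F : Fr S)

/-- the tile is in the room `q` -/
def In (q : S.Q) (t : ℤ × ℤ) : Prop := (F.L q ≤ t.1 ∧ t.1 < F.R q) ∧ F.B q ≤ t.2 ∧ t.2 < F.U q

/-- the region of the fine rectangles -/
def Reg (T : Finset (ℤ × ℤ)) : Prop := ∀ t, t ∈ T ↔ ∃ q ∈ F.P, F.In q t

/-- the fine rectangles are near the coarse ones -/
structure Ok (n : ℕ) : Prop where
  n8 : 8 ≤ n
  l1 : ∀ q, n * S.xl q ≤ F.L q
  l2 : ∀ q, 2 * F.L q ≤ 2 * (n * S.xl q) + n
  r1 : ∀ q, n * S.xr q ≤ F.R q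
  r2 : ∀ q, 2 * F.R q ≤ 2 * (n * S.xr q) + n + 2
  b1 : ∀ q, n * S.yb q ≤ F.B q
  u1 : ∀ q, F.U q ≤ n * S.yt q
  bu : ∀ q, F.B q < F.U q
  /-- rooms on top of each other touch -/
  tch : ∀ a b, a ∈ F.P → b ∈ F.P → S.On a b → F.U a = n * S.yt a ∧ F.B b = n * S.yb b
  /-- the room under the floor -/
  dn : ∀ a b, b ∈ F.P → S.On a b → F.B b = n * S.yb b → a ∈ F.P
  /-- the room above the ceiling -/
  up : ∀ a b, a ∈ F.P → S.On a b → F.U a = n * S.yt a → b ∈ F.P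

namespace Ok
variable {F} {n : ℕ} (hS : S.Ok) (hF : F.Ok n)
include hS hF

theorem lr (q : S.Q) : F.L q + 2 < F.R q := by
  have h1 := mul_step (n := n) (hS.x_lt q)
  have h2 := hF.l2 q
  have h3 := hF.r1 q
  have h4 := hF.n8
  omega

omit hF in
theorem yy (q : S.Q) : (n : ℤ) * S.yb q + n ≤ n * S.yt q := mul_step (hS.y_lt q)

/-- the height of the contact -/
theorem on_eq {a b : S.Q} (ha : a ∈ F.P) (hb : b ∈ F.P) (h : S.On a b) : F.U a = F.B b := by
  have h1 := hF.tch a b ha hb h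
  rw [h1.1, h1.2, hS.on_y a b h]

/-- a link is strictly inside the row below -/
theorem in_dn (k : S.K) : F.L (.inl (S.dn k)) + 2 < F.L (.inr k) ∧
    F.R (.inr k) + 2 < F.R (.inl (S.dn k)) := by
  have h1 := mul_step (n := n) (hS.dn_l k)
  have h2 := mul_step (n := n) (hS.dn_r k)
  have h3 := hF.l2 (.inl (S.dn k))
  have h4 := hF.l1 (.inr k)
  have h5 := hF.r2 (.inr k)
  have h6 := hF.r1 (.inl (S.dn k))
  have h7 := hF.n8
  omega

/-- a link is strictly inside the row above -/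
theorem in_up (k : S.K) : F.L (.inl (S.up k)) + 2 < F.L (.inr k) ∧
    F.R (.inr k) + 2 < F.R (.inl (S.up k)) := by
  have h1 := mul_step (n := n) (hS.up_l k)
  have h2 := mul_step (n := n) (hS.up_r k)
  have h3 := hF.l2 (.inl (S.up k))
  have h4 := hF.l1 (.inr k)
  have h5 := hF.r2 (.inr k)
  have h6 := hF.r1 (.inl (S.up k))
  have h7 := hF.n8
  omega

/-- rooms which do not touch are at distance at least two tiles -/
theorem sep {a b : S.Q} (h : a ≠ b) (h1 : ¬ S.On a b) (h2 : ¬ S.On b a) :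
    F.R a + 2 < F.L b ∨ F.R b + 2 < F.L a ∨ F.U a + 2 < F.B b ∨ F.U b + 2 < F.B a := by
  have h7 := hF.n8
  rcases hS.sep a b h h1 h2 with h3 | h3 | h3 | h3
  · have h4 := mul_step (n := n) h3
    have h5 := hF.r2 a
    have h6 := hF.l1 b
    left; omega
  · have h4 := mul_step (n := n) h3
    have h5 := hF.r2 b
    have h6 := hF.l1 a
    right; left; omega
  · have h4 := mul_step (n := n) h3
    have h5 := hF.u1 a
    have h6 := hF.b1 b
    right; right; left; omega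
  · have h4 := mul_step (n := n) h3
    have h5 := hF.u1 b
    have h6 := hF.b1 a
    right; right; right; omega

/-- neighbouring tiles are in the same room or in rooms on top of each other -/
theorem nb {a b : S.Q} {t u : ℤ × ℤ} (ht : F.In a t) (hu : F.In b u) (h1 : u.1 ≤ t.1 + 1)
    (h1' : t.1 ≤ u.1 + 1) (h2 : u.2 ≤ t.2 + 1) (h2' : t.2 ≤ u.2 + 1) : a = b ∨ S.On a b ∨ S.On b a := by
  by_contra h
  push Not at h
  obtain ⟨⟨a1, a2⟩, a3, a4⟩ := ht
  obtain ⟨⟨b1, b2⟩, b3, b4⟩ := hu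
  have := hF.sep hS h.1 h.2.1 h.2.2
  omega

/-- the room of a tile -/
theorem uniq {a b : S.Q} (ha : a ∈ F.P) (hb : b ∈ F.P) {t : ℤ × ℤ} (ht : F.In a t) (hu : F.In b t) :
    a = b := by
  rcases hF.nb hS ht hu (by omega) (by omega) (by omega) (by omega) with h | h | h
  · exact h
  · have h1 := hF.on_eq hS ha hb h
    obtain ⟨⟨a1, a2⟩, a3, a4⟩ := ht
    obtain ⟨⟨b1, b2⟩, b3, b4⟩ := hu
    omega
  · have h1 := hF.on_eq hS hb ha h
    obtain ⟨⟨a1, a2⟩, a3, a4⟩ := ht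
    obtain ⟨⟨b1, b2⟩, b3, b4⟩ := hu
    omega

variable {T : Finset (ℤ × ℤ)} (hT : F.Reg T)
include hT

theorem mem_E {q : S.Q} (hq : q ∈ F.P) {i j : ℤ} (ht : F.In q (i, j)) : (i + 1, j) ∈ T ↔ i + 1 < F.R q := by
  have ht' := ht
  obtain ⟨⟨a1, a2⟩, a3, a4⟩ := ht'
  dsimp only at a1 a2 a3 a4
  rw [hT]
  constructor
  · rintro ⟨p, hp, hu⟩
    rcases hF.nb hS ht hu (by dsimp only; omega) (by dsimp only; omega) (by dsimp only; omega)
      (by dsimp only; omega) with h | h | h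
    · subst h
      exact hu.1.2
    · have h1 := hF.on_eq hS hq hp h
      obtain ⟨⟨b1, b2⟩, b3, b4⟩ := hu
      dsimp only at b3 b4
      omega
    · have h1 := hF.on_eq hS hp hq h
      obtain ⟨⟨b1, b2⟩, b3, b4⟩ := hu
      dsimp only at b3 b4
      omega
  · intro h
    exact ⟨q, hq, ⟨by dsimp only; omega, h⟩, a3, a4⟩

theorem mem_W {q : S.Q} (hq : q ∈ F.P) {i j : ℤ} (ht : F.In q (i, j)) : (i - 1, j) ∈ T ↔ F.L q < i := by
  have ht' := ht
  obtain ⟨⟨a1, a2⟩, a3, a4⟩ := ht'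
  dsimp only at a1 a2 a3 a4
  rw [hT]
  constructor
  · rintro ⟨p, hp, hu⟩
    rcases hF.nb hS ht hu (by dsimp only; omega) (by dsimp only; omega) (by dsimp only; omega)
      (by dsimp only; omega) with h | h | h
    · subst h
      have := hu.1.1
      dsimp only at this
      omega
    · have h1 := hF.on_eq hS hq hp h
      obtain ⟨⟨b1, b2⟩, b3, b4⟩ := hu
      dsimp only at b3 b4
      omega
    · have h1 := hF.on_eq hS hp hq h
      obtain ⟨⟨b1, b2⟩, b3, b4⟩ := hu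
      dsimp only at b3 b4
      omega
  · intro h
    exact ⟨q, hq, ⟨by dsimp only; omega, by dsimp only; omega⟩, a3, a4⟩

theorem mem_N {q : S.Q} (hq : q ∈ F.P) {i j : ℤ} (ht : F.In q (i, j)) : (i, j + 1) ∈ T ↔
    j + 1 < F.U q ∨ ∃ p ∈ F.P, S.On q p ∧ j + 1 = F.B p ∧ F.L p ≤ i ∧ i < F.R p := by
  have ht' := ht
  obtain ⟨⟨a1, a2⟩, a3, a4⟩ := ht'
  dsimp only at a1 a2 a3 a4
  rw [hT]
  constructor
  · rintro ⟨p, hp, hu⟩
    rcases hF.nb hS ht hu (by dsimp only; omega) (by dsimp only; omega) (by dsimp only; omega)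
      (by dsimp only; omega) with h | h | h
    · subst h
      exact Or.inl hu.2.2
    · have h1 := hF.on_eq hS hq hp h
      obtain ⟨⟨b1, b2⟩, b3, b4⟩ := hu
      dsimp only at b1 b2 b3 b4
      exact Or.inr ⟨p, hp, h, by omega, b1, b2⟩
    · have h1 := hF.on_eq hS hp hq h
      obtain ⟨⟨b1, b2⟩, b3, b4⟩ := hu
      dsimp only at b3 b4
      omega
  · rintro (h | ⟨p, hp, h, h1, h2, h3⟩)
    · exact ⟨q, hq, ⟨a1, a2⟩, by dsimp only; omega, h⟩
    · have h4 := hF.bu p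
      exact ⟨p, hp, ⟨h2, h3⟩, by dsimp only; omega, by dsimp only; omega⟩

theorem mem_S {q : S.Q} (hq : q ∈ F.P) {i j : ℤ} (ht : F.In q (i, j)) : (i, j - 1) ∈ T ↔
    F.B q < j ∨ ∃ p ∈ F.P, S.On p q ∧ j = F.U p ∧ F.L p ≤ i ∧ i < F.R p := by
  have ht' := ht
  obtain ⟨⟨a1, a2⟩, a3, a4⟩ := ht'
  dsimp only at a1 a2 a3 a4
  rw [hT]
  constructor
  · rintro ⟨p, hp, hu⟩
    rcases hF.nb hS ht hu (by dsimp only; omega) (by dsimp only; omega) (by dsimp only; omega)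
      (by dsimp only; omega) with h | h | h
    · subst h
      left
      have := hu.2.1
      dsimp only at this
      omega
    · have h1 := hF.on_eq hS hq hp h
      obtain ⟨⟨b1, b2⟩, b3, b4⟩ := hu
      dsimp only at b3 b4
      omega
    · have h1 := hF.on_eq hS hp hq h
      obtain ⟨⟨b1, b2⟩, b3, b4⟩ := hu
      dsimp only at b1 b2 b3 b4
      exact Or.inr ⟨p, hp, h, by omega, b1, b2⟩
  · rintro (h | ⟨p, hp, h, h1, h2, h3⟩)
    · exact ⟨q, hq, ⟨a1, a2⟩, by dsimp only; omega, by dsimp only; omega⟩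
    · have h4 := hF.bu p
      exact ⟨p, hp, ⟨h2, h3⟩, by dsimp only; omega, by dsimp only; omega⟩

theorem bd_E {q : S.Q} (hq : q ∈ F.P) {i j : ℤ} (ht : F.In q (i, j)) :
    Bd T (plane.glue T) ((i, j), .E) ↔ i = F.R q - 1 := by
  have h0 : (i, j) ∈ T := (hT _).2 ⟨q, hq, ht⟩
  have h1 : ((i, j) : ℤ × ℤ) + Dir.E.vec = (i + 1, j) := by ext <;> simp [Dir.vec]
  rw [Shp.bd_plane, h1, hF.mem_E hS hT hq ht]
  have h2 : i < F.R q := ht.1.2
  constructor
  · rintro ⟨-, h⟩; omega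
  · intro h; exact ⟨h0, by omega⟩

theorem bd_W {q : S.Q} (hq : q ∈ F.P) {i j : ℤ} (ht : F.In q (i, j)) :
    Bd T (plane.glue T) ((i, j), .W) ↔ i = F.L q := by
  have h0 : (i, j) ∈ T := (hT _).2 ⟨q, hq, ht⟩
  have h1 : ((i, j) : ℤ × ℤ) + Dir.W.vec = (i - 1, j) := by ext <;> simp [Dir.vec, sub_eq_add_neg]
  rw [Shp.bd_plane, h1, hF.mem_W hS hT hq ht]
  have h2 : F.L q ≤ i := ht.1.1
  constructor
  · rintro ⟨-, h⟩; omega
  · intro h; exact ⟨h0, by omega⟩

theorem bd_N {q : S.Q} (hq : q ∈ F.P) {i j : ℤ} (ht : F.In q (i, j)) :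
    Bd T (plane.glue T) ((i, j), .N) ↔
      j = F.U q - 1 ∧ ∀ p ∈ F.P, S.On q p → i < F.L p ∨ F.R p ≤ i := by
  have h0 : (i, j) ∈ T := (hT _).2 ⟨q, hq, ht⟩
  have h1 : ((i, j) : ℤ × ℤ) + Dir.N.vec = (i, j + 1) := by ext <;> simp [Dir.vec]
  rw [Shp.bd_plane, h1, hF.mem_N hS hT hq ht]
  have h2 : j < F.U q := ht.2.2
  constructor
  · rintro ⟨-, h⟩
    push Not at h
    obtain ⟨h3, h4⟩ := h
    refine ⟨by omega, fun p hp hqp => ?_⟩
    have h5 := h4 p hp hqp (by rw [← hF.on_eq hS hq hp hqp]; omega)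
    by_contra h6
    push Not at h6
    have := h5 h6.1
    omega
  · rintro ⟨h3, h4⟩
    refine ⟨h0, ?_⟩
    rintro (h5 | ⟨p, hp, hqp, -, h6, h7⟩)
    · omega
    · have := h4 p hp hqp
      omega

theorem bd_S {q : S.Q} (hq : q ∈ F.P) {i j : ℤ} (ht : F.In q (i, j)) :
    Bd T (plane.glue T) ((i, j), .S) ↔
      j = F.B q ∧ ∀ p ∈ F.P, S.On p q → i < F.L p ∨ F.R p ≤ i := by
  have h0 : (i, j) ∈ T := (hT _).2 ⟨q, hq, ht⟩
  have h1 : ((i, j) : ℤ × ℤ) + Dir.S.vec = (i, j - 1) := by ext <;> simp [Dir.vec, sub_eq_add_neg]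
  rw [Shp.bd_plane, h1, hF.mem_S hS hT hq ht]
  have h2 : F.B q ≤ j := ht.2.1
  constructor
  · rintro ⟨-, h⟩
    push Not at h
    obtain ⟨h3, h4⟩ := h
    refine ⟨by omega, fun p hp hqp => ?_⟩
    have h5 := h4 p hp hqp (by rw [hF.on_eq hS hp hq hqp]; omega)
    by_contra h6
    push Not at h6
    have := h5 h6.1
    omega
  · rintro ⟨h3, h4⟩
    refine ⟨h0, ?_⟩
    rintro (h5 | ⟨p, hp, hqp, -, h6, h7⟩)
    · omega
    · have := h4 p hp hqp
      omega

end Ok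
end Fr

end Full.Geo
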