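import Pool.Agent.Full.Geo.Labv

/-!
# Labels of the boundary half edges of a region of fine rectangles

`tlv x` : tail of a half edge of the plane; `lab F m n σ x` : label of the half edge `x` (label of its tail).
* `corner_lab` : the label is a corner function;
* `lab_W`, `lab_E`, `lab_S`, `lab_N` : its values on the walls.
-/

set_option autoImplicit false

namespace Full.Geo
open Function Relation Full Full.Shape

/-- the tail of a half edge of the plane -/
def tlv : Half (ℤ × ℤ) → ℤ × ℤ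
  | (t, .E) => (t.1 + 1, t.2)
  | (t, .N) => (t.1 + 1, t.2 + 1)
  | (t, .W) => (t.1, t.2 + 1)
  | (t, .S) => t

lemma tl_opp (t : ℤ × ℤ) (d : Dir) : tlv (t + d.vec, d.opp) = tlv (rho (t, d)) := by
  cases d <;> simp [tlv, Dir.vec, Dir.opp, rho, Dir.ccw, Prod.ext_iff]

/-- glued half edges of a plane region -/
lemma glue_ne_plane {T : Finset (ℤ × ℤ)} {x : Half (ℤ × ℤ)} (h : plane.glue T x ≠ x) :
    x.1 ∈ T ∧ x.1 + x.2.vec ∈ T ∧ plane.glue T x = (x.1 + x.2.vec, x.2.opp) := by
  obtain ⟨t, d⟩ := x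
  rw [plane_glue] at h ⊢
  by_cases h1 : t ∈ T ∧ t + d.vec ∈ T
  · exact ⟨h1.1, h1.2, if_pos h1⟩
  · exact absurd (if_neg h1) h

/-- a function of the tail is a corner function -/
theorem corner_tl {X : Type*} (T : Finset (ℤ × ℤ)) (f : ℤ × ℤ → X) :
    Corner (plane.glue T) fun x => f (tlv x) := by
  intro x hx
  obtain ⟨t, d⟩ := x
  obtain ⟨-, -, h⟩ := glue_ne_plane hx
  show f (tlv (plane.glue T (t, d))) = f (tlv (rho (t, d)))
  rw [h]
  exact congrArg f (tl_opp t d)

section
variable {S : Shape} (F : Fr S) (m : S.Marks) (n : ℕ) (σ : Fin 4 → ℕ)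

open Classical in
/-- label of a vertex of the room `q` -/
noncomputable def fv (q : S.Q) (v : ℤ × ℤ) : Fin 4 :=
  if v.1 = F.L q then m.wl q
  else if v.1 = F.R q then m.wr q
  else match q with
    | .inr _ => 0
    | .inl r =>
      if v.2 = n * S.yb (.inl r) ∧ ∀ k, S.Att k r false → v.1 ≤ F.L (.inr k) ∨ F.R (.inr k) ≤ v.1 then
        labv m n σ r false v.1
      else if v.2 = n * S.yt (.inl r) ∧ ∀ k, S.Att k r true → v.1 ≤ F.L (.inr k) ∨ F.R (.inr k) ≤ v.1 then
        labv m n σ r true v.1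
      else 0

open Classical in
/-- label of a half edge of the region of the fine rectangles -/
noncomputable def lab (x : Half (ℤ × ℤ)) : Fin 4 :=
  if h : ∃ q ∈ F.P, F.In q x.1 then fv F m n σ h.choose (tlv x) else 0

variable {F m n σ} (hS : S.Ok) (hm : m.Ok) (hn : 8 ≤ n) (hσ : ∀ j, 4 * σ j ≤ n) (hF : F.Ok n)

include hS hF in
theorem lab_eq {q : S.Q} (hq : q ∈ F.P) {x : Half (ℤ × ℤ)} (h : F.In q x.1) :
    lab F m n σ x = fv F m n σ q (tlv x) := by
  have h1 : ∃ q ∈ F.P, F.In q x.1 := ⟨q, hq, h⟩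
  unfold lab
  rw [dif_pos h1, hF.uniq hS h1.choose_spec.1 hq h1.choose_spec.2 h]

theorem fv_L {q : S.Q} {v : ℤ × ℤ} (h : v.1 = F.L q) : fv F m n σ q v = m.wl q := by
  unfold fv
  rw [if_pos h]

include hS hF in
theorem fv_R {q : S.Q} {v : ℤ × ℤ} (h : v.1 = F.R q) : fv F m n σ q v = m.wr q := by
  have := hF.lr hS q
  unfold fv
  rw [if_neg (by omega), if_pos h]

include hS hF hm hn in
/-- the floor of a row -/
theorem fv_floor {r : S.R} {v : ℤ × ℤ} (h : v.2 = n * S.yb (.inl r))
    (hk : ∀ k, S.Att k r false → v.1 ≤ F.L (.inr k) ∨ F.R (.inr k) ≤ v.1) :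
    fv F m n σ (.inl r) v = labv m n σ r false v.1 := by
  by_cases h1 : v.1 = F.L (.inl r)
  · rw [fv_L h1, h1, labv_l hm hn hF]
  · by_cases h2 : v.1 = F.R (.inl r)
    · rw [fv_R hS hF h2, h2, labv_r hm hn hF]
    · unfold fv
      rw [if_neg h1, if_neg h2]
      exact if_pos ⟨h, hk⟩

include hS hF hm hn in
/-- the ceiling of a row -/
theorem fv_ceil {r : S.R} {v : ℤ × ℤ} (h : v.2 = n * S.yt (.inl r))
    (hk : ∀ k, S.Att k r true → v.1 ≤ F.L (.inr k) ∨ F.R (.inr k) ≤ v.1) :
    fv F m n σ (.inl r) v = labv m n σ r true v.1 := by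
  have h0 := mul_step (n := n) (hS.y_lt (.inl r))
  by_cases h1 : v.1 = F.L (.inl r)
  · rw [fv_L h1, h1, labv_l hm hn hF]
  · by_cases h2 : v.1 = F.R (.inl r)
    · rw [fv_R hS hF h2, h2, labv_r hm hn hF]
    · unfold fv
      rw [if_neg h1, if_neg h2]
      dsimp only
      rw [if_neg (fun h3 => by have := h3.1; omega), if_pos ⟨h, hk⟩]

/-- an inner vertex, or a vertex inside an opening -/
theorem fv_zero {q : S.Q} {v : ℤ × ℤ} (h1 : v.1 ≠ F.L q) (h2 : v.1 ≠ F.R q)
    (h3 : ∀ r, q = .inl r → v.2 = n * S.yb (.inl r) → ∃ k, S.Att k r false ∧ F.L (.inr k) < v.1 ∧ v.1 < F.R (.inr k))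
    (h4 : ∀ r, q = .inl r → v.2 = n * S.yt (.inl r) → ∃ k, S.Att k r true ∧ F.L (.inr k) < v.1 ∧ v.1 < F.R (.inr k)) :
    fv F m n σ q v = 0 := by
  unfold fv
  rw [if_neg h1, if_neg h2]
  rcases q with r | k
  · dsimp only
    rw [if_neg, if_neg]
    · rintro ⟨h5, h6⟩
      obtain ⟨k, h7, h8, h9⟩ := h4 r rfl h5
      have := h6 k h7
      omega
    · rintro ⟨h5, h6⟩
      obtain ⟨k, h7, h8, h9⟩ := h3 r rfl h5
      have := h6 k h7
      omega
  · rfl

include hS hF in
/-- two links which are attached to the same wall -/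
theorem att_sep {k k' : S.K} {r : S.R} {b : Bool} (h : S.Att k r b) (h' : S.Att k' r b) (hne : k ≠ k') :
    F.R (.inr k) + 2 < F.L (.inr k') ∨ F.R (.inr k') + 2 < F.L (.inr k) := by
  have h0 := hF.sep hS (a := .inr k) (b := .inr k') (fun h => hne (Sum.inr.inj h)) (fun h => h) (fun h => h)
  rcases hS.sep (.inr k) (.inr k') (fun h => hne (Sum.inr.inj h)) (fun h => h) (fun h => h) with h3 | h3 | h3 | h3
  · have h4 := mul_step (n := n) h3
    have h5 := hF.r2 (.inr k)
    have h6 := hF.l1 (.inr k')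
    have h7 := hF.n8
    left; omega
  · have h4 := mul_step (n := n) h3
    have h5 := hF.r2 (.inr k')
    have h6 := hF.l1 (.inr k)
    have h7 := hF.n8
    right; omega
  · exfalso
    have y1 := hS.y_lt (.inr k)
    have y2 := hS.y_lt (.inr k')
    cases b
    · have e1 : S.yt (.inr k) = S.yb (.inl r) := by
        have := hS.on_y (.inr k) (.inl (S.up k)) rfl
        rw [show S.up k = r from h] at this
        exact this
      have e2 : S.yt (.inr k') = S.yb (.inl r) := by
        have := hS.on_y (.inr k') (.inl (S.up k')) rfl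
        rw [show S.up k' = r from h'] at this
        exact this
      omega
    · have e1 : S.yt (.inl r) = S.yb (.inr k) := by
        have := hS.on_y (.inl (S.dn k)) (.inr k) rfl
        rw [show S.dn k = r from h] at this
        exact this
      have e2 : S.yt (.inl r) = S.yb (.inr k') := by
        have := hS.on_y (.inl (S.dn k')) (.inr k') rfl
        rw [show S.dn k' = r from h'] at this
        exact this
      omega
  · exfalso
    have y1 := hS.y_lt (.inr k)
    have y2 := hS.y_lt (.inr k')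
    cases b
    · have e1 : S.yt (.inr k) = S.yb (.inl r) := by
        have := hS.on_y (.inr k) (.inl (S.up k)) rfl
        rw [show S.up k = r from h] at this
        exact this
      have e2 : S.yt (.inr k') = S.yb (.inl r) := by
        have := hS.on_y (.inr k') (.inl (S.up k')) rfl
        rw [show S.up k' = r from h'] at this
        exact this
      omega
    · have e1 : S.yt (.inl r) = S.yb (.inr k) := by
        have := hS.on_y (.inl (S.dn k)) (.inr k) rfl
        rw [show S.dn k = r from h] at this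
        exact this
      have e2 : S.yt (.inl r) = S.yb (.inr k') := by
        have := hS.on_y (.inl (S.dn k')) (.inr k') rfl
        rw [show S.dn k' = r from h'] at this
        exact this
      omega

include hS hF in
/-- a link is strictly inside the row it is attached to -/
theorem att_in {k : S.K} {r : S.R} {b : Bool} (h : S.Att k r b) :
    F.L (.inl r) + 2 < F.L (.inr k) ∧ F.R (.inr k) + 2 < F.R (.inl r) := by
  cases b
  · obtain rfl : S.up k = r := h
    exact hF.in_up hS k
  · obtain rfl : S.dn k = r := h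
    exact hF.in_dn hS k

include hS hF hm hn in
/-- the label on an opening is the same on both sides -/
theorem fv_open {k : S.K} {r : S.R} {b : Bool} (h : S.Att k r b) {v : ℤ × ℤ}
    (hv : v.2 = n * (if b then S.yt (.inl r) else S.yb (.inl r))) (h1 : F.L (.inr k) ≤ v.1)
    (h2 : v.1 ≤ F.R (.inr k)) : fv F m n σ (.inl r) v = fv F m n σ (.inr k) v := by
  have hlr := hF.lr hS (.inr k)
  have hin := att_in hS hF h
  have h0 := mul_step (n := n) (hS.y_lt (.inl r))
  have hoth : v.1 ≤ F.L (.inr k) ∨ F.R (.inr k) ≤ v.1 →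
      ∀ k', S.Att k' r b → v.1 ≤ F.L (.inr k') ∨ F.R (.inr k') ≤ v.1 := by
    intro h3 k' hk'
    by_cases hkk : k = k'
    · subst hkk; exact h3
    · rcases att_sep hS hF h hk' hkk with h4 | h4 <;> omega
  have hval : v.1 ≤ F.L (.inr k) ∨ F.R (.inr k) ≤ v.1 → fv F m n σ (.inl r) v = labv m n σ r b v.1 := by
    intro h3
    cases b
    · exact fv_floor hS hm hn hF hv (hoth h3)
    · exact fv_ceil hS hm hn hF hv (hoth h3)
  rcases eq_or_lt_of_le h1 with h3 | h3
  · rw [hval (Or.inl h3.ge), ← h3, labv_al hS hm hn hF h, fv_L h3.symm]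
  · rcases eq_or_lt_of_le h2 with h4 | h4
    · rw [hval (Or.inr h4.ge), h4, labv_ar hS hm hn hF h, fv_R hS hF h4]
    · rw [fv_zero (F := F) (q := .inl r) (by omega) (by omega), fv_zero (F := F) (q := .inr k) (by omega) (by omega)]
      · rintro r' ⟨⟩
      · rintro r' ⟨⟩
      · rintro r' ⟨⟩ h5
        cases b
        · exact ⟨k, h, h3, h4⟩
        · have h6 : v.2 = n * S.yt (.inl r) := hv
          omega
      · rintro r' ⟨⟩ h5
        cases b
        · have h6 : v.2 = n * S.yb (.inl r) := hv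
          omega
        · exact ⟨k, h, h3, h4⟩

/-- rooms on top of each other -/
theorem on_cases {a b : S.Q} (h : S.On a b) :
    (∃ k r, a = .inl r ∧ b = .inr k ∧ S.Att k r true) ∨ ∃ k r, a = .inr k ∧ b = .inl r ∧ S.Att k r false := by
  rcases a with r | k <;> rcases b with r' | k'
  · exact absurd h (fun h => h)
  · exact Or.inl ⟨k', r, rfl, rfl, h⟩
  · exact Or.inr ⟨k, r', rfl, rfl, h⟩
  · exact absurd h (fun h => h)

include hS hF hm hn in
theorem fv_on {a b : S.Q} (ha : a ∈ F.P) (hb : b ∈ F.P) (h : S.On a b) {v : ℤ × ℤ} (hv : v.2 = F.B b)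
    (h1 : F.L a ≤ v.1) (h2 : v.1 ≤ F.R a) (h3 : F.L b ≤ v.1) (h4 : v.1 ≤ F.R b) :
    fv F m n σ a v = fv F m n σ b v := by
  have h5 := hF.tch a b ha hb h
  have h6 := hF.on_eq hS ha hb h
  rcases on_cases h with ⟨k, r, rfl, rfl, h7⟩ | ⟨k, r, rfl, rfl, h7⟩
  · exact fv_open hS hm hn hF h7 (by rw [hv, ← h6, h5.1]; rfl) h3 h4
  · exact (fv_open hS hm hn hF h7 (by rw [hv, h5.2]; rfl) h1 h2).symm

variable {T : Finset (ℤ × ℤ)} (hT : F.Reg T)

include hS hF hm hn hT in
/-- **the label is a corner function** -/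
theorem corner_lab : Corner (plane.glue T) (lab F m n σ) := by
  rintro ⟨⟨i, j⟩, d⟩ hx
  obtain ⟨h1, h2, h3⟩ := glue_ne_plane hx
  obtain ⟨q, hq, hqt⟩ := (hT _).1 h1
  obtain ⟨p, hp, hpt⟩ := (hT _).1 h2
  rw [h3, lab_eq hS hF hp hpt, lab_eq hS hF hq (x := rho ((i, j), d)) hqt, tl_opp]
  by_cases hpq : p = q
  · rw [hpq]
  · have hqt' := hqt
    have hpt' := hpt
    obtain ⟨⟨a1, a2⟩, a3, a4⟩ := hqt'
    obtain ⟨⟨b1, b2⟩, b3, b4⟩ := hpt'
    have hnb := hF.nb hS hqt hpt (by cases d <;> simp [Dir.vec])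
      (by cases d <;> simp [Dir.vec]; omega) (by cases d <;> simp [Dir.vec])
      (by cases d <;> simp [Dir.vec]; omega)
    rcases hnb with h | h | h
    · exact absurd h.symm hpq
    · have e := hF.on_eq hS hq hp h
      cases d <;> simp only [Dir.vec, Prod.mk_add_mk, add_zero, ← sub_eq_add_neg] at a1 a2 a3 a4 b1 b2 b3 b4
      · omega
      · exact (fv_on hS hm hn hF hq hp h (v := (i, j + 1)) (by dsimp only; omega) (by dsimp only; omega)
          (by dsimp only; omega) (by dsimp only; omega) (by dsimp only; omega)).symm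
      · omega
      · omega
    · have e := hF.on_eq hS hp hq h
      cases d <;> simp only [Dir.vec, Prod.mk_add_mk, add_zero, ← sub_eq_add_neg] at a1 a2 a3 a4 b1 b2 b3 b4
      · omega
      · omega
      · omega
      · exact fv_on hS hm hn hF hp hq h (v := (i + 1, j)) (by dsimp only; omega) (by dsimp only; omega)
          (by dsimp only; omega) (by dsimp only; omega) (by dsimp only; omega)

/-! ### values on the walls -/

include hS hF in
theorem lab_W {q : S.Q} (hq : q ∈ F.P) {j : ℤ} (h : F.In q (F.L q, j)) :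
    lab F m n σ ((F.L q, j), .W) = m.wl q ∧ lab F m n σ (rho ((F.L q, j), .W)) = m.wl q := by
  constructor
  · rw [lab_eq hS hF hq h]; exact fv_L rfl
  · rw [lab_eq hS hF hq (x := rho ((F.L q, j), .W)) h]; exact fv_L rfl

include hS hF in
theorem lab_E {q : S.Q} (hq : q ∈ F.P) {j : ℤ} (h : F.In q (F.R q - 1, j)) :
    lab F m n σ ((F.R q - 1, j), .E) = m.wr q ∧ lab F m n σ (rho ((F.R q - 1, j), .E)) = m.wr q := by
  constructor
  · rw [lab_eq hS hF hq h]; exact fv_R hS hF (sub_add_cancel _ _)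
  · rw [lab_eq hS hF hq (x := rho ((F.R q - 1, j), .E)) h]; exact fv_R hS hF (sub_add_cancel _ _)

include hS hF hm hn in
theorem lab_S {r : S.R} (hq : .inl r ∈ F.P) {i : ℤ} (hw : F.Wl r false i)
    (h : F.B (.inl r) = n * S.yb (.inl r)) :
    lab F m n σ ((i, F.B (.inl r)), .S) = labv m n σ r false i ∧
      lab F m n σ (rho ((i, F.B (.inl r)), .S)) = labv m n σ r false (i + 1) := by
  have h1 := hF.bu (.inl r)
  have h2 : F.In (.inl r) (i, F.B (.inl r)) := ⟨hw.1, le_rfl, h1⟩
  constructor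
  · rw [lab_eq hS hF hq h2]
    exact fv_floor hS hm hn hF h fun k hk => (hw.2 k hk).imp (fun h => h.le) (fun h => h)
  · rw [lab_eq hS hF hq (x := rho ((i, F.B (.inl r)), .S)) h2]
    exact fv_floor hS hm hn hF h fun k hk => by
      have := hw.2 k hk
      dsimp only [rho, tlv, Dir.ccw]
      omega

include hS hF hm hn in
theorem lab_N {r : S.R} (hq : .inl r ∈ F.P) {i : ℤ} (hw : F.Wl r true i)
    (h : F.U (.inl r) = n * S.yt (.inl r)) :
    lab F m n σ ((i, F.U (.inl r) - 1), .N) = labv m n σ r true (i + 1) ∧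
      lab F m n σ (rho ((i, F.U (.inl r) - 1), .N)) = labv m n σ r true i := by
  have h1 := hF.bu (.inl r)
  have h2 : F.In (.inl r) (i, F.U (.inl r) - 1) := ⟨hw.1, by dsimp only; omega, by dsimp only; omega⟩
  constructor
  · rw [lab_eq hS hF hq h2]
    exact fv_ceil hS hm hn hF (by dsimp only [tlv]; omega) fun k hk => by
      have := hw.2 k hk
      dsimp only [tlv]
      omega
  · rw [lab_eq hS hF hq (x := rho ((i, F.U (.inl r) - 1), .N)) h2]
    exact fv_ceil hS hm hn hF (by dsimp only [tlv, rho, Dir.ccw]; omega) fun k hk => by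
      have := hw.2 k hk
      dsimp only [tlv, rho, Dir.ccw]
      omega

end

end Full.Geo
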