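import Pool.Agent.Full.Geo.Lab

/-!
# Labels along the boundary of a region of fine rectangles

`Fr.Ok.bd_cases` : classification of the boundary half edges;
`lab_step` : the label of the tail and of the head are equal, except at the marks and on the cut lines;
`lab_mark` : labels at the marks; `lab_dist` : a boundary half edge is near the coarse walls with its label.
-/

set_option autoImplicit false

namespace Full
open Function Relation

namespace Shape

/-- position of a tile of the two sheets -/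
def pz : ZT → ℤ × ℤ
  | .inl t => t
  | .inr t => t

/-- the coarse point of a tile -/
noncomputable def cpt (n : ℕ) (t : ℤ × ℤ) : ℂ := ⟨t.1 / n, t.2 / n⟩

end Shape

namespace Geo
open Full.Shape

section
variable {S : Shape} {F : Fr S} {m : S.Marks} {n : ℕ} {σ : Fin 4 → ℕ} {T : Finset (ℤ × ℤ)}
  (hS : S.Ok) (hm : m.Ok) (hσ : ∀ j, 4 * σ j ≤ n) (hF : F.Ok n) (hT : F.Reg T)

/-- the half edge is on a cut line -/
def Fr.Cut (F : Fr S) (n : ℕ) (x : Half (ℤ × ℤ)) : Prop :=
  ∃ q ∈ F.P, F.In q x.1 ∧ ((x.2 = .S ∧ x.1.2 = F.B q ∧ F.B q ≠ n * S.yb q) ∨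
    (x.2 = .N ∧ x.1.2 = F.U q - 1 ∧ F.U q ≠ n * S.yt q))

include hS hF hT in
/-- the boundary half edges -/
theorem bd_cases {x : Half (ℤ × ℤ)} (hx : Bd T (plane.glue T) x) (hc : ¬ F.Cut n x) :
    ∃ q ∈ F.P, F.In q x.1 ∧ ((∃ j, x = ((F.L q, j), .W)) ∨ (∃ j, x = ((F.R q - 1, j), .E)) ∨
      (∃ r i, q = .inl r ∧ F.B q = n * S.yb q ∧ F.Wl r false i ∧ x = ((i, F.B q), .S)) ∨
      (∃ r i, q = .inl r ∧ F.U q = n * S.yt q ∧ F.Wl r true i ∧ x = ((i, F.U q - 1), .N))) := by
  obtain ⟨⟨i, j⟩, d⟩ := x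
  obtain ⟨q, hq, hqt⟩ := (hT _).1 hx.1
  refine ⟨q, hq, hqt, ?_⟩
  cases d with
  | E =>
    rw [hF.bd_E hS hT hq hqt] at hx
    subst hx
    exact Or.inr (Or.inl ⟨j, rfl⟩)
  | W =>
    rw [hF.bd_W hS hT hq hqt] at hx
    subst hx
    exact Or.inl ⟨j, rfl⟩
  | N =>
    rw [hF.bd_N hS hT hq hqt] at hx
    obtain ⟨rfl, hx⟩ := hx
    have hU : F.U q = n * S.yt q := by
      by_contra hne
      exact hc ⟨q, hq, hqt, Or.inr ⟨rfl, rfl, hne⟩⟩
    refine Or.inr (Or.inr (Or.inr ?_))
    rcases q with r | k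
    · refine ⟨r, i, rfl, hU, ⟨hqt.1, fun k hk => ?_⟩, rfl⟩
      exact hx (.inr k) (hF.up _ _ hq (show S.On (.inl r) (.inr k) from hk) hU) hk
    · exfalso
      have h1 : S.On (.inr k) (.inl (S.up k)) := rfl
      have h2 := hx _ (hF.up _ _ hq h1 hU) h1
      have h3 := hF.in_up hS k
      have h4 := hqt.1
      dsimp only at h4
      omega
  | S =>
    rw [hF.bd_S hS hT hq hqt] at hx
    obtain ⟨rfl, hx⟩ := hx
    have hB : F.B q = n * S.yb q := by
      by_contra hne
      exact hc ⟨q, hq, hqt, Or.inl ⟨rfl, rfl, hne⟩⟩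
    refine Or.inr (Or.inr (Or.inl ?_))
    rcases q with r | k
    · refine ⟨r, i, rfl, hB, ⟨hqt.1, fun k hk => ?_⟩, rfl⟩
      exact hx (.inr k) (hF.dn _ _ hq (show S.On (.inr k) (.inl r) from hk) hB) hk
    · exfalso
      have h1 : S.On (.inl (S.dn k)) (.inr k) := rfl
      have h2 := hx _ (hF.dn _ _ hq h1 hB) h1
      have h3 := hF.in_dn hS k
      have h4 := hqt.1
      dsimp only at h4
      omega

lemma e_floor {j : Fin 4} (h : m.top j = false) :
    m.e n σ j = ((n * m.x j + σ j, n * S.yb (.inl (m.room j))), .S) := by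
  unfold Marks.e Marks.fy Marks.dir ft fb
  rw [h]
  rfl

lemma e_ceil {j : Fin 4} (h : m.top j = true) :
    m.e n σ j = ((n * m.x j + σ j, n * S.yt (.inl (m.room j)) - 1), .N) := by
  unfold Marks.e Marks.fy Marks.dir ft fb
  rw [h]
  rfl

include hS hm hσ hF hT in
/-- **the label changes at the marks only** -/
theorem lab_step {x : Half (ℤ × ℤ)} (hx : Bd T (plane.glue T) x) (hc : ¬ F.Cut n x)
    (hne : ∀ j, x ≠ m.e n σ j) : lab F m n σ (rho x) = lab F m n σ x := by
  have hn := hF.n8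
  obtain ⟨q, hq, hqt, h⟩ := bd_cases hS hF hT hx hc
  rcases h with ⟨j, rfl⟩ | ⟨j, rfl⟩ | ⟨r, i, rfl, hB, hw, rfl⟩ | ⟨r, i, rfl, hU, hw, rfl⟩
  · have h1 := lab_W (m := m) (σ := σ) hS hF hq hqt
    rw [h1.1, h1.2]
  · have h1 := lab_E (m := m) (σ := σ) hS hF hq hqt
    rw [h1.1, h1.2]
  · have h1 := lab_S (σ := σ) hS hm hn hF hq hw hB
    rw [h1.1, h1.2]
    refine labv_step hm hn hσ hF hw fun j hj1 hj2 hj3 => hne j ?_
    rw [e_floor hj2, hj1, ← hB, ← hj3]
  · have h1 := lab_N (σ := σ) hS hm hn hF hq hw hU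
    rw [h1.1, h1.2]
    refine (labv_step hm hn hσ hF hw fun j hj1 hj2 hj3 => hne j ?_).symm
    rw [e_ceil hj2, hj1, ← hU, ← hj3]

include hS hm hσ hF hT in
/-- the labels at the marks -/
theorem lab_mark (j : Fin 4) (hj : .inl (m.room j) ∈ F.P)
    (h0 : m.top j = false → F.B (.inl (m.room j)) = n * S.yb (.inl (m.room j)))
    (h1 : m.top j = true → F.U (.inl (m.room j)) = n * S.yt (.inl (m.room j))) :
    F.In (.inl (m.room j)) (m.e n σ j).1 ∧ Bd T (plane.glue T) (m.e n σ j) ∧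
      lab F m n σ (m.e n σ j) = j - 1 ∧ lab F m n σ (rho (m.e n σ j)) = j := by
  have hn := hF.n8
  have hw := mark_wl hm hn hσ hF j
  have hbu := hF.bu (.inl (m.room j))
  cases hb : m.top j
  · have hB := h0 hb
    rw [hb] at hw
    have h2 := lab_S (σ := σ) hS hm hn hF hj hw hB
    have h3 := labv_floor hm hn hσ hb
    have h4 : F.In (.inl (m.room j)) (n * m.x j + σ j, F.B (.inl (m.room j))) := ⟨hw.1, le_rfl, hbu⟩
    rw [e_floor hb, ← hB]
    refine ⟨h4, ?_, h2.1.trans h3.1, h2.2.trans h3.2⟩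
    rw [hF.bd_S hS hT hj h4]
    refine ⟨rfl, fun p _ hp => ?_⟩
    rcases on_cases hp with ⟨k, r, rfl, h, h5⟩ | ⟨k, r, rfl, h, h5⟩
    · exact absurd h (by simp)
    · obtain rfl := Sum.inl.inj h
      exact hw.2 k h5
  · have hU := h1 hb
    rw [hb] at hw
    have h2 := lab_N (σ := σ) hS hm hn hF hj hw hU
    have h3 := labv_ceil hm hn hσ hb
    have h4 : F.In (.inl (m.room j)) (n * m.x j + σ j, F.U (.inl (m.room j)) - 1) :=
      ⟨hw.1, by dsimp only; omega, by dsimp only; omega⟩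
    rw [e_ceil hb, ← hU]
    refine ⟨h4, ?_, h2.1.trans h3.1, h2.2.trans h3.2⟩
    rw [hF.bd_N hS hT hj h4]
    refine ⟨rfl, fun p _ hp => ?_⟩
    rcases on_cases hp with ⟨k, r, h, rfl, h5⟩ | ⟨k, r, h, rfl, h5⟩
    · obtain rfl := Sum.inl.inj h
      exact hw.2 k h5
    · exact absurd h (by simp)

/-! ### distances -/

lemma dist_le_of {a b : ℂ} {u v w : ℝ} (h1 : |a.re - b.re| ≤ u) (h2 : |a.im - b.im| ≤ v) (h : u + v ≤ w) :
    dist a b ≤ w := by
  rw [Complex.dist_eq]
  have h3 := Complex.norm_le_abs_re_add_abs_im (a - b)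
  rw [Complex.sub_re, Complex.sub_im] at h3
  linarith

include hS hm hF in
/-- a vertex of a horizontal wall is near the coarse walls with its label -/
theorem arc_near (h4 : ∀ q, 4 * F.L q ≤ 4 * (n * S.xl q) + n) (h4' : ∀ q, 4 * F.R q ≤ 4 * (n * S.xr q) + n + 4)
    {r : S.R} {b : Bool} {i a : ℤ} (hw : F.Wl r b i) (ha : a = i ∨ a = i + 1) :
    ∃ u : ℝ, |(i : ℝ) / n - u| ≤ 1 / 4 ∧
      (⟨u, ((if b then S.yt (.inl r) else S.yb (.inl r) : ℤ) : ℝ)⟩ : ℂ) ∈ m.arc (labv m n σ r b a) := by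
  have hn := hF.n8
  have hn' : (8 : ℝ) ≤ n := by exact_mod_cast hn
  have hn0 : (0 : ℝ) < n := by linarith
  obtain ⟨c1, c2⟩ := cell_spec hn a
  set x := a / (n : ℤ) with hx
  obtain ⟨⟨w1, w2⟩, w3⟩ := hw
  have e1 := hF.l1 (.inl r)
  have e2 := h4' (.inl r)
  have e3 := hF.r1 (.inl r)
  have hxl : S.xl (.inl r) ≤ x := by
    by_contra h
    have := mul_step (n := n) (not_le.1 h)
    omega
  have hxr : x ≤ S.xr (.inl r) := by
    by_contra h
    have := mul_step (n := n) (not_le.1 h)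
    omega
  rcases eq_or_lt_of_le hxr with hB | hxr'
  · -- right wall
    refine ⟨S.xr (.inl r), ?_, ?_⟩
    · rw [hB] at c1
      have g1 : -1 ≤ i - n * S.xr (.inl r) := by omega
      have g2 : 4 * (i - n * S.xr (.inl r)) ≤ n := by omega
      have g1' : (-1 : ℝ) ≤ i - n * S.xr (.inl r) := by exact_mod_cast g1
      have g2' : 4 * ((i : ℝ) - n * S.xr (.inl r)) ≤ n := by exact_mod_cast g2
      have g3 : (i : ℝ) / n - S.xr (.inl r) = (i - n * S.xr (.inl r)) / n := by field_simp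
      rw [g3, abs_le]
      constructor
      · rw [le_div_iff₀ hn0]; linarith
      · rw [div_le_iff₀ hn0]; linarith
    · have h5 : ∀ j, ¬ (m.room j = r ∧ m.top j = b ∧ m.x j = x) := by
        rintro j ⟨rfl, -, h3⟩
        have := hm.right j
        omega
      refine Or.inr (Or.inl ⟨.inl r, rfl, ?_, ?_⟩)
      · have hy := hS.y_lt (.inl r)
        have hy' : ((S.yb (.inl r) : ℤ) : ℝ) ≤ S.yt (.inl r) := by exact_mod_cast hy.le
        cases b
        · exact ⟨le_rfl, hy'⟩
        · exact ⟨hy', le_rfl⟩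
      · rw [labv_of_no hn c1 c2 h5, hm.same _ _ _ h5, hB, hm.lst]
  · by_cases hk : ∃ k, S.Att k r b ∧ x = S.xl (.inr k)
    · obtain ⟨k, hk, hxk⟩ := hk
      have f1 := h4 (.inr k)
      have f2 := hF.r1 (.inr k)
      have f3 := hS.x_lt (.inr k)
      have f4 := w3 k hk
      have f5 := mul_step (n := n) f3
      have f6 : a ≤ F.L (.inr k) := by
        rcases f4 with f4 | f4
        · omega
        · rw [hxk] at c2
          omega
      refine ⟨S.xl (.inr k), ?_, ?_⟩
      · rw [hxk] at c1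
        have g1 : -1 ≤ i - n * S.xl (.inr k) := by omega
        have g2 : 4 * (i - n * S.xl (.inr k)) ≤ n := by omega
        have g1' : (-1 : ℝ) ≤ i - n * S.xl (.inr k) := by exact_mod_cast g1
        have g2' : 4 * ((i : ℝ) - n * S.xl (.inr k)) ≤ n := by exact_mod_cast g2
        have g3 : (i : ℝ) / n - S.xl (.inr k) = (i - n * S.xl (.inr k)) / n := by field_simp
        rw [g3, abs_le]
        constructor
        · rw [le_div_iff₀ hn0]; linarith
        · rw [div_le_iff₀ hn0]; linarith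
      · have h5 : ∀ j, ¬ (m.room j = r ∧ m.top j = b ∧ m.x j = x) := by
          rintro j ⟨rfl, rfl, h3⟩
          have := hm.wall j k hk
          omega
        refine Or.inl ⟨.inr k, rfl, ?_, ?_⟩
        · have hy := hS.y_lt (.inr k)
          have hy' : ((S.yb (.inr k) : ℤ) : ℝ) ≤ S.yt (.inr k) := by exact_mod_cast hy.le
          cases b
          · have e : S.yt (.inr k) = S.yb (.inl r) := by
              have := hS.on_y (.inr k) (.inl (S.up k)) rfl
              rw [show S.up k = r from hk] at this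
              exact this
            rw [← e]
            exact ⟨hy', le_rfl⟩
          · have e : S.yt (.inl r) = S.yb (.inr k) := by
              have := hS.on_y (.inl (S.dn k)) (.inr k) rfl
              rw [show S.dn k = r from hk] at this
              exact this
            dsimp only [if_true]
            rw [if_pos rfl, e]
            exact ⟨le_rfl, hy'⟩
        · rw [labv_of_no hn c1 c2 h5, hm.same _ _ _ h5, hxk, hm.att_l _ _ _ hk]
    · -- a good cell
      push Not at hk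
      have hgood : ∀ k, S.Att k r b → x < S.xl (.inr k) ∨ S.xr (.inr k) ≤ x := by
        intro k hk'
        have f0 := hk k hk'
        have f1 := h4 (.inr k)
        have f2 := hF.r1 (.inr k)
        rcases w3 k hk' with f4 | f4
        · left
          have : x ≤ S.xl (.inr k) := by
            by_contra h
            have := mul_step (n := n) (not_le.1 h)
            omega
          omega
        · right
          by_contra h
          have := mul_step (n := n) (not_le.1 h)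
          omega
      refine ⟨(a : ℝ) / n, ?_, ?_⟩
      · have g3 : (i : ℝ) / n - a / n = ((i : ℝ) - a) / n := by ring
        have g4 : -1 ≤ i - a ∧ i - a ≤ 0 := by omega
        have g5 : (-1 : ℝ) ≤ i - a := by exact_mod_cast g4.1
        have g6 : (i : ℝ) - a ≤ 0 := by exact_mod_cast g4.2
        rw [g3, abs_le]
        constructor
        · rw [le_div_iff₀ hn0]; linarith
        · rw [div_le_iff₀ hn0]; linarith
      · refine Or.inr (Or.inr ⟨r, b, x, ⟨hxl, hxr'⟩, hgood, rfl, ⟨?_, ?_⟩, ?_⟩)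
        · show (x : ℝ) ≤ a / n
          rw [le_div_iff₀ hn0]
          have : (n : ℝ) * x ≤ a := by exact_mod_cast c1
          linarith
        · show (a : ℝ) / n ≤ x + 1
          rw [div_le_iff₀ hn0]
          have : (a : ℝ) < n * x + n := by exact_mod_cast c2
          linarith
        · unfold labv
          rw [← hx]
          split_ifs
          · exact Or.inr rfl
          · exact Or.inl rfl

include hS hm hF hT in
/-- **a boundary half edge is near the coarse walls with its label** -/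
theorem lab_dist (h4 : ∀ q, 4 * F.L q ≤ 4 * (n * S.xl q) + n) (h4' : ∀ q, 4 * F.R q ≤ 4 * (n * S.xr q) + n + 4)
    {x : Half (ℤ × ℤ)} (hx : Bd T (plane.glue T) x) (hc : ¬ F.Cut n x) :
    Metric.infDist (cpt n x.1) (m.arc (lab F m n σ x)) ≤ 1 / 2 := by
  have hn := hF.n8
  have hn' : (8 : ℝ) ≤ n := by exact_mod_cast hn
  have hn0 : (0 : ℝ) < n := by linarith
  obtain ⟨q, hq, hqt, h⟩ := bd_cases hS hF hT hx hc
  have hb1 := hF.b1 q
  have hu1 := hF.u1 q
  rcases h with ⟨j, rfl⟩ | ⟨j, rfl⟩ | ⟨r, i, rfl, hB, hw, rfl⟩ | ⟨r, i, rfl, hU, hw, rfl⟩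
  · rw [(lab_W (m := m) (σ := σ) hS hF hq hqt).1]
    have hj : F.B q ≤ j ∧ j < F.U q := hqt.2
    have hmem : (⟨S.xl q, (j : ℝ) / n⟩ : ℂ) ∈ m.arc (m.wl q) := by
      refine Or.inl ⟨q, rfl, ⟨?_, ?_⟩, rfl⟩
      · show (S.yb q : ℝ) ≤ j / n
        rw [le_div_iff₀ hn0]
        have : (n : ℝ) * S.yb q ≤ j := by exact_mod_cast hb1.trans hj.1
        linarith
      · show (j : ℝ) / n ≤ S.yt q
        rw [div_le_iff₀ hn0]
        have : (j : ℝ) ≤ n * S.yt q := by exact_mod_cast (hj.2.le.trans hu1)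
        linarith
    refine (Metric.infDist_le_dist_of_mem hmem).trans (dist_le_of (u := 1 / 4) (v := 0) ?_ ?_ (by norm_num))
    · show |((F.L q : ℤ) : ℝ) / n - S.xl q| ≤ 1 / 4
      have g1 : (n : ℝ) * S.xl q ≤ F.L q := by exact_mod_cast hF.l1 q
      have g2 : 4 * (F.L q : ℝ) ≤ 4 * (n * S.xl q) + n := by exact_mod_cast h4 q
      have g3 : (F.L q : ℝ) / n - S.xl q = (F.L q - n * S.xl q) / n := by field_simp
      rw [g3, abs_le]
      constructor
      · rw [le_div_iff₀ hn0]; linarith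
      · rw [div_le_iff₀ hn0]; linarith
    · show |(j : ℝ) / n - j / n| ≤ 0
      rw [sub_self, abs_zero]
  · rw [(lab_E (m := m) (σ := σ) hS hF hq hqt).1]
    have hj : F.B q ≤ j ∧ j < F.U q := hqt.2
    have hmem : (⟨S.xr q, (j : ℝ) / n⟩ : ℂ) ∈ m.arc (m.wr q) := by
      refine Or.inr (Or.inl ⟨q, rfl, ⟨?_, ?_⟩, rfl⟩)
      · show (S.yb q : ℝ) ≤ j / n
        rw [le_div_iff₀ hn0]
        have : (n : ℝ) * S.yb q ≤ j := by exact_mod_cast hb1.trans hj.1
        linarith
      · show (j : ℝ) / n ≤ S.yt q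
        rw [div_le_iff₀ hn0]
        have : (j : ℝ) ≤ n * S.yt q := by exact_mod_cast (hj.2.le.trans hu1)
        linarith
    refine (Metric.infDist_le_dist_of_mem hmem).trans (dist_le_of (u := 1 / 4) (v := 0) ?_ ?_ (by norm_num))
    · show |((F.R q - 1 : ℤ) : ℝ) / n - S.xr q| ≤ 1 / 4
      have g1 : (n : ℝ) * S.xr q ≤ F.R q := by exact_mod_cast hF.r1 q
      have g2 : 4 * (F.R q : ℝ) ≤ 4 * (n * S.xr q) + n + 4 := by exact_mod_cast h4' q
      have g3 : ((F.R q - 1 : ℤ) : ℝ) / n - S.xr q = (F.R q - 1 - n * S.xr q) / n := by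
        push_cast
        field_simp
      rw [g3, abs_le]
      constructor
      · rw [le_div_iff₀ hn0]; linarith
      · rw [div_le_iff₀ hn0]; linarith
    · show |(j : ℝ) / n - j / n| ≤ 0
      rw [sub_self, abs_zero]
  · rw [(lab_S (σ := σ) hS hm hn hF hq hw hB).1]
    obtain ⟨u, hu, hmem⟩ := arc_near (m := m) (σ := σ) hS hm hF h4 h4' hw (Or.inl rfl)
    refine (Metric.infDist_le_dist_of_mem hmem).trans (dist_le_of (v := 0) hu ?_ (by norm_num))
    show |((F.B (.inl r) : ℤ) : ℝ) / n - ((if false then S.yt (.inl r) else S.yb (.inl r) : ℤ) : ℝ)| ≤ 0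
    rw [hB]
    have : ((n * S.yb (.inl r) : ℤ) : ℝ) / n = S.yb (.inl r) := by push_cast; field_simp
    rw [this]
    simp
  · rw [(lab_N (σ := σ) hS hm hn hF hq hw hU).1]
    obtain ⟨u, hu, hmem⟩ := arc_near (m := m) (σ := σ) hS hm hF h4 h4' hw (Or.inr rfl)
    refine (Metric.infDist_le_dist_of_mem hmem).trans (dist_le_of (v := 1 / 8) hu ?_ (by norm_num))
    show |((F.U (.inl r) - 1 : ℤ) : ℝ) / n - ((if true then S.yt (.inl r) else S.yb (.inl r) : ℤ) : ℝ)| ≤ 1 / 8
    rw [hU]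
    have : ((n * S.yt (.inl r) - 1 : ℤ) : ℝ) / n - ((if true then S.yt (.inl r) else S.yb (.inl r) : ℤ) : ℝ)
        = - (1 / n) := by
      rw [if_pos rfl]
      push_cast
      field_simp
      ring
    rw [this, abs_neg, abs_of_nonneg (by positivity), div_le_div_iff₀ hn0 (by norm_num)]
    linarith

end

end Geo
end Full
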