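import Pool.Agent.Full.Geo.Fr

/-!
# Labels of the vertices of the horizontal walls

`labv m n σ r b i` : label of the vertex with the abscissa `i` on the ceiling (`b = true`) or the floor of
the row `r`; it changes at the marks only (`labv_step`) and fits at the corners.
-/

set_option autoImplicit false

namespace Full.Geo
open Function Relation Full Full.Shape

/-- the cell of a position -/
lemma cell_spec {n : ℕ} (hn : 8 ≤ n) (i : ℤ) : n * (i / n) ≤ i ∧ i < n * (i / n) + n := by
  have h0 : (0 : ℤ) < n := by omega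
  have h1 := Int.emod_add_mul_ediv i n
  have h2 := Int.emod_nonneg i h0.ne'
  have h3 := Int.emod_lt_of_pos i h0
  constructor <;> omega

lemma cell_eq {n : ℕ} (hn : 8 ≤ n) {i x : ℤ} (h1 : n * x ≤ i) (h2 : i < n * x + n) : i / n = x := by
  obtain ⟨h3, h4⟩ := cell_spec hn i
  rcases lt_trichotomy (i / n) x with h | h | h
  · have := mul_step (n := n) h; omega
  · exact h
  · have := mul_step (n := n) h; omega

section
variable {S : Shape} (m : S.Marks) (n : ℕ) (σ : Fin 4 → ℕ)

open Classical in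
/-- label of a vertex of a horizontal wall -/
noncomputable def labv (r : S.R) (b : Bool) (i : ℤ) : Fin 4 :=
  if ∃ j, m.room j = r ∧ m.top j = b ∧ m.x j = i / n ∧ n * m.x j + σ j < i then m.Lb r b (i / n)
  else m.La r b (i / n)

variable {m n σ} (hS : S.Ok) (hm : m.Ok) (hn : 8 ≤ n) (hσ : ∀ j, 4 * σ j ≤ n)

include hm in
/-- marks in the same cell are equal -/
theorem mark_uniq {j j' : Fin 4} (h1 : m.room j = m.room j') (h2 : m.top j = m.top j')
    (h3 : m.x j = m.x j') : j = j' := by
  cases hb : m.top j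
  · have h4 := (hm.floor j hb).2
    have h5 := (hm.floor j' (h2 ▸ hb)).2
    rw [h1, h3, h5] at h4
    exact h4.symm
  · have h4 := (hm.ceil j hb).2
    have h5 := (hm.ceil j' (h2 ▸ hb)).2
    rw [h1, h3, h5] at h4
    exact h4.symm

include hn in
theorem labv_of_no {r : S.R} {b : Bool} {i x : ℤ} (h1 : n * x ≤ i) (h2 : i < n * x + n)
    (h : ∀ j, ¬ (m.room j = r ∧ m.top j = b ∧ m.x j = x)) : labv m n σ r b i = m.La r b x := by
  have h3 := cell_eq hn h1 h2
  unfold labv
  rw [h3, if_neg]
  rintro ⟨j, h4, h5, h6, -⟩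
  exact h j ⟨h4, h5, h6⟩

include hn hm in
theorem labv_mark {j : Fin 4} {i : ℤ} (h1 : n * m.x j ≤ i) (h2 : i < n * m.x j + n) :
    labv m n σ (m.room j) (m.top j) i =
      if n * m.x j + σ j < i then m.Lb (m.room j) (m.top j) (m.x j) else m.La (m.room j) (m.top j) (m.x j) := by
  have h3 := cell_eq hn h1 h2
  unfold labv
  rw [h3]
  by_cases h4 : n * m.x j + σ j < i
  · rw [if_pos ⟨j, rfl, rfl, rfl, h4⟩, if_pos h4]
  · rw [if_neg, if_neg h4]
    rintro ⟨j', h5, h6, h7, h8⟩
    obtain rfl := mark_uniq hm h5 h6 h7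
    exact h4 h8

variable {F : Fr S} (hF : F.Ok n)

include hm hF hn in
theorem labv_l (r : S.R) (b : Bool) : labv m n σ r b (F.L (.inl r)) = m.wl (.inl r) := by
  have h1 := hF.l1 (.inl r)
  have h2 := hF.l2 (.inl r)
  rw [labv_of_no hn h1 (by omega), hm.fst]
  rintro j ⟨rfl, -, h3⟩
  have := hm.left j
  omega

include hm hF hn in
theorem labv_r (r : S.R) (b : Bool) : labv m n σ r b (F.R (.inl r)) = m.wr (.inl r) := by
  have h1 := hF.r1 (.inl r)
  have h2 := hF.r2 (.inl r)
  have h4 : ∀ j, ¬ (m.room j = r ∧ m.top j = b ∧ m.x j = S.xr (.inl r)) := by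
    rintro j ⟨rfl, -, h3⟩
    have := hm.right j
    omega
  rw [labv_of_no hn h1 (by omega) h4, hm.same _ _ _ h4, hm.lst]

include hm hF hn hS in
theorem labv_al {k : S.K} {r : S.R} {b : Bool} (h : S.Att k r b) :
    labv m n σ r b (F.L (.inr k)) = m.wl (.inr k) := by
  have h1 := hF.l1 (.inr k)
  have h2 := hF.l2 (.inr k)
  have h4 : ∀ j, ¬ (m.room j = r ∧ m.top j = b ∧ m.x j = S.xl (.inr k)) := by
    rintro j ⟨rfl, rfl, h3⟩
    have := hm.wall j k h
    have := hS.x_lt (.inr k)
    omega
  rw [labv_of_no hn h1 (by omega) h4, hm.same _ _ _ h4, hm.att_l _ _ _ h]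

include hm hF hn hS in
theorem labv_ar {k : S.K} {r : S.R} {b : Bool} (h : S.Att k r b) :
    labv m n σ r b (F.R (.inr k)) = m.wr (.inr k) := by
  have h1 := hF.r1 (.inr k)
  have h2 := hF.r2 (.inr k)
  have h4 : ∀ j, ¬ (m.room j = r ∧ m.top j = b ∧ m.x j = S.xr (.inr k)) := by
    rintro j ⟨rfl, rfl, h3⟩
    have := hm.wall j k h
    have := hS.x_lt (.inr k)
    omega
  rw [labv_of_no hn h1 (by omega) h4, hm.att_r _ _ _ h]

/-- the side of the tile with the abscissa `i` is on the ceiling (`b = true`) or on the floor of the row `r` -/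
def Fr.Wl (F : Fr S) (r : S.R) (b : Bool) (i : ℤ) : Prop :=
  (F.L (.inl r) ≤ i ∧ i < F.R (.inl r)) ∧ ∀ k, S.Att k r b → i < F.L (.inr k) ∨ F.R (.inr k) ≤ i

include hF hn in
theorem cell_good {r : S.R} {b : Bool} {i x : ℤ} (h : F.Wl r b i) (h3 : i + 1 = n * x + n) : (S.xl (.inl r) ≤ x ∧ x < S.xr (.inl r)) ∧
      ∀ k, S.Att k r b → x < S.xl (.inr k) ∨ S.xr (.inr k) ≤ x := by
  obtain ⟨⟨h4, h5⟩, h6⟩ := h
  have a1 := hF.l1 (.inl r)
  have a2 := hF.r2 (.inl r)
  refine ⟨⟨?_, ?_⟩, fun k hk => ?_⟩
  · by_contra h7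
    have := mul_step (n := n) (not_le.1 h7)
    omega
  · by_contra h7
    rcases eq_or_lt_of_le (not_lt.1 h7) with h8 | h8
    · rw [← h8] at h3
      omega
    · have := mul_step (n := n) h8
      omega
  · have b1 := hF.l2 (.inr k)
    have b2 := hF.r1 (.inr k)
    rcases h6 k hk with h7 | h7
    · left
      by_contra h8
      rcases eq_or_lt_of_le (not_lt.1 h8) with h9 | h9
      · rw [← h9] at h3
        omega
      · have := mul_step (n := n) h9
        omega
    · right
      by_contra h8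
      have := mul_step (n := n) (not_le.1 h8)
      omega

include hm hF hn hσ in
/-- **the label changes at the marks only** -/
theorem labv_step {r : S.R} {b : Bool} {i : ℤ} (h : F.Wl r b i)
    (hne : ∀ j, m.room j = r → m.top j = b → i ≠ n * m.x j + σ j) :
    labv m n σ r b (i + 1) = labv m n σ r b i := by
  obtain ⟨c1, c2⟩ := cell_spec hn i
  set x := i / (n : ℤ) with hx
  by_cases hlast : i + 1 = n * x + n
  · -- the next cell
    have hg := cell_good hn hF h hlast
    have e1 : labv m n σ r b i = m.Lb r b x := by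
      by_cases hmk : ∃ j, m.room j = r ∧ m.top j = b ∧ m.x j = x
      · obtain ⟨j, rfl, rfl, h3⟩ := hmk
        rw [← h3] at c1 c2 hlast ⊢
        have := hσ j
        rw [labv_mark hm hn c1 c2, if_pos (by omega)]
      · push Not at hmk
        have hmk' : ∀ j, ¬ (m.room j = r ∧ m.top j = b ∧ m.x j = x) := fun j hj => hmk j hj.1 hj.2.1 hj.2.2
        rw [labv_of_no hn c1 c2 hmk', hm.same _ _ _ hmk']
    have e3 : (n : ℤ) * (x + 1) = n * x + n := by ring
    have e2 : labv m n σ r b (i + 1) = m.La r b (x + 1) := by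
      by_cases hmk : ∃ j, m.room j = r ∧ m.top j = b ∧ m.x j = x + 1
      · obtain ⟨j, rfl, rfl, h3⟩ := hmk
        rw [← h3] at e3
        have e4 : labv m n σ (m.room j) (m.top j) (i + 1) = _ := labv_mark hm hn (by omega) (by omega)
        rw [e4, if_neg (by omega), h3]
      · push Not at hmk
        have hmk' : ∀ j, ¬ (m.room j = r ∧ m.top j = b ∧ m.x j = x + 1) :=
          fun j hj => hmk j hj.1 hj.2.1 hj.2.2
        exact labv_of_no hn (by omega) (by omega) hmk'
    rw [e1, e2, hm.step r b x hg.1.1 hg.1.2 hg.2]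
  · by_cases hmk : ∃ j, m.room j = r ∧ m.top j = b ∧ m.x j = x
    · obtain ⟨j, rfl, rfl, h3⟩ := hmk
      rw [← h3] at c1 c2 hlast
      have h4 := hne j rfl rfl
      rw [labv_mark hm hn c1 c2, labv_mark hm hn (by omega) (by omega)]
      by_cases h5 : n * m.x j + σ j < i
      · rw [if_pos h5, if_pos (by omega)]
      · rw [if_neg h5, if_neg (by omega)]
    · push Not at hmk
      have hmk' : ∀ j, ¬ (m.room j = r ∧ m.top j = b ∧ m.x j = x) := fun j hj => hmk j hj.1 hj.2.1 hj.2.2
      rw [labv_of_no hn c1 c2 hmk', labv_of_no hn (by omega) (by omega) hmk']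

/-! ### the marks -/

include hm hn hσ in
theorem labv_floor {j : Fin 4} (h : m.top j = false) :
    labv m n σ (m.room j) false (n * m.x j + σ j) = j - 1 ∧
      labv m n σ (m.room j) false (n * m.x j + σ j + 1) = j := by
  have h1 := hσ j
  have h2 := hm.floor j h
  rw [← h] at h2 ⊢
  rw [labv_mark hm hn (by omega) (by omega), labv_mark hm hn (by omega) (by omega), if_neg (by omega),
    if_pos (by omega)]
  exact h2

include hm hn hσ in
theorem labv_ceil {j : Fin 4} (h : m.top j = true) :
    labv m n σ (m.room j) true (n * m.x j + σ j + 1) = j - 1 ∧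
      labv m n σ (m.room j) true (n * m.x j + σ j) = j := by
  have h1 := hσ j
  have h2 := hm.ceil j h
  rw [← h] at h2 ⊢
  rw [labv_mark hm hn (by omega) (by omega), labv_mark hm hn (by omega) (by omega), if_pos (by omega),
    if_neg (by omega)]
  exact h2

include hm hF hn hσ in
/-- the marks are on the walls -/
theorem mark_wl (j : Fin 4) : F.Wl (m.room j) (m.top j) (n * m.x j + σ j) := by
  have h1 := hσ j
  have h2 := mul_step (n := n) (hm.left j)
  have h3 := mul_step (n := n) (hm.right j)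
  have h3' : (n : ℤ) * (m.x j + 1) = n * m.x j + n := by ring
  have h4 := hF.l2 (.inl (m.room j))
  have h5 := hF.r1 (.inl (m.room j))
  refine ⟨⟨by omega, by omega⟩, fun k hk => ?_⟩
  have h6 := hF.l1 (.inr k)
  have h7 := hF.r2 (.inr k)
  rcases hm.wall j k hk with h | h
  · have h8 := mul_step (n := n) h
    left; omega
  · have h8 := mul_step (n := n) h
    right; omega

end

end Full.Geo
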