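import Pool.Agent.Full.Geo.Mid

/-!
# The last move, to the ceiling

The two-sheet domain of the end `(x, y)` in the room `k` becomes a plane region if one column is inserted
in the upper part of the room `k` and the rooms `R` attached to the ceiling on the right are moved by one
column.
-/

set_option autoImplicit false

namespace Full.Geo
open Function Full.Loc

variable {Q : Type*}

/-- `R` is the part of the domain attached to the ceiling of the room `k` on the right of the column `x` -/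
structure Cei (adj : Q → Q → Prop) (X : Bxs Q) (k : Q) (lo : Q → Prop) (x y : ℤ) (R : Q → Prop) : Prop
    extends Mid X k x y where
  yb2 : X.b k + 1 < y
  rk : ¬ R k
  rup : ∀ u, R u → ¬ lo u
  rr : ∀ {u v}, adj u v → u ≠ k → v ≠ k → (R u ↔ R v)
  ce : ∀ {u}, adj k u → (R u ∧ x + 2 < X.l u) ∨ (¬ R u ∧ X.r u ≤ x - 2)

open Classical in
/-- the coordinates after the last move -/
noncomputable def Bxs.up (X : Bxs Q) (k : Q) (R : Q → Prop) : Bxs Q where
  l u := X.l u + if R u then 1 else 0
  r u := X.r u + if R u ∨ u = k then 1 else 0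
  b := X.b
  t := X.t

open Classical in
/-- the place after the last move -/
noncomputable def cvC (x y : ℤ) (k : Q) (R : Q → Prop) (v : Q × ℤ × ℤ) : Q × ℤ × ℤ :=
  (v.1, v.2.1 + (if R v.1 ∨ (v.1 = k ∧ y ≤ v.2.2 ∧ x ≤ v.2.1) then 1 else 0), v.2.2)

/-- places of the window -/
def WinC (k : Q) (x y : ℤ) (v : Q × ℤ × ℤ) : Prop :=
  v.1 = k ∧ y - 1 ≤ v.2.2 ∧ x - 1 ≤ v.2.1 ∧ (v.2.1 ≤ x ∨ (v.2.1 = x + 1 ∧ v.2.2 < y))

/-- places of the window after the last move -/
def WinC' (k : Q) (x y : ℤ) (v : Q × ℤ × ℤ) : Prop :=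
  v.1 = k ∧ y - 1 ≤ v.2.2 ∧ x - 1 ≤ v.2.1 ∧ v.2.1 ≤ x + 1

open Classical in
/-- the identification -/
noncomputable def mvC (X : Bxs Q) (k : Q) (lo : Q → Prop) (x y : ℤ) (R : Q → Prop) (τ : ZT) : ℤ × ℤ :=
  if h : ∃ v, Val X k y v ∧ tl lo k y v = τ then (cvC x y k R h.choose).2 else τ.elim id id

/-- the window -/
noncomputable def winLC (X : Bxs Q) (k : Q) (x y : ℤ) : Finset ZT :=
  (box (x - 1) (x + 2) (y - 1) y).disjSum (box (x - 1) (x + 1) y (X.t k))

/-- the window after the last move -/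
noncomputable def winLC' (X : Bxs Q) (k : Q) (x y : ℤ) : Finset (ℤ × ℤ) :=
  box (x - 1) (x + 2) (y - 1) (X.t k)

namespace Cei
variable {adj : Q → Q → Prop} {X : Bxs Q} {k : Q} {lo : Q → Prop} {x y : ℤ} {R : Q → Prop}

lemma mvC_tl (hX : Good adj X) {v : Q × ℤ × ℤ} (hv : Val X k y v) :
    mvC X k lo x y R (tl lo k y v) = (cvC x y k R v).2 := by
  classical
  unfold mvC
  have h : ∃ w, Val X k y w ∧ tl lo k y w = tl lo k y v := ⟨v, hv, rfl⟩
  rw [dif_pos h]
  rw [tl_inj hX h.choose_spec.1 hv h.choose_spec.2]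

variable (hF : Cei adj X k lo x y R) (hC : Cut adj k lo)
include hF

lemma below (hC : Cut adj k lo) {u : Q} (h : adj u k) : ¬ R u := fun h1 => hF.rup _ h1 (hC.below h)

lemma ne_ce {u : Q} (h : adj k u) : u ≠ k := by
  rintro rfl
  have e1 := hF.lx
  have e2 := hF.rx
  rcases hF.ce h with ⟨-, h1⟩ | ⟨-, h1⟩ <;> omega

lemma tl_mem_winLC (hX : Good adj X) (hC : Cut adj k lo) {v : Q × ℤ × ℤ} (hv : Val X k y v) :
    tl lo k y v ∈ winLC X k x y ↔ WinC k x y v := by
  have e1 := hF.lx
  have e2 := hF.rx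
  have e3 := hF.yt
  have e4 := hF.yb
  constructor
  · intro h
    unfold winLC at h
    rw [Finset.mem_disjSum] at h
    rcases h with ⟨⟨i, j⟩, h1, h2⟩ | ⟨⟨i, j⟩, h1, h2⟩
    · rw [mem_box] at h1
      have h3 : Val X k y (k, i, j) :=
        ⟨by simp only; omega, by simp only; omega, by simp only; omega, Or.inl (by simp only; omega)⟩
      have h4 : tl lo k y (k, i, j) = .inl (i, j) := tl_lo (Or.inr ⟨rfl, h1.2.2⟩)
      have h5 := tl_inj hX hv h3 (h2.symm.trans h4.symm)
      rw [h5]
      refine ⟨rfl, h1.2.1, h1.1.1, ?_⟩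
      simp only
      omega
    · rw [mem_box] at h1
      have h3 : Val X k y (k, i, j) :=
        ⟨by simp only; omega, by simp only; omega, h1.2.2, Or.inl (by simp only; omega)⟩
      have h4 : tl lo k y (k, i, j) = .inr (i, j) := by
        refine tl_up ?_
        rintro (h5 | h5)
        · exact hC.self h5
        · omega
      have h5 := tl_inj hX hv h3 (h2.symm.trans h4.symm)
      rw [h5]
      refine ⟨rfl, by simp only; omega, h1.1.1, Or.inl (by simp only; omega)⟩
  · obtain ⟨u, i, j⟩ := v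
    rintro ⟨h1, h2, h3, h4⟩
    have h5 := hv.2.2.1
    simp only at h1 h2 h3 h4 h5
    subst h1
    unfold winLC
    rcases lt_or_ge j y with h6 | h6
    · rw [tl_lo (Or.inr ⟨rfl, h6⟩), Finset.inl_mem_disjSum, mem_box]
      exact ⟨⟨h3, by omega⟩, h2, h6⟩
    · rw [tl_up (by rintro (h7 | h7); exacts [hC.self h7, by omega]), Finset.inr_mem_disjSum, mem_box]
      exact ⟨⟨h3, by omega⟩, h6, h5⟩

lemma mem_winLC' (hX' : Good adj (X.up k R)) {v : Q × ℤ × ℤ} (hv : Val1 (X.up k R) v) :
    v.2 ∈ winLC' X k x y ↔ WinC' k x y v := by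
  have e1 := hF.lx
  have e2 := hF.rx
  have e3 := hF.yt
  have e4 := hF.rk
  have e5 := hF.yb
  constructor
  · intro h
    obtain ⟨u, i, j⟩ := v
    unfold winLC' at h
    rw [mem_box] at h
    have h3 : Val1 (X.up k R) (k, i, j) := by
      unfold Val1 Bxs.up
      simp only [e4, if_false, or_true, if_true]
      exact ⟨by omega, by omega, by omega, h.2.2⟩
    have h5 := inj1 hX' hv h3 rfl
    have h6 : u = k := congrArg (fun w : Q × ℤ × ℤ => w.1) h5
    exact ⟨h6, h.2.1, h.1.1, by simp only; omega⟩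
  · obtain ⟨u, i, j⟩ := v
    rintro ⟨h1, h2, h3, h4⟩
    have h5 := hv.2.2.2
    simp only [Bxs.up] at h1 h2 h3 h4 h5
    subst h1
    unfold winLC'
    rw [mem_box]
    exact ⟨⟨h3, by omega⟩, h2, h5⟩

theorem cv_val {v : Q × ℤ × ℤ} (h : Val X k y v) : Val1 (X.up k R) (cvC x y k R v) := by
  classical
  obtain ⟨u, i, j⟩ := v
  obtain ⟨h1, h2, h3, h4⟩ := h
  simp only at h1 h2 h3 h4
  have e1 := hF.lx
  have e2 := hF.rx
  have e4 := hF.rk
  unfold Val1 cvC Bxs.up
  simp only
  by_cases hk : u = k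
  · subst hk
    simp only [e4, if_false, false_or, true_and, if_true]
    split_ifs with hc
    · exact ⟨by omega, by omega, h2, h3⟩
    · refine ⟨by omega, ?_, h2, h3⟩
      omega
  · have h4 := h4.resolve_right fun h => hk h.1
    simp only [hk, false_and, or_false]
    split_ifs
    · exact ⟨by omega, by omega, h2, h3⟩
    · exact ⟨by omega, by omega, h2, h3⟩

theorem win_cv {v : Q × ℤ × ℤ} : WinC' k x y (cvC x y k R v) ↔ WinC k x y v := by
  classical
  obtain ⟨u, i, j⟩ := v
  have e4 := hF.rk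
  unfold WinC WinC' cvC
  simp only
  by_cases hk : u = k
  · subst hk
    simp only [e4, false_or, true_and]
    split_ifs with hc
    · omega
    · omega
  · simp only [hk, false_and]

omit hF in
theorem cv_inj {v w : Q × ℤ × ℤ} (h : cvC x y k R v = cvC x y k R w) : v = w := by
  classical
  obtain ⟨u, i, j⟩ := v
  obtain ⟨u', i', j'⟩ := w
  unfold cvC at h
  have h1 : u = u' := congrArg (fun w : Q × ℤ × ℤ => w.1) h
  have h3 : j = j' := congrArg (fun w : Q × ℤ × ℤ => w.2.2) h
  subst h1
  subst h3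
  have h2 := congrArg (fun w : Q × ℤ × ℤ => w.2.1) h
  simp only at h2
  have : i = i' := by
    by_cases hR : R u
    · simp only [hR, true_or, if_true] at h2
      omega
    · by_cases hk : u = k
      · subst hk
        simp only [hR, false_or, true_and] at h2
        split_ifs at h2 <;> omega
      · simp only [hR, hk, false_and, or_false, if_false] at h2
        omega
  rw [this]

/-- every place of the plane region outside the window comes from a place -/
theorem exists_cv {v : Q × ℤ × ℤ} (h : Val1 (X.up k R) v) (hW : ¬ WinC' k x y v) :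
    ∃ w, Val X k y w ∧ cvC x y k R w = v := by
  classical
  obtain ⟨u, i, j⟩ := v
  obtain ⟨h1, h2, h3, h4⟩ := h
  have e1 := hF.lx
  have e2 := hF.rx
  have e4 := hF.rk
  unfold Bxs.up at h1 h2 h3 h4
  unfold WinC' at hW
  simp only at h1 h2 h3 h4 hW
  by_cases hk : u = k
  · subst hk
    simp only [e4, if_false, or_true, if_true, true_and] at h1 h2 hW
    by_cases hc : y ≤ j ∧ x < i
    · refine ⟨(u, i - 1, j), ⟨by simp only; omega, h3, h4, Or.inl (by simp only; omega)⟩, ?_⟩
      unfold cvC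
      simp only [e4, false_or, true_and]
      rw [if_pos ⟨hc.1, by omega⟩]
      ext <;> simp
    · refine ⟨(u, i, j), ⟨by simp only; omega, h3, h4, ?_⟩, ?_⟩
      · simp only [true_and]
        omega
      · unfold cvC
        simp only [e4, false_or, true_and]
        rw [if_neg (by omega)]
        ext <;> simp
  · by_cases hR : R u
    · simp only [hR, true_or, if_true] at h1 h2
      refine ⟨(u, i - 1, j), ⟨by simp only; omega, h3, h4, Or.inl (by simp only; omega)⟩, ?_⟩
      unfold cvC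
      simp only [hR, true_or, if_true]
      ext <;> simp
    · simp only [hR, hk, or_false, if_false] at h1 h2
      refine ⟨(u, i, j), ⟨by simp only; omega, h3, h4, Or.inl (by simp only; omega)⟩, ?_⟩
      unfold cvC
      simp only [hR, hk, false_or, false_and, if_false]
      ext <;> simp

theorem fwdE {v w : Q × ℤ × ℤ} (h : AdjE v w) (hW : ¬ WinC k x y v ∨ ¬ WinC k x y w) :
    AdjE (cvC x y k R v) (cvC x y k R w) := by
  classical
  obtain ⟨u, i, j⟩ := v
  obtain ⟨u', i', j'⟩ := w
  obtain ⟨rfl, rfl, rfl⟩ : u' = u ∧ i' = i + 1 ∧ j' = j := h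
  have e4 := hF.rk
  unfold AdjE cvC
  unfold WinC at hW
  simp only at hW ⊢
  refine ⟨trivial, ?_, trivial⟩
  by_cases hk : u' = k
  · subst hk
    simp only [e4, false_or, true_and] at hW ⊢
    split_ifs <;> omega
  · simp only [hk, false_and, or_false]
    omega

theorem fwdN (hC : Cut adj k lo) {v w : Q × ℤ × ℤ} (hv : Val X k y v) (hw : Val X k y w)
    (h : AdjN adj X k x y v w) : AdjN1 adj (X.up k R) (cvC x y k R v) (cvC x y k R w) := by
  classical
  obtain ⟨u, i, j⟩ := v
  obtain ⟨u', i', j'⟩ := w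
  obtain ⟨h1, h2, h3, h4⟩ := hv
  obtain ⟨h1', h2', h3', h4'⟩ := hw
  simp only at h1 h2 h3 h4 h1' h2' h3' h4'
  have e4 := hF.rk
  have e5 := hF.yb
  have e6 := hF.yt
  unfold AdjN1 cvC Bxs.up
  unfold AdjN at h
  simp only at h ⊢
  rcases h with ⟨g1, g2, g3⟩ | ⟨g1, g2, g3, g4⟩
  · left
    subst g1
    refine ⟨rfl, g2, ?_⟩
    by_cases hk : u' = k
    · subst hk
      simp only [e4, false_or, true_and] at g3 ⊢
      rcases g3 with ⟨g3, g4⟩ | ⟨g3, g4⟩
      · subst g4
        split_ifs <;> omega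
      · split_ifs <;> omega
    · simp only [hk, false_and, or_false, not_false_eq_true, true_and] at g3 ⊢
      omega
  · right
    refine ⟨g1, g2, g3, ?_⟩
    subst g4
    by_cases hk : u' = k
    · subst hk
      have g5 := hF.below hC g1
      have hu : u ≠ u' := by
        rintro rfl
        exact hF.ne_ce g1 rfl
      simp only [e4, g5, hu, false_or, false_and, true_and, if_false]
      rw [if_neg]
      omega
    · by_cases hk' : u = k
      · subst hk'
        rcases hF.ce g1 with ⟨g5, g6⟩ | ⟨g5, g6⟩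
        · simp only [e4, g5, false_or, true_or, true_and, if_true]
          rw [if_pos ⟨by omega, by omega⟩]
        · simp only [e4, g5, hk, false_or, false_and, true_and, if_false]
          have h4' := h4'.resolve_right fun h => hk h.1
          rw [if_neg]
          omega
      · have g5 := hF.rr g1 hk' hk
        simp only [g5, hk, hk', false_and, or_false]

theorem bwdE {v w' : Q × ℤ × ℤ} (hv : Val X k y v) (hW : ¬ WinC k x y v)
    (hw' : Val1 (X.up k R) w') (h : AdjE (cvC x y k R v) w') : ∃ w, Val X k y w ∧ AdjE v w := by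
  classical
  obtain ⟨u, i, j⟩ := v
  obtain ⟨u', i', j'⟩ := w'
  obtain ⟨h1, h2, h3, h4⟩ := hv
  obtain ⟨h1', h2', h3', h4'⟩ := hw'
  have e1 := hF.lx
  have e2 := hF.rx
  have e4 := hF.rk
  unfold AdjE cvC at h
  unfold WinC at hW
  simp only at h1 h2 h3 h4 h hW
  obtain ⟨rfl, g2, rfl⟩ := h
  refine ⟨(u', i + 1, j'), ⟨by simp only; omega, h2, h3, ?_⟩, rfl, rfl, rfl⟩
  unfold Bxs.up at h1' h2' h3' h4'
  simp only at h1' h2' h3' h4' ⊢
  by_cases hk : u' = k
  · subst hk
    simp only [e4, false_or, or_true, true_and, if_false, if_true] at hW g2 h1' h2' ⊢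
    split_ifs at g2 <;> omega
  · left
    have h4 := h4.resolve_right fun h => hk h.1
    simp only [hk, false_and, or_false] at g2 h2'
    split_ifs at g2 h2' <;> omega

theorem bwdW {v w' : Q × ℤ × ℤ} (hv : Val X k y v) (hW : ¬ WinC k x y v)
    (hw' : Val1 (X.up k R) w') (h : AdjE w' (cvC x y k R v)) : ∃ w, Val X k y w ∧ AdjE w v := by
  classical
  obtain ⟨u, i, j⟩ := v
  obtain ⟨u', i', j'⟩ := w'
  obtain ⟨h1, h2, h3, h4⟩ := hv
  obtain ⟨h1', h2', h3', h4'⟩ := hw'
  have e1 := hF.lx
  have e2 := hF.rx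
  have e4 := hF.rk
  unfold AdjE cvC at h
  unfold WinC at hW
  simp only at h1 h2 h3 h4 h hW
  obtain ⟨rfl, g2, rfl⟩ := h
  refine ⟨(u, i - 1, j), ⟨?_, h2, h3, ?_⟩, rfl, by simp only; omega, rfl⟩
  · unfold Bxs.up at h1' h2' h3' h4'
    simp only at h1' h2' h3' h4' ⊢
    by_cases hk : u = k
    · subst hk
      simp only [e4, false_or, true_and, if_false] at hW g2 h1' h2' ⊢
      split_ifs at g2 <;> omega
    · simp only [hk, false_and, or_false] at g2
      split_ifs at g2 h1' <;> omega
  · left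
    simp only
    omega

theorem bwdN (hX : Good adj X) (hC : Cut adj k lo) {v w' : Q × ℤ × ℤ} (hv : Val X k y v)
    (hW : ¬ WinC k x y v) (hw' : Val1 (X.up k R) w') (h : AdjN1 adj (X.up k R) (cvC x y k R v) w') :
    ∃ w, Val X k y w ∧ AdjN adj X k x y v w := by
  classical
  obtain ⟨u, i, j⟩ := v
  obtain ⟨u', i', j'⟩ := w'
  obtain ⟨h1, h2, h3, h4⟩ := hv
  obtain ⟨h1', h2', h3', h4'⟩ := hw'
  have e1 := hF.lx
  have e2 := hF.rx
  have e4 := hF.rk
  have e5 := hF.yb
  have e6 := hF.yt
  unfold AdjN1 cvC at h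
  unfold WinC at hW
  unfold Bxs.up at h h1' h2' h3' h4'
  simp only at h1 h2 h3 h4 h hW h1' h2' h3' h4'
  rcases h with ⟨g1, g2, g3⟩ | ⟨g1, g2, g3, g4⟩
  · subst g1
    subst g2
    by_cases hk : u' = k
    · subst hk
      simp only [true_and] at hW h4
      by_cases hj : j + 1 = y
      · rcases lt_or_ge i x with hi | hi
        · refine ⟨(u', i, j + 1), ⟨h1, by simp only; omega, by simp only; omega, Or.inl (by simp only; omega)⟩,
            Or.inl ⟨rfl, rfl, Or.inr ⟨rfl, hj, Or.inl ⟨hi, rfl⟩⟩⟩⟩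
        · refine ⟨(u', i - 1, j + 1), ⟨by simp only; omega, by simp only; omega, by simp only; omega,
            Or.inl (by simp only; omega)⟩, Or.inl ⟨rfl, rfl, Or.inr ⟨rfl, hj, Or.inr ⟨?_, rfl⟩⟩⟩⟩
          simp only
          omega
      · refine ⟨(u', i, j + 1), ⟨h1, by simp only; omega, by simp only; omega, ?_⟩,
            Or.inl ⟨rfl, rfl, Or.inl ⟨fun h => hj h.2, rfl⟩⟩⟩
        simp only [true_and]
        omega
    · have h4 := h4.resolve_right fun h => hk h.1
      exact ⟨(u', i, j + 1), ⟨h1, by simp only; omega, h4', Or.inl h4⟩,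
            Or.inl ⟨rfl, rfl, Or.inl ⟨fun h => hk h.1, rfl⟩⟩⟩
  · have htt := hX.touch g1
    refine ⟨(u', i, X.b u'), ⟨?_, le_rfl, by simp only; omega, ?_⟩, Or.inr ⟨g1, g2, rfl, rfl⟩⟩
    · simp only
      by_cases hk : u' = k
      · subst hk
        have g5 := hF.below hC g1
        have hu : u ≠ u' := by
          rintro rfl
          exact hF.ne_ce g1 rfl
        simp only [e4, g5, hu, false_or, false_and, if_false] at g4 h1'
        omega
      · by_cases hk' : u = k
        · subst hk'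
          rcases hF.ce g1 with ⟨g5, g6⟩ | ⟨g5, g6⟩
          · simp only [e4, g5, false_or, true_and, if_true] at g4 h1'
            split_ifs at g4 <;> omega
          · simp only [e4, g5, false_or, true_and, if_false] at g4 h1'
            split_ifs at g4 <;> omega
        · have g5 := hF.rr g1 hk' hk
          simp only [g5, hk', false_and, or_false] at g4 h1'
          omega
    · simp only
      by_cases hk : u' = k
      · subst hk
        have g5 := hF.below hC g1
        have hu : u ≠ u' := by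
          rintro rfl
          exact hF.ne_ce g1 rfl
        simp only [e4, g5, hu, false_or, or_true, false_and, if_false, if_true] at g4 h2'
        simp only [true_and]
        omega
      · left
        by_cases hk' : u = k
        · subst hk'
          simp only [true_and] at hW h4
          rcases hF.ce g1 with ⟨g5, g6⟩ | ⟨g5, g6⟩
          · simp only [e4, g5, hk, false_or, true_and, true_or, if_true] at g4 h1' h2'
            split_ifs at g4 <;> omega
          · simp only [e4, g5, hk, false_or, true_and, if_false] at g4 h1' h2'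
            split_ifs at g4 <;> omega
        · have g5 := hF.rr g1 hk' hk
          simp only [g5, hk, hk', false_and, or_false] at g4 h2'
          omega

theorem bwdS (hX : Good adj X) (hC : Cut adj k lo) {v w' : Q × ℤ × ℤ} (hv : Val X k y v)
    (hW : ¬ WinC k x y v) (hw' : Val1 (X.up k R) w')
    (h : AdjN1 adj (X.up k R) w' (cvC x y k R v)) : ∃ w, Val X k y w ∧ AdjN adj X k x y w v := by
  classical
  obtain ⟨u, i, j⟩ := v
  obtain ⟨u', i', j'⟩ := w'
  obtain ⟨h1, h2, h3, h4⟩ := hv
  obtain ⟨h1', h2', h3', h4'⟩ := hw'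
  have e1 := hF.lx
  have e2 := hF.rx
  have e4 := hF.rk
  have e5 := hF.yb
  have e6 := hF.yt
  unfold AdjN1 cvC at h
  unfold WinC at hW
  unfold Bxs.up at h h1' h2' h3' h4'
  simp only at h1 h2 h3 h4 h h1' h2' h3' h4' hW
  rcases h with ⟨g1, g2, g3⟩ | ⟨g1, g2, g3, g4⟩
  · subst g1
    subst g2
    by_cases hk : u = k
    · subst hk
      simp only [true_and] at hW h4
      by_cases hj : j' + 1 = y
      · rcases lt_or_ge i x with hi | hi
        · exact ⟨(u, i, j'), ⟨h1, h3', by simp only; omega, Or.inl (by simp only; omega)⟩,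
            Or.inl ⟨rfl, rfl, Or.inr ⟨rfl, hj, Or.inl ⟨hi, rfl⟩⟩⟩⟩
        · refine ⟨(u, i + 1, j'), ⟨by simp only; omega, h3', by simp only; omega, ?_⟩,
            Or.inl ⟨rfl, rfl, Or.inr ⟨rfl, hj, Or.inr ⟨by simp only; omega, by simp only; omega⟩⟩⟩⟩
          simp only [true_and]
          omega
      · refine ⟨(u, i, j'), ⟨h1, h3', by simp only; omega, ?_⟩,
            Or.inl ⟨rfl, rfl, Or.inl ⟨fun h => hj h.2, rfl⟩⟩⟩
        simp only [true_and]
        omega
    · have h4 := h4.resolve_right fun h => hk h.1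
      exact ⟨(u, i, j'), ⟨h1, h3', h4', Or.inl h4⟩,
            Or.inl ⟨rfl, rfl, Or.inl ⟨fun h => hk h.1, rfl⟩⟩⟩
  · have htt := hX.touch g1
    have hne : u' ≠ u := by
      rintro rfl
      have := hX.bt u'
      omega
    refine ⟨(u', i, j'), ⟨?_, h3', h4', ?_⟩, Or.inr ⟨g1, g2, g3, rfl⟩⟩
    · simp only
      by_cases hk : u = k
      · subst hk
        have g5 := hF.below hC g1
        simp only [e4, g5, false_or, true_and, if_false] at g4 h1'
        rw [if_neg (by omega)] at g4
        omega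
      · by_cases hk' : u' = k
        · subst hk'
          rcases hF.ce g1 with ⟨g5, g6⟩ | ⟨g5, g6⟩
          · omega
          · simp only [e4, g5, hk, false_or, false_and, if_false] at g4 h1'
            omega
        · have g5 := hF.rr g1 hk' hk
          simp only [g5, hk, false_and, or_false] at g4 h1'
          omega
    · simp only
      by_cases hk : u = k
      · subst hk
        left
        have g5 := hF.below hC g1
        simp only [e4, g5, hne, false_or, true_and, if_false] at g4 h2'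
        rw [if_neg (by omega)] at g4
        omega
      · left
        by_cases hk' : u' = k
        · subst hk'
          have h4 := h4.resolve_right fun h => hk h.1
          rcases hF.ce g1 with ⟨g5, g6⟩ | ⟨g5, g6⟩
          · simp only [e4, g5, true_or, or_true, if_true] at g4 h2'
            omega
          · omega
        · have g5 := hF.rr g1 hk' hk
          simp only [g5, hk, hk', false_and, or_false] at g4 h2'
          omega

/-- neighbours outside the window are mapped to neighbours -/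
theorem fwd (hC : Cut adj k lo) {v w : Q × ℤ × ℤ} (hv : Val X k y v) (hw : Val X k y w) (d : Dir)
    (h : AdjD adj X k x y d v w) (hW : ¬ WinC k x y v) :
    AdjD1 adj (X.up k R) d (cvC x y k R v) (cvC x y k R w) := by
  cases d
  · exact hF.fwdE h (Or.inl hW)
  · exact hF.fwdN hC hv hw h
  · exact hF.fwdE h (Or.inr hW)
  · exact hF.fwdN hC hw hv h

theorem bwd (hX : Good adj X) (hC : Cut adj k lo) {v w' : Q × ℤ × ℤ} (hv : Val X k y v)
    (hw' : Val1 (X.up k R) w') (d : Dir) (h : AdjD1 adj (X.up k R) d (cvC x y k R v) w')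
    (hW : ¬ WinC k x y v) : ∃ w, Val X k y w ∧ AdjD adj X k x y d v w := by
  cases d
  · exact hF.bwdE hv hW hw' h
  · exact hF.bwdN hX hC hv hW hw' h
  · exact hF.bwdW hv hW hw' h
  · exact hF.bwdS hX hC hv hW hw' h

variable {T : Finset ZT} {g : Half ZT → Half ZT} {T' : Finset (ℤ × ℤ)}
  {g' : Half (ℤ × ℤ) → Half (ℤ × ℤ)}

/-- **the last move**: the two domains are the same outside the window -/
theorem same (hX : Good adj X) (hX' : Good adj (X.up k R)) (hC : Cut adj k lo)
    (hD : Dom2 X k lo x y T g) (hD' : Dom1 (X.up k R) T' g') :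
    Same T g (winLC X k x y) T' g' (winLC' X k x y) (mvC X k lo x y R) := by
  classical
  have hb := hF.yb
  have ht := hF.yt
  have e1 := hF.lx
  have e2 := hF.rx
  have e4 := hF.rk
  set B := winLC X k x y with hB
  set B' := winLC' X k x y with hB'
  set φ := mvC X k lo x y R with hφ
  have hsub : B ⊆ T := by
    intro τ hτ
    rw [hB] at hτ
    unfold winLC at hτ
    rw [Finset.mem_disjSum] at hτ
    rcases hτ with ⟨⟨i, j⟩, h1, rfl⟩ | ⟨⟨i, j⟩, h1, rfl⟩
    · rw [mem_box] at h1
      rw [← tl_lo (lo := lo) (u := k) (i := i) (j := j) (Or.inr ⟨rfl, h1.2.2⟩)]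
      exact hD.mem_tl ⟨by simp only; omega, by simp only; omega, by simp only; omega,
        Or.inl (by simp only; omega)⟩
    · rw [mem_box] at h1
      rw [← tl_up (lo := lo) (k := k) (y := y) (u := k) (i := i) (j := j)
        (by rintro (h7 | h7); exacts [hC.self h7, by omega])]
      exact hD.mem_tl ⟨by simp only; omega, by simp only; omega, h1.2.2, Or.inl (by simp only; omega)⟩
  have hsub' : B' ⊆ T' := by
    rintro ⟨i, j⟩ hτ
    rw [hB'] at hτ
    unfold winLC' at hτ
    rw [mem_box] at hτ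
    have h3 : Val1 (X.up k R) (k, i, j) := by
      unfold Val1 Bxs.up
      simp only [e4, if_false, or_true, if_true]
      exact ⟨by omega, by omega, by omega, hτ.2.2⟩
    exact hD'.mem_tl h3
  -- places outside the window
  have hout : ∀ τ ∈ T \ B, ∃ v, Val X k y v ∧ ¬ WinC k x y v ∧ tl lo k y v = τ := by
    intro τ hτ
    rw [Finset.mem_sdiff] at hτ
    obtain ⟨v, hv, rfl⟩ := (hD.mem τ).1 hτ.1
    exact ⟨v, hv, fun h => hτ.2 ((hF.tl_mem_winLC hX hC hv).2 h), rfl⟩
  have hout' : ∀ {v : Q × ℤ × ℤ}, Val X k y v → ¬ WinC k x y v → tl lo k y v ∈ T \ B := by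
    intro v hv hw
    exact Finset.mem_sdiff.2 ⟨hD.mem_tl hv, fun h => hw ((hF.tl_mem_winLC hX hC hv).1 h)⟩
  have himg : ∀ {v : Q × ℤ × ℤ}, Val X k y v → ¬ WinC k x y v → (cvC x y k R v).2 ∈ T' \ B' := by
    intro v hv hw
    have h1 := hF.cv_val hv
    refine Finset.mem_sdiff.2 ⟨hD'.mem_tl h1, fun h => hw (hF.win_cv.1 ?_)⟩
    exact (hF.mem_winLC' hX' h1).1 h
  refine ⟨hsub, hsub', ?_, ?_, ?_, ?_⟩
  · intro τ hτ τ' hτ' he
    obtain ⟨v, hv, hvW, rfl⟩ := hout τ (Finset.mem_coe.1 hτ)
    obtain ⟨w, hw, hwW, rfl⟩ := hout τ' (Finset.mem_coe.1 hτ')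
    rw [hφ, mvC_tl hX hv, mvC_tl hX hw] at he
    rw [cv_inj (inj1 hX' (hF.cv_val hv) (hF.cv_val hw) he)]
  · ext σ
    rw [Finset.mem_image]
    constructor
    · rintro ⟨τ, hτ, rfl⟩
      obtain ⟨v, hv, hw, rfl⟩ := hout τ hτ
      rw [hφ, mvC_tl hX hv]
      exact himg hv hw
    · intro hσ
      rw [Finset.mem_sdiff] at hσ
      obtain ⟨w, hw, rfl⟩ := (hD'.mem σ).1 hσ.1
      have h1 : ¬ WinC' k x y w := fun h => hσ.2 ((hF.mem_winLC' hX' hw).2 h)
      obtain ⟨v, hv, rfl⟩ := hF.exists_cv hw h1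
      refine ⟨tl lo k y v, hout' hv fun h => h1 (hF.win_cv.2 h), ?_⟩
      rw [hφ, mvC_tl hX hv]
  · rintro ⟨τ, d⟩ hτ hgτ
    obtain ⟨v, hv, hw, rfl⟩ := hout τ hτ
    show g' (φ (tl lo k y v), d) = hmap φ (g (tl lo k y v, d))
    rw [hφ, mvC_tl hX hv]
    rcases hD.glue_cases hX hC hb ht hv d with ⟨w, hw', h1, h2⟩ | ⟨h1, h2⟩
    · rw [h2]
      show _ = (mvC X k lo x y R (tl lo k y w), d.opp)
      rw [mvC_tl hX hw']
      exact hD'.glue_adj hX' (hF.cv_val hv) (hF.cv_val hw') (hF.fwd hC hv hw' d h1 hw)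
    · rw [h2]
      show _ = (mvC X k lo x y R (tl lo k y v), d)
      rw [mvC_tl hX hv]
      rcases hD'.glue_cases hX' (hF.cv_val hv) d with ⟨w, hw', h3, -⟩ | ⟨-, h4⟩
      · exfalso
        obtain ⟨w0, hw0, h5⟩ := hF.bwd hX hC hv hw' d h3 hw
        exact h1 w0 hw0 h5
      · exact h4
  · rintro ⟨τ, d⟩ hτ hgτ
    obtain ⟨v, hv, hw, rfl⟩ := hout τ hτ
    show (g' (φ (tl lo k y v), d)).1 ∈ B'
    rw [hφ, mvC_tl hX hv]
    rcases hD.glue_cases hX hC hb ht hv d with ⟨w, hw', h1, h2⟩ | ⟨h1, h2⟩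
    · rw [h2] at hgτ
      have h3 : WinC k x y w := (hF.tl_mem_winLC hX hC hw').1 hgτ
      rw [hD'.glue_adj hX' (hF.cv_val hv) (hF.cv_val hw') (hF.fwd hC hv hw' d h1 hw)]
      exact (hF.mem_winLC' hX' (hF.cv_val hw')).2 (hF.win_cv.2 h3)
    · exfalso
      rw [h2] at hgτ
      exact (Finset.mem_sdiff.1 hτ).2 hgτ

end Cei

end Full.Geo
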