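import Pool.Agent.Full.Geo.LastC

/-!
# The last move, to the ceiling: the closed walls

The boundary passes through the window of `Cei.same` along the ceiling of the room `k`.
-/

set_option autoImplicit false

namespace Full.Geo
open Function Full.Loc Full.Shape

variable {Q : Type*}

namespace Cei
variable {adj : Q → Q → Prop} {X : Bxs Q} {k : Q} {lo : Q → Prop} {x y : ℤ} {R : Q → Prop}
variable {T : Finset ZT} {g : Half ZT → Half ZT} {T' : Finset (ℤ × ℤ)}
  {g' : Half (ℤ × ℤ) → Half (ℤ × ℤ)}
variable (hF : Cei adj X k lo x y R)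
include hF

lemma val1k {i j : ℤ} (h1 : x - 3 ≤ i) (h2 : i ≤ x + 3) (h3 : X.b k ≤ j) (h4 : j < X.t k) :
    Val1 (X.up k R) (k, i, j) := by
  have e1 := hF.lx
  have e2 := hF.rx
  have e4 := hF.rk
  unfold Val1 Bxs.up
  simp only [e4, if_false, or_true, if_true]
  exact ⟨by omega, by omega, h3, h4⟩

variable (hX : Good adj X) (hC : Cut adj k lo) (hD : Dom2 X k lo x y T g)
include hX hC hD

/-- the side of the ceiling -/
lemma n_fix {i : ℤ} (h1 : x - 2 ≤ i) (h2 : i ≤ x + 2) :
    g (tl lo k y (k, i, X.t k - 1), .N) = (tl lo k y (k, i, X.t k - 1), .N) := by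
  have e1 := hX.bt k
  have e2 := hF.yt
  rcases hD.glue_cases hX hC hF.yb hF.yt (hF.valk (i := i) (j := X.t k - 1) (by omega) h2 (by omega)
    (by omega)) .N with ⟨w, h3, h4, -⟩ | h
  · exfalso
    rcases h4 with ⟨h5, h6, -⟩ | ⟨h5, h6, h7, h8⟩
    · have h7 := h3.2.2.1
      simp only at h5 h6
      rw [h5] at h7
      omega
    · simp only at h5 h8
      have h9 := hF.ne_ce h5
      have h10 := h3.1
      have h11 := h3.2.2.2.resolve_right fun h => h9 h.1
      rcases hF.ce h5 with ⟨-, h12⟩ | ⟨-, h12⟩ <;> omega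
  · exact h.2

lemma n_next {i : ℤ} (h1 : x - 1 ≤ i) (h2 : i ≤ x + 2) :
    next g (tl lo k y (k, i, X.t k - 1), .N) = (tl lo k y (k, i - 1, X.t k - 1), .N) := by
  have e1 := hX.bt k
  have h3 : g (tl lo k y (k, i, X.t k - 1), .W) = (tl lo k y (k, i - 1, X.t k - 1), .E) :=
    hD.glue_adj hX hC hF.yb hF.yt (hF.valk (by omega) (by omega) (by omega) (by omega))
      (hF.valk (by omega) (by omega) (by omega) (by omega)) (d := .W) ⟨rfl, by simp only; omega, rfl⟩
  refine next_two (hF.n_fix hX hC hD (by omega) h2) (hF.n_fix hX hC hD (by omega) (by omega)) ?_ ?_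
  · show g (tl lo k y (k, i, X.t k - 1), .W) ≠ (tl lo k y (k, i, X.t k - 1), .W)
    rw [h3]
    intro h
    exact Dir.noConfusion (congrArg Prod.snd h)
  · show rho (g (tl lo k y (k, i, X.t k - 1), .W)) = _
    rw [h3]
    rfl

/-- the boundary half edges in the window -/
lemma only {u : Half ZT} (hu : Bd T g u) (huB : u.1 ∈ winLC X k x y) :
    u = zz x y ∨ ∃ i, x - 1 ≤ i ∧ i ≤ x ∧ u = (tl lo k y (k, i, X.t k - 1), .N) := by
  have e1 := hF.yb
  have e2 := hF.yt
  have e3 := hF.yb2
  obtain ⟨τ, d⟩ := u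
  obtain ⟨⟨u, i, j⟩, hv, rfl⟩ := (hD.mem τ).1 hu.1
  obtain ⟨g1, g2, g3, g4⟩ := (hF.tl_mem_winLC hX hC hv).1 huB
  simp only at g1 g2 g3 g4
  subst g1
  have hfix := hu.2
  have h3 := hv.2.2.1
  simp only at h3
  have key : ∀ w, Val X u y w → ¬ AdjD adj X u x y d (u, i, j) w := by
    intro w hw h
    have h5 := hD.glue_adj hX hC hF.yb hF.yt hv hw h
    rw [hfix] at h5
    exact Dir.opp_ne d (congrArg Prod.snd h5).symm
  cases d
  · exfalso
    exact key (u, i + 1, j) (hF.valk (by omega) (by omega) (by omega) (by omega)) ⟨rfl, rfl, rfl⟩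
  · rcases lt_trichotomy (j + 1) y with h4 | h4 | h4
    · omega
    · rcases lt_trichotomy i x with h5 | h5 | h5
      · exfalso
        exact key (u, i, y) (hF.valk (by omega) (by omega) (by omega) (by omega))
          (Or.inl ⟨rfl, by simp only; omega, Or.inr ⟨rfl, h4, Or.inl ⟨h5, rfl⟩⟩⟩)
      · left
        rw [hF.z_eq hX hC hD, h5, show j = y - 1 by omega]
      · exfalso
        exact key (u, i - 1, y) (hF.valk (by omega) (by omega) (by omega) (by omega))
          (Or.inl ⟨rfl, by simp only; omega, Or.inr ⟨rfl, h4, Or.inr ⟨h5, rfl⟩⟩⟩)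
    · by_cases h5 : j + 1 < X.t u
      · exfalso
        exact key (u, i, j + 1) (hF.valk (by omega) (by omega) (by omega) (by omega))
          (Or.inl ⟨rfl, rfl, Or.inl ⟨fun h => by have := h.2; simp only at this; omega, rfl⟩⟩)
      · right
        exact ⟨i, g3, by omega, by rw [show X.t u - 1 = j by omega]⟩
  · exfalso
    exact key (u, i - 1, j) (hF.valk (by omega) (by omega) (by omega) (by omega))
      ⟨rfl, by simp only; omega, rfl⟩
  · exfalso
    by_cases h4 : j = y
    · subst h4
      rcases lt_or_ge i x with h5 | h5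
      · exact key (u, i, j - 1) (hF.valk (by omega) (by omega) (by omega) (by omega))
          (Or.inl ⟨rfl, by simp only; omega, Or.inr ⟨rfl, by simp only; omega, Or.inl ⟨h5, rfl⟩⟩⟩)
      · exact key (u, i + 1, j - 1) (hF.valk (by omega) (by omega) (by omega) (by omega))
          (Or.inl ⟨rfl, by simp only; omega, Or.inr ⟨rfl, by simp only; omega,
            Or.inr ⟨by simp only; omega, by simp only; omega⟩⟩⟩)
    · exact key (u, i, j - 1) (hF.valk (by omega) (by omega) (by omega) (by omega))
        (Or.inl ⟨rfl, by simp only; omega, Or.inl ⟨fun h => by have := h.2; simp only at this; omega, rfl⟩⟩)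

/-- the ways around the corners avoid the window -/
theorem avoid {u : Half ZT} (hu : Bd T g u) (huB : u.1 ∉ winLC X k x y)
    (hn : (next g u).1 ∉ winLC X k x y) : Avoid g (winLC X k x y) u := by
  have e1 := hF.yb
  have e2 := hF.yt
  have e3 := hF.yb2
  have hG := hD.isGlu
  intro n
  induction n with
  | zero => intro _; exact huB
  | succ n ih =>
    intro hf hB
    have ih := ih fun j hj hj' => hf j hj (by omega)
    rw [iterate_succ_apply'] at hB
    have hB' : (g ((rot g)^[n] u)).1 ∈ winLC X k x y := hB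
    rcases Nat.eq_zero_or_pos n with rfl | hn0
    · have h1 : g u = u := hu.2
      have h2 : (g u).1 ∈ winLC X k x y := hB'
      rw [h1] at h2
      exact huB h2
    · have hnf := hf n hn0 (by omega)
      have hmem : ((rot g)^[n] u).1 ∈ T := by
        have key : ∀ i, ((rot g)^[i] u).1 ∈ T := by
          intro i
          induction i with
          | zero => exact hu.1
          | succ i ih => rw [iterate_succ_apply']; exact hG.mem _ ih
        exact key n
      have hrs : (rot g)^[n + 1] u = rho (g ((rot g)^[n] u)) := iterate_succ_apply' _ _ _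
      have hnext : g ((rot g)^[n + 1] u) = (rot g)^[n + 1] u → False := by
        intro h
        apply hn
        rw [next_of (by omega) h hf, hrs]
        exact hB'
      generalize hv0 : (rot g)^[n] u = v0 at hB hB' hnf hmem ih hrs
      obtain ⟨τ, d⟩ := v0
      obtain ⟨v, hv, rfl⟩ := (hD.mem τ).1 hmem
      have hW : ¬ WinC k x y v := fun h => ih ((hF.tl_mem_winLC hX hC hv).2 h)
      rcases hD.glue_cases hX hC hF.yb hF.yt hv d with ⟨w, hw, h1, h2⟩ | ⟨h1, h2⟩
      swap
      · exact hnf h2
      rw [h2] at hB' hrs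
      have hwW : WinC k x y w := (hF.tl_mem_winLC hX hC hw).1 hB'
      obtain ⟨w1, w2, w3, w4⟩ := hwW
      obtain ⟨uw, iw, jw⟩ := w
      obtain ⟨uv, iv, jv⟩ := v
      simp only at w1 w2 w3 w4
      subst w1
      have hjw := hw.2.2.1
      simp only at hjw
      unfold WinC at hW
      simp only at hW
      cases d
      · obtain ⟨g1, g2, g3⟩ := h1
        simp only at g1 g2 g3
        subst g1
        subst g3
        simp only [true_and] at hW
        obtain rfl : iw = x - 1 := by omega
        obtain rfl : iv = x - 2 := by omega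
        by_cases h4 : jw = y
        · have hc := hF.corL hX hC hD (i := x - 2) (by omega) (by omega)
          rw [show x - 2 + 1 = x - 1 by omega] at hc
          rw [h4] at hv0
          exact (hc.not_reach hG hu.2 n).2.1 hv0
        · have hc := hF.cor hX hC hD (i := x - 2) (j := jw - 1) (by omega) (by omega) (by omega) (by omega)
            (by omega)
          rw [show x - 2 + 1 = x - 1 by omega, show jw - 1 + 1 = jw by omega] at hc
          exact (hc.not_reach hG hu.2 n).2.1 hv0
      · rcases h1 with ⟨g1, g2, g3⟩ | ⟨g1, g2, g3, g4⟩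
        · simp only at g1 g2 g3
          subst g1
          simp only [true_and] at hW g3
          rcases g3 with ⟨g3, g4⟩ | ⟨g3, g4⟩
          · obtain rfl : jw = y - 1 := by omega
            subst g4
            obtain rfl : jv = y - 2 := by omega
            have hc := hF.cor hX hC hD (i := iw) (j := y - 2) (by omega) (by omega) (by omega) (by omega)
              (by omega)
            exact (hc.not_reach hG hu.2 n).1 hv0
          · omega
        · simp only at g1 g2 g3 g4
          omega
      · obtain ⟨g1, g2, g3⟩ := h1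
        simp only at g1 g2 g3
        subst g1
        subst g3
        simp only [true_and] at hW
        subst g2
        by_cases h4 : jv < y
        · obtain rfl : iw = x + 1 := by omega
          have hc := hF.corR hX hC hD (i := x + 1) (by omega) (by omega)
          rw [show y - 1 = jv by omega] at hc
          exact (hc.not_reach hG hu.2 n).2.2.2 hv0
        · obtain rfl : iw = x := by omega
          by_cases h5 : jv + 1 < X.t uv
          · have hc := hF.cor hX hC hD (i := iw) (j := jv) (by omega) (by omega) (by omega) h5 (by omega)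
            exact (hc.not_reach hG hu.2 n).2.2.2 hv0
          · have h6 := hF.n_fix hX hC hD (i := iw) (by omega) (by omega)
            rw [show X.t uv - 1 = jv by omega] at h6
            exact hnext (by rw [hrs]; exact h6)
      · rcases h1 with ⟨g1, g2, g3⟩ | ⟨g1, g2, g3, g4⟩
        · simp only at g1 g2 g3
          subst g1
          simp only [true_and] at hW g3
          rcases g3 with ⟨g3, g4⟩ | ⟨g3, g4⟩
          · omega
          · omega
        · simp only at g1 g2 g3 g4
          have h5 := hF.ne_ce g1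
          have h6 := hv.1
          have h7 := hv.2.2.2.resolve_right fun h => h5 h.1
          simp only at h6 h7
          rcases hF.ce g1 with ⟨-, h8⟩ | ⟨-, h8⟩ <;> omega

omit hD in
/-- the side of the ceiling of the plane region -/
lemma n_fix' (hX' : Good adj (X.up k R)) (hD' : Dom1 (X.up k R) T' g') {i : ℤ} (h1 : x - 2 ≤ i)
    (h2 : i ≤ x + 2) : g' ((i, X.t k - 1), .N) = ((i, X.t k - 1), .N) := by
  have e1 := hX.bt k
  rcases hD'.glue_cases hX' (hF.val1k (i := i) (j := X.t k - 1) (by omega) (by omega) (by omega)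
    (by omega)) .N with ⟨w, h3, h4, -⟩ | h
  · exfalso
    rcases h4 with ⟨h5, h6, -⟩ | ⟨h5, h6, h7, h8⟩
    · have h7 := h3.2.2.2
      simp only at h5 h6
      rw [h5] at h7
      unfold Bxs.up at h7
      simp only at h7
      omega
    · simp only at h5 h8
      have h9 := hF.ne_ce h5
      have h10 := h3.1
      have h11 := h3.2.1
      unfold Bxs.up at h10 h11
      simp only at h10 h11
      rcases hF.ce h5 with ⟨h13, h12⟩ | ⟨h13, h12⟩
      · rw [if_pos h13] at h10
        omega
      · rw [if_neg (by rintro (h14 | h14); exacts [h13 h14, h9 h14])] at h11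
        omega
  · exact h.2

omit hD in
lemma n_next' (hX' : Good adj (X.up k R)) (hD' : Dom1 (X.up k R) T' g') {i : ℤ} (h1 : x - 1 ≤ i)
    (h2 : i ≤ x + 2) : next g' ((i, X.t k - 1), .N) = ((i - 1, X.t k - 1), .N) := by
  have e1 := hX.bt k
  have h3 : g' ((i, X.t k - 1), .W) = ((i - 1, X.t k - 1), .E) :=
    hD'.glue_adj hX' (hF.val1k (i := i) (j := X.t k - 1) (by omega) (by omega) (by omega) (by omega))
      (hF.val1k (i := i - 1) (j := X.t k - 1) (by omega) (by omega) (by omega) (by omega)) (d := .W)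
      ⟨rfl, by simp only; omega, rfl⟩
  refine next_two (hF.n_fix' hX hC hX' hD' (by omega) h2) (hF.n_fix' hX hC hX' hD' (by omega) (by omega))
    ?_ ?_
  · show g' ((i, X.t k - 1), .W) ≠ ((i, X.t k - 1), .W)
    rw [h3]
    intro h
    exact Dir.noConfusion (congrArg Prod.snd h)
  · show rho (g' ((i, X.t k - 1), .W)) = _
    rw [h3]
    rfl

omit hD in
lemma map_n {i : ℤ} (h1 : x ≤ i) (h2 : i ≤ x + 2) :
    hmap (mvC X k lo x y R) (tl lo k y (k, i, X.t k - 1), .N) = ((i + 1, X.t k - 1), .N) := by
  classical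
  have e1 := hX.bt k
  have e4 := hF.rk
  have e5 := hF.yt
  show (mvC X k lo x y R (tl lo k y (k, i, X.t k - 1)), Dir.N) = _
  rw [mvC_tl hX (hF.valk (by omega) (by omega) (by omega) (by omega))]
  unfold cvC
  simp only [e4, false_or, true_and]
  rw [if_pos ⟨by omega, h1⟩]

omit hD in
lemma map_n' {i : ℤ} (h1 : x - 3 ≤ i) (h2 : i < x) :
    hmap (mvC X k lo x y R) (tl lo k y (k, i, X.t k - 1), .N) = ((i, X.t k - 1), .N) := by
  classical
  have e1 := hX.bt k
  have e4 := hF.rk
  show (mvC X k lo x y R (tl lo k y (k, i, X.t k - 1)), Dir.N) = _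
  rw [mvC_tl hX (hF.valk (by omega) (by omega) (by omega) (by omega))]
  unfold cvC
  simp only [e4, false_or, true_and]
  rw [if_neg (by omega), add_zero]

lemma n_mem {i : ℤ} (h1 : x - 3 ≤ i) (h2 : i ≤ x + 2) :
    tl lo k y (k, i, X.t k - 1) ∈ winLC X k x y ↔ x - 1 ≤ i ∧ i ≤ x := by
  have e1 := hX.bt k
  have e2 := hF.yt
  rw [hF.tl_mem_winLC hX hC (hF.valk h1 h2 (by omega) (by omega))]
  unfold WinC
  simp only [true_and]
  omega

lemma it1 : (next g)^[1] (tl lo k y (k, x + 1, X.t k - 1), .N) = (tl lo k y (k, x, X.t k - 1), .N) := by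
  have h := hF.n_next hX hC hD (i := x + 1) (by omega) (by omega)
  rw [show x + 1 - 1 = x by omega] at h
  exact h

lemma it2 : (next g)^[2] (tl lo k y (k, x + 1, X.t k - 1), .N) = (tl lo k y (k, x - 1, X.t k - 1), .N) := by
  rw [iterate_succ_apply', hF.it1 hX hC hD]
  exact hF.n_next hX hC hD (i := x) (by omega) (by omega)

lemma it3 : (next g)^[3] (tl lo k y (k, x + 1, X.t k - 1), .N) = (tl lo k y (k, x - 2, X.t k - 1), .N) := by
  rw [iterate_succ_apply', hF.it2 hX hC hD]
  have h := hF.n_next hX hC hD (i := x - 1) (by omega) (by omega)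
  rw [show x - 1 - 1 = x - 2 by omega] at h
  exact h

omit hD in
lemma it1' (hX' : Good adj (X.up k R)) (hD' : Dom1 (X.up k R) T' g') :
    (next g')^[1] ((x + 2, X.t k - 1), .N) = ((x + 1, X.t k - 1), .N) := by
  have h := hF.n_next' hX hC hX' hD' (i := x + 2) (by omega) (by omega)
  rw [show x + 2 - 1 = x + 1 by omega] at h
  exact h

omit hD in
lemma it2' (hX' : Good adj (X.up k R)) (hD' : Dom1 (X.up k R) T' g') :
    (next g')^[2] ((x + 2, X.t k - 1), .N) = ((x, X.t k - 1), .N) := by
  rw [iterate_succ_apply', hF.it1' hX hC hX' hD']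
  have h := hF.n_next' hX hC hX' hD' (i := x + 1) (by omega) (by omega)
  rw [show x + 1 - 1 = x by omega] at h
  exact h

omit hD in
lemma it3' (hX' : Good adj (X.up k R)) (hD' : Dom1 (X.up k R) T' g') :
    (next g')^[3] ((x + 2, X.t k - 1), .N) = ((x - 1, X.t k - 1), .N) := by
  rw [iterate_succ_apply', hF.it2' hX hC hX' hD']
  exact hF.n_next' hX hC hX' hD' (i := x) (by omega) (by omega)

omit hD in
lemma it4' (hX' : Good adj (X.up k R)) (hD' : Dom1 (X.up k R) T' g') :
    (next g')^[4] ((x + 2, X.t k - 1), .N) = ((x - 2, X.t k - 1), .N) := by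
  rw [iterate_succ_apply', hF.it3' hX hC hX' hD']
  have h := hF.n_next' hX hC hX' hD' (i := x - 1) (by omega) (by omega)
  rw [show x - 1 - 1 = x - 2 by omega] at h
  exact h

/-- **the boundary passes once through the window, along the ceiling** -/
theorem run (hX' : Good adj (X.up k R)) (hD' : Dom1 (X.up k R) T' g') :
    BdRun T g (winLC X k x y) g' (winLC' X k x y) (mvC X k lo x y R) (zz x y)
      (tl lo k y (k, x + 1, X.t k - 1), .N) 2 3 := by
  have e1 := hX.bt k
  have e2 := hF.yb
  have e3 := hF.yt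
  have hS := hF.same hX hX' hC hD hD'
  have hp := hF.map_n hX hC (lo := lo) (y := y) (i := x + 1) (by omega) (by omega)
  rw [show x + 1 + 1 = x + 2 by omega] at hp
  refine ⟨fun u hu huB hn => (hS.next_eq hD.isGlu hu (hF.avoid hX hC hD hu huB hn)).1,
    hF.z_bd hX hC hD, hF.z_next hX hC hD,
    ⟨hD.mem_tl (hF.valk (by omega) (by omega) (by omega) (by omega)),
      hF.n_fix hX hC hD (by omega) (by omega)⟩,
    fun h => ?_, by norm_num, fun i hi hi' => ?_, fun u hu huB => ?_, fun h => ?_, fun i hi hi' => ?_, ?_⟩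
  · have := (hF.n_mem hX hC hD (i := x + 1) (by omega) (by omega)).1 h
    omega
  · interval_cases i
    · rw [hF.it1 hX hC hD]
      exact (hF.n_mem hX hC hD (by omega) (by omega)).2 ⟨by omega, by omega⟩
    · rw [hF.it2 hX hC hD]
      exact (hF.n_mem hX hC hD (by omega) (by omega)).2 ⟨by omega, by omega⟩
  · rcases hF.only hX hC hD hu huB with h | ⟨i, h1, h2, h3⟩
    · exact Or.inl h
    · right
      rcases (show i = x - 1 ∨ i = x by omega) with rfl | rfl
      · exact ⟨2, by norm_num, le_rfl, by rw [hF.it2 hX hC hD, h3]⟩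
      · exact ⟨1, le_rfl, by norm_num, by rw [hF.it1 hX hC hD, h3]⟩
  · rw [hF.it3 hX hC hD] at h
    have := (hF.n_mem hX hC hD (i := x - 2) (by omega) (by omega)).1 h
    omega
  · rw [hp]
    unfold winLC'
    interval_cases i
    · rw [hF.it1' hX hC hX' hD', mem_box]
      exact ⟨⟨by omega, by omega⟩, by omega, by omega⟩
    · rw [hF.it2' hX hC hX' hD', mem_box]
      exact ⟨⟨by omega, by omega⟩, by omega, by omega⟩
    · rw [hF.it3' hX hC hX' hD', mem_box]
      exact ⟨⟨by omega, by omega⟩, by omega, by omega⟩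
  · rw [hp, hF.it4' hX hC hX' hD', hF.it3 hX hC hD, hF.map_n' hX hC (by omega) (by omega)]

/-- **the last move with closed walls**: the end `z` and the end `e3` on the ceiling above it -/
theorem wall (hX' : Good adj (X.up k R)) (hD' : Dom1 (X.up k R) T' g') {E : Set (Half ZT)}
    {E' : Set (Half (ℤ × ℤ))} {e3 : Half (ℤ × ℤ)}
    (he3 : e3 = ((x - 1, X.t k - 1), .N) ∨ e3 = ((x, X.t k - 1), .N) ∨ e3 = ((x + 1, X.t k - 1), .N))
    (he : e3 ∈ E')
    (hEB : ∀ u, u ∈ E → Bd T g u → u.1 ∈ winLC X k x y → u = zz x y)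
    (hEB' : ∀ u, u ∈ E' → Bd T' g' u → u.1 ∈ winLC' X k x y → u = e3)
    (hEE : ∀ u, Bd T g u → u.1 ∉ winLC X k x y → (u ∈ E ↔ hmap (mvC X k lo x y R) u ∈ E'))
    (hM : Meets T g E) (hM' : Meets T' g' E') {w : Half ZT → Half ZT}
    {w' : Half (ℤ × ℤ) → Half (ℤ × ℤ)} (hw : IsW T g E w) (hw' : IsW T' g' E' w') :
    Same T w (winLC X k x y) T' w' (winLC' X k x y) (mvC X k lo x y R) := by
  have hR := hF.run hX hC hD hX' hD'
  have hS := hF.same hX hX' hC hD hD'
  have hG := hD.isGlu
  have hG' := hD'.isGlu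
  have e2 := hF.yt
  have hp := hF.map_n hX hC (lo := lo) (y := y) (i := x + 1) (by omega) (by omega)
  rw [show x + 1 + 1 = x + 2 by omega] at hp
  have hpb' : Bd T' g' (hmap (mvC X k lo x y R) (tl lo k y (k, x + 1, X.t k - 1), .N)) :=
    (hS.bd_iff hG (Finset.mem_sdiff.2 ⟨hR.p_bd.1, hR.p_out⟩)).2 hR.p_bd
  have hE : ∀ i, 1 ≤ i → i ≤ 2 → (next g)^[i] (tl lo k y (k, x + 1, X.t k - 1), .N) ∉ E := by
    intro i hi hi' h
    have h1 := hEB _ h (hG.bd_iter hR.p_bd i) (hR.ins i hi hi')
    have h2 : ∃ i', x - 1 ≤ i' ∧ i' ≤ x ∧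
        (next g)^[i] (tl lo k y (k, x + 1, X.t k - 1), .N) = (tl lo k y (k, i', X.t k - 1), .N) := by
      interval_cases i
      · exact ⟨x, by omega, le_rfl, hF.it1 hX hC hD⟩
      · exact ⟨x - 1, le_rfl, by omega, hF.it2 hX hC hD⟩
    obtain ⟨i', h3, h4, h5⟩ := h2
    rw [h5, hF.z_eq hX hC hD] at h1
    have h6 := tl_inj hX (hF.valk (i := i') (j := X.t k - 1) (by omega) (by omega)
      (by have := hF.yb; omega) (by omega)) (hF.valk (i := x) (j := y - 1) (by omega) (by omega)
      (by have := hF.yb; omega) (by omega)) (congrArg Prod.fst h1)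
    have h7 : X.t k - 1 = y - 1 := congrArg (fun w : Q × ℤ × ℤ => w.2.2) h6
    omega
  have hEE' : ∀ i, 1 ≤ i → i ≤ 3 →
      ((next g')^[i] (hmap (mvC X k lo x y R) (tl lo k y (k, x + 1, X.t k - 1), .N)) ∈ E' ↔
        (next g')^[i] (hmap (mvC X k lo x y R) (tl lo k y (k, x + 1, X.t k - 1), .N)) = e3) := by
    intro i hi hi'
    constructor
    · intro h
      exact hEB' _ h (hG'.bd_iter hpb' i) (hR.ins' i hi hi')
    · intro h
      rw [h]
      exact he
  have hne : ∀ {i i' : ℤ}, i ≠ i' →
      (((i, X.t k - 1), Dir.N) : Half (ℤ × ℤ)) ≠ ((i', X.t k - 1), Dir.N) := fun h h' =>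
    h (congrArg (fun u : Half (ℤ × ℤ) => u.1.1) h')
  rcases he3 with h3 | h3 | h3
  · refine hS.wall_run hG hG' hR (by decide) hM hM' hE (a := 3) (by norm_num) le_rfl (fun i hi hi' => ?_)
      hEE hw hw'
    rw [hEE' i hi hi', hp, h3]
    interval_cases i
    · rw [hF.it1' hX hC hX' hD']
      exact ⟨fun h => absurd h (hne (by omega)), fun h => absurd h (by decide)⟩
    · rw [hF.it2' hX hC hX' hD']
      exact ⟨fun h => absurd h (hne (by omega)), fun h => absurd h (by decide)⟩
    · rw [hF.it3' hX hC hX' hD']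
      simp
  · refine hS.wall_run hG hG' hR (by decide) hM hM' hE (a := 2) (by norm_num) (by norm_num)
      (fun i hi hi' => ?_) hEE hw hw'
    rw [hEE' i hi hi', hp, h3]
    interval_cases i
    · rw [hF.it1' hX hC hX' hD']
      exact ⟨fun h => absurd h (hne (by omega)), fun h => absurd h (by decide)⟩
    · rw [hF.it2' hX hC hX' hD']
      simp
    · rw [hF.it3' hX hC hX' hD']
      exact ⟨fun h => absurd h (hne (by omega)), fun h => absurd h (by decide)⟩
  · refine hS.wall_run hG hG' hR (by decide) hM hM' hE (a := 1) le_rfl (by norm_num)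
      (fun i hi hi' => ?_) hEE hw hw'
    rw [hEE' i hi hi', hp, h3]
    interval_cases i
    · rw [hF.it1' hX hC hX' hD']
      simp
    · rw [hF.it2' hX hC hX' hD']
      exact ⟨fun h => absurd h (hne (by omega)), fun h => absurd h (by decide)⟩
    · rw [hF.it3' hX hC hX' hD']
      exact ⟨fun h => absurd h (hne (by omega)), fun h => absurd h (by decide)⟩

end Cei

end Full.Geo
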