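import Pool.Agent.Full.Geo.LastF

/-!
# The last move, to the floor: the closed walls

The boundary passes through the window of `Flr.same` along the floor of the room `k`.
-/

set_option autoImplicit false

namespace Full.Geo
open Function Full.Loc Full.Shape

variable {Q : Type*}

namespace Flr
variable {adj : Q → Q → Prop} {X : Bxs Q} {k : Q} {lo : Q → Prop} {x y : ℤ} {R : Q → Prop}
variable {T : Finset ZT} {g : Half ZT → Half ZT} {T' : Finset (ℤ × ℤ)}
  {g' : Half (ℤ × ℤ) → Half (ℤ × ℤ)}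
variable (hF : Flr adj X k lo x y R)
include hF

lemma val1k (hC : Cut adj k lo) {i j : ℤ} (h1 : x - 3 ≤ i) (h2 : i ≤ x + 2) (h3 : X.b k ≤ j)
    (h4 : j < X.t k) : Val1 (X.dn R) (k, i, j) := by
  have e1 := hF.lx
  have e2 := hF.rx
  have e4 := hF.rk hC
  unfold Val1 Bxs.dn
  simp only [e4, if_false]
  exact ⟨by omega, by omega, h3, h4⟩

variable (hX : Good adj X) (hC : Cut adj k lo) (hD : Dom2 X k lo x y T g)
include hX hC hD

/-- the side of the floor -/
lemma s_fix {i : ℤ} (h1 : x - 2 ≤ i) (h2 : i ≤ x + 2) :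
    g (tl lo k y (k, i, X.b k), .S) = (tl lo k y (k, i, X.b k), .S) := by
  have e1 := hX.bt k
  rcases hD.glue_cases hX hC hF.yb hF.yt (hF.valk (by omega) h2 le_rfl e1) .S with ⟨w, h3, h4, -⟩ | h
  · exfalso
    rcases h4 with ⟨h5, h6, -⟩ | ⟨h5, h6, h7, h8⟩
    · have h7 := h3.2.1
      simp only at h5 h6
      rw [← h5] at h7
      omega
    · simp only at h5 h8
      have h9 := hF.ne_fl h5
      have h10 := h3.1
      have h11 := h3.2.2.2.resolve_right fun h => h9 h.1
      rcases hF.fl h5 with ⟨-, h12⟩ | ⟨-, h12⟩ <;> omega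
  · exact h.2

lemma s_next {i : ℤ} (h1 : x - 2 ≤ i) (h2 : i ≤ x + 1) :
    next g (tl lo k y (k, i, X.b k), .S) = (tl lo k y (k, i + 1, X.b k), .S) := by
  have e1 := hX.bt k
  have h3 : g (tl lo k y (k, i, X.b k), .E) = (tl lo k y (k, i + 1, X.b k), .W) :=
    hD.glue_adj hX hC hF.yb hF.yt (hF.valk (by omega) (by omega) le_rfl e1)
      (hF.valk (by omega) (by omega) le_rfl e1) (d := .E) ⟨rfl, rfl, rfl⟩
  refine next_two (hF.s_fix hX hC hD h1 (by omega)) (hF.s_fix hX hC hD (by omega) (by omega)) ?_ ?_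
  · show g (tl lo k y (k, i, X.b k), .E) ≠ (tl lo k y (k, i, X.b k), .E)
    rw [h3]
    intro h
    exact Dir.noConfusion (congrArg Prod.snd h)
  · show rho (g (tl lo k y (k, i, X.b k), .E)) = _
    rw [h3]
    rfl

/-- the boundary half edges in the window -/
lemma only {u : Half ZT} (hu : Bd T g u) (huB : u.1 ∈ winLF X k x y) :
    u = zz x y ∨ ∃ i, x - 1 ≤ i ∧ i ≤ x + 1 ∧ u = (tl lo k y (k, i, X.b k), .S) := by
  have e1 := hF.yb
  have e2 := hF.yt
  obtain ⟨τ, d⟩ := u
  obtain ⟨⟨u, i, j⟩, hv, rfl⟩ := (hD.mem τ).1 hu.1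
  obtain ⟨g1, g2, g3, g4⟩ := (hF.tl_mem_winLF hX hv).1 huB
  simp only at g1 g2 g3 g4
  subst g1
  have hfix := hu.2
  have h3 := hv.2.1
  simp only at h3
  have key : ∀ w, Val X u y w → ¬ AdjD adj X u x y d (u, i, j) w := by
    intro w hw h
    have h5 := hD.glue_adj hX hC hF.yb hF.yt hv hw h
    rw [hfix] at h5
    exact Dir.opp_ne d (congrArg Prod.snd h5).symm
  cases d
  · exfalso
    exact key (u, i + 1, j) (hF.valk (by omega) (by omega) h3 (by omega)) ⟨rfl, rfl, rfl⟩
  · rcases lt_or_eq_of_le (show j + 1 ≤ y by omega) with h4 | h4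
    · exfalso
      exact key (u, i, j + 1) (hF.valk (by omega) (by omega) (by omega) (by omega))
        (Or.inl ⟨rfl, rfl, Or.inl ⟨fun h => by have := h.2; simp only at this; omega, rfl⟩⟩)
    · rcases lt_trichotomy i x with h5 | h5 | h5
      · exfalso
        exact key (u, i, y) (hF.valk (by omega) (by omega) (by omega) (by omega))
          (Or.inl ⟨rfl, by simp only; omega, Or.inr ⟨rfl, h4, Or.inl ⟨h5, rfl⟩⟩⟩)
      · left
        rw [hF.z_eq hX hC hD, h5, show j = y - 1 by omega]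
      · exfalso
        exact key (u, i - 1, y) (hF.valk (by omega) (by omega) (by omega) (by omega))
          (Or.inl ⟨rfl, by simp only; omega, Or.inr ⟨rfl, h4, Or.inr ⟨h5, rfl⟩⟩⟩)
  · exfalso
    exact key (u, i - 1, j) (hF.valk (by omega) (by omega) h3 (by omega)) ⟨rfl, by simp only; omega, rfl⟩
  · rcases lt_or_eq_of_le h3 with h4 | h4
    · exfalso
      exact key (u, i, j - 1) (hF.valk (by omega) (by omega) (by omega) (by omega))
        (Or.inl ⟨rfl, by simp only; omega, Or.inl ⟨fun h => by have := h.2; simp only at this; omega, rfl⟩⟩)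
    · right
      exact ⟨i, g3, g4, by rw [← h4]⟩

/-- the ways around the corners avoid the window -/
theorem avoid {u : Half ZT} (hu : Bd T g u) (huB : u.1 ∉ winLF X k x y)
    (hn : (next g u).1 ∉ winLF X k x y) : Avoid g (winLF X k x y) u := by
  have e1 := hF.yb
  have e2 := hF.yt
  have hG := hD.isGlu
  intro n
  induction n with
  | zero => intro _; exact huB
  | succ n ih =>
    intro hf hB
    have ih := ih fun j hj hj' => hf j hj (by omega)
    rw [iterate_succ_apply'] at hB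
    have hB' : (g ((rot g)^[n] u)).1 ∈ winLF X k x y := hB
    rcases Nat.eq_zero_or_pos n with rfl | hn0
    · have h1 : g u = u := hu.2
      have h2 : (g u).1 ∈ winLF X k x y := hB'
      rw [h1] at h2
      exact huB h2
    · have hnf := hf n hn0 (by omega)
      have hmem : ((rot g)^[n] u).1 ∈ T := by
        have key : ∀ i, ((rot g)^[i] u).1 ∈ T := by
          intro i
          induction i with
          | zero => exact hu.1
          | succ i ih => rw [iterate_succ_apply']; exact hG.mem _ ih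
        exact key n
      have hrs : (rot g)^[n + 1] u = rho (g ((rot g)^[n] u)) := iterate_succ_apply' _ _ _
      have hnext : g ((rot g)^[n + 1] u) = (rot g)^[n + 1] u → False := by
        intro h
        apply hn
        rw [next_of (by omega) h hf, hrs]
        exact hB'
      have hreach : ∀ x0, (rot g)^[n] u ≠ x0 → (rot g)^[n] u = x0 → False := fun x0 h h' => h h'
      generalize hv0 : (rot g)^[n] u = v0 at hB hB' hnf hmem ih hrs
      obtain ⟨τ, d⟩ := v0
      obtain ⟨v, hv, rfl⟩ := (hD.mem τ).1 hmem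
      have hW : ¬ WinF k x y v := fun h => ih ((hF.tl_mem_winLF hX hv).2 h)
      rcases hD.glue_cases hX hC hF.yb hF.yt hv d with ⟨w, hw, h1, h2⟩ | ⟨h1, h2⟩
      swap
      · exact hnf h2
      rw [h2] at hB' hrs
      have hwW : WinF k x y w := (hF.tl_mem_winLF hX hw).1 hB'
      obtain ⟨w1, w2, w3, w4⟩ := hwW
      obtain ⟨uw, iw, jw⟩ := w
      obtain ⟨uv, iv, jv⟩ := v
      simp only at w1 w2 w3 w4
      subst w1
      have hjw := hw.2.1
      simp only at hjw
      unfold WinF at hW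
      simp only at hW
      cases d
      · obtain ⟨g1, g2, g3⟩ := h1
        simp only at g1 g2 g3
        subst g1
        subst g3
        have hi : iw = x - 1 := by
          by_contra h
          exact hW ⟨rfl, w2, by omega, by omega⟩
        subst hi
        obtain rfl : iv = x - 2 := by omega
        rcases lt_or_eq_of_le hjw with h4 | h4
        · have hc := hF.cor hX hC hD (i := x - 2) (j := jw - 1) (by omega) (by omega) (by omega) (by omega)
            (by omega)
          rw [show x - 2 + 1 = x - 1 by omega, show jw - 1 + 1 = jw by omega] at hc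
          exact (hc.not_reach hG hu.2 n).2.1 hv0
        · have h5 := hF.s_fix hX hC hD (i := x - 1) (by omega) (by omega)
          rw [h4] at h5
          exact hnext (by rw [hrs]; exact h5)
      · rcases h1 with ⟨g1, g2, g3⟩ | ⟨g1, g2, g3, g4⟩
        · simp only at g1 g2 g3
          subst g1
          rcases g3 with ⟨-, g3⟩ | ⟨-, g3, -⟩
          · exact hW ⟨rfl, by omega, by omega, by omega⟩
          · omega
        · simp only at g1 g2 g3 g4
          have h5 := hF.ne_fl g1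
          have h6 := hv.1
          have h7 := hv.2.2.2.resolve_right fun h => h5 h.1
          simp only at h6 h7
          rcases hF.fl g1 with ⟨-, h8⟩ | ⟨-, h8⟩ <;> omega
      · obtain ⟨g1, g2, g3⟩ := h1
        simp only at g1 g2 g3
        subst g1
        subst g3
        have hi : iw = x + 1 := by
          by_contra h
          exact hW ⟨rfl, w2, by omega, by omega⟩
        subst hi
        subst g2
        by_cases h4 : jv + 1 = y
        · have hc := hF.corR hX hC hD (i := x + 1) (by omega) (by omega)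
          rw [show y - 1 = jv by omega] at hc
          exact (hc.not_reach hG hu.2 n).2.2.2 hv0
        · have hc := hF.cor hX hC hD (i := x + 1) (j := jv) (by omega) (by omega) (by omega) (by omega) h4
          exact (hc.not_reach hG hu.2 n).2.2.2 hv0
      · rcases h1 with ⟨g1, g2, g3⟩ | ⟨g1, g2, g3, g4⟩
        · simp only at g1 g2 g3
          subst g1
          rcases g3 with ⟨g3, g4⟩ | ⟨-, g3, ⟨g4, g5⟩ | ⟨g4, g5⟩⟩
          · refine hW ⟨rfl, ?_, by omega, by omega⟩
            have : jw + 1 ≠ y := fun h => g3 ⟨trivial, h⟩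
            omega
          · obtain rfl : iw = x - 1 := by omega
            subst g5
            have hc := hF.corL hX hC hD (i := x - 2) (by omega) (by omega)
            rw [show x - 2 + 1 = x - 1 by omega] at hc
            rw [show jv = y by omega] at hv0
            exact (hc.not_reach hG hu.2 n).2.2.1 hv0
          · obtain rfl : iw = x + 1 := by omega
            -- the next half edge is `z`
            have h7 : g (tl lo uv y (uv, x + 1, y - 1), .W) = (tl lo uv y (uv, x, y - 1), .E) :=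
              hD.glue_adj hX hC hF.yb hF.yt (hF.valk (by omega) (by omega) (by omega) (by omega))
                (hF.valk (by omega) (by omega) (by omega) (by omega)) (d := .W) ⟨rfl, rfl, rfl⟩
            obtain rfl : jw = y - 1 := by omega
            have h8 : (rot g)^[n + 1] u = (tl lo uv y (uv, x + 1, y - 1), .W) := hrs
            have h9 : (rot g)^[n + 2] u = zz x y := by
              rw [iterate_succ_apply', h8]
              show rho (g (tl lo uv y (uv, x + 1, y - 1), .W)) = _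
              rw [h7, hF.z_eq hX hC hD]
              rfl
            apply hn
            rw [next_of (k := n + 2) (by omega) (by rw [h9]; exact hF.z_fix hX hC hD) (fun j hj hj' => ?_), h9,
              hF.z_eq hX hC hD]
            · exact (hF.tl_mem_winLF hX (hF.valk (by omega) (by omega) (by omega) (by omega))).2
                ⟨rfl, by simp only; omega, by simp only; omega, by simp only; omega⟩
            · rcases Nat.lt_or_ge j (n + 1) with h10 | h10
              · exact hf j hj h10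
              · obtain rfl : j = n + 1 := by omega
                rw [h8, h7]
                exact fun h => Dir.noConfusion (congrArg Prod.snd h)
        · simp only at g1 g2 g3 g4
          omega

omit hD in
/-- the side of the floor of the plane region -/
lemma s_fix' (hX' : Good adj (X.dn R)) (hD' : Dom1 (X.dn R) T' g') {i : ℤ} (h1 : x - 2 ≤ i)
    (h2 : i ≤ x + 1) : g' ((i, X.b k), .S) = ((i, X.b k), .S) := by
  have e1 := hX.bt k
  rcases hD'.glue_cases hX' (hF.val1k hC (i := i) (j := X.b k) (by omega) (by omega) le_rfl e1) .S with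
    ⟨w, h3, h4, -⟩ | h
  · exfalso
    rcases h4 with ⟨h5, h6, -⟩ | ⟨h5, h6, h7, h8⟩
    · have h7 := h3.2.2.1
      simp only at h5 h6
      rw [← h5] at h7
      unfold Bxs.dn at h7
      simp only at h7
      omega
    · simp only at h5 h8
      have h9 := hF.ne_fl h5
      have h10 := h3.1
      have h11 := h3.2.1
      unfold Bxs.dn at h10 h11
      simp only at h10 h11
      rcases hF.fl h5 with ⟨h13, h12⟩ | ⟨h13, h12⟩
      · rw [if_pos h13] at h10
        omega
      · rw [if_neg h13] at h11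
        omega
  · exact h.2

omit hD in
lemma s_next' (hX' : Good adj (X.dn R)) (hD' : Dom1 (X.dn R) T' g') {i : ℤ} (h1 : x - 2 ≤ i)
    (h2 : i ≤ x) : next g' ((i, X.b k), .S) = ((i + 1, X.b k), .S) := by
  have e1 := hX.bt k
  have h3 : g' ((i, X.b k), .E) = ((i + 1, X.b k), .W) :=
    hD'.glue_adj hX' (hF.val1k hC (by omega) (by omega) le_rfl e1)
      (hF.val1k hC (by omega) (by omega) le_rfl e1) (d := .E) ⟨rfl, rfl, rfl⟩
  refine next_two (hF.s_fix' hX hC hX' hD' h1 (by omega)) (hF.s_fix' hX hC hX' hD' (by omega) (by omega))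
    ?_ ?_
  · show g' ((i, X.b k), .E) ≠ ((i, X.b k), .E)
    rw [h3]
    intro h
    exact Dir.noConfusion (congrArg Prod.snd h)
  · show rho (g' ((i, X.b k), .E)) = _
    rw [h3]
    rfl

omit hD in
lemma map_s {i : ℤ} (h1 : x - 3 ≤ i) (h2 : i ≤ x) :
    hmap (mvF X k lo x y R) (tl lo k y (k, i, X.b k), .S) = ((i, X.b k), .S) := by
  classical
  have e1 := hX.bt k
  have e4 := hF.rk hC
  show (mvF X k lo x y R (tl lo k y (k, i, X.b k)), Dir.S) = _
  rw [mvF_tl hX (hF.valk h1 (by omega) le_rfl e1)]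
  unfold cvF
  simp only [e4, false_or, true_and]
  rw [if_neg (by omega), sub_zero]

omit hD in
lemma map_s' {i : ℤ} (h1 : x < i) (h2 : i ≤ x + 2) :
    hmap (mvF X k lo x y R) (tl lo k y (k, i, X.b k), .S) = ((i - 1, X.b k), .S) := by
  classical
  have e1 := hX.bt k
  have e4 := hF.rk hC
  have e5 := hF.yb
  show (mvF X k lo x y R (tl lo k y (k, i, X.b k)), Dir.S) = _
  rw [mvF_tl hX (hF.valk (by omega) (by omega) le_rfl e1)]
  unfold cvF
  simp only [e4, false_or, true_and]
  rw [if_pos ⟨e5, h1⟩]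

lemma s_mem {i : ℤ} (h1 : x - 3 ≤ i) (h2 : i ≤ x + 2) :
    tl lo k y (k, i, X.b k) ∈ winLF X k x y ↔ x - 1 ≤ i ∧ i ≤ x + 1 := by
  have e1 := hX.bt k
  rw [hF.tl_mem_winLF hX (hF.valk h1 h2 le_rfl e1)]
  exact ⟨fun h => ⟨h.2.2.1, h.2.2.2⟩, fun h => ⟨rfl, hF.yb, h.1, h.2⟩⟩

lemma it1 : (next g)^[1] (tl lo k y (k, x - 2, X.b k), .S) = (tl lo k y (k, x - 1, X.b k), .S) := by
  have h := hF.s_next hX hC hD (i := x - 2) (by omega) (by omega)
  rw [show x - 2 + 1 = x - 1 by omega] at h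
  exact h

lemma it2 : (next g)^[2] (tl lo k y (k, x - 2, X.b k), .S) = (tl lo k y (k, x, X.b k), .S) := by
  rw [iterate_succ_apply', hF.it1 hX hC hD]
  have h := hF.s_next hX hC hD (i := x - 1) (by omega) (by omega)
  rw [show x - 1 + 1 = x by omega] at h
  exact h

lemma it3 : (next g)^[3] (tl lo k y (k, x - 2, X.b k), .S) = (tl lo k y (k, x + 1, X.b k), .S) := by
  rw [iterate_succ_apply', hF.it2 hX hC hD]
  exact hF.s_next hX hC hD (i := x) (by omega) (by omega)

lemma it4 : (next g)^[4] (tl lo k y (k, x - 2, X.b k), .S) = (tl lo k y (k, x + 2, X.b k), .S) := by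
  rw [iterate_succ_apply', hF.it3 hX hC hD]
  have h := hF.s_next hX hC hD (i := x + 1) (by omega) (by omega)
  rw [show x + 1 + 1 = x + 2 by omega] at h
  exact h

omit hD in
lemma it1' (hX' : Good adj (X.dn R)) (hD' : Dom1 (X.dn R) T' g') :
    (next g')^[1] ((x - 2, X.b k), .S) = ((x - 1, X.b k), .S) := by
  have h := hF.s_next' hX hC hX' hD' (i := x - 2) (by omega) (by omega)
  rw [show x - 2 + 1 = x - 1 by omega] at h
  exact h

omit hD in
lemma it2' (hX' : Good adj (X.dn R)) (hD' : Dom1 (X.dn R) T' g') :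
    (next g')^[2] ((x - 2, X.b k), .S) = ((x, X.b k), .S) := by
  rw [iterate_succ_apply', hF.it1' hX hC hX' hD']
  have h := hF.s_next' hX hC hX' hD' (i := x - 1) (by omega) (by omega)
  rw [show x - 1 + 1 = x by omega] at h
  exact h

omit hD in
lemma it3' (hX' : Good adj (X.dn R)) (hD' : Dom1 (X.dn R) T' g') :
    (next g')^[3] ((x - 2, X.b k), .S) = ((x + 1, X.b k), .S) := by
  rw [iterate_succ_apply', hF.it2' hX hC hX' hD']
  exact hF.s_next' hX hC hX' hD' (i := x) (by omega) (by omega)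

/-- **the boundary passes once through the window, along the floor** -/
theorem run (hX' : Good adj (X.dn R)) (hD' : Dom1 (X.dn R) T' g') :
    BdRun T g (winLF X k x y) g' (winLF' X k x y) (mvF X k lo x y R) (zz x y)
      (tl lo k y (k, x - 2, X.b k), .S) 3 2 := by
  have e1 := hX.bt k
  have e2 := hF.yb
  have e3 := hF.yt
  have hS := hF.same hX hX' hC hD hD'
  have hp := hF.map_s hX hC (lo := lo) (y := y) (i := x - 2) (by omega) (by omega)
  refine ⟨fun u hu huB hn => (hS.next_eq hD.isGlu hu (hF.avoid hX hC hD hu huB hn)).1,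
    hF.z_bd hX hC hD, hF.z_next hX hC hD,
    ⟨hD.mem_tl (hF.valk (by omega) (by omega) le_rfl e1), hF.s_fix hX hC hD (by omega) (by omega)⟩,
    fun h => ?_, by norm_num, fun i hi hi' => ?_, fun u hu huB => ?_, fun h => ?_, fun i hi hi' => ?_, ?_⟩
  · have := (hF.s_mem hX hC hD (i := x - 2) (by omega) (by omega)).1 h
    omega
  · interval_cases i
    · rw [hF.it1 hX hC hD]
      exact (hF.s_mem hX hC hD (by omega) (by omega)).2 ⟨by omega, by omega⟩
    · rw [hF.it2 hX hC hD]
      exact (hF.s_mem hX hC hD (by omega) (by omega)).2 ⟨by omega, by omega⟩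
    · rw [hF.it3 hX hC hD]
      exact (hF.s_mem hX hC hD (by omega) (by omega)).2 ⟨by omega, by omega⟩
  · rcases hF.only hX hC hD hu huB with h | ⟨i, h1, h2, h3⟩
    · exact Or.inl h
    · right
      rcases (show i = x - 1 ∨ i = x ∨ i = x + 1 by omega) with rfl | rfl | rfl
      · exact ⟨1, le_rfl, by norm_num, by rw [hF.it1 hX hC hD, h3]⟩
      · exact ⟨2, by norm_num, by norm_num, by rw [hF.it2 hX hC hD, h3]⟩
      · exact ⟨3, by norm_num, le_rfl, by rw [hF.it3 hX hC hD, h3]⟩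
  · rw [hF.it4 hX hC hD] at h
    have := (hF.s_mem hX hC hD (i := x + 2) (by omega) (by omega)).1 h
    omega
  · rw [hp]
    unfold winLF'
    interval_cases i
    · rw [hF.it1' hX hC hX' hD', mem_box]
      exact ⟨⟨by omega, by omega⟩, le_rfl, e2⟩
    · rw [hF.it2' hX hC hX' hD', mem_box]
      exact ⟨⟨by omega, by omega⟩, le_rfl, e2⟩
  · rw [hp, hF.it3' hX hC hX' hD', hF.it4 hX hC hD, hF.map_s' hX hC (by omega) le_rfl]
    rw [show x + 2 - 1 = x + 1 by omega]

/-- no end of the first domain is in the run -/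
lemma notE (hX' : Good adj (X.dn R)) (hD' : Dom1 (X.dn R) T' g') {E : Set (Half ZT)}
    (hEB : ∀ u, u ∈ E → Bd T g u → u.1 ∈ winLF X k x y → u = zz x y) :
    ∀ i, 1 ≤ i → i ≤ 3 → (next g)^[i] (tl lo k y (k, x - 2, X.b k), .S) ∉ E := by
  have hR := hF.run hX hC hD hX' hD'
  have hG := hD.isGlu
  intro i hi hi' h
  have h1 := hEB _ h (hG.bd_iter hR.p_bd i) (hR.ins i hi hi')
  have h2 : ((next g)^[i] (tl lo k y (k, x - 2, X.b k), .S)).2 = .S := by
    interval_cases i
    · rw [hF.it1 hX hC hD]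
    · rw [hF.it2 hX hC hD]
    · rw [hF.it3 hX hC hD]
  rw [h1] at h2
  exact Dir.noConfusion h2

/-- exactly one end of the second domain is in the run -/
lemma inE (hX' : Good adj (X.dn R)) (hD' : Dom1 (X.dn R) T' g') {E' : Set (Half (ℤ × ℤ))} {a : ℕ}
    {i0 : ℤ} (ha : (a = 1 ∧ i0 = x - 1) ∨ (a = 2 ∧ i0 = x)) (he : ((i0, X.b k), Dir.S) ∈ E')
    (hEB' : ∀ u, u ∈ E' → Bd T' g' u → u.1 ∈ winLF' X k x y → u = ((i0, X.b k), Dir.S)) :
    (∀ i, 1 ≤ i → i ≤ 2 →
      ((next g')^[i] (hmap (mvF X k lo x y R) (tl lo k y (k, x - 2, X.b k), .S)) ∈ E' ↔ i = a)) ∧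
      (next g')^[a] (hmap (mvF X k lo x y R) (tl lo k y (k, x - 2, X.b k), .S)) =
        ((i0, X.b k), Dir.S) := by
  have hR := hF.run hX hC hD hX' hD'
  have hS := hF.same hX hX' hC hD hD'
  have hG := hD.isGlu
  have hG' := hD'.isGlu
  have hp := hF.map_s hX hC (lo := lo) (y := y) (i := x - 2) (by omega) (by omega)
  have hpb' : Bd T' g' (hmap (mvF X k lo x y R) (tl lo k y (k, x - 2, X.b k), .S)) :=
    (hS.bd_iff hG (Finset.mem_sdiff.2 ⟨hR.p_bd.1, hR.p_out⟩)).2 hR.p_bd
  have hEE' : ∀ i, 1 ≤ i → i ≤ 2 →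
      ((next g')^[i] (hmap (mvF X k lo x y R) (tl lo k y (k, x - 2, X.b k), .S)) ∈ E' ↔
        (next g')^[i] (hmap (mvF X k lo x y R) (tl lo k y (k, x - 2, X.b k), .S)) =
          ((i0, X.b k), Dir.S)) := by
    intro i hi hi'
    constructor
    · intro h
      exact hEB' _ h (hG'.bd_iter hpb' i) (hR.ins' i hi hi')
    · intro h
      rw [h]
      exact he
  have hne : ∀ {i i' : ℤ}, i ≠ i' →
      (((i, X.b k), Dir.S) : Half (ℤ × ℤ)) ≠ ((i', X.b k), Dir.S) := fun h h' =>
    h (congrArg (fun u : Half (ℤ × ℤ) => u.1.1) h')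
  refine ⟨fun i hi hi' => ?_, ?_⟩
  · rw [hEE' i hi hi', hp]
    rcases ha with ⟨rfl, rfl⟩ | ⟨rfl, rfl⟩
    · interval_cases i
      · rw [hF.it1' hX hC hX' hD']
        simp
      · rw [hF.it2' hX hC hX' hD']
        exact ⟨fun h => absurd h (hne (by omega)), fun h => absurd h (by decide)⟩
    · interval_cases i
      · rw [hF.it1' hX hC hX' hD']
        exact ⟨fun h => absurd h (hne (by omega)), fun h => absurd h (by decide)⟩
      · rw [hF.it2' hX hC hX' hD']
        simp
  · rw [hp]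
    rcases ha with ⟨rfl, rfl⟩ | ⟨rfl, rfl⟩
    · rw [hF.it1' hX hC hX' hD']
    · rw [hF.it2' hX hC hX' hD']

/-- **the last move with closed walls**: the end `z` and the end `e3` on the floor below it -/
theorem wall (hX' : Good adj (X.dn R)) (hD' : Dom1 (X.dn R) T' g') {E : Set (Half ZT)}
    {E' : Set (Half (ℤ × ℤ))} {i0 : ℤ} (hi0 : i0 = x - 1 ∨ i0 = x)
    (he : ((i0, X.b k), Dir.S) ∈ E')
    (hEB : ∀ u, u ∈ E → Bd T g u → u.1 ∈ winLF X k x y → u = zz x y)
    (hEB' : ∀ u, u ∈ E' → Bd T' g' u → u.1 ∈ winLF' X k x y → u = ((i0, X.b k), Dir.S))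
    (hEE : ∀ u, Bd T g u → u.1 ∉ winLF X k x y → (u ∈ E ↔ hmap (mvF X k lo x y R) u ∈ E'))
    (hM : Meets T g E) (hM' : Meets T' g' E') {w : Half ZT → Half ZT}
    {w' : Half (ℤ × ℤ) → Half (ℤ × ℤ)} (hw : IsW T g E w) (hw' : IsW T' g' E' w') :
    Same T w (winLF X k x y) T' w' (winLF' X k x y) (mvF X k lo x y R) := by
  have hR := hF.run hX hC hD hX' hD'
  have hS := hF.same hX hX' hC hD hD'
  obtain ⟨a, ha, ha1, ha2⟩ : ∃ a : ℕ, ((a = 1 ∧ i0 = x - 1) ∨ (a = 2 ∧ i0 = x)) ∧ 1 ≤ a ∧ a ≤ 2 := by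
    rcases hi0 with h | h
    · exact ⟨1, Or.inl ⟨rfl, h⟩, le_rfl, by norm_num⟩
    · exact ⟨2, Or.inr ⟨rfl, h⟩, by norm_num, le_rfl⟩
  exact hS.wall_run hD.isGlu hD'.isGlu hR (by decide) hM hM' (hF.notE hX hC hD hX' hD' hEB) ha1 ha2
    (hF.inE hX hC hD hX' hD' ha he hEB').1 hEE hw hw'

/-- **existence, forward**: one of the two positions of the end on the floor has the right parity -/
theorem exists_wall (hX' : Good adj (X.dn R)) (hD' : Dom1 (X.dn R) T' g') {E : Set (Half ZT)}
    {E' : ℤ → Set (Half (ℤ × ℤ))} (he : ∀ i0, i0 = x - 1 ∨ i0 = x → ((i0, X.b k), Dir.S) ∈ E' i0)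
    (hEB : ∀ u, u ∈ E → Bd T g u → u.1 ∈ winLF X k x y → u = zz x y)
    (hEB' : ∀ i0, i0 = x - 1 ∨ i0 = x →
      ∀ u, u ∈ E' i0 → Bd T' g' u → u.1 ∈ winLF' X k x y → u = ((i0, X.b k), Dir.S))
    (hEE : ∀ i0, i0 = x - 1 ∨ i0 = x →
      ∀ u, Bd T g u → u.1 ∉ winLF X k x y → (u ∈ E ↔ hmap (mvF X k lo x y R) u ∈ E' i0))
    (hM : Meets T g E) (hM' : ∀ i0, i0 = x - 1 ∨ i0 = x → Meets T' g' (E' i0))
    {w : Half ZT → Half ZT} (hw : IsW T g E w) :
    ∃ i0, (i0 = x - 1 ∨ i0 = x) ∧ ∃ w', IsW T' g' (E' i0) w' := by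
  have hR := hF.run hX hC hD hX' hD'
  have hS := hF.same hX hX' hC hD hD'
  obtain ⟨a, i0, ha, ha1, ha2, hpar⟩ : ∃ (a : ℕ) (i0 : ℤ),
      ((a = 1 ∧ i0 = x - 1) ∨ (a = 2 ∧ i0 = x)) ∧ 1 ≤ a ∧ a ≤ 2 ∧
        (Even (Build.ret (next g) E (tl lo k y (k, x - 2, X.b k), .S)) ↔ Even a) := by
    by_cases h : Even (Build.ret (next g) E (tl lo k y (k, x - 2, X.b k), .S))
    · exact ⟨2, x, Or.inr ⟨rfl, rfl⟩, by norm_num, le_rfl, iff_of_true h (by decide)⟩
    · exact ⟨1, x - 1, Or.inl ⟨rfl, rfl⟩, le_rfl, by norm_num, iff_of_false h (by decide)⟩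
  have hi0 : i0 = x - 1 ∨ i0 = x := ha.imp And.right And.right
  have hin := hF.inE hX hC hD hX' hD' ha (he i0 hi0) (hEB' i0 hi0)
  refine ⟨i0, hi0, hS.exists_wall hD.isGlu hD'.isGlu hR (by decide) hM (hM' i0 hi0)
    (hF.notE hX hC hD hX' hD' hEB) ha1 ha2 hin.1 (hEE i0 hi0) (fun e he1 he2 he3 => ?_) hpar hw⟩
  rw [hin.2]
  exact hEB' i0 hi0 e he2 he1 he3

/-- **existence, backward** -/
theorem exists_wall' (hX' : Good adj (X.dn R)) (hD' : Dom1 (X.dn R) T' g') {E : Set (Half ZT)}
    {E' : Set (Half (ℤ × ℤ))} {i0 : ℤ} (hi0 : i0 = x - 1 ∨ i0 = x)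
    (he : ((i0, X.b k), Dir.S) ∈ E') (hz : zz x y ∈ E)
    (hEB : ∀ u, u ∈ E → Bd T g u → u.1 ∈ winLF X k x y → u = zz x y)
    (hEB' : ∀ u, u ∈ E' → Bd T' g' u → u.1 ∈ winLF' X k x y → u = ((i0, X.b k), Dir.S))
    (hEE : ∀ u, Bd T g u → u.1 ∉ winLF X k x y → (u ∈ E ↔ hmap (mvF X k lo x y R) u ∈ E'))
    (hM : Meets T g E) (hM' : Meets T' g' E') {w' : Half (ℤ × ℤ) → Half (ℤ × ℤ)}
    (hw' : IsW T' g' E' w') : ∃ w, IsW T g E w := by
  have hR := hF.run hX hC hD hX' hD'
  have hS := hF.same hX hX' hC hD hD'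
  obtain ⟨a, ha, ha1, ha2⟩ : ∃ a : ℕ, ((a = 1 ∧ i0 = x - 1) ∨ (a = 2 ∧ i0 = x)) ∧ 1 ≤ a ∧ a ≤ 2 := by
    rcases hi0 with h | h
    · exact ⟨1, Or.inl ⟨rfl, h⟩, le_rfl, by norm_num⟩
    · exact ⟨2, Or.inr ⟨rfl, h⟩, by norm_num, le_rfl⟩
  exact hS.exists_wall' hD.isGlu hD'.isGlu hR (by decide) hM hM' (hF.notE hX hC hD hX' hD' hEB) ha1 ha2
    (hF.inE hX hC hD hX' hD' ha he hEB').1 hEE hz hw'

end Flr

end Full.Geo
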