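import Pool.Agent.Full.Geo.Dom1
import Pool.Agent.Full.Def.Shape

/-!
# The two-sheet domain near the end

`Mid X k x y`: the end `(x, y)` is inside the room `k`.  The corners near the end, `z_next`: the end is a
boundary cycle of length one.
-/

set_option autoImplicit false

namespace Full.Geo
open Function Full.Loc Full.Shape

variable {Q : Type*}

/-- the point `(x, y)` is inside the room `k` -/
structure Mid (X : Bxs Q) (k : Q) (x y : ℤ) : Prop where
  lx : X.l k + 3 ≤ x
  rx : x + 3 ≤ X.r k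
  yb : X.b k < y
  yt : y < X.t k

/-- interior corners of the two-sheet domain -/
theorem Dom2.corner {adj : Q → Q → Prop} {X : Bxs Q} {k : Q} {lo : Q → Prop} {x y : ℤ} {T : Finset ZT}
    {g : Half ZT → Half ZT} (hD : Dom2 X k lo x y T g) (hX : Good adj X) (hC : Cut adj k lo)
    (hb : X.b k < y) (ht : y < X.t k) {a b c d : Q × ℤ × ℤ} (ha : Val X k y a) (hb' : Val X k y b)
    (hc : Val X k y c) (hd : Val X k y d) (h1 : AdjE a b) (h2 : AdjN adj X k x y b c) (h3 : AdjE d c)
    (h4 : AdjN adj X k x y a d) : Corner4 g (tl lo k y a) (tl lo k y b) (tl lo k y c) (tl lo k y d) where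
  ab := hD.glue_adj hX hC hb ht ha hb' (d := .E) h1
  bc := hD.glue_adj hX hC hb ht hb' hc (d := .N) h2
  cd := hD.glue_adj hX hC hb ht hc hd (d := .W) h3
  da := hD.glue_adj hX hC hb ht hd ha (d := .S) h4

namespace Mid
variable {adj : Q → Q → Prop} {X : Bxs Q} {k : Q} {lo : Q → Prop} {x y : ℤ}
variable {T : Finset ZT} {g : Half ZT → Half ZT} (hF : Mid X k x y)
include hF

/-- places near the window -/
lemma valk {i j : ℤ} (h1 : x - 3 ≤ i) (h2 : i ≤ x + 2) (h3 : X.b k ≤ j) (h4 : j < X.t k) :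
    Val X k y (k, i, j) := by
  have e1 := hF.lx
  have e2 := hF.rx
  exact ⟨by simp only; omega, h3, h4, Or.inl (by simp only; omega)⟩

variable (hX : Good adj X) (hC : Cut adj k lo) (hD : Dom2 X k lo x y T g)
include hX hC hD

/-- an interior corner away from the line -/
lemma cor {i j : ℤ} (h1 : x - 3 ≤ i) (h2 : i ≤ x + 1) (h3 : X.b k ≤ j) (h4 : j + 1 < X.t k)
    (h5 : j + 1 ≠ y) : Corner4 g (tl lo k y (k, i, j)) (tl lo k y (k, i + 1, j))
      (tl lo k y (k, i + 1, j + 1)) (tl lo k y (k, i, j + 1)) :=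
  hD.corner hX hC hF.yb hF.yt (hF.valk h1 (by omega) h3 (by omega))
    (hF.valk (by omega) (by omega) h3 (by omega)) (hF.valk (by omega) (by omega) (by omega) h4)
    (hF.valk h1 (by omega) (by omega) h4) ⟨rfl, rfl, rfl⟩ (Or.inl ⟨rfl, rfl, Or.inl ⟨fun h => h5 h.2, rfl⟩⟩)
    ⟨rfl, rfl, rfl⟩ (Or.inl ⟨rfl, rfl, Or.inl ⟨fun h => h5 h.2, rfl⟩⟩)

/-- corners on the line to the left of the end -/
lemma corL {i : ℤ} (h1 : x - 3 ≤ i) (h2 : i + 1 < x) :
    Corner4 g (tl lo k y (k, i, y - 1)) (tl lo k y (k, i + 1, y - 1))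
      (tl lo k y (k, i + 1, y)) (tl lo k y (k, i, y)) := by
  have e3 := hF.yb
  have e4 := hF.yt
  exact hD.corner hX hC hF.yb hF.yt (hF.valk h1 (by omega) (by omega) (by omega))
    (hF.valk (by omega) (by omega) (by omega) (by omega)) (hF.valk (by omega) (by omega) (by omega) e4)
    (hF.valk h1 (by omega) (by omega) e4) ⟨rfl, rfl, rfl⟩
    (Or.inl ⟨rfl, by simp only; omega, Or.inr ⟨rfl, by simp only; omega, Or.inl ⟨h2, rfl⟩⟩⟩)
    ⟨rfl, rfl, rfl⟩
    (Or.inl ⟨rfl, by simp only; omega, Or.inr ⟨rfl, by simp only; omega, Or.inl ⟨by simp only; omega, rfl⟩⟩⟩)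

/-- corners on the line to the right of the end -/
lemma corR {i : ℤ} (h1 : x < i) (h2 : i ≤ x + 1) :
    Corner4 g (tl lo k y (k, i, y - 1)) (tl lo k y (k, i + 1, y - 1))
      (tl lo k y (k, i, y)) (tl lo k y (k, i - 1, y)) := by
  have e3 := hF.yb
  have e4 := hF.yt
  exact hD.corner hX hC hF.yb hF.yt (hF.valk (by omega) (by omega) (by omega) (by omega))
    (hF.valk (by omega) (by omega) (by omega) (by omega)) (hF.valk (by omega) (by omega) (by omega) e4)
    (hF.valk (by omega) (by omega) (by omega) e4) ⟨rfl, rfl, rfl⟩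
    (Or.inl ⟨rfl, by simp only; omega, Or.inr ⟨rfl, by simp only; omega, Or.inr ⟨by simp only; omega,
      by simp only; omega⟩⟩⟩)
    ⟨rfl, by simp only; omega, rfl⟩
    (Or.inl ⟨rfl, by simp only; omega, Or.inr ⟨rfl, by simp only; omega, Or.inr ⟨h1, rfl⟩⟩⟩)

lemma z_eq : zz x y = (tl lo k y (k, x, y - 1), .N) := by
  rw [tl_lo (Or.inr ⟨rfl, by omega⟩)]
  rfl

lemma z_fix : g (zz x y) = zz x y := by
  have e1 := hF.yb
  have e2 := hF.yt
  rw [hF.z_eq hX hC hD]
  rcases hD.glue_cases hX hC hF.yb hF.yt (hF.valk (i := x) (j := y - 1) (by omega) (by omega) (by omega)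
    (by omega)) .N with ⟨w, h3, h4, -⟩ | h
  · exfalso
    rcases h4 with ⟨h5, h6, ⟨h7, -⟩ | ⟨-, -, h7 | h7⟩⟩ | ⟨h5, h6, h7, h8⟩
    · exact h7 ⟨rfl, by simp only; omega⟩
    · simp only at h7; omega
    · simp only at h7; omega
    · simp only at h6; omega
  · exact h.2

lemma z_bd : Bd T g (zz x y) := by
  have e1 := hF.yb
  have e2 := hF.yt
  refine ⟨?_, hF.z_fix hX hC hD⟩
  rw [hF.z_eq hX hC hD]
  exact hD.mem_tl (hF.valk (by omega) (by omega) (by omega) (by omega))

lemma z_next : next g (zz x y) = zz x y := by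
  have e1 := hF.yb
  have e2 := hF.yt
  have hz := hF.z_fix hX hC hD
  have hG := hD.isGlu
  have a1 : g (tl lo k y (k, x, y - 1), .W) = (tl lo k y (k, x - 1, y - 1), .E) :=
    hD.glue_adj hX hC hF.yb hF.yt (hF.valk (by omega) (by omega) (by omega) (by omega))
      (hF.valk (by omega) (by omega) (by omega) (by omega)) (d := .W) ⟨rfl, by simp only; omega, rfl⟩
  have a2 : g (tl lo k y (k, x - 1, y - 1), .N) = (tl lo k y (k, x - 1, y), .S) :=
    hD.glue_adj hX hC hF.yb hF.yt (hF.valk (by omega) (by omega) (by omega) (by omega))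
      (hF.valk (by omega) (by omega) (by omega) (by omega)) (d := .N)
      (Or.inl ⟨rfl, by simp only; omega, Or.inr ⟨rfl, by simp only; omega, Or.inl ⟨by simp only; omega, rfl⟩⟩⟩)
  have a3 : g (tl lo k y (k, x - 1, y), .E) = (tl lo k y (k, x, y), .W) :=
    hD.glue_adj hX hC hF.yb hF.yt (hF.valk (by omega) (by omega) (by omega) (by omega))
      (hF.valk (by omega) (by omega) (by omega) (by omega)) (d := .E) ⟨rfl, by simp only; omega, rfl⟩
  have a4 : g (tl lo k y (k, x, y), .S) = (tl lo k y (k, x + 1, y - 1), .N) :=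
    hD.glue_adj hX hC hF.yb hF.yt (hF.valk (by omega) (by omega) (by omega) (by omega))
      (hF.valk (by omega) (by omega) (by omega) (by omega)) (d := .S)
      (Or.inl ⟨rfl, by simp only; omega, Or.inr ⟨rfl, by simp only; omega, Or.inr ⟨by simp only; omega,
        by simp only; omega⟩⟩⟩)
  have a5 : g (tl lo k y (k, x + 1, y - 1), .W) = (tl lo k y (k, x, y - 1), .E) :=
    hD.glue_adj hX hC hF.yb hF.yt (hF.valk (by omega) (by omega) (by omega) (by omega))
      (hF.valk (by omega) (by omega) (by omega) (by omega)) (d := .W) ⟨rfl, rfl, rfl⟩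
  have hze := hF.z_eq hX hC hD
  have r1 : rot g (zz x y) = (tl lo k y (k, x, y - 1), .W) := by
    show rho (g (zz x y)) = _
    rw [hz, hze]
    rfl
  have r2 : rot g (tl lo k y (k, x, y - 1), .W) = (tl lo k y (k, x - 1, y - 1), .N) := by
    show rho (g (tl lo k y (k, x, y - 1), .W)) = _
    rw [a1]
    rfl
  have r3 : rot g (tl lo k y (k, x - 1, y - 1), .N) = (tl lo k y (k, x - 1, y), .E) := by
    show rho (g (tl lo k y (k, x - 1, y - 1), .N)) = _
    rw [a2]
    rfl
  have r4 : rot g (tl lo k y (k, x - 1, y), .E) = (tl lo k y (k, x, y), .S) := by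
    show rho (g (tl lo k y (k, x - 1, y), .E)) = _
    rw [a3]
    rfl
  have r5 : rot g (tl lo k y (k, x, y), .S) = (tl lo k y (k, x + 1, y - 1), .W) := by
    show rho (g (tl lo k y (k, x, y), .S)) = _
    rw [a4]
    rfl
  have r6 : rot g (tl lo k y (k, x + 1, y - 1), .W) = zz x y := by
    show rho (g (tl lo k y (k, x + 1, y - 1), .W)) = _
    rw [a5, hze]
    rfl
  have h6 : (rot g)^[6] (zz x y) = zz x y := by
    show rot g (rot g (rot g (rot g (rot g (rot g (zz x y)))))) = zz x y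
    rw [r1, r2, r3, r4, r5, r6]
  refine (next_of (k := 6) (by norm_num) (by rw [h6]; exact hz) fun j hj hj' => ?_).trans h6
  interval_cases j
  · show g (rot g (zz x y)) ≠ rot g (zz x y)
    rw [r1, a1]
    exact fun h => Dir.noConfusion (congrArg Prod.snd h)
  · show g (rot g (rot g (zz x y))) ≠ rot g (rot g (zz x y))
    rw [r1, r2, a2]
    exact fun h => Dir.noConfusion (congrArg Prod.snd h)
  · show g (rot g (rot g (rot g (zz x y)))) ≠ rot g (rot g (rot g (zz x y)))
    rw [r1, r2, r3, a3]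
    exact fun h => Dir.noConfusion (congrArg Prod.snd h)
  · show g (rot g (rot g (rot g (rot g (zz x y))))) ≠ rot g (rot g (rot g (rot g (zz x y))))
    rw [r1, r2, r3, r4, a4]
    exact fun h => Dir.noConfusion (congrArg Prod.snd h)
  · show g (rot g (rot g (rot g (rot g (rot g (zz x y)))))) ≠ rot g (rot g (rot g (rot g (rot g (zz x y)))))
    rw [r1, r2, r3, r4, r5, a5]
    exact fun h => Dir.noConfusion (congrArg Prod.snd h)

end Mid

end Full.Geo
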