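import Pool.Agent.Full.Geo.SameZ
import Pool.Agent.Full.Geo.WallsF
import Pool.Agent.Full.Loc.WallT
import Pool.Agent.Full.Loc.Pair
import Pool.Agent.Full.P5.Obs

/-!
# Shapes: moving the interior end, closed walls and the observable
-/

set_option autoImplicit false

namespace Full.Geo
open Function Relation Full.Shape Full.Loc Full.P5
open Pool.Agent.Helper69.RSW (P P_mono)

variable {S : Shape} {m : S.Marks} {n : ℕ}

/-- `w` is the closed wall with the ends `z`, `e 0`, `e 1`, `e 2`, for arbitrary shifts -/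
def IsWs (m : S.Marks) (n : ℕ) (s : S.Q × Bool → ℕ) (σ : Fin 4 → ℕ) (q : S.Q) (x y : ℤ)
    (w : Half ZT → Half ZT) : Prop :=
  IsW (S.zT n s q y) (S.zg n s q x y) ({zz x y} ∪ Set.range fun j : Fin 3 => m.ez n σ q j.castSucc) w

lemma ez_dir (hm : m.Ok) (σ : Fin 4 → ℕ) (q : S.Q) (j : Fin 4) : (m.ez n σ q j).2 = .S := by
  unfold Marks.ez
  rw [dir_eq hm]
  split_ifs <;> rfl

lemma ez_ne_zz (hm : m.Ok) (σ : Fin 4 → ℕ) (q : S.Q) (j : Fin 4) (x y : ℤ) :
    m.ez n σ q j ≠ zz x y := by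
  intro h
  have h1 := ez_dir (n := n) hm σ q j
  rw [h] at h1
  exact Dir.noConfusion h1

section
variable {s : S.Q × Bool → ℕ} {σ : Fin 4 → ℕ} {q : S.Q} {x y : ℤ}

/-- the boundary of the domain meets the ends -/
theorem meets_z (hS : S.Ok) (hm : m.Ok) (hs : S.Small n s) (hσ : ∀ j, 4 * σ j ≤ n) (h : S.In n s q x y) :
    Meets (S.zT n s q y) (S.zg n s q x y) ({zz x y} ∪ Set.range fun j : Fin 3 => m.ez n σ q j.castSucc) := by
  intro u hu
  by_cases hz : u = zz x y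
  · refine ⟨1, le_rfl, Or.inl ?_⟩
    rw [hz]
    exact next_z hS hs.two q h.1.1 h.1.2 h.2.1 h.2.2
  · have hL := labCyc_z hS hm hs hσ h
    obtain ⟨k, h1, h2⟩ := hL.reach (u := u) ⟨hu, hz⟩ (hL.mem 0)
    exact ⟨k, h1, Or.inr ⟨0, h2.symm⟩⟩

/-- closed walls exist iff the shifts are admissible -/
theorem isWs_adm (hS : S.Ok) (hm : m.Ok) (hs : S.Small n s) (hσ : ∀ j, 4 * σ j ≤ n) (h : S.In n s q x y) :
    (∃ w, IsWs m n s σ q x y w) ↔ Adm m n σ q :=
  isWz_iff hS hs.two (tree hS) hm h.1.1.le h.1.2.le h.2.1 h.2.2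
    (next_z hS hs.two q h.1.1 h.1.2 h.2.1 h.2.2) (labCyc_z hS hm hs hσ h) (labz_right hS hs.two h)

/-- the marks are boundary half edges -/
lemma bd_ez (hS : S.Ok) (hm : m.Ok) (hs : S.Small n s) (hσ : ∀ j, 4 * σ j ≤ n) (h : S.In n s q x y)
    (j : Fin 4) : Bd (S.zT n s q y) (S.zg n s q x y) (m.ez n σ q j) :=
  (ez_spec hS hm hs.two hσ h j).1

end

section move
variable {s s' : S.Q × Bool → ℕ} {σ σ' : Fin 4 → ℕ} {k k' : S.Q} {x y x' y' r : ℤ} {B B' : Finset ZT}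
  {φ : ZT → ZT} (hM : MoveZ S m n k x y s σ k' x' y' s' σ' r B B' φ)
include hM

/-- the marks are outside the window -/
lemma MoveZ.mark_out (hm : m.Ok) (hb : ∀ j, Bd (S.zT n s k y) (S.zg n s k x y) (m.ez n σ k j)) (j : Fin 4) :
    (m.ez n σ k j).1 ∉ B := fun h => ez_ne_zz hm σ k j x y (hM.bd _ h (hb j).2)

/-- **transport of the closed wall** -/
theorem MoveZ.wall (hm : m.Ok) (hb : ∀ j, Bd (S.zT n s k y) (S.zg n s k x y) (m.ez n σ k j))
    {w : Half ZT → Half ZT} (hw : IsWs m n s σ k x y w) :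
    ∃ w', IsWs m n s' σ' k' x' y' w' ∧ Loc.Same (S.zT n s k y) w B (S.zT n s' k' y') w' B' φ := by
  refine hM.same.wall_reg (Surf.glu _ _) (Surf.glu _ _) hM.bd hM.bd' hM.reg (Or.inl rfl) (Or.inl rfl) ?_ hw
  intro u hu huB
  have hu' : u.1 ∈ S.zT n s k y \ B := Finset.mem_sdiff.2 ⟨hu.1, huB⟩
  constructor
  · rintro (h | ⟨j, h⟩)
    · rw [show u = zz x y from h] at huB
      exact absurd hM.z huB
    · exact Or.inr ⟨j, by rw [← h]; exact (hM.mark _).symm⟩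
  · rintro (h | ⟨j, h⟩)
    · have h1 := hM.same.mem' hu'
      have h2 : (hmap φ u).1 = (zz x' y').1 := congrArg Prod.fst h
      have h3 : φ u.1 = (zz x' y').1 := h2
      rw [h3] at h1
      exact absurd hM.z' (Finset.mem_sdiff.1 h1).2
    · refine Or.inr ⟨j, ?_⟩
      have h1 : hmap φ (m.ez n σ k j.castSucc) = hmap φ u := by rw [hM.mark]; exact h
      exact hM.same.hmap_inj (Finset.mem_sdiff.2 ⟨(hb _).1, hM.mark_out hm hb _⟩) hu' h1

end move

/-- the criterion is linear in the shifts of the marks -/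
lemma adm_lin (hm : m.Ok) {σ σ' v : Fin 4 → ℕ} {k k' : S.Q} (h1 : Adm m n σ k)
    (h2 : Adm m n (fun j => σ j + v j) k') : Adm m n σ' k ↔ Adm m n (fun j => σ' j + v j) k' := by
  unfold Adm at h1 h2 ⊢
  rw [mpar_eq hm, mpar_eq hm, mpar_eq hm] at h1 h2 ⊢
  rw [mpar_eq hm, mpar_eq hm, mpar_eq hm]
  push_cast at h1 h2 ⊢
  generalize (if m.wr k = 0 then (1 : ℤ) else 0) = a0 at *
  generalize (if m.wr k = 1 then (1 : ℤ) else 0) = a1 at *
  generalize (if m.wr k' = 0 then (1 : ℤ) else 0) = b0 at *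
  generalize (if m.wr k' = 1 then (1 : ℤ) else 0) = b1 at *
  constructor <;> rintro ⟨h3, h4⟩ <;> constructor <;> omega

/-- the admissible shifts correspond -/
theorem adm_move (hS : S.Ok) (hm : m.Ok) (hn : 8 ≤ n) {k k' : S.Q} {x y x' y' r : ℤ}
    {u : S.Q × Bool → ℕ} {v : Fin 4 → ℕ} (hu : ∀ i, u i ≤ 1) (hv : ∀ j, v j ≤ 1)
    (hin : ∀ s, S.Small n s → S.In n s k x y) (hin' : ∀ s, S.Small n s → S.In n s k' x' y')
    (hM : ∀ (s : S.Q × Bool → ℕ) (σ : Fin 4 → ℕ), S.Small2 n s → S.Small2 n (fun i => s i + u i) →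
        (∀ j, 2 * σ j ≤ n) → (∀ j, 2 * (σ j + v j) ≤ n) →
        ∃ B B' φ, MoveZ S m n k x y s σ k' x' y' (fun i => s i + u i) (fun j => σ j + v j) r B B' φ)
    (σ : Fin 4 → ℕ) : Adm m n σ k ↔ Adm m n (fun j => σ j + v j) k' := by
  obtain ⟨c, hc⟩ := exists_adm hm hn k
  refine adm_lin hm hc ?_
  have hs0 : S.Small n (fun _ => 0) := ⟨hn, fun _ => Nat.zero_le _⟩
  have hs1 : S.Small n (fun i => 0 + u i) := ⟨hn, fun i => by
    have := hu i
    show 4 * (0 + u i) ≤ n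
    omega⟩
  have hc0 : ∀ j, 4 * (c j : ℕ) ≤ n := fun j => by have := (c j).2; omega
  have hc1 : ∀ j, 4 * ((c j : ℕ) + v j) ≤ n := fun j => by
    have := (c j).2
    have := hv j
    omega
  obtain ⟨B, B', φ, h⟩ := hM (fun _ => 0) (fun j => c j) hs0.two hs1.two (fun j => by have := hc0 j; omega)
    (fun j => by have := hc1 j; omega)
  obtain ⟨w, hw⟩ := (isWs_adm hS hm hs0 hc0 (hin _ hs0)).2 hc
  obtain ⟨w', hw', -⟩ := h.wall hm (bd_ez hS hm hs0 hc0 (hin _ hs0)) hw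
  exact (isWs_adm hS hm hs1 hc1 (hin' _ hs1)).1 ⟨w', hw'⟩

section obs
variable {τ τ' : Type*} [DecidableEq τ] [DecidableEq τ']

lemma norm_obs_sub_le {T : Finset τ} {w : Half τ → Half τ} {z : Half τ} {e : Fin 3 → Half τ}
    {T' : Finset τ'} {w' : Half τ' → Half τ'} {z' : Half τ'} {e' : Fin 3 → Half τ'} {K : ℝ}
    (h : ∀ j, |P T (fun ω => other (mate ω) w z = e j) - P T' (fun ω => other (mate ω) w' z' = e' j)| ≤ K) :
    ‖obs T w z e - obs T' w' z' e'‖ ≤ 3 * K := by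
  unfold obs
  rw [← Finset.sum_sub_distrib]
  refine (norm_sum_le _ _).trans ?_
  calc ∑ j : Fin 3, ‖Complex.exp (2 * Real.pi * Complex.I / 3) ^ (j : ℕ) *
        ((P T (fun ω => other (mate ω) w z = e j) : ℝ) : ℂ) -
        Complex.exp (2 * Real.pi * Complex.I / 3) ^ (j : ℕ) *
        ((P T' (fun ω => other (mate ω) w' z' = e' j) : ℝ) : ℂ)‖ ≤ ∑ _j : Fin 3, K := by
        refine Finset.sum_le_sum fun j _ => ?_
        rw [← mul_sub, norm_mul, exp_eq_tau, norm_pow, norm_tau, one_pow, one_mul, ← Complex.ofReal_sub,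
          Complex.norm_real]
        exact h j
    _ = 3 * K := by simp

end obs

/-- **the observable is nearly the same after the move** -/
theorem obs_move : ∃ C c : ℝ, 1 ≤ C ∧ 0 < c ∧ ∀ {S : Shape} {m : S.Marks} {n : ℕ} (_ : S.Ok) (_ : m.Ok)
    {s s' : S.Q × Bool → ℕ} {σ σ' : Fin 4 → ℕ} {k k' : S.Q} {x y x' y' r R : ℤ} {B B' : Finset ZT}
    {φ : ZT → ZT} (_ : S.Small n s) (_ : S.Small n s') (_ : ∀ j, 4 * σ j ≤ n) (_ : ∀ j, 4 * σ' j ≤ n)
    (_ : S.In n s k x y) (_ : S.In n s' k' x' y')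
    (_ : MoveZ S m n k x y s σ k' x' y' s' σ' r B B' φ)
    (_ : ChartD (S.zT n s k y) (S.zg n s k x y) R (chz x y) (zz x y)) (_ : 0 ≤ r) (_ : r + 1 ≤ R)
    {w w' : Half ZT → Half ZT} (_ : IsWs m n s σ k x y w) (_ : IsWs m n s' σ' k' x' y' w'),
    ‖obs (S.zT n s k y) w (zz x y) (fun j => m.ez n σ k j.castSucc) -
      obs (S.zT n s' k' y') w' (zz x' y') (fun j => m.ez n σ' k' j.castSucc)‖ ≤
      C * (((r + 1 : ℤ) : ℝ) / R) ^ c := by
  obtain ⟨C, c, hC, hc, harm⟩ := armC_wall_le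
  refine ⟨6 * C, c, by linarith, hc, ?_⟩
  intro S m n hS hm s s' σ σ' k k' x y x' y' r R B B' φ hs hs' hσ hσ' hin hin' hM hch hr hR w w' hw hw'
  have hb := bd_ez hS hm hs hσ hin
  obtain ⟨w'', hw'', hsame⟩ := hM.wall hm hb hw
  obtain rfl : w' = w'' := hw'.eq_of (Surf.glu _ _) (meets_z hS hm hs' hσ' hin') hw''
  obtain ⟨lab, l1, l2, l3, -⟩ := lab_z hS hm hs hσ hin
  obtain ⟨lab', l1', l2', l3', -⟩ := lab_z hS hm hs' hσ' hin'
  have h₁ := (zlab hS hs hin l1 l2 l3 hw).mk'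
  have h₂ := (zlab hS hs' hin' l1' l2' l3' hw').mk'
  have hwz : w (zz x y) = zz x y := h₁.bz.2
  have hcw := hch.wall (w := w) hw.toWall.ext hwz
  have key : P (S.zT n s k y) (Arm1 (S.zT n s k y) w (zz x y) (fun j => m.ez n σ k j.castSucc) B) ≤
      C * (((r + 1 : ℤ) : ℝ) / R) ^ c := by
    refine le_trans (P_mono fun ω _ h => ?_) (harm h₁.glu hch hw.toWall.ext hwz (by omega) hR)
    refine armC_of_arm1 h₁.glu hcw (by omega) hR ?_ ?_ h₁ hM.z h
    · intro t ht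
      rw [add_sub_cancel_right]
      exact hM.win t ht
    · intro i c hc h
      exact ez_ne_zz hm σ k _ x y (hch.bd (x := m.ez n σ k i.castSucc) ⟨c, hc, h⟩ (hb _).2)
  have h3 := norm_obs_sub_le (T := S.zT n s k y) (w := w) (z := zz x y)
    (e := fun j => m.ez n σ k j.castSucc) (T' := S.zT n s' k' y') (w' := w') (z' := zz x' y')
    (e' := fun j => m.ez n σ' k' j.castSucc) (K := 2 * (C * (((r + 1 : ℤ) : ℝ) / R) ^ c)) fun j => by
      refine (hsame.pair_le h₁ h₂ hM.z hM.z' (fun i => (hM.mark _).symm)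
        (fun i => hM.mark_out hm hb _) j).trans ?_
      exact mul_le_mul_of_nonneg_left key (by norm_num)
  calc _ ≤ _ := h3
    _ = 6 * C * (((r + 1 : ℤ) : ℝ) / R) ^ c := by ring

end Full.Geo
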