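import Pool.Agent.Full.Geo.Rooms

/-!
# Shapes: the rooms form a tree

In a simply connected shape the parts attached to the ceiling and to the floor of a room are disjoint.
-/

set_option autoImplicit false

open Function Relation

namespace Full

/-- in a simply connected plane region a union `R` of maximal horizontal rows of tiles separates: there is
a function of the tiles which changes only at the lower sides of the tiles of `R` -/
theorem exists_sep_row {T : Finset (ℤ × ℤ)} (hsc : SC T (plane.glue T)) (R : Set (ℤ × ℤ))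
    (hrow : ∀ i j : ℤ, (i, j) ∈ T → (i + 1, j) ∈ T → ((i, j) ∈ R ↔ (i + 1, j) ∈ R)) :
    ∃ F : ℤ × ℤ → ZMod 2, (∀ i j : ℤ, (i, j) ∈ T → (i + 1, j) ∈ T → F (i + 1, j) = F (i, j)) ∧
      (∀ i j : ℤ, (i, j) ∈ T → (i, j + 1) ∈ T → (i, j + 1) ∉ R → F (i, j + 1) = F (i, j)) ∧
      ∀ i j : ℤ, (i, j) ∈ T → (i, j + 1) ∈ T → (i, j + 1) ∈ R → F (i, j + 1) = F (i, j) + 1 := by
  classical
  set χ : Half (ℤ × ℤ) → ZMod 2 := fun x => if x.1 ∈ R ∧ x.2.hor = true then 1 else 0 with hχ
  have gE : ∀ i j : ℤ, (i, j) ∈ T → (i + 1, j) ∈ T → plane.glue T ((i, j), .E) = ((i + 1, j), .W) := by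
    intro i j h1 h2
    have e : ((i, j) : ℤ × ℤ) + Dir.E.vec = (i + 1, j) := by ext <;> simp [Dir.vec]
    rw [plane_glue, e, if_pos ⟨h1, h2⟩]
    rfl
  have gN : ∀ i j : ℤ, (i, j) ∈ T → (i, j + 1) ∈ T → plane.glue T ((i, j), .N) = ((i, j + 1), .S) := by
    intro i j h1 h2
    have e : ((i, j) : ℤ × ℤ) + Dir.N.vec = (i, j + 1) := by ext <;> simp [Dir.vec]
    rw [plane_glue, e, if_pos ⟨h1, h2⟩]
    rfl
  obtain ⟨c, hc, hc'⟩ := hsc χ (by
    rintro ⟨⟨i, j⟩, d⟩
    rw [plane_glue]
    split_ifs with h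
    · obtain ⟨h1, h2⟩ := h
      simp only [hχ]
      cases d with
      | E =>
        have e : ((i, j) : ℤ × ℤ) + Dir.E.vec = (i + 1, j) := by ext <;> simp [Dir.vec]
        rw [e] at h2 ⊢
        have h3 := hrow i j h1 h2
        simp only [Dir.opp, Dir.hor, h3]
      | W =>
        have e : ((i, j) : ℤ × ℤ) + Dir.W.vec = (i - 1, j) := by ext <;> simp [Dir.vec, sub_eq_add_neg]
        rw [e] at h2 ⊢
        have h3 := hrow (i - 1) j h2 (by rw [sub_add_cancel]; exact h1)
        rw [sub_add_cancel] at h3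
        simp only [Dir.opp, Dir.hor, h3]
      | N => simp [Dir.opp, Dir.hor]
      | S => simp [Dir.opp, Dir.hor]
    · rfl) (by
    intro t _
    rw [Dir.sum_dir]
    simp only [hχ, Dir.hor]
    by_cases h : t ∈ R
    · simp [h]
      decide
    · simp [h])
  -- the value at the upper corners
  have c1 : ∀ t ∈ T, c (t, .W) = c (t, .N) := by
    intro t ht
    have := hc' (t, .N) ht
    simp only [hχ, Dir.hor] at this
    simpa [rho, Dir.ccw] using this
  have c2 : ∀ t ∈ T, c (t, .S) = c (t, .W) + if t ∈ R then 1 else 0 := by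
    intro t ht
    have := hc' (t, .W) ht
    simp only [hχ, Dir.hor, and_true] at this
    exact this
  refine ⟨fun t => c (t, .W), fun i j h1 h2 => ?_, fun i j h1 h2 h3 => ?_, fun i j h1 h2 h3 => ?_⟩
  · have h4 := hc ((i, j), .E) (by rw [gE i j h1 h2]; intro h; exact Dir.noConfusion (congrArg Prod.snd h))
    rw [gE i j h1 h2] at h4
    exact h4.trans (c1 _ h1).symm
  · have h4 := hc ((i, j), .N) (by rw [gN i j h1 h2]; intro h; exact Dir.noConfusion (congrArg Prod.snd h))
    rw [gN i j h1 h2] at h4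
    have h5 := c2 _ h2
    rw [if_neg h3, add_zero] at h5
    exact h5.symm.trans h4
  · have h4 := hc ((i, j), .N) (by rw [gN i j h1 h2]; intro h; exact Dir.noConfusion (congrArg Prod.snd h))
    rw [gN i j h1 h2] at h4
    have h5 := c2 _ h2
    rw [if_pos h3] at h5
    have h6 : c ((i, j + 1), Dir.S) = c ((i, j), Dir.W) := h4
    rw [h6] at h5
    show c ((i, j + 1), Dir.W) = c ((i, j), Dir.W) + 1
    rw [h5, add_assoc, show (1 : ZMod 2) + 1 = 0 by decide, add_zero]

namespace Shape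
variable {S : Shape} {n : ℕ} {s : S.Q × Bool → ℕ}

lemma room_sub_T {q : S.Q} : S.room n s q ⊆ S.T n s := fun _ ht => mem_T.2 ⟨q, ht⟩

/-- the tiles next to a tile of a room, at the same height, are in the room -/
lemma room_row (hS : S.Ok) (hs : S.Small2 n s) {q : S.Q} {i i' j : ℤ} (h : (i, j) ∈ S.room n s q)
    (h' : (i', j) ∈ S.T n s) (h1 : i' - i ≤ 1) (h2 : i - i' ≤ 1) : (i', j) ∈ S.room n s q := by
  obtain ⟨p, hp⟩ := mem_T.1 h'
  rcases nb_room' hS hs h hp (by simp only; omega) (by simp only; omega) (by simp only; omega)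
    (by simp only; omega) with h3 | h3 | h3
  · rwa [h3]
  · exfalso
    have := on_ft (n := n) hS h3
    rw [mem_room] at h hp
    simp only at h hp
    omega
  · exfalso
    have := on_ft (n := n) hS h3
    rw [mem_room] at h hp
    simp only at h hp
    omega

/-- a function which is constant along the sides inside a room is constant in the room -/
lemma room_const (hS : S.Ok) (hs : S.Small2 n s) {X : Type*} (q : S.Q) (F : ℤ × ℤ → X)
    (h1 : ∀ i j : ℤ, (i, j) ∈ S.room n s q → (i + 1, j) ∈ S.room n s q → F (i + 1, j) = F (i, j))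
    (h2 : ∀ i j : ℤ, (i, j) ∈ S.room n s q → (i, j + 1) ∈ S.room n s q → F (i, j + 1) = F (i, j))
    {t : ℤ × ℤ} (ht : t ∈ S.room n s q) : F t = F (S.fl n s q, S.fb n q) := by
  have h3 := fl_lt_fr hS hs q
  have h4 := fb_lt_ft (n := n) hS hs.1 q
  have k1 : ∀ i : ℤ, S.fl n s q ≤ i → i < S.fr n s q → ∀ j, S.fb n q ≤ j → j < S.ft n q →
      F (i, j) = F (S.fl n s q, j) := by
    intro i hi
    induction i, hi using Int.leInduction with
    | base => intro _ _ _ _; rfl
    | succ i hi ih =>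
      intro hi' j hj hj'
      rw [h1 i j (mem_room.2 ⟨⟨hi, by simp only; omega⟩, hj, hj'⟩)
        (mem_room.2 ⟨⟨by simp only; omega, hi'⟩, hj, hj'⟩)]
      exact ih (by omega) j hj hj'
  have k2 : ∀ j : ℤ, S.fb n q ≤ j → j < S.ft n q →
      F (S.fl n s q, j) = F (S.fl n s q, S.fb n q) := by
    intro j hj
    induction j, hj using Int.leInduction with
    | base => intro _; rfl
    | succ j hj ih =>
      intro hj'
      rw [h2 (S.fl n s q) j (mem_room.2 ⟨⟨le_rfl, by simp only; omega⟩, hj, by simp only; omega⟩)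
        (mem_room.2 ⟨⟨le_rfl, by simp only; omega⟩, by simp only; omega, hj'⟩)]
      exact ih (by omega)
  obtain ⟨i, j⟩ := t
  rw [mem_room] at ht
  rw [k1 i ht.1.1 ht.1.2 j ht.2.1 ht.2.2, k2 j ht.2.1 ht.2.2]

/-- a common column of two rooms on top of each other -/
lemma on_col (hS : S.Ok) (hs : S.Small2 n s) {a b : S.Q} (h : S.On a b) : ∃ i : ℤ,
    (i, S.ft n a - 1) ∈ S.room n s a ∧ (i, S.ft n a) ∈ S.room n s b := by
  have h1 := on_ft (n := n) hS h
  have h2 := fl_lt_fr hS hs a
  have h3 := fb_lt_ft (n := n) hS hs.1 a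
  have h4 := fl_lt_fr hS hs b
  have h5 := fb_lt_ft (n := n) hS hs.1 b
  obtain ⟨k, ⟨-, h6, h7⟩ | ⟨-, h6, h7⟩⟩ := link_in hS hs h
  · refine ⟨S.fl n s a, mem_room.2 ?_, mem_room.2 ?_⟩
    · simp only; omega
    · simp only; omega
  · refine ⟨S.fl n s b, mem_room.2 ?_, mem_room.2 ?_⟩
    · simp only; omega
    · simp only; omega

/-- **the rooms form a tree** -/
theorem part_disj_of_sc (hS : S.Ok) (hs : S.Small2 n s) (hsc : SC (S.T n s) (plane.glue (S.T n s)))
    (q : S.Q) : Disjoint (S.part q false) (S.part q true) := by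
  obtain ⟨F, f1, f2, f3⟩ := exists_sep_row hsc {t | t ∈ S.room n s q ∧ t.2 = S.fb n q} (by
      intro i j h1 h2
      constructor
      · rintro ⟨h3, h4⟩
        exact ⟨room_row hS hs h3 h2 (by omega) (by omega), h4⟩
      · rintro ⟨h3, h4⟩
        exact ⟨room_row hS hs h3 h1 (by omega) (by omega), h4⟩)
  have hconst : ∀ (p : S.Q) {t : ℤ × ℤ}, t ∈ S.room n s p → F t = F (S.fl n s p, S.fb n p) := by
    intro p t ht
    refine room_const hS hs p F (fun i j h1 h2 => f1 i j (room_sub_T h1) (room_sub_T h2))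
      (fun i j h1 h2 => f2 i j (room_sub_T h1) (room_sub_T h2) ?_) ht
    rintro ⟨h3, h4⟩
    simp only at h4
    have h5 := room_unique hS hs h2 h3
    rw [h5, mem_room] at h1
    simp only at h1
    omega
  set G : S.Q → ZMod 2 := fun p => F (S.fl n s p, S.fb n p) with hG
  have g1 : ∀ a b, S.On a b → b ≠ q → G b = G a := by
    intro a b h hb
    obtain ⟨i, h1, h2⟩ := on_col hS hs h
    have h3 := f2 i (S.ft n a - 1) (room_sub_T h1) (by rw [sub_add_cancel]; exact room_sub_T h2) (by
      rw [sub_add_cancel]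
      rintro ⟨h3, -⟩
      exact hb (room_unique hS hs h2 h3))
    rw [sub_add_cancel, hconst b h2, hconst a h1] at h3
    exact h3
  have g2 : ∀ a, S.On a q → G q = G a + 1 := by
    intro a h
    obtain ⟨i, h1, h2⟩ := on_col hS hs h
    have h3 := f3 i (S.ft n a - 1) (room_sub_T h1) (by rw [sub_add_cancel]; exact room_sub_T h2) (by
      rw [sub_add_cancel]
      exact ⟨h2, on_ft hS h⟩)
    rw [sub_add_cancel, hconst q h2, hconst a h1] at h3
    exact h3
  have g3 : ∀ a p, ReflTransGen (fun u v => v ≠ q ∧ (S.On u v ∨ S.On v u)) a p → a ≠ q → G p = G a := by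
    intro a p h ha
    have : p ≠ q ∧ G p = G a := by
      induction h with
      | refl => exact ⟨ha, rfl⟩
      | tail _ h2 ih =>
        refine ⟨h2.1, ?_⟩
        rcases h2.2 with h3 | h3
        · rw [g1 _ _ h3 h2.1, ih.2]
        · rw [← g1 _ _ h3 ih.1, ih.2]
    exact this.2
  rw [Set.disjoint_left]
  rintro p ⟨a, h1, h2⟩ ⟨b, h3, h4⟩
  have h1' : S.On a q := by simpa using h1
  have h3' : S.On q b := by simpa using h3
  have h5 := g3 a p h2 h1'.ne
  have h6 := g3 b p h4 h3'.ne.symm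
  have h7 := g2 a h1'
  have h8 := g1 q b h3' h3'.ne.symm
  rw [h5, h8, h7] at h6
  have h9 : ∀ u : ZMod 2, u ≠ u + 1 := by decide
  exact h9 _ h6

end Shape
end Full
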