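import Pool.Agent.Full.Def.Shape

/-!
# Shapes: rooms
-/

set_option autoImplicit false

open Function Relation

namespace Full
namespace Shape

variable (S : Shape)

/-- the shifts of the vertical walls are at most a quarter of the mesh -/
def Small (n : ℕ) (s : S.Q × Bool → ℕ) : Prop := 8 ≤ n ∧ ∀ v, 4 * s v ≤ n

/-- the shifts of the vertical walls are at most half the mesh -/
def Small2 (n : ℕ) (s : S.Q × Bool → ℕ) : Prop := 8 ≤ n ∧ ∀ v, 2 * s v ≤ n

variable {S} {n : ℕ} {s : S.Q × Bool → ℕ}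

lemma Small.two (h : S.Small n s) : S.Small2 n s := ⟨h.1, fun v => by have := h.2 v; omega⟩

lemma Small.succ {s' : S.Q × Bool → ℕ} (h : S.Small n s) (h' : ∀ v, s' v ≤ s v + 1) : S.Small2 n s' :=
  ⟨h.1, fun v => by have := h.2 v; have := h' v; have := h.1; omega⟩

lemma mem_room {q : S.Q} {t : ℤ × ℤ} : t ∈ S.room n s q ↔
    (S.fl n s q ≤ t.1 ∧ t.1 < S.fr n s q) ∧ S.fb n q ≤ t.2 ∧ t.2 < S.ft n q := by
  unfold room
  obtain ⟨i, j⟩ := t
  exact mem_box

lemma mem_T {t : ℤ × ℤ} : t ∈ S.T n s ↔ ∃ q, t ∈ S.room n s q := by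
  unfold T
  rw [Finset.mem_biUnion]
  simp only [Finset.mem_univ, true_and]

lemma mem_side {q : S.Q} {b : Bool} {t : ℤ × ℤ} :
    t ∈ S.side n s q b ↔ ∃ p, p ∈ S.part q b ∧ t ∈ S.room n s p := by
  classical
  unfold side
  rw [Finset.mem_biUnion]
  simp only [Finset.mem_filter, Finset.mem_univ, true_and]

/-- `On` holds between rooms of different kinds -/
lemma not_on_self (a : S.Q) : ¬ S.On a a := by
  rcases a with r | k
  · exact fun h => h
  · exact fun h => h

lemma On.ne {a b : S.Q} (h : S.On a b) : a ≠ b := by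
  rintro rfl
  exact not_on_self a h

section
variable (hS : S.Ok) (hs : S.Small2 n s)
include hS

omit hS in
lemma fr_lt_fl (hs : S.Small2 n s) {a b : S.Q} (h : S.xr a < S.xl b) : S.fr n s a + 4 ≤ S.fl n s b := by
  have h1 := hs.1
  have h2 := hs.2 (a, true)
  have h3 : (n : ℤ) * (S.xl b - S.xr a) ≥ n * 1 := mul_le_mul_of_nonneg_left (by omega) (by omega)
  have h4 : (n : ℤ) * (S.xl b - S.xr a) = n * S.xl b - n * S.xr a := by ring
  unfold fr fl
  have h5 : (0 : ℤ) ≤ s (b, false) := by positivity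
  have h6 : 2 * (s (a, true) : ℤ) ≤ n := by exact_mod_cast h2
  have h7 : (8 : ℤ) ≤ n := by exact_mod_cast h1
  nlinarith

lemma fl_lt_fr (hs : S.Small2 n s) (q : S.Q) : S.fl n s q + 4 ≤ S.fr n s q := by
  have h0 := hS.x_lt q
  have h1 := hs.1
  have h2 := hs.2 (q, false)
  have h3 : (n : ℤ) * (S.xr q - S.xl q) ≥ n * 1 := mul_le_mul_of_nonneg_left (by omega) (by omega)
  have h4 : (n : ℤ) * (S.xr q - S.xl q) = n * S.xr q - n * S.xl q := by ring
  unfold fr fl
  have h5 : (0 : ℤ) ≤ s (q, true) := by positivity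
  have h6 : 2 * (s (q, false) : ℤ) ≤ n := by exact_mod_cast h2
  have h7 : (8 : ℤ) ≤ n := by exact_mod_cast h1
  nlinarith

omit hS in
lemma ft_lt_fb (hn : 8 ≤ n) {a b : S.Q} (h : S.yt a < S.yb b) : S.ft n a + 8 ≤ S.fb n b := by
  have h3 : (n : ℤ) * (S.yb b - S.yt a) ≥ n * 1 := mul_le_mul_of_nonneg_left (by omega) (by omega)
  have h4 : (n : ℤ) * (S.yb b - S.yt a) = n * S.yb b - n * S.yt a := by ring
  unfold ft fb
  have h7 : (8 : ℤ) ≤ n := by exact_mod_cast hn
  linarith

lemma fb_lt_ft (hn : 8 ≤ n) (q : S.Q) : S.fb n q + 8 ≤ S.ft n q := by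
  have h0 := hS.y_lt q
  have h3 : (n : ℤ) * (S.yt q - S.yb q) ≥ n * 1 := mul_le_mul_of_nonneg_left (by omega) (by omega)
  have h4 : (n : ℤ) * (S.yt q - S.yb q) = n * S.yt q - n * S.yb q := by ring
  unfold ft fb
  have h7 : (8 : ℤ) ≤ n := by exact_mod_cast hn
  linarith

lemma on_ft {a b : S.Q} (h : S.On a b) : S.ft n a = S.fb n b := by
  unfold ft fb
  rw [hS.on_y a b h]

include hs

/-- the rooms are disjoint -/
theorem room_disj {a b : S.Q} (h : a ≠ b) : Disjoint (S.room n s a) (S.room n s b) := by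
  rw [Finset.disjoint_left]
  intro t ht hu
  rw [mem_room] at ht hu
  by_cases h1 : S.On a b
  · have := on_ft (n := n) hS h1
    omega
  · by_cases h2 : S.On b a
    · have := on_ft (n := n) hS h2
      omega
    · rcases hS.sep a b h h1 h2 with h3 | h3 | h3 | h3
      · have := fr_lt_fl hs h3
        omega
      · have := fr_lt_fl hs h3
        omega
      · have := ft_lt_fb (S := S) hs.1 h3
        omega
      · have := ft_lt_fb (S := S) hs.1 h3
        omega

lemma room_unique {a b : S.Q} {t : ℤ × ℤ} (ha : t ∈ S.room n s a) (hb : t ∈ S.room n s b) : a = b := by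
  by_contra h
  exact Finset.disjoint_left.1 (room_disj hS hs h) ha hb

/-- neighbouring tiles are in the same room or in rooms on top of each other -/
theorem nb_room' {a b : S.Q} {t u : ℤ × ℤ} (ht : t ∈ S.room n s a) (hu : u ∈ S.room n s b)
    (h1 : u.1 - t.1 ≤ 3) (h2 : t.1 - u.1 ≤ 3) (h3 : u.2 - t.2 ≤ 3) (h4 : t.2 - u.2 ≤ 3) :
    a = b ∨ S.On a b ∨ S.On b a := by
  by_contra h
  push Not at h
  rw [mem_room] at ht hu
  rcases hS.sep a b h.1 h.2.1 h.2.2 with h5 | h5 | h5 | h5
  · have := fr_lt_fl hs h5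
    omega
  · have := fr_lt_fl hs h5
    omega
  · have := ft_lt_fb (S := S) hs.1 h5
    omega
  · have := ft_lt_fb (S := S) hs.1 h5
    omega

/-- neighbouring tiles are in the same room or in rooms on top of each other -/
theorem nb_room {a b : S.Q} {t u : ℤ × ℤ} (ht : t ∈ S.room n s a) (hu : u ∈ S.room n s b) (h : |u.1 - t.1| ≤ 1)
    (h' : |u.2 - t.2| ≤ 1) : a = b ∨ S.On a b ∨ S.On b a := by
  rw [abs_le] at h h'
  exact nb_room' hS hs ht hu (by omega) (by omega) (by omega) (by omega)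

/-- a link is strictly inside its two rows -/
theorem link_in {a b : S.Q} (h : S.On a b) :
    ∃ k : S.K, (a = .inr k ∧ S.fl n s b < S.fl n s a ∧ S.fr n s a < S.fr n s b) ∨
    (b = .inr k ∧ S.fl n s a < S.fl n s b ∧ S.fr n s b < S.fr n s a) := by
  have key : ∀ a b : S.Q, S.xl a < S.xl b → S.fl n s a < S.fl n s b := by
    intro a b h
    have h1 := hs.1
    have h2 := hs.2 (a, false)
    have h3 : (n : ℤ) * (S.xl b - S.xl a) ≥ n * 1 := mul_le_mul_of_nonneg_left (by omega) (by omega)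
    have h4 : (n : ℤ) * (S.xl b - S.xl a) = n * S.xl b - n * S.xl a := by ring
    unfold fl
    have h5 : (0 : ℤ) ≤ s (b, false) := by positivity
    have h6 : 2 * (s (a, false) : ℤ) ≤ n := by exact_mod_cast h2
    have h7 : (8 : ℤ) ≤ n := by exact_mod_cast h1
    nlinarith
  have key' : ∀ a b : S.Q, S.xr a < S.xr b → S.fr n s a < S.fr n s b := by
    intro a b h
    have h1 := hs.1
    have h2 := hs.2 (a, true)
    have h3 : (n : ℤ) * (S.xr b - S.xr a) ≥ n * 1 := mul_le_mul_of_nonneg_left (by omega) (by omega)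
    have h4 : (n : ℤ) * (S.xr b - S.xr a) = n * S.xr b - n * S.xr a := by ring
    unfold fr
    have h5 : (0 : ℤ) ≤ s (b, true) := by positivity
    have h6 : 2 * (s (a, true) : ℤ) ≤ n := by exact_mod_cast h2
    have h7 : (8 : ℤ) ≤ n := by exact_mod_cast h1
    nlinarith
  rcases a with r | k <;> rcases b with r' | k'
  · exact absurd h id
  · have h1 : S.dn k' = r := h
    subst h1
    exact ⟨k', Or.inr ⟨rfl, key _ _ (hS.dn_l k'), key' _ _ (hS.dn_r k')⟩⟩
  · have h1 : S.up k = r' := h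
    subst h1
    exact ⟨k, Or.inl ⟨rfl, key _ _ (hS.up_l k), key' _ _ (hS.up_r k)⟩⟩
  · exact absurd h id

end

/-- `q` is not in its parts -/
theorem not_mem_part (q : S.Q) (b : Bool) : q ∉ S.part q b := by
  rintro ⟨a, h1, h2⟩
  have h3 : a ≠ q := by
    rintro rfl
    cases b
    · exact not_on_self a (by simpa using h1)
    · exact not_on_self a (by simpa using h1)
  have key : ∀ p, ReflTransGen (fun u v => v ≠ q ∧ (S.On u v ∨ S.On v u)) a p → p ≠ q := by
    intro p hp
    cases hp with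
    | refl => exact h3
    | tail _ h => exact h.1
  exact key q h2 rfl

/-- a step stays in the part -/
lemma part_step {q p p' : S.Q} {b : Bool} (h : p ∈ S.part q b) (hp : p' ≠ q) (h' : S.On p p' ∨ S.On p' p) :
    p' ∈ S.part q b := by
  obtain ⟨a, h1, h2⟩ := h
  exact ⟨a, h1, h2.tail ⟨hp, h'⟩⟩

lemma part_of_on {q p : S.Q} (h : S.On q p) : p ∈ S.part q true := ⟨p, by simpa using h, .refl⟩

lemma part_of_on' {q p : S.Q} (h : S.On p q) : p ∈ S.part q false := ⟨p, by simpa using h, .refl⟩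

/-- every other room is in one of the parts -/
theorem part_cover (hS : S.Ok) (q p : S.Q) (h : p ≠ q) : p ∈ S.part q false ∨ p ∈ S.part q true := by
  have key : ∀ p, ReflTransGen (fun u v => S.On u v ∨ S.On v u) q p →
      p = q ∨ p ∈ S.part q false ∨ p ∈ S.part q true := by
    intro p hp
    induction hp with
    | refl => exact Or.inl rfl
    | @tail u v _ h2 ih =>
      by_cases hv : v = q
      · exact Or.inl hv
      · rcases ih with rfl | ih | ih
        · rcases h2 with h2 | h2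
          · exact Or.inr (Or.inr (part_of_on h2))
          · exact Or.inr (Or.inl (part_of_on' h2))
        · exact Or.inr (Or.inl (part_step ih hv h2))
        · exact Or.inr (Or.inr (part_step ih hv h2))
  exact (key p (hS.conn q p)).resolve_left h

theorem T_eq (hS : S.Ok) (q : S.Q) : S.T n s = S.side n s q false ∪ S.side n s q true ∪ S.room n s q := by
  ext t
  rw [Finset.mem_union, Finset.mem_union, mem_T, mem_side, mem_side]
  constructor
  · rintro ⟨p, hp⟩
    by_cases h : p = q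
    · subst h; exact Or.inr hp
    · rcases part_cover hS q p h with h1 | h1
      · exact Or.inl (Or.inl ⟨p, h1, hp⟩)
      · exact Or.inl (Or.inr ⟨p, h1, hp⟩)
  · rintro ((⟨p, -, hp⟩ | ⟨p, -, hp⟩) | hp)
    · exact ⟨p, hp⟩
    · exact ⟨p, hp⟩
    · exact ⟨q, hp⟩

end Shape
end Full
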