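import Pool.Agent.Full.Geo.Trip
import Pool.Agent.Full.Loc.Prob

/-!
# Moving the interior end

`z = (x, y)` in the room `k`, `z' = (x', y')` in the room `k'` which is above it (or equal to it): the
two-sheet domain of `z` with the coordinates `X` and the two-sheet domain of `z'` with the coordinates `X'`
are the same outside a window around the column of `z`.  `P`: the rooms of the column between `z` and `z'`,
`R`: the rooms which are attached to them on the right; they are moved by one column.
-/

set_option autoImplicit false

namespace Full.Geo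
open Function

variable {Q : Type*}

/-- the stack of rooms between `z` and `z'` -/
structure Stk (adj : Q → Q → Prop) (X : Bxs Q) (k k' : Q) (x y x' y' ρ : ℤ) (P R : Q → Prop) : Prop where
  pk : P k
  pk' : P k'
  dj : ∀ u, P u → ¬ R u
  col : ∀ u, P u → X.l u ≤ x ∧ x < X.r u
  low : ∀ u, P u → u ≠ k → y ≤ X.b u
  high : ∀ u, P u → u ≠ k' → X.t u ≤ y'
  yk : X.b k < y ∧ y < X.t k
  yk' : X.b k' < y' ∧ y' < X.t k'
  yy : y ≤ y'
  rr : ∀ {u v}, adj u v → ¬ P u → ¬ P v → (R u ↔ R v)
  up : ∀ {u v}, adj u v → P u → ¬ P v → (u = k' ∧ ¬ R v) ∨ (u ≠ k' ∧ R v ∧ x + ρ < X.l v) ∨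
    (u ≠ k' ∧ ¬ R v ∧ X.r v ≤ x - ρ)
  dn : ∀ {u v}, adj u v → ¬ P u → P v → (v = k ∧ ¬ R u) ∨ (v ≠ k ∧ R u ∧ x + ρ < X.l u) ∨
    (v ≠ k ∧ ¬ R u ∧ X.r u ≤ x - ρ)
  rho : x' - x < ρ ∧ x - x' < ρ

open Classical in
/-- the coordinates after the shift -/
noncomputable def Bxs.sh (X : Bxs Q) (k' : Q) (P R : Q → Prop) : Bxs Q where
  l u := X.l u + if R u then 1 else 0
  r u := X.r u + if R u ∨ (P u ∧ u ≠ k') then 1 else 0
  b := X.b
  t := X.t

open Classical in
/-- the shift of a place -/
noncomputable def shv (x y y' : ℤ) (P R : Q → Prop) (v : Q × ℤ × ℤ) : Q × ℤ × ℤ :=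
  (v.1, v.2.1 + (if R v.1 ∨ (P v.1 ∧ x ≤ v.2.1 ∧ y ≤ v.2.2 ∧ v.2.2 < y') then 1 else 0), v.2.2)

/-- the window -/
def Win (x y y' ρ : ℤ) (P : Q → Prop) (v : Q × ℤ × ℤ) : Prop :=
  P v.1 ∧ y - 1 ≤ v.2.2 ∧ v.2.2 ≤ y' ∧ x - ρ ≤ v.2.1 ∧ v.2.1 ≤ x + ρ

/-- the window in the second domain -/
def Win' (x y y' ρ : ℤ) (P : Q → Prop) (v : Q × ℤ × ℤ) : Prop :=
  P v.1 ∧ y - 1 ≤ v.2.2 ∧ v.2.2 ≤ y' ∧ x - ρ ≤ v.2.1 ∧
    (v.2.1 ≤ x + ρ ∨ (v.2.1 = x + ρ + 1 ∧ y ≤ v.2.2 ∧ v.2.2 < y'))

/-- neighbours in the direction `d` -/
def AdjD (adj : Q → Q → Prop) (X : Bxs Q) (k : Q) (x y : ℤ) : Dir → Q × ℤ × ℤ → Q × ℤ × ℤ → Prop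
  | .E, v, w => AdjE v w
  | .W, v, w => AdjE w v
  | .N, v, w => AdjN adj X k x y v w
  | .S, v, w => AdjN adj X k x y w v

theorem nb_iff {adj : Q → Q → Prop} {X : Bxs Q} {k : Q} {x y : ℤ} {lo : Q → Prop} (hX : Good adj X)
    (hC : Cut adj k lo) (hb : X.b k < y) (ht : y < X.t k) {v v' : Q × ℤ × ℤ}
    (h : Val X k y v) (h' : Val X k y v') (d : Dir) :
    (zsurf (X.l k) (X.r k) x y y y).nb d (tl lo k y v) = some (tl lo k y v') ↔
      AdjD adj X k x y d v v' := by
  cases d
  · exact nbE_iff hX h h'
  · exact nbN_iff hX hC hb ht h h'
  · rw [← Option.mem_def, Surf.mem_nb]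
    exact nbE_iff hX h' h
  · rw [← Option.mem_def, Surf.mem_nb]
    exact nbN_iff hX hC hb ht h' h

namespace Stk
variable {adj : Q → Q → Prop} {X : Bxs Q} {k k' : Q} {x y x' y' ρ : ℤ} {P R : Q → Prop}
  (hS : Stk adj X k k' x y x' y' ρ P R)
include hS

theorem sh_val {v : Q × ℤ × ℤ} (h : Val X k y v) : Val (X.sh k' P R) k' y' (shv x y y' P R v) := by
  classical
  obtain ⟨u, i, j⟩ := v
  obtain ⟨h1, h2, h3, h4⟩ := h
  simp only at h1 h2 h3 h4
  have e1 := hS.dj u
  have e2 := hS.low u
  have e3 := hS.high u
  have e4 := hS.yk
  have e5 := hS.yk'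
  have e6 := hS.yy
  have e7 := hS.col u
  have ek : u = k → P u := fun h => by rw [h]; exact hS.pk
  have ek' : u = k' → P u := fun h => by rw [h]; exact hS.pk'
  unfold Val shv Bxs.sh
  simp only
  by_cases hR : R u
  · have hP : ¬ P u := fun h => e1 h hR
    have hk : u ≠ k := fun h => hP (ek h)
    have hk' : u ≠ k' := fun h => hP (ek' h)
    simp only [hR, true_or, if_true]
    refine ⟨by omega, h2, h3, ?_⟩
    rcases h4 with h4 | h4
    · exact Or.inl (by omega)
    · exact absurd h4.1 hk
  · by_cases hP : P u
    · have e2' := e2 hP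
      have e3' := e3 hP
      have e7' := e7 hP
      by_cases hk : u = k
      · subst hk
        by_cases hk' : u = k'
        · subst hk'
          simp only [hR, false_or, hP, true_and, ne_eq, not_true, and_false, if_false, add_zero]
          split_ifs with hc
          · refine ⟨by omega, h2, h3, ?_⟩
            omega
          · refine ⟨by omega, h2, h3, ?_⟩
            omega
        · have := e3' hk'
          simp only [hR, false_or, hP, true_and, ne_eq, hk', not_false_eq_true, if_true, if_false, add_zero]
          split_ifs with hc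
          · refine ⟨by omega, h2, h3, ?_⟩
            omega
          · refine ⟨by omega, h2, h3, ?_⟩
            omega
      · have := e2' hk
        by_cases hk' : u = k'
        · subst hk'
          simp only [hR, false_or, hP, true_and, ne_eq, not_true, and_false, if_false, add_zero]
          have h4' : i < X.r u := h4.resolve_right fun h => hk h.1
          split_ifs with hc
          · refine ⟨by omega, h2, h3, ?_⟩
            omega
          · refine ⟨by omega, h2, h3, ?_⟩
            omega
        · have := e3' hk'
          have h4' : i < X.r u := h4.resolve_right fun h => hk h.1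
          simp only [hR, false_or, hP, true_and, ne_eq, hk', not_false_eq_true, if_true, if_false, add_zero]
          split_ifs with hc
          · refine ⟨by omega, h2, h3, Or.inl (by omega)⟩
          · refine ⟨by omega, h2, h3, Or.inl (by omega)⟩
    · have hk : u ≠ k := fun h => hP (ek h)
      have h4' : i < X.r u := h4.resolve_right fun h => hk h.1
      simp only [hR, hP, false_or, false_and, if_false, add_zero]
      exact ⟨h1, h2, h3, Or.inl h4'⟩

theorem win_sh {v : Q × ℤ × ℤ} : Win' x y y' ρ P (shv x y y' P R v) ↔ Win x y y' ρ P v := by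
  classical
  obtain ⟨u, i, j⟩ := v
  have e1 := hS.dj u
  have e8 := hS.rho
  unfold Win Win' shv
  simp only
  by_cases hP : P u
  · have hR : ¬ R u := e1 hP
    simp only [hP, hR, false_or, true_and]
    split_ifs with hc
    · constructor
      · rintro ⟨h1, h2, h3, h4⟩
        refine ⟨h1, h2, by omega, by omega⟩
      · rintro ⟨h1, h2, h3, h4⟩
        refine ⟨h1, h2, by omega, by omega⟩
    · constructor
      · rintro ⟨h1, h2, h3, h4⟩
        refine ⟨h1, h2, by omega, by omega⟩
      · rintro ⟨h1, h2, h3, h4⟩
        refine ⟨h1, h2, by omega, by omega⟩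
  · simp only [hP, false_and]

omit hS in
theorem shv_inj {v w : Q × ℤ × ℤ} (h : shv x y y' P R v = shv x y y' P R w) : v = w := by
  classical
  obtain ⟨u, i, j⟩ := v
  obtain ⟨u', i', j'⟩ := w
  unfold shv at h
  have h1 : u = u' := congrArg (fun w : Q × ℤ × ℤ => w.1) h
  have h3 : j = j' := congrArg (fun w : Q × ℤ × ℤ => w.2.2) h
  subst h1
  subst h3
  have h2 := congrArg (fun w : Q × ℤ × ℤ => w.2.1) h
  simp only at h2
  have : i = i' := by
    by_cases hR : R u
    · simp only [hR, true_or, if_true] at h2
      omega
    · simp only [hR, false_or] at h2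
      split_ifs at h2 with h4 h5 h5
      · omega
      · exfalso
        exact h5 ⟨h4.1, by omega, h4.2.2⟩
      · exfalso
        exact h4 ⟨h5.1, by omega, h5.2.2⟩
      · omega
  rw [this]

/-- the places which are not hit: the column `x` between the two ends -/
theorem exists_sh {v : Q × ℤ × ℤ} (h : Val (X.sh k' P R) k' y' v)
    (hm : ¬ (P v.1 ∧ v.2.1 = x ∧ y ≤ v.2.2 ∧ v.2.2 < y')) :
    ∃ w, Val X k y w ∧ shv x y y' P R w = v := by
  classical
  obtain ⟨u, i, j⟩ := v
  obtain ⟨h1, h2, h3, h4⟩ := h
  have e1 := hS.dj u
  have e2 := hS.low u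
  have e3 := hS.high u
  have e4 := hS.yk
  have e5 := hS.yk'
  have e6 := hS.yy
  have e7 := hS.col u
  have ek : u = k → P u := fun h => by rw [h]; exact hS.pk
  have ek' : u = k' → P u := fun h => by rw [h]; exact hS.pk'
  unfold Bxs.sh at h1 h2 h3 h4
  simp only at h1 h2 h3 h4 hm
  by_cases hR : R u
  · have hP : ¬ P u := fun h => e1 h hR
    have hk : u ≠ k := fun h => hP (ek h)
    have hk' : u ≠ k' := fun h => hP (ek' h)
    simp only [hR, true_or, if_true] at h1 h4
    have h4 := h4.resolve_right fun h => hk' h.1
    refine ⟨(u, i - 1, j), ⟨by simp only; omega, h2, h3, Or.inl (by simp only; omega)⟩, ?_⟩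
    unfold shv
    simp only [hR, true_or, if_true]
    ext <;> simp
  · by_cases hP : P u
    · have e2' := e2 hP
      have e3' := e3 hP
      have e7' := e7 hP
      simp only [hR, false_or, if_false, add_zero, hP, true_and] at h1 h4 hm
      by_cases hc : x ≤ i ∧ y ≤ j ∧ j < y'
      · -- shifted by one
        have hx : x < i := by
          rcases lt_or_eq_of_le hc.1 with h5 | h5
          · exact h5
          · exact absurd ⟨h5.symm, hc.2⟩ hm
        refine ⟨(u, i - 1, j), ⟨by simp only; omega, h2, h3, ?_⟩, ?_⟩
        · simp only
          left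
          by_cases hk' : u = k'
          · rw [if_neg (fun h => h hk')] at h4
            rcases h4 with h4 | ⟨-, h4, h5⟩
            · omega
            · omega
          · rw [if_pos hk'] at h4
            rcases h4 with h4 | h4
            · omega
            · exact absurd h4.1 hk'
        · unfold shv
          simp only [hR, false_or, hP, true_and]
          rw [if_pos ⟨by omega, hc.2⟩]
          ext <;> simp
      · refine ⟨(u, i, j), ⟨h1, h2, h3, ?_⟩, ?_⟩
        · simp only
          have hc' : i < x ∨ j < y ∨ y' ≤ j := by
            by_contra hcon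
            exact hc ⟨by omega, by omega, by omega⟩
          by_cases hk : u = k
          · subst hk
            by_cases hk' : u = k'
            · subst hk'
              rw [if_neg (fun h => h rfl)] at h4
              rcases h4 with h4 | ⟨-, h4, h5⟩
              · exact Or.inl (by omega)
              · rcases hc' with hc' | hc' | hc'
                · exact Or.inl (by omega)
                · exact Or.inr ⟨rfl, hc', by omega⟩
                · omega
            · have := e3' hk'
              rw [if_pos hk'] at h4
              have h4 := h4.resolve_right fun h => hk' h.1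
              rcases hc' with hc' | hc' | hc'
              · exact Or.inl (by omega)
              · by_cases h5 : i < X.r u
                · exact Or.inl h5
                · exact Or.inr ⟨rfl, hc', by omega⟩
              · omega
          · have := e2' hk
            left
            by_cases hk' : u = k'
            · subst hk'
              rw [if_neg (fun h => h rfl)] at h4
              rcases h4 with h4 | ⟨-, h4, h5⟩
              · omega
              · omega
            · have := e3' hk'
              rw [if_pos hk'] at h4
              have h4 := h4.resolve_right fun h => hk' h.1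
              omega
        · unfold shv
          simp only [hR, false_or, hP, true_and]
          rw [if_neg hc]
          ext <;> simp
    · have hk : u ≠ k := fun h => hP (ek h)
      have hk' : u ≠ k' := fun h => hP (ek' h)
      simp only [hR, hP, false_or, false_and, if_false, add_zero] at h1 h4
      refine ⟨(u, i, j), ⟨h1, h2, h3, Or.inl ?_⟩, ?_⟩
      · simp only
        rcases h4 with h4 | h4
        · exact h4
        · exact absurd h4.1 hk'
      · unfold shv
        simp only [hR, hP, false_or, false_and, if_false, add_zero]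

omit hS in
theorem adjE_sh (hρ : 1 ≤ ρ) {v w : Q × ℤ × ℤ} (hW : ¬ Win x y y' ρ P v ∨ ¬ Win x y y' ρ P w) :
    AdjE v w ↔ AdjE (shv x y y' P R v) (shv x y y' P R w) := by
  classical
  obtain ⟨u, i, j⟩ := v
  obtain ⟨u', i', j'⟩ := w
  unfold AdjE shv
  unfold Win at hW
  simp only at hW ⊢
  by_cases hu : u' = u
  · subst hu
    by_cases hR : R u'
    · simp only [hR, true_or, if_true, true_and]
      omega
    · by_cases hP : P u'
      · simp only [hR, hP, false_or, true_and] at hW ⊢
        split_ifs with h1 h2 h2 <;> omega
      · simp only [hR, hP, false_or, false_and, if_false, add_zero]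
  · simp only [hu, false_and]

theorem adjN_sh (hX : Good adj X) {v w : Q × ℤ × ℤ} (hv : Val X k y v) (hw : Val X k y w)
    (hW : ¬ Win x y y' ρ P v ∨ ¬ Win x y y' ρ P w) :
    AdjN adj X k x y v w ↔
      AdjN adj (X.sh k' P R) k' x' y' (shv x y y' P R v) (shv x y y' P R w) := by
  classical
  obtain ⟨u, i, j⟩ := v
  obtain ⟨u', i', j'⟩ := w
  obtain ⟨h1, h2, h3, h4⟩ := hv
  obtain ⟨h1', h2', h3', h4'⟩ := hw
  simp only at h1 h2 h3 h4 h1' h2' h3' h4'
  have e4 := hS.yk
  have e5 := hS.yk'
  have e6 := hS.yy
  have e8 := hS.rho
  unfold AdjN shv Bxs.sh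
  unfold Win at hW
  simp only at hW ⊢
  have ek : u = k → P u := fun h => by rw [h]; exact hS.pk
  have ek' : u = k' → P u := fun h => by rw [h]; exact hS.pk'
  by_cases hu : u' = u
  · subst hu
    have hirr : ¬ adj u' u' := fun h => by
      have := hX.touch h
      have := hX.bt u'
      omega
    simp only [hirr, false_and, or_false, true_and]
    have e1 := hS.dj u'
    have e2 := hS.low u'
    have e3 := hS.high u'
    have e7 := hS.col u'
    by_cases hR : R u'
    · have hP : ¬ P u' := fun h => e1 h hR
      have hk : u' ≠ k := fun h => hP (ek h)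
      have hk' : u' ≠ k' := fun h => hP (ek' h)
      simp only [hR, true_or, if_true, hk, hk', false_and, not_false_eq_true, true_and, or_false]
      omega
    · by_cases hP : P u'
      · have e2' := e2 hP
        have e3' := e3 hP
        have e7' := e7 hP
        simp only [hR, hP, false_or, true_and] at hW ⊢
        by_cases hk : u' = k
        · by_cases hk' : u' = k'
          · clear e2' e3'
            subst hk
            subst hk'
            simp only [true_and]
            split_ifs with g1 g2 g2 <;> omega
          · have := e3' hk'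
            simp only [hk', false_and, not_false_eq_true, true_and, or_false]
            subst hk
            simp only [true_and]
            split_ifs with g1 g2 g2 <;> omega
        · have := e2' hk
          simp only [hk, false_and, not_false_eq_true, true_and, or_false]
          by_cases hk' : u' = k'
          · subst hk'
            simp only [true_and]
            split_ifs with g1 g2 g2 <;> omega
          · have := e3' hk'
            simp only [hk', false_and, not_false_eq_true, true_and, or_false]
            split_ifs with g1 g2 g2 <;> omega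
      · have hk : u' ≠ k := fun h => hP (ek h)
        have hk' : u' ≠ k' := fun h => hP (ek' h)
        simp only [hR, hP, false_and, if_false, add_zero, hk, hk', not_false_eq_true, true_and,
          or_false]
  · simp only [hu, false_and, false_or]
    refine and_congr_right fun ha => and_congr_right fun g1 => and_congr_right fun g2 => ?_
    have ht := hX.touch ha
    by_cases hP : P u
    · have e1 := hS.dj u hP
      by_cases hP' : P u'
      · have e1' := hS.dj u' hP'
        have hk' : u ≠ k' := by
          rintro rfl
          by_cases h5 : u' = u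
          · exact hu h5
          · have := hS.high u' hP' h5
            have := hX.bt u'
            omega
        have hk : u' ≠ k := by
          rintro rfl
          by_cases h5 : u = u'
          · exact hu h5.symm
          · have := hS.low u hP h5
            have := hX.bt u
            omega
        have f1 := hS.high u hP hk'
        have f2 := hS.low u' hP' hk
        have f3 : y ≤ j := by
          by_cases h5 : u = k
          · rw [h5] at g1; omega
          · have := hS.low u hP h5; omega
        have f4 : j' < y' := by
          by_cases h5 : u' = k'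
          · rw [h5] at g2; omega
          · have := hS.high u' hP' h5; omega
        simp only [e1, e1', hP, hP', false_or, true_and]
        split_ifs with g3 g4 g4 <;> omega
      · have hk : u' ≠ k := fun h => hP' (by rw [h]; exact hS.pk)
        have h4' := h4'.resolve_right fun h => hk h.1
        rcases hS.up ha hP hP' with ⟨f1, f2⟩ | ⟨f1, f2, f3⟩ | ⟨f1, f2, f3⟩
        · simp only [e1, f2, hP, hP', false_or, false_and, if_false, add_zero, true_and]
          rw [if_neg]
          · omega
          · rintro ⟨-, -, f5⟩
            rw [f1] at g1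
            omega
        · have f4 := hS.high u hP f1
          have f5 : y ≤ j := by
            by_cases h5 : u = k
            · rw [h5] at g1; omega
            · have := hS.low u hP h5; omega
          simp only [e1, f2, hP, false_or, true_or, if_true, true_and]
          split_ifs with g3 <;> omega
        · simp only [e1, f2, hP, hP', false_or, false_and, if_false, add_zero, true_and]
          split_ifs with g3 <;> omega
    · have hk : u ≠ k := fun h => hP (ek h)
      have h4 := h4.resolve_right fun h => hk h.1
      by_cases hP' : P u'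
      · have e1' := hS.dj u' hP'
        rcases hS.dn ha hP hP' with ⟨f1, f2⟩ | ⟨f1, f2, f3⟩ | ⟨f1, f2, f3⟩
        · simp only [e1', f2, hP, hP', false_or, false_and, if_false, add_zero, true_and]
          rw [if_neg]
          · omega
          · rintro ⟨-, f5, -⟩
            rw [f1] at g2
            omega
        · have f4 := hS.low u' hP' f1
          have f5 : j' < y' := by
            by_cases h5 : u' = k'
            · rw [h5] at g2; omega
            · have := hS.high u' hP' h5; omega
          simp only [e1', f2, hP', false_or, true_or, if_true, true_and]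
          split_ifs with g3 <;> omega
        · simp only [e1', f2, hP, hP', false_or, false_and, if_false, add_zero, true_and]
          split_ifs with g3 <;> omega
      · have f1 := hS.rr ha hP hP'
        simp only [hP, hP', false_and, or_false, f1]
        split_ifs <;> omega

theorem adj_sh (hX : Good adj X) {v w : Q × ℤ × ℤ} (hv : Val X k y v) (hw : Val X k y w) (d : Dir)
    (hW : ¬ Win x y y' ρ P v ∨ ¬ Win x y y' ρ P w) :
    AdjD adj X k x y d v w ↔
      AdjD adj (X.sh k' P R) k' x' y' d (shv x y y' P R v) (shv x y y' P R w) := by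
  have hρ : 1 ≤ ρ := by
    have := hS.rho
    omega
  cases d
  · exact adjE_sh hρ hW
  · exact hS.adjN_sh hX hv hw hW
  · exact adjE_sh hρ hW.symm
  · exact hS.adjN_sh hX hw hv hW.symm

/-- the neighbours of the inserted column are in the window -/
theorem win_of_adj (hX : Good adj X) {v w : Q × ℤ × ℤ} (hw : Val (X.sh k' P R) k' y' w)
    (hv : P v.1 ∧ v.2.1 = x ∧ y ≤ v.2.2 ∧ v.2.2 < y') (d : Dir)
    (h : AdjD adj (X.sh k' P R) k' x' y' d v w) : Win' x y y' ρ P w := by
  classical
  obtain ⟨u, i, j⟩ := v
  obtain ⟨u', i', j'⟩ := w
  obtain ⟨h1', h2', h3', h4'⟩ := hw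
  have e4 := hS.yk
  have e5 := hS.yk'
  have e6 := hS.yy
  have e8 := hS.rho
  obtain ⟨hP, hi, hj, hj'⟩ := hv
  simp only [Bxs.sh] at h1' h2' h3' h4'
  simp only at hP hi hj hj'
  unfold Win'
  simp only
  cases d
  · obtain ⟨f1, f2, f3⟩ := h
    simp only at f1 f2 f3
    subst f1
    exact ⟨hP, by omega, by omega, by omega, by omega⟩
  · rcases h with ⟨f1, f2, f3⟩ | ⟨f1, f2, f3, f4⟩
    · simp only at f1 f2 f3
      subst f1
      refine ⟨hP, by omega, by omega, ?_, ?_⟩ <;> rcases f3 with ⟨-, f3⟩ | ⟨-, f3, f4 | f4⟩ <;> omega
    · simp only [Bxs.sh] at f1 f2 f3 f4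
      have ht := hX.touch f1
      by_cases hP' : P u'
      · exact ⟨hP', by omega, by omega, by omega, by omega⟩
      · exfalso
        have hk' : u' ≠ k' := fun h => hP' (by rw [h]; exact hS.pk')
        rcases hS.up f1 hP hP' with ⟨f5, f6⟩ | ⟨f5, f6, f7⟩ | ⟨f5, f6, f7⟩
        · rw [f5] at f2
          omega
        · rw [if_pos f6] at h1'
          omega
        · rw [if_neg (by rintro (f8 | f8); exacts [f6 f8, hP' f8.1])] at h4'
          have h4' := h4'.resolve_right fun h => hk' h.1
          omega
  · obtain ⟨f1, f2, f3⟩ := h
    simp only at f1 f2 f3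
    subst f1
    exact ⟨hP, by omega, by omega, by omega, by omega⟩
  · rcases h with ⟨f1, f2, f3⟩ | ⟨f1, f2, f3, f4⟩
    · simp only at f1 f2 f3
      subst f1
      refine ⟨hP, by omega, by omega, ?_, ?_⟩ <;> rcases f3 with ⟨-, f3⟩ | ⟨-, f3, f4 | f4⟩ <;> omega
    · simp only [Bxs.sh] at f1 f2 f3 f4
      have ht := hX.touch f1
      by_cases hP' : P u'
      · exact ⟨hP', by omega, by omega, by omega, by omega⟩
      · exfalso
        have hk' : u' ≠ k' := fun h => hP' (by rw [h]; exact hS.pk')
        rcases hS.dn f1 hP' hP with ⟨f5, f6⟩ | ⟨f5, f6, f7⟩ | ⟨f5, f6, f7⟩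
        · rw [f5] at f3
          omega
        · rw [if_pos f6] at h1'
          omega
        · rw [if_neg (by rintro (f8 | f8); exacts [f6 f8, hP' f8.1])] at h4'
          have h4' := h4'.resolve_right fun h => hk' h.1
          omega

end Stk

end Full.Geo
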