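import Pool.Agent.Full.Def.Geo

/-!
# Rooms and the two-sheet domain

`Q`: rooms with the coordinates `X`, `adj p q`: the room `p` is directly below the room `q`.  A tile of the
two-sheet domain with the end `z` in the room `k` is described by its room and its place; the neighbours
are described without reference to the sheets.
-/

set_option autoImplicit false

namespace Full.Geo
open Function

/-- the coordinates of the rooms: columns `l ≤ i < r`, rows `b ≤ j < t` -/
structure Bxs (Q : Type*) where
  l : Q → ℤ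
  r : Q → ℤ
  b : Q → ℤ
  t : Q → ℤ

variable {Q : Type*}

/-- the rooms are in good position -/
structure Good (adj : Q → Q → Prop) (X : Bxs Q) : Prop where
  lr : ∀ q, X.l q < X.r q
  bt : ∀ q, X.b q < X.t q
  touch : ∀ {p q}, adj p q → X.t p = X.b q
  nest : ∀ {p q}, adj p q → (X.l p + 3 ≤ X.l q ∧ X.r q + 3 ≤ X.r p) ∨
    (X.l q + 3 ≤ X.l p ∧ X.r p + 3 ≤ X.r q)
  far : ∀ {p q}, p ≠ q → ¬ adj p q → ¬ adj q p →
    X.t p < X.b q ∨ X.t q < X.b p ∨ X.r p + 3 ≤ X.l q ∨ X.r q + 3 ≤ X.l p

/-- `lo` is the part attached to the floor of the room `k` -/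
structure Cut (adj : Q → Q → Prop) (k : Q) (lo : Q → Prop) : Prop where
  self : ¬ lo k
  below : ∀ {u}, adj u k → lo u
  above : ∀ {u}, adj k u → ¬ lo u
  cong : ∀ {u v}, adj u v → u ≠ k → v ≠ k → (lo u ↔ lo v)

namespace Good
variable {adj : Q → Q → Prop} {X : Bxs Q}

/-- two rooms do not touch horizontally and do not overlap, even if one is enlarged by two columns -/
lemma disj (h : Good adj X) {p q : Q} {i i' j : ℤ} (hp : X.l p - 2 ≤ i) (hp' : i < X.r p + 2)
    (hpj : X.b p ≤ j) (hpj' : j < X.t p) (hq : X.l q ≤ i') (hq' : i' < X.r q) (hqj : X.b q ≤ j)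
    (hqj' : j < X.t q) (hi : i' = i) : p = q := by
  subst hi
  by_contra hne
  by_cases h1 : adj p q
  · have := h.touch h1; omega
  by_cases h2 : adj q p
  · have := h.touch h2; omega
  rcases h.far hne h1 h2 with h3 | h3 | h3 | h3 <;> omega

/-- rooms above each other are adjacent -/
lemma adj_of_touch (h : Good adj X) {p q : Q} {i i' j : ℤ} (hp : X.l p - 2 ≤ i) (hp' : i < X.r p + 2)
    (hpj : X.b p ≤ j) (hpj' : j < X.t p) (hq : X.l q - 2 ≤ i') (hq' : i' < X.r q + 2) (hqj : X.b q ≤ j + 1)
    (hqj' : j + 1 < X.t q) (hi : i' = i) (hw : (X.l p ≤ i ∧ i < X.r p) ∨ (X.l q ≤ i ∧ i < X.r q))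
    (hne : p ≠ q) : adj p q ∧ j + 1 = X.t p ∧ j + 1 = X.b q := by
  subst hi
  by_cases h1 : adj p q
  · have := h.touch h1
    exact ⟨h1, by omega, by omega⟩
  exfalso
  by_cases h2 : adj q p
  · have := h.touch h2; omega
  rcases h.far hne h1 h2 with h3 | h3 | h3 | h3 <;> omega

end Good

/-- valid places: the rows `j < y` of the room `k` have one column more -/
def Val (X : Bxs Q) (k : Q) (y : ℤ) (v : Q × ℤ × ℤ) : Prop :=
  X.l v.1 ≤ v.2.1 ∧ X.b v.1 ≤ v.2.2 ∧ v.2.2 < X.t v.1 ∧
    (v.2.1 < X.r v.1 ∨ (v.1 = k ∧ v.2.2 < y ∧ v.2.1 = X.r v.1))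

open Classical in
/-- the tile at the place `v` -/
noncomputable def tl (lo : Q → Prop) (k : Q) (y : ℤ) (v : Q × ℤ × ℤ) : ZT :=
  if lo v.1 ∨ (v.1 = k ∧ v.2.2 < y) then .inl v.2 else .inr v.2

/-- `v'` is the upper neighbour of `v` in the domain with the end `z = (x, y)` in the room `k` -/
def AdjN (adj : Q → Q → Prop) (X : Bxs Q) (k : Q) (x y : ℤ) (v v' : Q × ℤ × ℤ) : Prop :=
  (v'.1 = v.1 ∧ v'.2.2 = v.2.2 + 1 ∧
    ((¬ (v.1 = k ∧ v.2.2 + 1 = y) ∧ v'.2.1 = v.2.1) ∨
      (v.1 = k ∧ v.2.2 + 1 = y ∧ ((v.2.1 < x ∧ v'.2.1 = v.2.1) ∨ (x < v.2.1 ∧ v'.2.1 = v.2.1 - 1))))) ∨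
  (adj v.1 v'.1 ∧ v.2.2 + 1 = X.t v.1 ∧ v'.2.2 = X.b v'.1 ∧ v'.2.1 = v.2.1)

/-- `v'` is the right neighbour of `v` -/
def AdjE (v v' : Q × ℤ × ℤ) : Prop := v'.1 = v.1 ∧ v'.2.1 = v.2.1 + 1 ∧ v'.2.2 = v.2.2

section
variable {adj : Q → Q → Prop} {X : Bxs Q} {k : Q} {x y : ℤ} {lo : Q → Prop}

lemma tl_lo {u : Q} {i j : ℤ} (h : lo u ∨ (u = k ∧ j < y)) : tl lo k y (u, i, j) = .inl (i, j) := by
  unfold tl
  rw [if_pos h]

lemma tl_up {u : Q} {i j : ℤ} (h : ¬ (lo u ∨ (u = k ∧ j < y))) : tl lo k y (u, i, j) = .inr (i, j) := by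
  unfold tl
  rw [if_neg h]

/-- the room of a place -/
lemma room_eq (hX : Good adj X) {u u' : Q} {i j : ℤ} (h : Val X k y (u, i, j)) (h' : Val X k y (u', i, j)) :
    u = u' := by
  obtain ⟨h1, h2, h3, h4⟩ := h
  obtain ⟨h1', h2', h3', h4'⟩ := h'
  simp only at h1 h2 h3 h4 h1' h2' h3' h4'
  rcases h4' with h5 | h5
  · exact hX.disj (p := u) (q := u') (i := i) (i' := i) (j := j) (by omega) (by omega) h2 h3 h1' h5 h2' h3' rfl
  · rcases h4 with h6 | h6
    · exact (hX.disj (p := u') (q := u) (i := i) (i' := i) (j := j) (by omega) (by omega) h2' h3' h1 h6 h2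
        h3 rfl).symm
    · rw [h5.1, h6.1]

theorem tl_inj (hX : Good adj X) {v v' : Q × ℤ × ℤ} (h : Val X k y v) (h' : Val X k y v')
    (he : tl lo k y v = tl lo k y v') : v = v' := by
  obtain ⟨u, i, j⟩ := v
  obtain ⟨u', i', j'⟩ := v'
  have key : i = i' ∧ j = j' := by
    by_cases h1 : lo u ∨ (u = k ∧ j < y)
    · by_cases h2 : lo u' ∨ (u' = k ∧ j' < y)
      · rw [tl_lo h1, tl_lo h2] at he
        have := Sum.inl.inj he
        exact ⟨congrArg Prod.fst this, congrArg Prod.snd this⟩
      · rw [tl_lo h1, tl_up h2] at he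
        cases he
    · by_cases h2 : lo u' ∨ (u' = k ∧ j' < y)
      · rw [tl_up h1, tl_lo h2] at he
        cases he
      · rw [tl_up h1, tl_up h2] at he
        have := Sum.inr.inj he
        exact ⟨congrArg Prod.fst this, congrArg Prod.snd this⟩
  obtain ⟨rfl, rfl⟩ := key
  rw [room_eq hX h h']

/-- the right neighbour -/
theorem nbE_iff (hX : Good adj X) {v v' : Q × ℤ × ℤ} (h : Val X k y v) (h' : Val X k y v') :
    (zsurf (X.l k) (X.r k) x y y y).nb .E (tl lo k y v) = some (tl lo k y v') ↔ AdjE v v' := by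
  obtain ⟨u, i, j⟩ := v
  obtain ⟨u', i', j'⟩ := v'
  have hv := h
  have hv' := h'
  obtain ⟨h1, h2, h3, h4⟩ := h
  obtain ⟨h1', h2', h3', h4'⟩ := h'
  simp only at h1 h2 h3 h4 h1' h2' h3' h4'
  have hroom : i' = i + 1 → j' = j → u' = u := by
    rintro rfl rfl
    rcases h4' with h5 | h5
    · exact (hX.disj (p := u) (q := u') (i := i + 1) (i' := i + 1) (j := j') (by omega) (by omega) h2 h3
        h1' h5 h2' h3' rfl).symm
    · rcases h4 with h6 | h6
      · exact hX.disj (p := u') (q := u) (i := i) (i' := i) (j := j') (by omega) (by omega) h2' h3' h1 h6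
          h2 h3 rfl
      · rw [h5.1, h6.1]
  unfold AdjE
  simp only
  by_cases hc : lo u ∨ (u = k ∧ j < y)
  · rw [tl_lo hc, zs_E_low_open (by omega)]
    constructor
    · intro he
      have he := Option.some.inj he
      by_cases hc' : lo u' ∨ (u' = k ∧ j' < y)
      · rw [tl_lo hc'] at he
        have he := Sum.inl.inj he
        have e1 : i + 1 = i' := congrArg Prod.fst he
        have e2 : j = j' := congrArg Prod.snd he
        exact ⟨hroom e1.symm e2.symm, e1.symm, e2.symm⟩
      · rw [tl_up hc'] at he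
        cases he
    · rintro ⟨rfl, rfl, rfl⟩
      rw [tl_lo hc]
  · rw [tl_up hc, zs_E_up_open (by omega)]
    constructor
    · intro he
      have he := Option.some.inj he
      by_cases hc' : lo u' ∨ (u' = k ∧ j' < y)
      · rw [tl_lo hc'] at he
        cases he
      · rw [tl_up hc'] at he
        have he := Sum.inr.inj he
        have e1 : i + 1 = i' := congrArg Prod.fst he
        have e2 : j = j' := congrArg Prod.snd he
        exact ⟨hroom e1.symm e2.symm, e1.symm, e2.symm⟩
    · rintro ⟨rfl, rfl, rfl⟩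
      rw [tl_up hc]

/-- the upper neighbour -/
theorem nbN_iff (hX : Good adj X) (hC : Cut adj k lo) (hb : X.b k < y) (ht : y < X.t k) {v v' : Q × ℤ × ℤ}
    (h : Val X k y v) (h' : Val X k y v') :
    (zsurf (X.l k) (X.r k) x y y y).nb .N (tl lo k y v) = some (tl lo k y v') ↔
      AdjN adj X k x y v v' := by
  obtain ⟨u, i, j⟩ := v
  obtain ⟨u', i', j'⟩ := v'
  have hv := h
  have hv' := h'
  obtain ⟨h1, h2, h3, h4⟩ := h
  obtain ⟨h1', h2', h3', h4'⟩ := h'
  simp only at h1 h2 h3 h4 h1' h2' h3' h4'
  have hlrk := hX.lr k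
  unfold AdjN
  simp only
  by_cases hk : u = k ∧ j + 1 = y
  · -- below the line
    obtain ⟨rfl, hj⟩ := hk
    have hc : lo u ∨ (u = u ∧ j < y) := Or.inr ⟨rfl, by omega⟩
    have hi : i ≤ X.r u := by omega
    obtain rfl : j = y - 1 := by omega
    have hadj : ¬ (adj u u' ∧ y - 1 + 1 = X.t u ∧ j' = X.b u' ∧ i' = i) := by
      rintro ⟨-, h5, -⟩
      omega
    -- the upper tile
    have hup : ∀ a : ℤ, X.l u ≤ a → a < X.r u →
        (some (Sum.inr (a, y) : ZT) = some (tl lo u y (u', i', j')) ↔ u' = u ∧ j' = y ∧ i' = a) := by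
      intro a ha ha'
      have hva : Val X u y (u, a, y) := ⟨ha, by simp only; omega, ht, Or.inl ha'⟩
      have hta : tl lo u y (u, a, y) = .inr (a, y) :=
        tl_up (by rintro (h5 | h5); exacts [hC.self h5, by omega])
      rw [← hta]
      constructor
      · intro he
        have := tl_inj hX hva hv' (Option.some.inj he)
        have e1 : u = u' := congrArg Prod.fst this
        have e2 : a = i' := congrArg (fun w : Q × ℤ × ℤ => w.2.1) this
        have e3 : y = j' := congrArg (fun w : Q × ℤ × ℤ => w.2.2) this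
        exact ⟨e1.symm, e3.symm, e2.symm⟩
      · rintro ⟨rfl, rfl, rfl⟩
        rfl
    rw [tl_lo hc]
    rcases lt_trichotomy i x with hx | hx | hx
    · by_cases hir : i < X.r u
      · rw [zs_N_left h1 hx hir, hup i h1 hir]
        constructor
        · rintro ⟨rfl, rfl, rfl⟩
          exact Or.inl ⟨rfl, by omega, Or.inr ⟨rfl, by omega, Or.inl ⟨hx, rfl⟩⟩⟩
        · rintro (⟨h5, h6, ⟨h7, -⟩ | ⟨-, -, h7 | h7⟩⟩ | h5)
          · exact absurd ⟨rfl, by omega⟩ h7
          · exact ⟨h5, by omega, h7.2⟩
          · omega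
          · exact absurd h5 hadj
      · -- the last lower tile, `x > r`: no neighbour
        have hnone : (zsurf (X.l u) (X.r u) x y y y).nb .N (.inl (i, y - 1)) = none := by
          show (if y - 1 = y - 1 ∧ X.l u ≤ i ∧ i ≤ X.r u then (if i < x ∧ i < X.r u then some (Sum.inr (i, y))
            else if x < i ∧ X.l u < i then some (Sum.inr (i - 1, y)) else none)
            else some (Sum.inl (i, y - 1 + 1))) = _
          rw [if_pos ⟨rfl, h1, hi⟩, if_neg (by omega), if_neg (by omega)]
        rw [hnone]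
        constructor
        · intro he
          cases he
        · rintro (⟨h5, h6, ⟨h7, -⟩ | ⟨-, -, h7 | h7⟩⟩ | h5)
          · exact absurd ⟨rfl, by omega⟩ h7
          · exfalso
            subst h5
            omega
          · omega
          · exact absurd h5 hadj
    · have hnone : (zsurf (X.l u) (X.r u) x y y y).nb .N (.inl (i, y - 1)) = none := by
        rw [hx]
        exact zs_N_z (by omega) (by omega)
      rw [hnone]
      constructor
      · intro he
        cases he
      · rintro (⟨h5, h6, ⟨h7, -⟩ | ⟨-, -, h7 | h7⟩⟩ | h5)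
        · exact absurd ⟨rfl, by omega⟩ h7
        · omega
        · omega
        · exact absurd h5 hadj
    · by_cases hil : X.l u < i
      · rw [zs_N_right hil hx hi, hup (i - 1) (by omega) (by omega)]
        constructor
        · rintro ⟨rfl, rfl, rfl⟩
          exact Or.inl ⟨rfl, by omega, Or.inr ⟨rfl, by omega, Or.inr ⟨hx, rfl⟩⟩⟩
        · rintro (⟨h5, h6, ⟨h7, -⟩ | ⟨-, -, h7 | h7⟩⟩ | h5)
          · exact absurd ⟨rfl, by omega⟩ h7
          · omega
          · exact ⟨h5, by omega, h7.2⟩
          · exact absurd h5 hadj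
      · have hnone : (zsurf (X.l u) (X.r u) x y y y).nb .N (.inl (i, y - 1)) = none := by
          show (if y - 1 = y - 1 ∧ X.l u ≤ i ∧ i ≤ X.r u then (if i < x ∧ i < X.r u then some (Sum.inr (i, y))
            else if x < i ∧ X.l u < i then some (Sum.inr (i - 1, y)) else none)
            else some (Sum.inl (i, y - 1 + 1))) = _
          rw [if_pos ⟨rfl, h1, hi⟩, if_neg (by omega), if_neg (by omega)]
        rw [hnone]
        constructor
        · intro he
          cases he
        · rintro (⟨h5, h6, ⟨h7, -⟩ | ⟨-, -, h7 | h7⟩⟩ | h5)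
          · exact absurd ⟨rfl, by omega⟩ h7
          · omega
          · exfalso
            subst h5
            omega
          · exact absurd h5 hadj
  · -- away from the line
    have hval' : i' = i → j' = j + 1 → u' ≠ u → adj u u' ∧ j + 1 = X.t u ∧ j + 1 = X.b u' := by
      rintro rfl rfl hne
      refine hX.adj_of_touch (p := u) (q := u') (i := i') (i' := i') (j := j) (by omega) (by omega) h2 h3
        (by omega) (by omega) h2' h3' rfl ?_ (Ne.symm hne)
      by_contra hcon
      have h5 : u = k := by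
        rcases h4 with h6 | h6
        · exact absurd (Or.inl ⟨h1, h6⟩) hcon
        · exact h6.1
      have h6 : u' = k := by
        rcases h4' with h6 | h6
        · exact absurd (Or.inr ⟨h1', h6⟩) hcon
        · exact h6.1
      exact hne (by rw [h5, h6])
    by_cases hc : lo u ∨ (u = k ∧ j < y)
    · have hnl : ¬ (j = y - 1 ∧ X.l k ≤ i ∧ i ≤ X.r k) := by
        rintro ⟨h5, h6, h7⟩
        rcases hc with hc | hc
        · have hne : k ≠ u := by
            rintro rfl
            exact hC.self hc
          rcases h4 with h8 | h8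
          · exact hne (hX.disj (p := k) (q := u) (i := i) (i' := i) (j := j) (by omega) (by omega) (by omega)
              (by omega) h1 h8 h2 h3 rfl)
          · exact hne h8.1.symm
        · exact hk ⟨hc.1, by omega⟩
      rw [tl_lo hc, zs_N_low hnl]
      constructor
      · intro he
        have he := Option.some.inj he
        by_cases hc' : lo u' ∨ (u' = k ∧ j' < y)
        · rw [tl_lo hc'] at he
          have he := Sum.inl.inj he
          have e1 : i = i' := congrArg Prod.fst he
          have e2 : j + 1 = j' := congrArg Prod.snd he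
          by_cases hne : u' = u
          · exact Or.inl ⟨hne, e2.symm, Or.inl ⟨hk, e1.symm⟩⟩
          · have h5 := hval' e1.symm e2.symm hne
            exact Or.inr ⟨h5.1, h5.2.1, by omega, e1.symm⟩
        · rw [tl_up hc'] at he
          cases he
      · rintro (⟨rfl, rfl, ⟨-, rfl⟩ | ⟨h5, h6, -⟩⟩ | ⟨h5, h6, h7, rfl⟩)
        · rw [tl_lo]
          rcases hc with hc | hc
          · exact Or.inl hc
          · refine Or.inr ⟨hc.1, ?_⟩
            by_contra hcon
            exact hk ⟨hc.1, by omega⟩
        · exact absurd ⟨h5, h6⟩ hk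
        · have h8 := hX.touch h5
          have h9 : lo u' ∨ (u' = k ∧ j' < y) := by
            by_cases hu : u = k
            · exfalso
              rcases hc with hc | hc
              · exact hC.self (by rwa [hu] at hc)
              · rw [hu] at h6
                omega
            · by_cases hu' : u' = k
              · exact Or.inr ⟨hu', by rw [hu'] at h7; omega⟩
              · refine Or.inl ((hC.cong h5 hu hu').1 ?_)
                rcases hc with hc | hc
                · exact hc
                · exact absurd hc.1 hu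
          rw [tl_lo h9, show j' = j + 1 by omega]
    · have hnl : ¬ (j = y - 1 ∧ X.l k ≤ i ∧ i < X.r k) := by
        rintro ⟨h5, h6, h7⟩
        have hne : k ≠ u := by
          rintro rfl
          exact hc (Or.inr ⟨rfl, by omega⟩)
        rcases h4 with h8 | h8
        · exact hne (hX.disj (p := k) (q := u) (i := i) (i' := i) (j := j) (by omega) (by omega) (by omega)
            (by omega) h1 h8 h2 h3 rfl)
        · exact hne h8.1.symm
      rw [tl_up hc, zs_N_up hnl]
      constructor
      · intro he
        have he := Option.some.inj he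
        by_cases hc' : lo u' ∨ (u' = k ∧ j' < y)
        · rw [tl_lo hc'] at he
          cases he
        · rw [tl_up hc'] at he
          have he := Sum.inr.inj he
          have e1 : i = i' := congrArg Prod.fst he
          have e2 : j + 1 = j' := congrArg Prod.snd he
          by_cases hne : u' = u
          · exact Or.inl ⟨hne, e2.symm, Or.inl ⟨hk, e1.symm⟩⟩
          · have h5 := hval' e1.symm e2.symm hne
            exact Or.inr ⟨h5.1, h5.2.1, by omega, e1.symm⟩
      · rintro (⟨rfl, rfl, ⟨-, rfl⟩ | ⟨h5, h6, -⟩⟩ | ⟨h5, h6, h7, rfl⟩)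
        · rw [tl_up]
          rintro (h5 | h5)
          · exact hc (Or.inl h5)
          · exact hc (Or.inr ⟨h5.1, by omega⟩)
        · exact absurd ⟨h5, h6⟩ hk
        · have h8 := hX.touch h5
          have h9 : ¬ (lo u' ∨ (u' = k ∧ j' < y)) := by
            by_cases hu : u = k
            · rintro (h9 | h9)
              · exact hC.above (by rwa [hu] at h5) h9
              · rw [hu, h9.1] at h8
                have := hX.bt k
                omega
            · by_cases hu' : u' = k
              · exfalso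
                exact hc (Or.inl (hC.below (by rwa [hu'] at h5)))
              · rintro (h9 | h9)
                · exact hc (Or.inl ((hC.cong h5 hu hu').2 h9))
                · exact hu' h9.1
          rw [tl_up h9, show j' = j + 1 by omega]

end

end Full.Geo
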